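import Pool.Agent.Y749.Rig.Ana

/-! # Smooth test functions are admissible; supports of Fourier transforms of products -/

set_option autoImplicit false

open MeasureTheory Set Filter Topology
open Complex (I)
open scoped FourierTransform

namespace Pool.Agent.X83.PC

open Pool.Agent.Y749.Rig

/-- the exponential of the Fourier-Laplace transform -/
noncomputable def ez (z : ℂ) (α : ℝ) : ℂ := Complex.exp (2 * Real.pi * I * α * z)

lemma ez_deriv (z : ℂ) (α : ℝ) : HasDerivAt (ez z) (2 * Real.pi * I * z * ez z α) α := by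
  have h1 : HasDerivAt (fun α : ℝ => (2 * Real.pi * I * (α : ℂ) * z : ℂ)) (2 * Real.pi * I * z) α := by
    have h2 := (Complex.ofRealCLM.hasDerivAt (x := α)).const_mul (2 * Real.pi * I * z)
    simp only [Complex.ofRealCLM_apply, Complex.ofReal_one, mul_one] at h2
    refine h2.congr_of_eventuallyEq (Eventually.of_forall fun β => ?_)
    show 2 * Real.pi * I * (β : ℂ) * z = 2 * Real.pi * I * z * (β : ℂ)
    ring
  have h3 := h1.cexp
  refine h3.congr_deriv ?_
  unfold ez
  ring

lemma ez_norm (z : ℂ) (α : ℝ) : ‖ez z α‖ = Real.exp (-(2 * Real.pi * α * z.im)) := by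
  unfold ez
  rw [Complex.norm_exp]
  congr 1
  have : 2 * Real.pi * I * α * z = ((2 * Real.pi * α : ℝ) : ℂ) * (I * z) := by push_cast; ring
  rw [this, Complex.re_ofReal_mul, Complex.I_mul_re]
  ring

lemma supp_hcs {κ : ℝ} {ψ : ℝ → ℝ} (hs : ∀ x, κ ≤ |x| → ψ x = 0) : HasCompactSupport ψ := by
  refine HasCompactSupport.of_support_subset_isCompact (isCompact_Icc (a := -κ) (b := κ)) ?_
  intro x hx
  by_contra hcon
  apply hx
  apply hs
  by_contra h2
  push Not at h2
  exact hcon ⟨(abs_lt.1 h2).1.le, (abs_lt.1 h2).2.le⟩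

lemma ez_int {ψ : ℝ → ℝ} (hc : Continuous ψ) (hs : HasCompactSupport ψ) (z : ℂ) :
    Integrable fun α : ℝ => (ψ α : ℂ) * ez z α := by
  refine Continuous.integrable_of_hasCompactSupport ?_ ?_
  · unfold ez; fun_prop
  · refine hs.mono' ?_
    intro x hx
    refine subset_closure ?_
    intro hcon
    apply hx
    show (ψ x : ℂ) * ez z x = 0
    have : ψ x = 0 := hcon
    rw [this]; simp

/-- integration by parts -/
lemma ez_parts {ψ ψ' : ℝ → ℝ} (hd : ∀ x, HasDerivAt ψ (ψ' x) x) (hc' : Continuous ψ')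
    (hs : HasCompactSupport ψ) (hs' : HasCompactSupport ψ') (z : ℂ) :
    (2 * Real.pi * I * z) * ∫ α : ℝ, (ψ α : ℂ) * ez z α = -∫ α : ℝ, (ψ' α : ℂ) * ez z α := by
  have hc : Continuous ψ := continuous_iff_continuousAt.2 fun x => (hd x).continuousAt
  have h1 := integral_mul_deriv_eq_deriv_mul_of_integrable (A := ℂ)
    (u := fun α : ℝ => (ψ α : ℂ)) (v := ez z) (u' := fun α : ℝ => (ψ' α : ℂ))
    (v' := fun α => 2 * Real.pi * I * z * ez z α)
    (fun x _ => (hd x).ofReal_comp) (fun x _ => ez_deriv z x) ?_ (ez_int hc' hs' z)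
    (ez_int hc hs z)
  · rw [← h1, ← integral_const_mul]
    refine integral_congr_ae (ae_of_all _ fun α => ?_)
    show (2 * Real.pi * I * z) * ((ψ α : ℂ) * ez z α) = (ψ α : ℂ) * (2 * Real.pi * I * z * ez z α)
    ring
  · refine ((ez_int hc hs z).const_mul (2 * Real.pi * I * z)).congr (ae_of_all _ fun α => ?_)
    show (2 * Real.pi * I * z) * ((ψ α : ℂ) * ez z α) = (ψ α : ℂ) * (2 * Real.pi * I * z * ez z α)
    ring

lemma ez_bound {κ : ℝ} {ψ : ℝ → ℝ} (hκ : 0 < κ) (hc : Continuous ψ)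
    (hs : ∀ x, κ ≤ |x| → ψ x = 0) (z : ℂ) :
    ‖∫ α : ℝ, (ψ α : ℂ) * ez z α‖ ≤ (∫ α, |ψ α|) * Real.exp (2 * Real.pi * κ * |z.im|) := by
  have hpi := Real.pi_pos
  have hcs := supp_hcs hs
  rw [← integral_mul_const]
  refine norm_integral_le_of_norm_le
    (((hc.integrable_of_hasCompactSupport hcs).abs).mul_const _) (ae_of_all _ fun α => ?_)
  rw [norm_mul, Complex.norm_real, Real.norm_eq_abs, ez_norm]
  rcases le_or_gt κ |α| with h | h
  · rw [hs α h]; simp
  · apply mul_le_mul_of_nonneg_left _ (abs_nonneg _)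
    apply Real.exp_le_exp.2
    have h1 : -(2 * Real.pi * α * z.im) ≤ |2 * Real.pi * α * z.im| := neg_le_abs _
    rw [abs_mul, abs_mul, abs_of_pos (show 0 < 2 * Real.pi by positivity)] at h1
    refine h1.trans ?_
    gcongr

/-- smooth even functions of compact support are admissible -/
lemma adm_C2 {κ : ℝ} (hκ : 0 < κ) {ψ : ℝ → ℝ} (he : ∀ x, ψ (-x) = ψ x)
    (hs : ∀ x, κ ≤ |x| → ψ x = 0) (hd : ContDiff ℝ 2 ψ) : Adm κ ψ := by
  have hpi := Real.pi_pos
  have hcs := supp_hcs hs
  have h1 : ContDiff ℝ 1 (deriv ψ) := by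
    have := (contDiff_succ_iff_deriv (n := 1) (f := ψ)).1 (by exact_mod_cast hd)
    exact this.2.2
  have h2 : ContDiff ℝ 0 (deriv (deriv ψ)) := by
    have := (contDiff_succ_iff_deriv (n := 0) (f := deriv ψ)).1 (by exact_mod_cast h1)
    exact this.2.2
  have hc1 : Continuous (deriv ψ) := h1.continuous
  have hc2 : Continuous (deriv (deriv ψ)) := h2.continuous
  have hd1 : ∀ x, HasDerivAt ψ (deriv ψ x) x := fun x =>
    (hd.differentiable (by norm_num) x).hasDerivAt
  have hd2 : ∀ x, HasDerivAt (deriv ψ) (deriv (deriv ψ) x) x := fun x =>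
    (h1.differentiable (by norm_num) x).hasDerivAt
  have hcs1 : HasCompactSupport (deriv ψ) := hcs.deriv
  have hcs2 : HasCompactSupport (deriv (deriv ψ)) := hcs1.deriv
  -- the support of the derivatives
  have hts : tsupport ψ ⊆ Icc (-κ) κ := by
    refine closure_minimal ?_ isClosed_Icc
    intro x hx
    by_contra hcon
    apply hx
    apply hs
    by_contra g
    push Not at g
    exact hcon ⟨(abs_lt.1 g).1.le, (abs_lt.1 g).2.le⟩
  have hs2 : ∀ x, κ + 1 ≤ |x| → deriv (deriv ψ) x = 0 := by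
    intro x hx
    have g1 : tsupport (deriv (deriv ψ)) ⊆ tsupport ψ :=
      (tsupport_deriv_subset (𝕜 := ℝ)).trans (tsupport_deriv_subset (𝕜 := ℝ))
    by_contra hcon
    have g2 := hts (g1 (subset_closure (show x ∈ Function.support (deriv (deriv ψ)) from hcon)))
    have g3 : |x| ≤ κ := abs_le.2 ⟨g2.1, g2.2⟩
    linarith
  have hb2 : ∀ z : ℂ, ‖∫ α : ℝ, ((deriv (deriv ψ) α : ℝ) : ℂ) * ez z α‖ ≤
      (∫ α, |deriv (deriv ψ) α|) * Real.exp (2 * Real.pi * κ * |z.im|) := by
    intro z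
    rw [← integral_mul_const]
    refine norm_integral_le_of_norm_le
      (((hc2.integrable_of_hasCompactSupport hcs2).abs).mul_const _) (ae_of_all _ fun α => ?_)
    rw [norm_mul, Complex.norm_real, Real.norm_eq_abs, ez_norm]
    by_cases h0 : deriv (deriv ψ) α = 0
    · rw [h0]; simp
    · have g1 : tsupport (deriv (deriv ψ)) ⊆ tsupport ψ :=
        (tsupport_deriv_subset (𝕜 := ℝ)).trans (tsupport_deriv_subset (𝕜 := ℝ))
      have g2 := hts (g1 (subset_closure (show α ∈ Function.support (deriv (deriv ψ)) from h0)))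
      have g3 : |α| ≤ κ := abs_le.2 ⟨g2.1, g2.2⟩
      apply mul_le_mul_of_nonneg_left _ (abs_nonneg _)
      apply Real.exp_le_exp.2
      have h1 : -(2 * Real.pi * α * z.im) ≤ |2 * Real.pi * α * z.im| := neg_le_abs _
      rw [abs_mul, abs_mul, abs_of_pos (show 0 < 2 * Real.pi by positivity)] at h1
      refine h1.trans ?_
      gcongr
  refine ⟨he, ?_, hs, ?_⟩
  · obtain ⟨K, hK⟩ := ContDiff.lipschitzWith_of_hasCompactSupport hcs hd (by norm_num)
    refine ⟨K, fun x y => ?_⟩
    have := hK.dist_le_mul x y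
    rwa [Real.dist_eq, Real.dist_eq] at this
  · obtain ⟨M0, hM0⟩ : ∃ M : ℝ, M = ∫ α, |ψ α| := ⟨_, rfl⟩
    obtain ⟨M2, hM2⟩ : ∃ M : ℝ, M = ∫ α, |deriv (deriv ψ) α| := ⟨_, rfl⟩
    have hM00 : 0 ≤ M0 := by rw [hM0]; exact integral_nonneg fun α => abs_nonneg _
    have hM20 : 0 ≤ M2 := by rw [hM2]; exact integral_nonneg fun α => abs_nonneg _
    refine ⟨M0 + M2, fun x y => ?_⟩
    obtain ⟨z, hz⟩ : ∃ z : ℂ, z = x + y * I := ⟨_, rfl⟩
    have him : z.im = y := by rw [hz]; simp
    have hre : z.re = x := by rw [hz]; simp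
    rw [← hz]
    have e0 : FL ψ z = ∫ α : ℝ, (ψ α : ℂ) * ez z α := rfl
    have a0 := ez_bound hκ hd.continuous hs z
    have a2 := hb2 z
    rw [him, ← hM0, ← e0] at a0
    rw [him, ← hM2] at a2
    have p1 := ez_parts hd1 hc1 hcs hcs1 z
    have p2 := ez_parts hd2 hc2 hcs1 hcs2 z
    have p3 : (2 * Real.pi * I * z) ^ 2 * FL ψ z = ∫ α : ℝ, ((deriv (deriv ψ) α : ℝ) : ℂ) * ez z α := by
      rw [pow_two, mul_assoc, e0, p1, mul_neg, p2, neg_neg]
    have p4 : (2 * Real.pi) ^ 2 * ‖z‖ ^ 2 * ‖FL ψ z‖ ≤ M2 * Real.exp (2 * Real.pi * κ * |y|) := by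
      rw [← p3] at a2
      rw [norm_mul, norm_pow] at a2
      have : ‖2 * (Real.pi : ℂ) * I * z‖ = 2 * Real.pi * ‖z‖ := by
        rw [norm_mul, norm_mul, norm_mul, Complex.norm_I, Complex.norm_real, Real.norm_eq_abs,
          abs_of_pos hpi]
        simp
      rw [this, mul_pow] at a2
      exact a2
    have p5 : x ^ 2 ≤ ‖z‖ ^ 2 := by
      rw [← sq_abs x, ← hre]
      exact pow_le_pow_left₀ (abs_nonneg _) (Complex.abs_re_le_norm z) 2
    rw [le_div_iff₀ (by positivity)]
    have p6 : x ^ 2 * ‖FL ψ z‖ ≤ M2 * Real.exp (2 * Real.pi * κ * |y|) := by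
      refine le_trans ?_ p4
      apply mul_le_mul_of_nonneg_right _ (norm_nonneg _)
      have : (1 : ℝ) ≤ (2 * Real.pi) ^ 2 := by nlinarith [Real.pi_gt_three]
      nlinarith [sq_nonneg ‖z‖]
    nlinarith

/-! ### Fourier transforms of products -/

lemma fl_mul {f τ : ℝ → ℝ} (hf : Integrable f) (hτ : Integrable τ) (α : ℝ) :
    fl (fun x => f x * fl τ x) α = ∫ β, τ β * ((fl f (α - β) + fl f (α + β)) / 2) := by
  have hfm := hf.aestronglyMeasurable
  have hint : Integrable (Function.uncurry fun x β : ℝ =>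
      f x * τ β * (Real.cos (2 * Real.pi * β * x) * Real.cos (2 * Real.pi * x * α)))
      (volume.prod volume) := by
    have h1 : Integrable (fun p : ℝ × ℝ => f p.1 * τ p.2) (volume.prod volume) := hf.mul_prod hτ
    refine h1.mul_bdd (c := 1) (by fun_prop) (ae_of_all _ fun p => ?_)
    rw [Real.norm_eq_abs, abs_mul]
    exact mul_le_one₀ (Real.abs_cos_le_one _) (abs_nonneg _) (Real.abs_cos_le_one _)
  have h3 := integral_integral_swap hint
  have e1 : fl (fun x => f x * fl τ x) α = ∫ x, ∫ β,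
      f x * τ β * (Real.cos (2 * Real.pi * β * x) * Real.cos (2 * Real.pi * x * α)) := by
    unfold fl
    refine integral_congr_ae (ae_of_all _ fun x => ?_)
    show f x * (∫ β, τ β * Real.cos (2 * Real.pi * β * x)) * Real.cos (2 * Real.pi * x * α) = _
    rw [← integral_const_mul, ← integral_mul_const]
    refine integral_congr_ae (ae_of_all _ fun β => ?_)
    show f x * (τ β * Real.cos (2 * Real.pi * β * x)) * Real.cos (2 * Real.pi * x * α) =
      f x * τ β * (Real.cos (2 * Real.pi * β * x) * Real.cos (2 * Real.pi * x * α))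
    ring
  rw [e1, h3]
  refine integral_congr_ae (ae_of_all _ fun β => ?_)
  show ∫ x, f x * τ β * (Real.cos (2 * Real.pi * β * x) * Real.cos (2 * Real.pi * x * α)) =
    τ β * ((fl f (α - β) + fl f (α + β)) / 2)
  have hc : ∀ γ : ℝ, Integrable fun x => f x * Real.cos (2 * Real.pi * x * γ) := by
    intro γ
    refine hf.mul_bdd (c := 1) (by fun_prop) (ae_of_all _ fun x => ?_)
    rw [Real.norm_eq_abs]; exact Real.abs_cos_le_one _
  have e2 : fl f (α - β) + fl f (α + β) = ∫ x, (f x * Real.cos (2 * Real.pi * x * (α - β)) +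
      f x * Real.cos (2 * Real.pi * x * (α + β))) := by
    rw [integral_add (hc _) (hc _)]; rfl
  rw [e2, ← integral_div, ← integral_const_mul]
  refine integral_congr_ae (ae_of_all _ fun x => ?_)
  show f x * τ β * (Real.cos (2 * Real.pi * β * x) * Real.cos (2 * Real.pi * x * α)) =
    τ β * ((f x * Real.cos (2 * Real.pi * x * (α - β)) +
      f x * Real.cos (2 * Real.pi * x * (α + β))) / 2)
  rw [show 2 * Real.pi * x * (α - β) = 2 * Real.pi * x * α - 2 * Real.pi * β * x by ring,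
    show 2 * Real.pi * x * (α + β) = 2 * Real.pi * x * α + 2 * Real.pi * β * x by ring,
    Real.cos_sub, Real.cos_add]
  ring

lemma fl_mul_supp {f τ : ℝ → ℝ} (hf : Integrable f) (hτ : Integrable τ) {a h : ℝ}
    (h1 : ∀ α, a < |α| → fl f α = 0) (h2 : ∀ β, h ≤ |β| → τ β = 0) (α : ℝ) (hα : a + h < |α|) :
    fl (fun x => f x * fl τ x) α = 0 := by
  rw [fl_mul hf hτ]
  have : ∀ β, τ β * ((fl f (α - β) + fl f (α + β)) / 2) = 0 := by
    intro β
    rcases le_or_gt h |β| with g | g
    · rw [h2 β g, zero_mul]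
    · have g1 : |α| ≤ |α - β| + |β| := by
        have := abs_add_le (α - β) β
        rwa [sub_add_cancel] at this
      have g2 : |α| ≤ |α + β| + |β| := by
        have := abs_add_le (α + β) (-β)
        rwa [add_neg_cancel_right, abs_neg] at this
      rw [h1 _ (by linarith), h1 _ (by linarith)]
      ring
  simp_rw [this]
  simp

lemma fl_cos_mul {f : ℝ → ℝ} (hf : Integrable f) (ω α : ℝ) :
    fl (fun x => f x * Real.cos (2 * Real.pi * ω * x)) α = (fl f (α - ω) + fl f (α + ω)) / 2 := by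
  have hc : ∀ γ : ℝ, Integrable fun x => f x * Real.cos (2 * Real.pi * x * γ) := by
    intro γ
    refine hf.mul_bdd (c := 1) (by fun_prop) (ae_of_all _ fun x => ?_)
    rw [Real.norm_eq_abs]; exact Real.abs_cos_le_one _
  have e2 : fl f (α - ω) + fl f (α + ω) = ∫ x, (f x * Real.cos (2 * Real.pi * x * (α - ω)) +
      f x * Real.cos (2 * Real.pi * x * (α + ω))) := by
    rw [integral_add (hc _) (hc _)]; rfl
  rw [e2, ← integral_div]
  refine integral_congr_ae (ae_of_all _ fun x => ?_)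
  show f x * Real.cos (2 * Real.pi * ω * x) * Real.cos (2 * Real.pi * x * α) =
    (f x * Real.cos (2 * Real.pi * x * (α - ω)) +
      f x * Real.cos (2 * Real.pi * x * (α + ω))) / 2
  rw [show 2 * Real.pi * x * (α - ω) = 2 * Real.pi * x * α - 2 * Real.pi * ω * x by ring,
    show 2 * Real.pi * x * (α + ω) = 2 * Real.pi * x * α + 2 * Real.pi * ω * x by ring,
    Real.cos_sub, Real.cos_add]
  ring

end Pool.Agent.X83.PC
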