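import Pool.Agent.X83.PC.Cum1
import Pool.Agent.Y749.Rig.Fam

/-! # Test functions for the cumulative distribution -/

set_option autoImplicit false

open MeasureTheory Set Filter Topology
open Complex (I)
open scoped FourierTransform

namespace Pool.Agent.X83.PC

open Pool.Agent.Y749.Rig

/-- even continuous functions of decay `(1 + x ^ 2)⁻³` whose transform is supported in `[-κ, κ]` -/
structure TF (κ : ℝ) (k : ℝ → ℝ) : Prop where
  cont : Continuous k
  even : ∀ x, k (-x) = k x
  dec : ∃ B : ℝ, 0 ≤ B ∧ ∀ x, |k x| ≤ B / (1 + x ^ 2) ^ 3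
  supp : ∀ α, κ < |α| → fl k α = 0

variable {κ : ℝ} {k : ℝ → ℝ}

/-- the tail integral -/
noncomputable def PP (k : ℝ → ℝ) (y : ℝ) : ℝ := ∫ x in Ioi y, x * k x

lemma TF.bound1 (h : TF κ k) : ∃ B : ℝ, 0 ≤ B ∧ ∀ x, |x * k x| ≤ B / (1 + x ^ 2) ^ 2 := by
  obtain ⟨B, hB, hb⟩ := h.dec
  refine ⟨B, hB, fun x => ?_⟩
  rw [abs_mul]
  have h1 := hb x
  rw [le_div_iff₀ (by positivity)] at h1 ⊢
  have h2 : |x| ≤ 1 + x ^ 2 := by
    rw [← sq_abs]; nlinarith [sq_nonneg (|x| - 1)]
  have h3 : 0 ≤ |k x| * (1 + x ^ 2) ^ 2 := by positivity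
  calc |x| * |k x| * (1 + x ^ 2) ^ 2 = |x| * (|k x| * (1 + x ^ 2) ^ 2) := by ring
    _ ≤ (1 + x ^ 2) * (|k x| * (1 + x ^ 2) ^ 2) := mul_le_mul_of_nonneg_right h2 h3
    _ = |k x| * (1 + x ^ 2) ^ 3 := by ring
    _ ≤ B := h1

lemma sq_le_inv (x : ℝ) : 1 / (1 + x ^ 2) ^ 2 ≤ 1 / (1 + x ^ 2) := by
  apply one_div_le_one_div_of_le (by positivity)
  nlinarith [sq_nonneg x]

lemma int_inv2 : Integrable fun x : ℝ => 1 / (1 + x ^ 2) ^ 2 := by
  refine int_inv.mono' ?_ (ae_of_all _ fun x => ?_)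
  · apply Continuous.aestronglyMeasurable
    refine continuous_const.div (by fun_prop) fun x => ?_
    positivity
  · rw [Real.norm_eq_abs, abs_of_nonneg (by positivity)]
    exact sq_le_inv x

lemma TF.int (h : TF κ k) : Integrable k := by
  obtain ⟨B, hB, hb⟩ := h.dec
  refine (int_inv2.const_mul B).mono' h.cont.aestronglyMeasurable (ae_of_all _ fun x => ?_)
  rw [Real.norm_eq_abs, mul_one_div]
  refine (hb x).trans ?_
  have : (1 + x ^ 2) ^ 2 ≤ (1 + x ^ 2) ^ 3 := by
    have h1 : (1 : ℝ) ≤ 1 + x ^ 2 := by nlinarith [sq_nonneg x]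
    exact pow_le_pow_right₀ h1 (by norm_num)
  gcongr

lemma TF.int1 (h : TF κ k) : Integrable fun x => x * k x := by
  obtain ⟨B, hB, hb⟩ := h.bound1
  have := h.cont
  refine (int_inv2.const_mul B).mono' (by fun_prop) (ae_of_all _ fun x => ?_)
  rw [Real.norm_eq_abs, mul_one_div]
  exact hb x

lemma TF.PP_sub (h : TF κ k) (a b : ℝ) : PP k a - PP k b = ∫ x in a..b, x * k x :=
  intervalIntegral.integral_Ioi_sub_Ioi' h.int1.integrableOn h.int1.integrableOn

lemma TF.PP_deriv (h : TF κ k) (y : ℝ) : HasDerivAt (PP k) (-(y * k y)) y := by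
  have e : PP k = fun y => PP k 0 - ∫ x in (0:ℝ)..y, x * k x := by
    funext y
    have := h.PP_sub 0 y
    linarith
  rw [e]
  have hc : Continuous fun x => x * k x := by have := h.cont; fun_prop
  have h1 := intervalIntegral.integral_hasDerivAt_right (hc.intervalIntegrable 0 y)
    (hc.stronglyMeasurableAtFilter _ _) hc.continuousAt
  exact h1.const_sub _

lemma TF.PP_cont (h : TF κ k) : Continuous (PP k) :=
  continuous_iff_continuousAt.2 fun y => (h.PP_deriv y).continuousAt

lemma TF.PP_even (h : TF κ k) (y : ℝ) : PP k (-y) = PP k y := by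
  have h1 := h.PP_sub (-y) y
  have h2 : ∫ x in (-y)..y, x * k x = 0 := by
    have h3 := intervalIntegral.integral_comp_neg (a := -y) (b := y) (fun x => x * k x)
    rw [neg_neg] at h3
    have h4 : ∫ x in (-y)..y, (-x) * k (-x) = -∫ x in (-y)..y, x * k x := by
      rw [← intervalIntegral.integral_neg]
      refine intervalIntegral.integral_congr fun x _ => ?_
      show (-x) * k (-x) = -(x * k x)
      rw [h.even]; ring
    rw [h4] at h3
    linarith
  linarith

lemma PP_abs (h : TF κ k) (y : ℝ) : PP k |y| = PP k y := by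
  rcases abs_cases y with hy | hy
  · rw [hy.1]
  · rw [hy.1, h.PP_even]

lemma TF.PP_bound (h : TF κ k) : ∃ B : ℝ, 0 ≤ B ∧ ∀ y, |PP k y| ≤ B / (1 + y ^ 2) ^ 2 := by
  obtain ⟨B, hB, hb⟩ := h.dec
  refine ⟨B / 4, by positivity, ?_⟩
  have key : ∀ y : ℝ, 0 ≤ y → |PP k y| ≤ B / 4 / (1 + y ^ 2) ^ 2 := by
    intro y hy
    have hder : ∀ x ∈ Ici y, HasDerivAt (fun x : ℝ => -(B / 4 / (1 + x ^ 2) ^ 2))
        (B * x / (1 + x ^ 2) ^ 3) x := by
      intro x _
      have h0 : (1 + x ^ 2) ^ 2 ≠ 0 := by positivity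
      have h1 : HasDerivAt (fun x : ℝ => (1 + x ^ 2) ^ 2) (2 * (1 + x ^ 2) * (2 * x)) x := by
        have h2 : HasDerivAt (fun x : ℝ => 1 + x ^ 2) (2 * x) x := by
          have := (hasDerivAt_pow 2 x).const_add 1
          simpa using this
        have h3 := h2.fun_pow 2
        refine h3.congr_deriv ?_
        norm_num
      have h4 := ((hasDerivAt_const x (B / 4)).fun_div h1 h0).fun_neg
      refine h4.congr_deriv ?_
      field_simp
      ring
    have hpos : ∀ x ∈ Ioi y, 0 ≤ B * x / (1 + x ^ 2) ^ 3 := by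
      intro x hx
      have : 0 ≤ x := hy.trans (le_of_lt hx)
      positivity
    have hlim : Tendsto (fun x : ℝ => -(B / 4 / (1 + x ^ 2) ^ 2)) atTop (𝓝 0) := by
      have h1 : Tendsto (fun x : ℝ => 1 + x ^ 2) atTop atTop :=
        tendsto_atTop_add_const_left _ _ (tendsto_pow_atTop (by norm_num))
      have h2 : Tendsto (fun x : ℝ => (1 + x ^ 2) ^ 2) atTop atTop :=
        (tendsto_pow_atTop (by norm_num)).comp h1
      have h3 := (h2.const_div_atTop (B / 4)).neg
      rwa [neg_zero] at h3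
    have hI := integral_Ioi_of_hasDerivAt_of_nonneg' hder hpos hlim
    have hint := integrableOn_Ioi_deriv_of_nonneg' hder hpos hlim
    rw [zero_sub, neg_neg] at hI
    rw [← hI, ← Real.norm_eq_abs]
    unfold PP
    refine norm_integral_le_of_norm_le hint ?_
    filter_upwards [ae_restrict_mem measurableSet_Ioi] with x hx
    have hx0 : 0 ≤ x := hy.trans (le_of_lt hx)
    rw [Real.norm_eq_abs, abs_mul, abs_of_nonneg hx0]
    have := hb x
    calc x * |k x| ≤ x * (B / (1 + x ^ 2) ^ 3) := mul_le_mul_of_nonneg_left this hx0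
      _ = B * x / (1 + x ^ 2) ^ 3 := by ring
  intro y
  have := key |y| (abs_nonneg y)
  rwa [PP_abs h, sq_abs] at this

lemma TF.PP_int (h : TF κ k) : Integrable (PP k) := by
  obtain ⟨B, hB, hb⟩ := h.PP_bound
  refine (int_inv2.const_mul B).mono' h.PP_cont.aestronglyMeasurable (ae_of_all _ fun x => ?_)
  rw [Real.norm_eq_abs, mul_one_div]
  exact hb x

lemma TF.PP_qd (h : TF κ k) : QD (PP k) := by
  obtain ⟨B, hB, hb⟩ := h.PP_bound
  refine ⟨B, fun x => (hb x).trans ?_⟩
  have : 1 + x ^ 2 ≤ (1 + x ^ 2) ^ 2 := by nlinarith [sq_nonneg x]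
  gcongr

lemma TF.fl_PP_smooth (h : TF κ k) : ContDiff ℝ 2 (fl (PP k)) := by
  obtain ⟨B, hB, hb⟩ := h.PP_bound
  have h1 : ContDiff ℝ (2 : ℕ∞) (𝓕 (fun x : ℝ => ((PP k x : ℝ) : ℂ))) := by
    refine Real.contDiff_fourier fun n hn => ?_
    have hn2 : n ≤ 2 := by exact_mod_cast hn
    have hc := h.PP_cont
    refine (int_inv.const_mul B).mono' (by fun_prop) (ae_of_all _ fun x => ?_)
    rw [Real.norm_eq_abs, abs_of_nonneg (by positivity), Complex.norm_real, Real.norm_eq_abs,
      Real.norm_eq_abs, mul_one_div]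
    have h2 : |x| ^ n ≤ 1 + x ^ 2 := by
      interval_cases n
      · simp [sq_nonneg]
      · rw [← sq_abs, pow_one]; nlinarith [sq_nonneg (|x| - 1)]
      · rw [← sq_abs x]; linarith
    have h3 := hb x
    rw [le_div_iff₀ (by positivity)] at h3 ⊢
    calc |x| ^ n * |PP k x| * (1 + x ^ 2) = |x| ^ n * (|PP k x| * (1 + x ^ 2)) := by ring
      _ ≤ (1 + x ^ 2) * (|PP k x| * (1 + x ^ 2)) := by gcongr
      _ = |PP k x| * (1 + x ^ 2) ^ 2 := by ring
      _ ≤ B := h3
  have e : fl (PP k) = fun x => (𝓕 (fun x : ℝ => ((PP k x : ℝ) : ℂ)) x).re := by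
    funext x
    rw [four_eq h.PP_int h.PP_even]
    simp
  rw [e]
  exact Complex.reCLM.contDiff.comp h1

lemma TF.sin_zero (h : TF κ k) {α : ℝ} (hα : κ < |α|) :
    ∫ y, y * k y * Real.sin (2 * Real.pi * y * α) = 0 := by
  have hpi := Real.pi_pos
  have hc := h.cont
  have hd : HasDerivAt (fun α : ℝ => ∫ y, k y * Real.cos (2 * Real.pi * y * α))
      (∫ y, k y * (-(2 * Real.pi * y) * Real.sin (2 * Real.pi * y * α))) α := by
    refine (hasDerivAt_integral_of_dominated_loc_of_deriv_le (μ := volume)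
      (F := fun (α : ℝ) (y : ℝ) => k y * Real.cos (2 * Real.pi * y * α))
      (F' := fun (α : ℝ) (y : ℝ) => k y * (-(2 * Real.pi * y) * Real.sin (2 * Real.pi * y * α)))
      (x₀ := α) (s := univ)
      (bound := fun y => 2 * Real.pi * |y * k y|) univ_mem ?_ ?_ ?_ ?_ ?_ ?_).2
    · exact Eventually.of_forall fun α => by fun_prop
    · refine h.int.mul_bdd (c := 1) (by fun_prop) (ae_of_all _ fun α => ?_)
      rw [Real.norm_eq_abs]; exact Real.abs_cos_le_one _
    · fun_prop
    · refine ae_of_all _ fun y α' _ => ?_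
      rw [Real.norm_eq_abs, abs_mul, abs_mul, abs_neg, abs_mul, abs_of_pos (show 0 < 2 * Real.pi by
        positivity), abs_mul]
      have := Real.abs_sin_le_one (2 * Real.pi * y * α')
      calc |k y| * (2 * Real.pi * |y| * |Real.sin (2 * Real.pi * y * α')|) ≤
          |k y| * (2 * Real.pi * |y| * 1) := by gcongr
        _ = _ := by ring
    · exact h.int1.abs.const_mul _
    · refine ae_of_all _ fun y α' _ => ?_
      have h1 : HasDerivAt (fun α : ℝ => 2 * Real.pi * y * α) (2 * Real.pi * y) α' := by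
        simpa using (hasDerivAt_id α').const_mul (2 * Real.pi * y)
      have h2 := (h1.cos).const_mul (k y)
      refine h2.congr_deriv ?_
      ring
  have h0 : (fun α : ℝ => ∫ y, k y * Real.cos (2 * Real.pi * y * α)) =ᶠ[𝓝 α] fun _ => 0 := by
    have ho : IsOpen {α : ℝ | κ < |α|} := isOpen_lt continuous_const continuous_abs
    filter_upwards [ho.mem_nhds hα] with β hβ using h.supp β hβ
  have h1 := hd.congr_of_eventuallyEq h0.symm
  have h2 := h1.unique (hasDerivAt_const α (0 : ℝ))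
  have h3 : ∫ y, k y * (-(2 * Real.pi * y) * Real.sin (2 * Real.pi * y * α)) =
      -(2 * Real.pi) * ∫ y, y * k y * Real.sin (2 * Real.pi * y * α) := by
    rw [← integral_const_mul]
    refine integral_congr_ae (ae_of_all _ fun y => ?_)
    show k y * (-(2 * Real.pi * y) * Real.sin (2 * Real.pi * y * α)) =
      -(2 * Real.pi) * (y * k y * Real.sin (2 * Real.pi * y * α))
    ring
  rw [h3] at h2
  have h4 : -(2 * Real.pi) ≠ 0 := by
    have : 0 < 2 * Real.pi := by positivity
    linarith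
  exact (mul_eq_zero.1 h2).resolve_left h4

lemma TF.fl_PP_supp (h : TF κ k) (hκ : 0 ≤ κ) {α : ℝ} (hα : κ < |α|) : fl (PP k) α = 0 := by
  have hpi := Real.pi_pos
  have hα0 : α ≠ 0 := by
    intro hcon
    rw [hcon, abs_zero] at hα
    linarith
  have hc := h.cont
  have hPc := h.PP_cont
  have hsin : ∀ y : ℝ, HasDerivAt (fun y : ℝ => Real.sin (2 * Real.pi * y * α))
      (2 * Real.pi * α * Real.cos (2 * Real.pi * y * α)) y := by
    intro y
    have h1 : HasDerivAt (fun y : ℝ => 2 * Real.pi * y * α) (2 * Real.pi * α) y := by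
      have := (hasDerivAt_id y).const_mul (2 * Real.pi * α)
      refine (this.congr_deriv (by ring)).congr_of_eventuallyEq (Eventually.of_forall fun y => ?_)
      simp only [id]
      ring
    refine h1.sin.congr_deriv ?_
    ring
  have h1 := integral_mul_deriv_eq_deriv_mul_of_integrable (A := ℝ) (u := PP k)
    (v := fun y : ℝ => Real.sin (2 * Real.pi * y * α)) (u' := fun y => -(y * k y))
    (v' := fun y => 2 * Real.pi * α * Real.cos (2 * Real.pi * y * α))
    (fun y _ => h.PP_deriv y) (fun y _ => hsin y) ?_ ?_ ?_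
  · have e1 : ∫ y, PP k y * (2 * Real.pi * α * Real.cos (2 * Real.pi * y * α)) =
        2 * Real.pi * α * fl (PP k) α := by
      unfold fl
      rw [← integral_const_mul]
      refine integral_congr_ae (ae_of_all _ fun y => ?_)
      show PP k y * (2 * Real.pi * α * Real.cos (2 * Real.pi * y * α)) =
        2 * Real.pi * α * (PP k y * Real.cos (2 * Real.pi * y * α))
      ring
    have e2 : ∫ y, -(y * k y) * Real.sin (2 * Real.pi * y * α) = 0 := by
      have := h.sin_zero hα
      have e3 : ∀ y, -(y * k y) * Real.sin (2 * Real.pi * y * α) =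
        -(y * k y * Real.sin (2 * Real.pi * y * α)) := fun y => by ring
      simp_rw [e3]
      rw [integral_neg, this, neg_zero]
    rw [e1, e2, neg_zero] at h1
    exact (mul_eq_zero.1 h1).resolve_left (by positivity)
  · have := (h.PP_int).mul_bdd (c := |2 * Real.pi * α|) (g := fun y =>
      2 * Real.pi * α * Real.cos (2 * Real.pi * y * α)) (by fun_prop) (ae_of_all _ fun y => by
        rw [Real.norm_eq_abs, abs_mul]
        exact mul_le_of_le_one_right (abs_nonneg _) (Real.abs_cos_le_one _))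
    exact this
  · have := (h.int1.neg).mul_bdd (c := 1) (g := fun y => Real.sin (2 * Real.pi * y * α))
      (by fun_prop) (ae_of_all _ fun y => by
        rw [Real.norm_eq_abs]; exact Real.abs_sin_le_one _)
    exact this
  · have := (h.PP_int).mul_bdd (c := 1) (g := fun y => Real.sin (2 * Real.pi * y * α))
      (by fun_prop) (ae_of_all _ fun y => by
        rw [Real.norm_eq_abs]; exact Real.abs_sin_le_one _)
    exact this

/-- Fourier inversion for even functions -/
lemma inv_gen {f : ℝ → ℝ} (hc : Continuous f) (hi : Integrable f) (he : ∀ x, f (-x) = f x)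
    (hfi : Integrable (fl f)) (α : ℝ) : fl (fl f) α = f α := by
  have hi' : Integrable (fun α : ℝ => (f α : ℂ)) := hi.ofReal
  have e1 : 𝓕 (fun α : ℝ => (f α : ℂ)) = fun x => ((fl f x : ℝ) : ℂ) :=
    funext fun x => four_eq hi he x
  have hi2 : Integrable (𝓕 (fun α : ℝ => (f α : ℂ))) := by
    rw [e1]; exact hfi.ofReal
  have hcc : Continuous (fun α : ℝ => (f α : ℂ)) := Complex.continuous_ofReal.comp hc
  have h1 := congrFun (hcc.fourierInv_fourier_eq hi' hi2) (-α)
  rw [Real.fourierInv_eq_fourier_neg, neg_neg, e1, four_eq hfi (fun x => fl_even x)] at h1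
  rw [he] at h1
  exact_mod_cast h1

lemma TF.adm (h : TF κ k) (hκ : 0 ≤ κ) {κ' : ℝ} (hκ' : κ < κ') : Adm κ' (fl (PP k)) :=
  adm_C2 (by linarith) (fun x => fl_even x)
    (fun x hx => h.fl_PP_supp hκ (lt_of_lt_of_le hκ' hx)) h.fl_PP_smooth

lemma TF.inv (h : TF κ k) (hκ : 0 ≤ κ) (x : ℝ) : fl (fl (PP k)) x = PP k x :=
  inv_gen h.PP_cont h.PP_int h.PP_even (h.adm hκ (lt_add_one κ)).int x

end Pool.Agent.X83.PC
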