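import Pool.Agent.X83.PC.Cum2

/-! # One-sided rigidity for the cumulative distribution -/

set_option autoImplicit false

open MeasureTheory Set Filter Topology

namespace Pool.Agent.X83.PC

open Pool.Agent.Y749.Rig

variable {C κ : ℝ} {k : ℝ → ℝ} {μ : Measure ℝ}

/-- the symmetric distribution function -/
noncomputable def sy (μ : Measure ℝ) (x : ℝ) : ℝ := μ.real (Ioo (-x) x)

lemma sy_nonneg (μ : Measure ℝ) (x : ℝ) : 0 ≤ sy μ x := measureReal_nonneg

lemma sy_le (hC : 0 ≤ C) (h : Bdd C μ) {x : ℝ} (hx : 0 ≤ x) : sy μ x ≤ (2 * x + 2) * C := by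
  have h1 := h.real_le hC 0 (b := x) ⌈2 * x⌉₊ (Nat.le_ceil _)
  rw [zero_sub, zero_add] at h1
  have h2 : ((⌈2 * x⌉₊ : ℕ) : ℝ) ≤ 2 * x + 1 := (Nat.ceil_lt_add_one (by positivity)).le
  calc sy μ x ≤ μ.real (Icc (-x) x) :=
        measureReal_mono Ioo_subset_Icc_self (h.lt_top _ _).ne
    _ ≤ ((⌈2 * x⌉₊ : ℕ) + 1) * C := h1
    _ ≤ (2 * x + 2) * C := by
        apply mul_le_mul_of_nonneg_right _ hC
        linarith

lemma sy_mono (h : Bdd C μ) : Monotone (sy μ) := by
  intro x y hxy
  exact measureReal_mono (Ioo_subset_Ioo (by linarith) hxy)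
    ((measure_mono Ioo_subset_Icc_self).trans_lt (h.lt_top _ _)).ne

lemma sy_nonpos {x : ℝ} (hx : x ≤ 0) : sy μ x = 0 := by
  unfold sy
  rw [Ioo_eq_empty (by linarith)]
  simp

lemma lin_le (x : ℝ) : |x| * (2 * |x| + 2) ≤ 3 * (1 + x ^ 2) := by
  rw [← sq_abs x]; nlinarith [sq_nonneg (|x| - 1)]

/-- Fubini for the tail integral -/
lemma layer [SFinite μ] (hC : 0 ≤ C) (h : Bdd C μ) (hk : TF κ k) :
    ∫ y, PP k y ∂μ = ∫ x, x * k x * sy μ x := by
  obtain ⟨B, hB, hb⟩ := hk.dec
  have hkc := hk.cont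
  have hxk : Continuous fun x : ℝ => x * k x := by fun_prop
  obtain ⟨f, hf⟩ : ∃ f : ℝ → ℝ → ℝ, ∀ x y, f x y = (Ioo (-x) x).indicator
      (fun _ => x * k x) y := ⟨fun x y => (Ioo (-x) x).indicator (fun _ => x * k x) y,
        fun x y => rfl⟩
  have hS : MeasurableSet {p : ℝ × ℝ | -p.1 < p.2 ∧ p.2 < p.1} := by
    have h1 : MeasurableSet {p : ℝ × ℝ | -p.1 < p.2} :=
      measurableSet_lt measurable_fst.neg measurable_snd
    have h2 : MeasurableSet {p : ℝ × ℝ | p.2 < p.1} :=
      measurableSet_lt measurable_snd measurable_fst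
    exact h1.inter h2
  have hf2 : Function.uncurry f = {p : ℝ × ℝ | -p.1 < p.2 ∧ p.2 < p.1}.indicator
      (fun p => p.1 * k p.1) := by
    ext p
    simp only [Function.uncurry]
    rw [hf]
    by_cases hp : p.2 ∈ Ioo (-p.1) p.1
    · rw [indicator_of_mem hp, indicator_of_mem (show p ∈ {p : ℝ × ℝ | -p.1 < p.2 ∧ p.2 < p.1}
        from hp)]
    · rw [indicator_of_notMem hp, indicator_of_notMem
        (show p ∉ {p : ℝ × ℝ | -p.1 < p.2 ∧ p.2 < p.1} from hp)]
  have hmeas : AEStronglyMeasurable (Function.uncurry f) (volume.prod μ) := by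
    rw [hf2]
    exact ((hxk.comp continuous_fst).aestronglyMeasurable).indicator hS
  have h1 : ∀ x, ∫ y, f x y ∂μ = x * k x * sy μ x := by
    intro x
    simp_rw [hf]
    rw [integral_indicator measurableSet_Ioo, setIntegral_const, smul_eq_mul, mul_comm]
    rfl
  have h2 : ∀ x, ∫ y, ‖f x y‖ ∂μ = |x * k x| * sy μ x := by
    intro x
    have : ∀ y, ‖f x y‖ = (Ioo (-x) x).indicator (fun _ => |x * k x|) y := by
      intro y
      rw [hf, norm_indicator_eq_indicator_norm]; rfl
    simp_rw [this]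
    rw [integral_indicator measurableSet_Ioo, setIntegral_const, smul_eq_mul, mul_comm]
    rfl
  have hint : Integrable (Function.uncurry f) (volume.prod μ) := by
    rw [integrable_prod_iff hmeas]
    constructor
    · refine ae_of_all _ fun x => ?_
      show Integrable (fun y => f x y) μ
      simp_rw [hf]
      rw [integrable_indicator_iff measurableSet_Ioo]
      exact integrableOn_const ((measure_mono Ioo_subset_Icc_self).trans_lt (h.lt_top _ _)).ne
    · show Integrable (fun x => ∫ y, ‖f x y‖ ∂μ) volume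
      simp_rw [h2]
      refine (int_inv2.const_mul (3 * C * B)).mono'
        (hxk.abs.aestronglyMeasurable.mul (sy_mono h).measurable.aestronglyMeasurable)
        (ae_of_all _ fun x => ?_)
      rw [Real.norm_eq_abs, abs_mul, abs_abs, abs_of_nonneg (sy_nonneg _ _), mul_one_div, abs_mul]
      rcases le_or_gt x 0 with hx | hx
      · rw [sy_nonpos hx, mul_zero]; positivity
      · have a1 := sy_le hC h hx.le
        have a2 := hb x
        rw [le_div_iff₀ (by positivity)] at a2 ⊢
        have a3 := lin_le x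
        rw [abs_of_pos hx] at a3 ⊢
        have a4 : 0 ≤ |k x| * (1 + x ^ 2) ^ 2 := by positivity
        calc x * |k x| * sy μ x * (1 + x ^ 2) ^ 2 =
            (x * sy μ x) * (|k x| * (1 + x ^ 2) ^ 2) := by ring
          _ ≤ (x * ((2 * x + 2) * C)) * (|k x| * (1 + x ^ 2) ^ 2) := by gcongr
          _ = C * (x * (2 * x + 2)) * (|k x| * (1 + x ^ 2) ^ 2) := by ring
          _ ≤ C * (3 * (1 + x ^ 2)) * (|k x| * (1 + x ^ 2) ^ 2) := by gcongr
          _ = 3 * C * (|k x| * (1 + x ^ 2) ^ 3) := by ring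
          _ ≤ 3 * C * B := by gcongr
  have h3 := integral_integral_swap hint
  simp_rw [h1] at h3
  rw [h3]
  refine integral_congr_ae (ae_of_all _ fun y => ?_)
  show PP k y = ∫ x, f x y
  have h4 : ∀ x, f x y = (Ioi |y|).indicator (fun x => x * k x) x := by
    intro x
    rw [hf]
    by_cases hp : y ∈ Ioo (-x) x
    · rw [indicator_of_mem hp, indicator_of_mem (show x ∈ Ioi |y| from abs_lt.2 hp)]
    · rw [indicator_of_notMem hp, indicator_of_notMem]
      intro hx
      exact hp (abs_lt.1 hx)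
  simp_rw [h4]
  rw [integral_indicator measurableSet_Ioi, ← PP_abs hk y]
  rfl

/-- the base test function -/
noncomputable def g3 (h x : ℝ) : ℝ := fl (tr h) x * fl (tr h) x * fl (tr h) x

lemma g3_nonneg {h : ℝ} (hh : 0 < h) (x : ℝ) : 0 ≤ g3 h x := by
  have := fl_tr_nonneg hh x
  unfold g3; positivity

/-- the modulated base test function -/
lemma TF_g3 {h : ℝ} (hh : 0 < h) (ω : ℝ) :
    TF (3 * h + |ω|) (fun x => g3 h x * Real.cos (2 * Real.pi * ω * x)) := by
  have hk := adm_tr hh
  have hc := fl_cont hk.int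
  obtain ⟨B, hB⟩ := fl_bound hk
  have hB0 : 0 ≤ B := by
    have := (abs_nonneg _).trans (hB 0)
    simpa using this
  have hflB : ∀ x, |fl (tr h) x| ≤ B := fun x => (hB x).trans (by
    apply div_le_self hB0
    nlinarith [sq_nonneg x])
  have i1 : Integrable (fl (tr h)) := fl_int hk
  have i2 : Integrable fun x => fl (tr h) x * fl (tr h) x :=
    i1.mul_bdd (c := B) hc.aestronglyMeasurable (ae_of_all _ fun x => hflB x)
  have i3 : Integrable (g3 h) :=
    i2.mul_bdd (c := B) hc.aestronglyMeasurable (ae_of_all _ fun x => hflB x)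
  have s1 : ∀ α, h < |α| → fl (fl (tr h)) α = 0 := by
    intro α hα
    rw [inv_four hk, tr_supp hh α hα.le]
  have s2 : ∀ α, h + h < |α| → fl (fun x => fl (tr h) x * fl (tr h) x) α = 0 :=
    fun α hα => fl_mul_supp i1 hk.int s1 (fun β hβ => tr_supp hh β hβ) α hα
  have s3 : ∀ α, h + h + h < |α| → fl (g3 h) α = 0 :=
    fun α hα => fl_mul_supp i2 hk.int s2 (fun β hβ => tr_supp hh β hβ) α hα
  refine ⟨?_, ?_, ?_, ?_⟩
  · unfold g3; fun_prop
  · intro x
    unfold g3
    rw [fl_even, mul_neg, Real.cos_neg]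
  · refine ⟨B ^ 3, by positivity, fun x => ?_⟩
    have h1 := Real.abs_cos_le_one (2 * Real.pi * ω * x)
    have h2 := hB x
    rw [abs_mul]
    unfold g3
    rw [abs_mul, abs_mul]
    calc |fl (tr h) x| * |fl (tr h) x| * |fl (tr h) x| * |Real.cos (2 * Real.pi * ω * x)| ≤
        (B / (1 + x ^ 2)) * (B / (1 + x ^ 2)) * (B / (1 + x ^ 2)) * 1 := by gcongr
      _ = B ^ 3 / (1 + x ^ 2) ^ 3 := by field_simp
  · intro α hα
    rw [fl_cos_mul i3]
    have g1 : |α| ≤ |α - ω| + |ω| := by
      have := abs_add_le (α - ω) ω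
      rwa [sub_add_cancel] at this
    have g2 : |α| ≤ |α + ω| + |ω| := by
      have := abs_add_le (α + ω) (-ω)
      rwa [add_neg_cancel_right, abs_neg] at this
    rw [s3 _ (by linarith), s3 _ (by linarith)]
    ring

/-- **one-sided rigidity for the cumulative distribution** -/
theorem cum_rig {μ₁ μ₂ : Measure ℝ} [SFinite μ₁] [SFinite μ₂] (hC : 0 ≤ C) (h1 : Bdd C μ₁)
    (h2 : Bdd C μ₂) {κ : ℝ} (hκ : 0 < κ)
    (ht : ∀ ψ, Adm κ ψ → ∫ x, fl ψ x ∂μ₁ = ∫ x, fl ψ x ∂μ₂) {C' c A : ℝ} (hC' : 0 ≤ C')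
    (hc : 0 < c)
    (ho : ∀ᵐ x : ℝ, A ≤ x → sy μ₁ x - sy μ₂ x ≤ C' * Real.exp (-(c * x))) :
    ∀ᵐ x : ℝ, 0 < x → sy μ₁ x = sy μ₂ x := by
  obtain ⟨h, hh'⟩ : ∃ h : ℝ, h = κ / 12 := ⟨_, rfl⟩
  have hh : 0 < h := by rw [hh']; positivity
  have hk := adm_tr hh
  obtain ⟨B, hB⟩ := fl_bound hk
  have hB0 : 0 ≤ B := by
    have := (abs_nonneg _).trans (hB 0)
    simpa using this
  obtain ⟨D, hD⟩ : ∃ D : ℝ → ℝ, ∀ x, D x = sy μ₁ x - sy μ₂ x := ⟨_, fun x => rfl⟩
  obtain ⟨v, hv⟩ : ∃ v : ℝ → ℝ, ∀ x, v x = |x| * D |x| * g3 h x := ⟨_, fun x => rfl⟩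
  have hDm : Measurable D := by
    rw [show D = fun x => sy μ₁ x - sy μ₂ x from funext hD]
    exact (sy_mono h1).measurable.sub (sy_mono h2).measurable
  have hDb : ∀ x, 0 ≤ x → |D x| ≤ (2 * x + 2) * C := by
    intro x hx
    rw [hD, abs_le]
    have a1 := sy_le hC h1 hx
    have a2 := sy_le hC h2 hx
    have a3 := sy_nonneg μ₁ x
    have a4 := sy_nonneg μ₂ x
    constructor <;> linarith
  have hgb : ∀ x, g3 h x ≤ B ^ 3 / (1 + x ^ 2) ^ 3 := by
    intro x
    have h0 := fl_tr_nonneg hh x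
    have h3 := (le_abs_self _).trans (hB x)
    unfold g3
    calc fl (tr h) x * fl (tr h) x * fl (tr h) x ≤
        (B / (1 + x ^ 2)) * (B / (1 + x ^ 2)) * (B / (1 + x ^ 2)) := by gcongr
      _ = B ^ 3 / (1 + x ^ 2) ^ 3 := by field_simp
  have hvb : ∀ x, |v x| ≤ 3 * C * B ^ 3 / (1 + x ^ 2) ^ 2 := by
    intro x
    have a1 := hDb |x| (abs_nonneg x)
    have a2 := hgb x
    have a3 := lin_le x
    have a4 := g3_nonneg hh x
    rw [hv, abs_mul, abs_mul, abs_abs, abs_of_nonneg a4]
    calc |x| * |D (|x|)| * g3 h x ≤ |x| * ((2 * |x| + 2) * C) * (B ^ 3 / (1 + x ^ 2) ^ 3) := by gcongr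
      _ = C * (|x| * (2 * |x| + 2)) * (B ^ 3 / (1 + x ^ 2) ^ 3) := by ring
      _ ≤ C * (3 * (1 + x ^ 2)) * (B ^ 3 / (1 + x ^ 2) ^ 3) := by gcongr
      _ = _ := by field_simp
  have hgc : Continuous (g3 h) := by
    have := fl_cont hk.int
    unfold g3; fun_prop
  have hvi : Integrable v := by
    refine (int_inv2.const_mul (3 * C * B ^ 3)).mono' ?_ (ae_of_all _ fun x => ?_)
    · rw [show v = fun x => |x| * D |x| * g3 h x from funext hv]
      have m1 : Measurable fun x : ℝ => |x| * D |x| * g3 h x :=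
        (measurable_abs.mul (hDm.comp measurable_abs)).mul hgc.measurable
      exact m1.aestronglyMeasurable
    · rw [Real.norm_eq_abs, mul_one_div]; exact hvb x
  have hve : ∀ x, v (-x) = v x := by
    intro x
    rw [hv, hv, abs_neg]
    unfold g3
    rw [fl_even]
  -- the pointwise bound, almost everywhere
  obtain ⟨K, hK⟩ : ∃ K : ℝ, K = C' * B ^ 3 + 3 * C * B ^ 3 * Real.exp (c * A) := ⟨_, rfl⟩
  have hK0 : 0 ≤ K := by rw [hK]; positivity
  have hvu : ∀ᵐ x : ℝ, v x ≤ K * Real.exp (-(c * |x|)) := by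
    filter_upwards [ho, ae_neg ho] with x hx1 hx2
    have hx : A ≤ |x| → D |x| ≤ C' * Real.exp (-(c * |x|)) := by
      intro hAx
      rw [hD]
      rcases abs_cases x with g | g
      · rw [g.1] at hAx ⊢; exact hx1 hAx
      · rw [g.1] at hAx ⊢; exact hx2 hAx
    rcases le_or_gt A |x| with g | g
    · have a1 := hx g
      have a4 := g3_nonneg hh x
      have a2 := hgb x
      have e0 : 0 ≤ C' * Real.exp (-(c * |x|)) := by positivity
      have a5 : |x| * g3 h x ≤ B ^ 3 := by
        calc |x| * g3 h x ≤ |x| * (B ^ 3 / (1 + x ^ 2) ^ 3) := by gcongr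
          _ ≤ B ^ 3 := by
              rw [mul_div_assoc', div_le_iff₀ (by positivity), mul_comm]
              apply mul_le_mul_of_nonneg_left _ (by positivity)
              have b1 : |x| ≤ 1 + x ^ 2 := by
                rw [← sq_abs]; nlinarith [sq_nonneg (|x| - 1)]
              have b2 : (1 + x ^ 2) ^ 1 ≤ (1 + x ^ 2) ^ 3 :=
                pow_le_pow_right₀ (by nlinarith [sq_nonneg x]) (by norm_num)
              linarith
      calc v x = |x| * g3 h x * D |x| := by rw [hv]; ring
        _ ≤ |x| * g3 h x * (C' * Real.exp (-(c * |x|))) :=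
            mul_le_mul_of_nonneg_left a1 (by positivity)
        _ ≤ B ^ 3 * (C' * Real.exp (-(c * |x|))) := by gcongr
        _ ≤ K * Real.exp (-(c * |x|)) := by
            rw [hK]
            have : 0 ≤ 3 * C * B ^ 3 * Real.exp (c * A) * Real.exp (-(c * |x|)) := by positivity
            nlinarith
    · have a1 := (le_abs_self _).trans (hvb x)
      have a2 : 3 * C * B ^ 3 / (1 + x ^ 2) ^ 2 ≤ 3 * C * B ^ 3 := by
        apply div_le_self (by positivity)
        nlinarith [sq_nonneg x, sq_nonneg (x ^ 2)]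
      have a3 : 1 ≤ Real.exp (c * A) * Real.exp (-(c * |x|)) := by
        rw [← Real.exp_add]
        apply Real.one_le_exp
        nlinarith
      calc v x ≤ 3 * C * B ^ 3 := a1.trans a2
        _ ≤ 3 * C * B ^ 3 * (Real.exp (c * A) * Real.exp (-(c * |x|))) :=
            le_mul_of_one_le_right (by positivity) a3
        _ ≤ K * Real.exp (-(c * |x|)) := by
            rw [hK]
            have : 0 ≤ C' * B ^ 3 * Real.exp (-(c * |x|)) := by positivity
            nlinarith
  -- change v on a null set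
  obtain ⟨w, hw⟩ : ∃ w : ℝ → ℝ, ∀ x, w x = min (v x) (K * Real.exp (-(c * |x|))) :=
    ⟨_, fun x => rfl⟩
  have hwv : w =ᵐ[volume] v := by
    filter_upwards [hvu] with x hx
    rw [hw, min_eq_left hx]
  have hwi : Integrable w := hvi.congr hwv.symm
  have hz : w =ᵐ[volume] 0 := by
    refine lemR hwi (C := K) (c := c) hK0 hc (fun x => by rw [hw]; exact min_le_right _ _)
      (η := κ / 2) (by positivity) ?_ ?_
    · intro ω hω
      have hTF := TF_g3 hh ω
      have hlt : 3 * h + |ω| < κ := by rw [hh']; linarith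
      have hle : 0 ≤ 3 * h + |ω| := by positivity
      have hAdm := hTF.adm hle hlt
      have e0 : ∫ x, w x * Real.cos (2 * Real.pi * ω * x) =
          ∫ x, v x * Real.cos (2 * Real.pi * ω * x) := by
        refine integral_congr_ae ?_
        filter_upwards [hwv] with x hx
        rw [hx]
      rw [e0]
      obtain ⟨G, hG⟩ : ∃ G : ℝ → ℝ, ∀ r, G r = r * D r * (g3 h r * Real.cos (2 * Real.pi * ω * r)) :=
        ⟨_, fun r => rfl⟩
      have e1 : ∀ x, v x * Real.cos (2 * Real.pi * ω * x) = G |x| := by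
        intro x
        rw [hv, hG]
        rcases abs_cases x with g | g
        · rw [g.1]; ring
        · rw [g.1]
          have : g3 h (-x) * Real.cos (2 * Real.pi * ω * (-x)) =
            g3 h x * Real.cos (2 * Real.pi * ω * x) := hTF.even x
          rw [this]; ring
      rw [integral_congr_ae (ae_of_all _ e1), integral_comp_abs]
      have e2 : ∀ μ : Measure ℝ, ∫ x, x * (g3 h x * Real.cos (2 * Real.pi * ω * x)) * sy μ x =
          ∫ x in Ioi (0:ℝ), x * (g3 h x * Real.cos (2 * Real.pi * ω * x)) * sy μ x := by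
        intro μ
        symm
        refine setIntegral_eq_integral_of_forall_compl_eq_zero fun x hx => ?_
        rw [sy_nonpos (not_lt.1 hx), mul_zero]
      have f1 := layer hC h1 hTF
      have f2 := layer hC h2 hTF
      rw [e2] at f1 f2
      have f3 : ∫ y, PP (fun x => g3 h x * Real.cos (2 * Real.pi * ω * x)) y ∂μ₁ =
          ∫ y, PP (fun x => g3 h x * Real.cos (2 * Real.pi * ω * x)) y ∂μ₂ := by
        have := ht _ hAdm
        simp_rw [hTF.inv hle] at this
        exact this
      rw [f1, f2] at f3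
      have hii : ∀ {μ : Measure ℝ}, Bdd C μ → IntegrableOn (fun x =>
          x * (g3 h x * Real.cos (2 * Real.pi * ω * x)) * sy μ x) (Ioi (0:ℝ)) := by
        intro μ hμ
        refine (((int_inv2.const_mul (3 * C * B ^ 3)).integrableOn (s := Ioi (0:ℝ))).mono' ?_ ?_)
        · have m1 : Measurable fun x : ℝ => x * (g3 h x * Real.cos (2 * Real.pi * ω * x)) := by
            have := hgc
            exact (by fun_prop : Continuous fun x : ℝ =>
              x * (g3 h x * Real.cos (2 * Real.pi * ω * x))).measurable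
          exact (m1.mul (sy_mono hμ).measurable).aestronglyMeasurable
        · filter_upwards [ae_restrict_mem measurableSet_Ioi] with x hx
          have hx0 : 0 < x := hx
          have a1 := sy_le hC hμ hx0.le
          have a2 := hgb x
          have a3 := lin_le x
          have a4 := g3_nonneg hh x
          have a5 := sy_nonneg μ x
          rw [abs_of_pos hx0] at a3
          rw [Real.norm_eq_abs, abs_mul, abs_mul, abs_mul, abs_of_pos hx0, abs_of_nonneg a4,
            abs_of_nonneg a5, mul_one_div]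
          calc x * (g3 h x * |Real.cos (2 * Real.pi * ω * x)|) * sy μ x ≤
              x * ((B ^ 3 / (1 + x ^ 2) ^ 3) * 1) * ((2 * x + 2) * C) := by
                gcongr
                exact Real.abs_cos_le_one _
            _ = C * (x * (2 * x + 2)) * (B ^ 3 / (1 + x ^ 2) ^ 3) := by ring
            _ ≤ C * (3 * (1 + x ^ 2)) * (B ^ 3 / (1 + x ^ 2) ^ 3) := by gcongr
            _ = _ := by field_simp
      have e3 : ∫ x in Ioi (0:ℝ), G x =
          (∫ x in Ioi (0:ℝ), x * (g3 h x * Real.cos (2 * Real.pi * ω * x)) * sy μ₁ x) -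
          ∫ x in Ioi (0:ℝ), x * (g3 h x * Real.cos (2 * Real.pi * ω * x)) * sy μ₂ x := by
        rw [← integral_sub (hii h1) (hii h2)]
        refine integral_congr_ae (ae_of_all _ fun x => ?_)
        show G x = x * (g3 h x * Real.cos (2 * Real.pi * ω * x)) * sy μ₁ x -
          x * (g3 h x * Real.cos (2 * Real.pi * ω * x)) * sy μ₂ x
        rw [hG, hD]; ring
      rw [e3, f3, sub_self, mul_zero]
    · intro ω _
      have e0 : ∫ x, w x * Real.sin (2 * Real.pi * ω * x) =
          ∫ x, v x * Real.sin (2 * Real.pi * ω * x) := by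
        refine integral_congr_ae ?_
        filter_upwards [hwv] with x hx
        rw [hx]
      rw [e0]
      apply int_zero_of_odd
      intro x
      rw [hve, mul_neg, Real.sin_neg]; ring
  filter_upwards [hz, hwv, fl_tr_ne hh] with x hx1 hx2 hx3 hx0
  have hvx : v x = 0 := by rw [← hx2]; exact hx1
  rw [hv, abs_of_pos hx0] at hvx
  have hg : g3 h x ≠ 0 := by
    unfold g3
    exact mul_ne_zero (mul_ne_zero hx3 hx3) hx3
  have h3 := (mul_eq_zero.1 hvx).resolve_right hg
  have h4 := (mul_eq_zero.1 h3).resolve_left hx0.ne'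
  rw [hD] at h4
  linarith

end Pool.Agent.X83.PC
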