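import Pool.Agent.X83.PC.Loc2

/-! # Sparse one-sided rigidity for the cumulative distribution -/

set_option autoImplicit false

open MeasureTheory Set Filter Topology

namespace Pool.Agent.X83.PC

open Pool.Agent.Y749.Rig

variable {C κ : ℝ} {k : ℝ → ℝ} {μ : Measure ℝ}

/-- the weighted difference of the distribution functions has a spectral gap -/
theorem cum_v {μ₁ μ₂ : Measure ℝ} [SFinite μ₁] [SFinite μ₂] (hC : 0 ≤ C) (h1 : Bdd C μ₁)
    (h2 : Bdd C μ₂) {κ : ℝ} (hκ : 0 < κ)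
    (ht : ∀ ψ, Adm κ ψ → ∫ x, fl ψ x ∂μ₁ = ∫ x, fl ψ x ∂μ₂) :
    ∃ v : ℝ → ℝ, (∀ x, v x = |x| * (sy μ₁ |x| - sy μ₂ |x|) * g3 (κ / 12) x) ∧ Integrable v ∧
      (∃ B : ℝ, 0 ≤ B ∧ ∀ x, |x| * g3 (κ / 12) x ≤ B) ∧
      (∀ ω : ℝ, |ω| < κ / 2 → ∫ x, v x * Real.cos (2 * Real.pi * ω * x) = 0) ∧
      (∀ ω : ℝ, ∫ x, v x * Real.sin (2 * Real.pi * ω * x) = 0) := by
  obtain ⟨h, hh'⟩ : ∃ h : ℝ, h = κ / 12 := ⟨_, rfl⟩
  have hh : 0 < h := by rw [hh']; positivity
  have hk := adm_tr hh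
  obtain ⟨B, hB⟩ := fl_bound hk
  have hB0 : 0 ≤ B := by
    have := (abs_nonneg _).trans (hB 0)
    simpa using this
  obtain ⟨D, hD⟩ : ∃ D : ℝ → ℝ, ∀ x, D x = sy μ₁ x - sy μ₂ x := ⟨_, fun x => rfl⟩
  obtain ⟨v, hv⟩ : ∃ v : ℝ → ℝ, ∀ x, v x = |x| * D |x| * g3 h x := ⟨_, fun x => rfl⟩
  have hDm : Measurable D := by
    rw [show D = fun x => sy μ₁ x - sy μ₂ x from funext hD]
    exact (sy_mono h1).measurable.sub (sy_mono h2).measurable
  have hDb : ∀ x, 0 ≤ x → |D x| ≤ (2 * x + 2) * C := by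
    intro x hx
    rw [hD, abs_le]
    have a1 := sy_le hC h1 hx
    have a2 := sy_le hC h2 hx
    have a3 := sy_nonneg μ₁ x
    have a4 := sy_nonneg μ₂ x
    constructor <;> linarith
  have hgb : ∀ x, g3 h x ≤ B ^ 3 / (1 + x ^ 2) ^ 3 := by
    intro x
    have h0 := fl_tr_nonneg hh x
    have h3 := (le_abs_self _).trans (hB x)
    unfold g3
    calc fl (tr h) x * fl (tr h) x * fl (tr h) x ≤
        (B / (1 + x ^ 2)) * (B / (1 + x ^ 2)) * (B / (1 + x ^ 2)) := by gcongr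
      _ = B ^ 3 / (1 + x ^ 2) ^ 3 := by field_simp
  have hvb : ∀ x, |v x| ≤ 3 * C * B ^ 3 / (1 + x ^ 2) ^ 2 := by
    intro x
    have a1 := hDb |x| (abs_nonneg x)
    have a2 := hgb x
    have a3 := lin_le x
    have a4 := g3_nonneg hh x
    rw [hv, abs_mul, abs_mul, abs_abs, abs_of_nonneg a4]
    calc |x| * |D (|x|)| * g3 h x ≤ |x| * ((2 * |x| + 2) * C) * (B ^ 3 / (1 + x ^ 2) ^ 3) := by gcongr
      _ = C * (|x| * (2 * |x| + 2)) * (B ^ 3 / (1 + x ^ 2) ^ 3) := by ring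
      _ ≤ C * (3 * (1 + x ^ 2)) * (B ^ 3 / (1 + x ^ 2) ^ 3) := by gcongr
      _ = _ := by field_simp
  have hgc : Continuous (g3 h) := by
    have := fl_cont hk.int
    unfold g3; fun_prop
  have hvi : Integrable v := by
    refine (int_inv2.const_mul (3 * C * B ^ 3)).mono' ?_ (ae_of_all _ fun x => ?_)
    · rw [show v = fun x => |x| * D |x| * g3 h x from funext hv]
      have m1 : Measurable fun x : ℝ => |x| * D |x| * g3 h x :=
        (measurable_abs.mul (hDm.comp measurable_abs)).mul hgc.measurable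
      exact m1.aestronglyMeasurable
    · rw [Real.norm_eq_abs, mul_one_div]; exact hvb x
  have hve : ∀ x, v (-x) = v x := by
    intro x
    rw [hv, hv, abs_neg]
    unfold g3
    rw [fl_even]
  refine ⟨v, fun x => by rw [hv, hD, hh'], hvi, ⟨B ^ 3, by positivity, fun x => ?_⟩, ?_, ?_⟩
  · rw [← hh']
    have a2 := hgb x
    have a4 := g3_nonneg hh x
    calc |x| * g3 h x ≤ |x| * (B ^ 3 / (1 + x ^ 2) ^ 3) := by gcongr
      _ ≤ B ^ 3 := by
          rw [mul_div_assoc', div_le_iff₀ (by positivity), mul_comm]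
          apply mul_le_mul_of_nonneg_left _ (by positivity)
          have b1 : |x| ≤ 1 + x ^ 2 := by
            rw [← sq_abs]; nlinarith [sq_nonneg (|x| - 1)]
          have b2 : (1 + x ^ 2) ^ 1 ≤ (1 + x ^ 2) ^ 3 :=
            pow_le_pow_right₀ (by nlinarith [sq_nonneg x]) (by norm_num)
          linarith
  · intro ω hω
    have hTF := TF_g3 hh ω
    have hlt : 3 * h + |ω| < κ := by rw [hh']; linarith
    have hle : 0 ≤ 3 * h + |ω| := by positivity
    have hAdm := hTF.adm hle hlt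
    obtain ⟨G, hG⟩ : ∃ G : ℝ → ℝ, ∀ r, G r = r * D r * (g3 h r * Real.cos (2 * Real.pi * ω * r)) :=
      ⟨_, fun r => rfl⟩
    have e1 : ∀ x, v x * Real.cos (2 * Real.pi * ω * x) = G |x| := by
      intro x
      rw [hv, hG]
      rcases abs_cases x with g | g
      · rw [g.1]; ring
      · rw [g.1]
        have : g3 h (-x) * Real.cos (2 * Real.pi * ω * (-x)) =
          g3 h x * Real.cos (2 * Real.pi * ω * x) := hTF.even x
        rw [this]; ring
    rw [integral_congr_ae (ae_of_all _ e1), integral_comp_abs]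
    have e2 : ∀ μ : Measure ℝ, ∫ x, x * (g3 h x * Real.cos (2 * Real.pi * ω * x)) * sy μ x =
        ∫ x in Ioi (0:ℝ), x * (g3 h x * Real.cos (2 * Real.pi * ω * x)) * sy μ x := by
      intro μ
      symm
      refine setIntegral_eq_integral_of_forall_compl_eq_zero fun x hx => ?_
      rw [sy_nonpos (not_lt.1 hx), mul_zero]
    have f1 := layer hC h1 hTF
    have f2 := layer hC h2 hTF
    rw [e2] at f1 f2
    have f3 : ∫ y, PP (fun x => g3 h x * Real.cos (2 * Real.pi * ω * x)) y ∂μ₁ =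
        ∫ y, PP (fun x => g3 h x * Real.cos (2 * Real.pi * ω * x)) y ∂μ₂ := by
      have := ht _ hAdm
      simp_rw [hTF.inv hle] at this
      exact this
    rw [f1, f2] at f3
    have hii : ∀ {μ : Measure ℝ}, Bdd C μ → IntegrableOn (fun x =>
        x * (g3 h x * Real.cos (2 * Real.pi * ω * x)) * sy μ x) (Ioi (0:ℝ)) := by
      intro μ hμ
      refine (((int_inv2.const_mul (3 * C * B ^ 3)).integrableOn (s := Ioi (0:ℝ))).mono' ?_ ?_)
      · have m1 : Measurable fun x : ℝ => x * (g3 h x * Real.cos (2 * Real.pi * ω * x)) := by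
          have := hgc
          exact (by fun_prop : Continuous fun x : ℝ =>
            x * (g3 h x * Real.cos (2 * Real.pi * ω * x))).measurable
        exact (m1.mul (sy_mono hμ).measurable).aestronglyMeasurable
      · filter_upwards [ae_restrict_mem measurableSet_Ioi] with x hx
        have hx0 : 0 < x := hx
        have a1 := sy_le hC hμ hx0.le
        have a2 := hgb x
        have a3 := lin_le x
        have a4 := g3_nonneg hh x
        have a5 := sy_nonneg μ x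
        rw [abs_of_pos hx0] at a3
        rw [Real.norm_eq_abs, abs_mul, abs_mul, abs_mul, abs_of_pos hx0, abs_of_nonneg a4,
          abs_of_nonneg a5, mul_one_div]
        calc x * (g3 h x * |Real.cos (2 * Real.pi * ω * x)|) * sy μ x ≤
            x * ((B ^ 3 / (1 + x ^ 2) ^ 3) * 1) * ((2 * x + 2) * C) := by
              gcongr
              exact Real.abs_cos_le_one _
          _ = C * (x * (2 * x + 2)) * (B ^ 3 / (1 + x ^ 2) ^ 3) := by ring
          _ ≤ C * (3 * (1 + x ^ 2)) * (B ^ 3 / (1 + x ^ 2) ^ 3) := by gcongr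
          _ = _ := by field_simp
    have e3 : ∫ x in Ioi (0:ℝ), G x =
        (∫ x in Ioi (0:ℝ), x * (g3 h x * Real.cos (2 * Real.pi * ω * x)) * sy μ₁ x) -
        ∫ x in Ioi (0:ℝ), x * (g3 h x * Real.cos (2 * Real.pi * ω * x)) * sy μ₂ x := by
      rw [← integral_sub (hii h1) (hii h2)]
      refine integral_congr_ae (ae_of_all _ fun x => ?_)
      show G x = x * (g3 h x * Real.cos (2 * Real.pi * ω * x)) * sy μ₁ x -
        x * (g3 h x * Real.cos (2 * Real.pi * ω * x)) * sy μ₂ x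
      rw [hG, hD]; ring
    rw [e3, f3, sub_self, mul_zero]
  · intro ω
    apply int_zero_of_odd
    intro x
    rw [hve, mul_neg, Real.sin_neg]; ring

/-- **sparse one-sided rigidity for the cumulative distribution** -/
theorem cum_sparse {μ₁ μ₂ : Measure ℝ} [SFinite μ₁] [SFinite μ₂] (hC : 0 ≤ C) (h1 : Bdd C μ₁)
    (h2 : Bdd C μ₂) {κ : ℝ} (hκ : 0 < κ)
    (ht : ∀ ψ, Adm κ ψ → ∫ x, fl ψ x ∂μ₁ = ∫ x, fl ψ x ∂μ₂)
    {a b : ℕ → ℝ} (ha : ∀ n, 0 < a n) (hab : ∀ n, a n < b n) (hd : ∀ n, b n ≤ a (n + 1))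
    (hs : ¬ Summable fun n => ((b n - a n) / b n) ^ 2)
    {s : ℕ → ℝ} (hsg : ∀ n, s n = 1 ∨ s n = -1) {C' c : ℝ} (hC' : 0 ≤ C') (hc : 0 < c)
    (ho : ∀ n, ∀ᵐ x : ℝ, x ∈ Ioo (a n) (b n) →
      s n * (sy μ₁ x - sy μ₂ x) ≤ C' * Real.exp (-(c * (b n - a n)))) :
    ∀ᵐ x : ℝ, 0 < x → sy μ₁ x = sy μ₂ x := by
  obtain ⟨v, hv, hvi, ⟨B, hB0, hB⟩, hcos, hsin⟩ := cum_v hC h1 h2 hκ ht
  have hh : 0 < κ / 12 := by positivity
  have hz : v =ᵐ[volume] 0 := by
    refine gap_one hvi (by positivity : 0 < κ / 2) hcos (fun ω _ => hsin ω) ha hab hd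
      (C' := B * C') (by positivity) hc hsg (fun n => ?_) hs
    filter_upwards [ho n] with x hx hxm
    have h3 := hx hxm
    have hx0 : 0 < x := (ha n).trans hxm.1
    have h4 := hB x
    have h5 := g3_nonneg hh x
    rw [hv, abs_of_pos hx0]
    rw [abs_of_pos hx0] at h4
    calc s n * (x * (sy μ₁ x - sy μ₂ x) * g3 (κ / 12) x) =
        (x * g3 (κ / 12) x) * (s n * (sy μ₁ x - sy μ₂ x)) := by ring
      _ ≤ (x * g3 (κ / 12) x) * (C' * Real.exp (-(c * (b n - a n)))) :=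
          mul_le_mul_of_nonneg_left h3 (by positivity)
      _ ≤ B * (C' * Real.exp (-(c * (b n - a n)))) := by gcongr
      _ = _ := by ring
  filter_upwards [hz, fl_tr_ne hh] with x hx1 hx3 hx0
  have hvx : v x = 0 := hx1
  rw [hv, abs_of_pos hx0] at hvx
  have hg : g3 (κ / 12) x ≠ 0 := by
    unfold g3
    exact mul_ne_zero (mul_ne_zero hx3 hx3) hx3
  have h3 := (mul_eq_zero.1 hvx).resolve_right hg
  have h4 := (mul_eq_zero.1 h3).resolve_left hx0.ne'
  linarith

end Pool.Agent.X83.PC
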