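import Pool.Agent.X113.PC2

/-! # The second moment of the counts bounds the number of pairs with equal ordinates -/

set_option autoImplicit false

namespace Pool.Agent.X83.PC

open MeasureTheory Set Filter Topology
open Pool.Agent.X113.PG

variable {ι : Type*} {S : Finset ι} {m x : ι → ℝ}

/-- the weighted number of pairs of equal points with `A < x ≤ B` -/
noncomputable def dg (S : Finset ι) (m x : ι → ℝ) (A B : ℝ) : ℝ := ∑ s ∈ S, ∑ s' ∈ S,
  m s * m s' * (if A < x s ∧ x s ≤ B ∧ x s = x s' then 1 else 0)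

lemma dg_nonneg (hm : ∀ s, 0 ≤ m s) (A B : ℝ) : 0 ≤ dg S m x A B :=
  Finset.sum_nonneg fun s _ => Finset.sum_nonneg fun s' _ =>
    mul_nonneg (mul_nonneg (hm s) (hm s')) (ite01 _)

lemma dg_add {A B C : ℝ} (h1 : A ≤ B) (h2 : B ≤ C) :
    dg S m x A C = dg S m x A B + dg S m x B C := by
  unfold dg
  rw [← Finset.sum_add_distrib]
  refine Finset.sum_congr rfl fun s _ => ?_
  rw [← Finset.sum_add_distrib]
  refine Finset.sum_congr rfl fun s' _ => ?_
  rw [← mul_add]
  congr 1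
  by_cases c : x s = x s'
  · by_cases a1 : A < x s
    · by_cases a2 : x s ≤ B
      · rw [if_pos ⟨a1, by linarith, c⟩, if_pos ⟨a1, a2, c⟩, if_neg (fun z => by linarith [z.1])]
        norm_num
      · by_cases a3 : x s ≤ C
        · rw [if_pos ⟨a1, a3, c⟩, if_neg (fun z => a2 z.2.1), if_pos ⟨by linarith, a3, c⟩]
          norm_num
        · rw [if_neg (fun z => a3 z.2.1), if_neg (fun z => a2 z.2.1), if_neg (fun z => a3 z.2.1)]
          norm_num
    · rw [if_neg (fun z => a1 z.1), if_neg (fun z => a1 z.1),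
        if_neg (fun z => a1 (by linarith [z.1]))]
      norm_num
  · rw [if_neg (fun z => c z.2.2), if_neg (fun z => c z.2.2), if_neg (fun z => c z.2.2)]
    norm_num

/-- counting the multiples of `h / K` above `d` -/
lemma count_le {h d : ℝ} (hh : 0 < h) (hd0 : 0 ≤ d) (hdh : d ≤ h) {K : ℕ} (hK : 0 < K) :
    h / K * ∑ k ∈ Finset.range K, (if 0 < d ∧ d ≤ k * h / K then (1 : ℝ) else 0) ≤ h - d := by
  classical
  have hKr : (0 : ℝ) < K := by exact_mod_cast hK
  obtain ⟨y, hy⟩ : ∃ y : ℝ, y = d * K / h := ⟨_, rfl⟩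
  have hy0 : 0 ≤ y := by rw [hy]; positivity
  have hyK : y ≤ K := by
    rw [hy, div_le_iff₀ hh, mul_comm]
    exact mul_le_mul_of_nonneg_left hdh hKr.le
  have h1 : ∑ k ∈ Finset.range K, (if 0 < d ∧ d ≤ k * h / K then (1 : ℝ) else 0) ≤
      ∑ k ∈ Finset.range K, (if ⌈y⌉₊ ≤ k then (1 : ℝ) else 0) := by
    refine Finset.sum_le_sum fun k _ => ite_le_ite ?_
    rintro ⟨-, h2⟩
    rw [le_div_iff₀ hKr] at h2
    rw [Nat.ceil_le, hy, div_le_iff₀ hh]
    exact h2
  have h2 : ∑ k ∈ Finset.range K, (if ⌈y⌉₊ ≤ k then (1 : ℝ) else 0) = K - ⌈y⌉₊ := by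
    have hc : ⌈y⌉₊ ≤ K := Nat.ceil_le.2 hyK
    rw [Finset.sum_boole]
    have e : (Finset.range K).filter (fun k => ⌈y⌉₊ ≤ k) = Finset.Ico ⌈y⌉₊ K := by
      ext k
      simp only [Finset.mem_filter, Finset.mem_range, Finset.mem_Ico]
      tauto
    rw [e, Nat.card_Ico, Nat.cast_sub hc]
  have h3 : y ≤ (⌈y⌉₊ : ℝ) := Nat.le_ceil y
  have h4 : ∑ k ∈ Finset.range K, (if 0 < d ∧ d ≤ k * h / K then (1 : ℝ) else 0) ≤ K - y := by
    linarith
  calc h / K * ∑ k ∈ Finset.range K, (if 0 < d ∧ d ≤ k * h / K then (1 : ℝ) else 0) ≤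
      h / K * (K - y) := mul_le_mul_of_nonneg_left h4 (by positivity)
    _ = h - d := by rw [hy]; field_simp

/-- the second moment from below -/
lemma second_lo (hm : ∀ s, 0 ≤ m s) {A B h : ℝ} (hAB : A ≤ B) (hh : 0 < h) {K : ℕ} (hK : 0 < K) :
    h * dg S m x (A + 2 * h) B + 2 * (h / K) * ∑ k ∈ Finset.range K,
      pr S m x (A + 2 * h) B (k * h / K) ≤ ∫ t in A..B, cn S m x h t ^ 2 := by
  have hKr : (0 : ℝ) < K := by exact_mod_cast hK
  obtain ⟨Q, hQ⟩ : ∃ Q : ι → ι → Prop, ∀ s s', Q s s' ↔ A + 2 * h < x s ∧ x s ≤ B ∧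
      0 ≤ x s - x s' ∧ x s - x s' ≤ h := ⟨_, fun s s' => Iff.rfl⟩
  classical
  obtain ⟨w, hw⟩ : ∃ w : ι → ι → ℝ, ∀ s s', w s s' = if x s = x s' then 1 else
      if x s' < x s then 2 else 0 := ⟨_, fun s s' => rfl⟩
  have hw0 : ∀ s s', 0 ≤ w s s' := by
    intro s s'; rw [hw]; split_ifs <;> norm_num
  obtain ⟨c, hc⟩ : ∃ c : ι → ι → ℝ, ∀ s s', c s s' = m s * m s' *
      (if Q s s' then w s s' else 0) := ⟨_, fun s s' => rfl⟩
  have hc0 : ∀ s s', 0 ≤ c s s' := by
    intro s s'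
    rw [hc]
    refine mul_nonneg (mul_nonneg (hm s) (hm s')) ?_
    split_ifs
    · exact hw0 _ _
    · exact le_rfl
  -- the pointwise inequality
  have hpt : ∀ t, ∑ s ∈ S, ∑ s' ∈ S, c s s' * W (x s - h) (h - (x s - x s')) t ≤
      cn S m x h t ^ 2 := by
    intro t
    obtain ⟨P, hP⟩ : ∃ P : ι → ι → ℝ, ∀ s s', P s s' = m s * m s' *
      ((if t < x s ∧ x s ≤ t + h then 1 else 0) * (if t < x s' ∧ x s' ≤ t + h then 1 else 0)) :=
      ⟨_, fun s s' => rfl⟩
    have hP0 : ∀ s s', 0 ≤ P s s' := fun s s' => by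
      rw [hP]; exact mul_nonneg (mul_nonneg (hm s) (hm s')) (mul_nonneg (ite01 _) (ite01 _))
    have e1 : cn S m x h t ^ 2 = ∑ s ∈ S, ∑ s' ∈ S, P s s' := by
      have := cn_prod (S := S) (m := m) (x := x) h 0 h t
      rw [add_zero, ← sq] at this
      rw [this]
      refine Finset.sum_congr rfl fun s _ => Finset.sum_congr rfl fun s' _ => ?_
      rw [hP]
    have e2 : ∑ s ∈ S, ∑ s' ∈ S, P s s' * w s s' = ∑ s ∈ S, ∑ s' ∈ S, P s s' * w s' s := by
      rw [Finset.sum_comm]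
      refine Finset.sum_congr rfl fun s _ => Finset.sum_congr rfl fun s' _ => ?_
      rw [hP, hP]; ring
    have e3 : ∑ s ∈ S, ∑ s' ∈ S, P s s' * w s s' + ∑ s ∈ S, ∑ s' ∈ S, P s s' * w s' s =
        2 * ∑ s ∈ S, ∑ s' ∈ S, P s s' := by
      rw [← Finset.sum_add_distrib, Finset.mul_sum]
      refine Finset.sum_congr rfl fun s _ => ?_
      rw [← Finset.sum_add_distrib, Finset.mul_sum]
      refine Finset.sum_congr rfl fun s' _ => ?_
      rw [← mul_add, mul_comm 2]
      congr 1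
      rw [hw, hw]
      rcases lt_trichotomy (x s) (x s') with g | g | g
      · rw [if_neg g.ne, if_neg (not_lt.2 g.le), if_neg g.ne', if_pos g]; norm_num
      · rw [if_pos g, if_pos g.symm]; norm_num
      · rw [if_neg g.ne', if_pos g, if_neg g.ne, if_neg (not_lt.2 g.le)]; norm_num
    have e4 : cn S m x h t ^ 2 = ∑ s ∈ S, ∑ s' ∈ S, P s s' * w s s' := by
      rw [e1]; linarith
    rw [e4]
    refine Finset.sum_le_sum fun s _ => Finset.sum_le_sum fun s' _ => ?_
    by_cases c1 : Q s s'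
    · by_cases c2 : x s - h ≤ t ∧ t < x s - h + (h - (x s - x s'))
      · have c3 := (hQ s s').1 c1
        rw [hc, hP, if_pos c1]
        unfold W
        rw [if_pos c2, if_pos (show t < x s ∧ x s ≤ t + h from
          ⟨by linarith [c2.2, c3.2.2.1], by linarith [c2.1]⟩),
          if_pos (show t < x s' ∧ x s' ≤ t + h from
          ⟨by linarith [c2.2], by linarith [c2.1, c3.2.2.1]⟩)]
        simp
      · unfold W
        rw [if_neg c2, mul_zero]
        exact mul_nonneg (hP0 _ _) (hw0 _ _)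
    · rw [hc, if_neg c1, mul_zero, zero_mul]
      exact mul_nonneg (hP0 _ _) (hw0 _ _)
  have hii : ∀ s ∈ S, IntervalIntegrable (fun t => ∑ s' ∈ S, c s s' *
      W (x s - h) (h - (x s - x s')) t) volume A B := fun s _ => by
    have h3 : ∀ s' ∈ S, IntervalIntegrable (fun t => c s s' * W (x s - h) (h - (x s - x s')) t)
      volume A B := fun s' _ => (W_int _ _ _ _).const_mul _
    exact ii_sum h3
  have h1 : ∫ t in A..B, ∑ s ∈ S, ∑ s' ∈ S, c s s' * W (x s - h) (h - (x s - x s')) t ≤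
      ∫ t in A..B, cn S m x h t ^ 2 := by
    refine intervalIntegral.integral_mono_on hAB (ii_sum hii) ?_ fun t _ => hpt t
    have := cn_prod_int (S := S) (m := m) (x := x) hm h 0 h A B
    simp_rw [add_zero, ← sq] at this
    exact this
  refine le_trans ?_ h1
  rw [intervalIntegral.integral_finsetSum hii]
  have h2 : h * dg S m x (A + 2 * h) B + 2 * (h / K) * ∑ k ∈ Finset.range K,
      pr S m x (A + 2 * h) B (k * h / K) = ∑ s ∈ S, ∑ s' ∈ S, m s * m s' *
      (h * (if A + 2 * h < x s ∧ x s ≤ B ∧ x s = x s' then 1 else 0) +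
        2 * (h / K * ∑ k ∈ Finset.range K, (if A + 2 * h < x s ∧ x s ≤ B ∧ 0 < x s - x s' ∧
          x s - x s' ≤ k * h / K then 1 else 0))) := by
    unfold dg pr
    rw [Finset.sum_comm (s := Finset.range K)]
    simp_rw [Finset.sum_comm (s := Finset.range K)]
    rw [Finset.mul_sum, Finset.mul_sum, ← Finset.sum_add_distrib]
    refine Finset.sum_congr rfl fun s _ => ?_
    rw [Finset.mul_sum, Finset.mul_sum, ← Finset.sum_add_distrib]
    refine Finset.sum_congr rfl fun s' _ => ?_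
    rw [← Finset.mul_sum]
    ring
  rw [h2]
  refine Finset.sum_le_sum fun s _ => ?_
  rw [intervalIntegral.integral_finsetSum fun s' _ => (W_int _ _ _ _).const_mul _]
  refine Finset.sum_le_sum fun s' _ => ?_
  rw [intervalIntegral.integral_const_mul]
  by_cases a0 : A + 2 * h < x s ∧ x s ≤ B
  · have e0 : ∀ k : ℕ, (if A + 2 * h < x s ∧ x s ≤ B ∧ 0 < x s - x s' ∧
        x s - x s' ≤ k * h / K then (1 : ℝ) else 0) =
        if 0 < x s - x s' ∧ x s - x s' ≤ k * h / K then 1 else 0 := by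
      intro k
      by_cases g : 0 < x s - x s' ∧ x s - x s' ≤ k * h / K
      · rw [if_pos ⟨a0.1, a0.2, g⟩, if_pos g]
      · rw [if_neg (fun z => g z.2.2), if_neg g]
    simp_rw [e0]
    by_cases c1 : Q s s'
    · have c3 := (hQ s s').1 c1
      have hW := W_lo (A := A) (B := B) (u := x s - h) (d := h - (x s - x s'))
        (by linarith [c3.1]) (by linarith [c3.2.1, c3.2.2.1]) (by linarith [c3.2.2.2])
      refine le_trans ?_ (mul_le_mul_of_nonneg_left hW (hc0 s s'))
      rw [hc, if_pos c1, mul_assoc (m s * m s') (w s s')]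
      refine mul_le_mul_of_nonneg_left ?_ (mul_nonneg (hm s) (hm s'))
      rcases c3.2.2.1.eq_or_lt with g | g
      · have g1 : x s = x s' := by linarith
        rw [hw, if_pos g1, if_pos ⟨a0.1, a0.2, g1⟩]
        have e5 : ∀ k : ℕ, (if 0 < x s - x s' ∧ x s - x s' ≤ k * h / K then (1 : ℝ) else 0) = 0 := by
          intro k
          rw [if_neg (fun z => by linarith [z.1])]
        simp_rw [e5]
        simp [g1]
      · have g1 : x s ≠ x s' := by
          intro hcon
          rw [hcon] at g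
          linarith
        rw [hw, if_neg g1, if_pos (show x s' < x s by linarith), if_neg (fun z => g1 z.2.2)]
        have := count_le hh c3.2.2.1 c3.2.2.2 hK
        linarith
    · have hneg : ¬ (0 ≤ x s - x s' ∧ x s - x s' ≤ h) := fun z => c1 ((hQ s s').2 ⟨a0.1, a0.2, z⟩)
      have g1 : x s ≠ x s' := by
        intro hcon
        exact hneg ⟨by linarith, by linarith⟩
      rw [hc, if_neg c1, mul_zero, zero_mul, if_neg (fun z => g1 z.2.2)]
      have e5 : ∑ k ∈ Finset.range K, (if 0 < x s - x s' ∧ x s - x s' ≤ k * h / K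
          then (1 : ℝ) else 0) = 0 := by
        refine Finset.sum_eq_zero fun k hk => ?_
        rw [if_neg]
        rintro ⟨z1, z2⟩
        apply hneg
        refine ⟨z1.le, z2.trans ?_⟩
        rw [div_le_iff₀ hKr]
        have : (k : ℝ) ≤ K := by exact_mod_cast (Finset.mem_range.1 hk).le
        nlinarith
      rw [e5]
      simp
  · have e0 : ∀ k : ℕ, (if A + 2 * h < x s ∧ x s ≤ B ∧ 0 < x s - x s' ∧
        x s - x s' ≤ k * h / K then (1 : ℝ) else 0) = 0 := by
      intro k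
      rw [if_neg (fun z => a0 ⟨z.1, z.2.1⟩)]
    simp_rw [e0]
    have c1 : ¬ Q s s' := fun z => a0 ⟨((hQ s s').1 z).1, ((hQ s s').1 z).2.1⟩
    rw [hc, if_neg c1, if_neg (fun z => a0 ⟨z.1, z.2.1⟩)]
    simp

/-- equal points near an edge -/
lemma dg_edge (hm : ∀ s, 0 ≤ m s) {A η : ℝ} :
    dg S m x A (A + η) ≤ cn S m x η A ^ 2 := by
  have e2 : cn S m x η A ^ 2 = cn S m x η (A + 0) * cn S m x η A := by rw [add_zero]; ring
  rw [e2, cn_prod]
  unfold dg
  refine Finset.sum_le_sum fun s _ => Finset.sum_le_sum fun s' _ => ?_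
  refine mul_le_mul_of_nonneg_left ?_ (mul_nonneg (hm s) (hm s'))
  by_cases c1 : A < x s ∧ x s ≤ A + η ∧ x s = x s'
  · rw [if_pos c1, if_pos (show A + 0 < x s ∧ x s ≤ A + 0 + η from
      ⟨by linarith [c1.1], by linarith [c1.2.1]⟩),
      if_pos (show A < x s' ∧ x s' ≤ A + η from
      ⟨by linarith [c1.1, c1.2.2], by linarith [c1.2.1, c1.2.2]⟩)]
    norm_num
  · rw [if_neg c1]
    exact mul_nonneg (ite01 _) (ite01 _)

lemma pr_mono (hm : ∀ s, 0 ≤ m s) {A B h h' : ℝ} (hh : h ≤ h') :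
    pr S m x A B h ≤ pr S m x A B h' := by
  unfold pr
  refine Finset.sum_le_sum fun s _ => Finset.sum_le_sum fun s' _ =>
    mul_le_mul_of_nonneg_left (ite_le_ite ?_) (mul_nonneg (hm s) (hm s'))
  rintro ⟨h1, h2, h3, h4⟩
  exact ⟨h1, h2, h3, h4.trans hh⟩

end Pool.Agent.X83.PC
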