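import Pool.Agent.X83.PC.Diag1

/-! # Pairs with equal ordinates in a dyadic block and up to a height -/

set_option autoImplicit false

namespace Pool.Agent.X83.PC

open MeasureTheory Set Filter Topology
open H370 (Zf mult mem_Zf good_zeta NN NN_eq zset)
open Pool.Agent.TH850.UV (NS mS mS_nonneg)
open Pool.Agent.X113.PG
open Pool.Agent.X113.PC (SU cc BM facts first_moment ZZ ZZ_fin PSt PSt_fin FF FF_mono FF_add FF_pr
  cc_nonneg)

/-- the second moment from above -/
theorem second_up : ∃ C : ℝ, 1 ≤ C ∧ ∀ a : ℝ, 1 ≤ a → ∃ U0 : ℝ, 100 ≤ U0 ∧ ∀ U : ℝ, U0 ≤ U →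
    ∀ h : ℝ, 0 < h → h * Real.log U ≤ 2 * Real.pi * a →
    h ≤ 7 ∧ 2 * h ≤ U ∧ (∫ t in U..(2 * U), cc U h t ^ 2) ≤
      U * (a ^ 2 + Real.log (1 + a) / Real.pi ^ 2 + C) ∧
    dg (SU U) mS Complex.im U (U + 2 * h) * h ≤ U ∧
    (∀ r : ℝ, 0 ≤ r → r ≤ h → 2 * h * pr (SU U) mS Complex.im U (U + 2 * h) r ≤ U) := by
  obtain ⟨C, U0, hC, hU0, hf⟩ := facts 1 le_rfl
  have hpi := Real.pi_pos
  have hpi3 := Real.pi_gt_three
  refine ⟨C + 1, by linarith, fun a ha => ?_⟩
  have hev : ∀ᶠ U : ℝ in atTop, 8 * Real.pi * a ^ 2 * C + 7 * a + a * Real.log a ≤ Real.log U :=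
    Real.tendsto_log_atTop.eventually_ge_atTop _
  obtain ⟨U1, hU1⟩ := hev.exists_forall_of_atTop
  refine ⟨max U0 U1, hU0.trans (le_max_left _ _), fun U hU h h0 hha => ?_⟩
  obtain ⟨f1, f2, f3, f4, f5, f6⟩ := hf U ((le_max_left _ _).trans hU)
  have hL := hU1 U ((le_max_right _ _).trans hU)
  have hU100 : 100 ≤ U := hU0.trans ((le_max_left _ _).trans hU)
  have hUp : 0 < U := by linarith
  have hLp : 0 < Real.log U := by linarith
  have hla : 0 ≤ Real.log a := Real.log_nonneg ha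
  have hala : 0 ≤ a * Real.log a := by positivity
  have ha2 : 0 ≤ 8 * Real.pi * a ^ 2 * C := by positivity
  have h7 : h ≤ 1 := by
    have h1 : h * (7 * a) ≤ h * Real.log U := mul_le_mul_of_nonneg_left (by linarith) h0.le
    have h2 : h * (7 * a) ≤ 7 * a := by
      have := Real.pi_lt_d2
      nlinarith
    nlinarith
  obtain ⟨b, hb⟩ : ∃ b : ℝ, b = h * Real.log U / (2 * Real.pi) := ⟨_, rfl⟩
  have hb0 : 0 < b := by rw [hb]; positivity
  have hba : b ≤ a := by rw [hb, div_le_iff₀ (by positivity)]; linarith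
  have hhb : 2 * Real.pi * b / Real.log U = h := by rw [hb]; field_simp
  have g6 := f6 b hb0 (by
    rcases le_or_gt b 1 with g | g
    · have : b * Real.log b ≤ 0 := mul_nonpos_of_nonneg_of_nonpos hb0.le
        (Real.log_nonpos hb0.le g)
      linarith
    · have h1 : Real.log b ≤ Real.log a := Real.log_le_log hb0 hba
      have h2 : b * Real.log b ≤ a * Real.log a :=
        mul_le_mul hba h1 (Real.log_nonneg g.le) (by linarith)
      have : 0 ≤ 7 * a := by linarith
      linarith) (by rw [hhb]; linarith)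
  rw [hhb] at g6
  have g5 := first_moment hC hU100 f1 f2 f4 f5 (h := 0) (k := h) le_rfl h0.le (by linarith)
  simp_rw [add_zero] at g5
  have e1 : h * (U * Real.log U / (2 * Real.pi)) = b * U := by rw [hb]; ring
  rw [e1] at g5
  have hBM := BM.cc U h
  have i1 : IntervalIntegrable (fun t => (cc U h t - b) ^ 2) volume U (2 * U) :=
    (hBM.sub (BM.const b)).sq.ii _ _
  have i2 : IntervalIntegrable (fun t => cc U h t) volume U (2 * U) := hBM.ii _ _
  have e2 : ∫ t in U..(2 * U), cc U h t ^ 2 = (∫ t in U..(2 * U), (cc U h t - b) ^ 2) +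
      2 * b * (∫ t in U..(2 * U), cc U h t) - b ^ 2 * U := by
    have e3 : ∫ t in U..(2 * U), cc U h t ^ 2 = ∫ t in U..(2 * U),
        ((cc U h t - b) ^ 2 + 2 * b * cc U h t - b ^ 2) := by
      refine intervalIntegral.integral_congr fun t _ => ?_
      show cc U h t ^ 2 = (cc U h t - b) ^ 2 + 2 * b * cc U h t - b ^ 2
      ring
    rw [e3, intervalIntegral.integral_sub (i1.add (i2.const_mul _)) (by simp),
      intervalIntegral.integral_add i1 (i2.const_mul _), intervalIntegral.integral_const_mul,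
      intervalIntegral.integral_const]
    simp only [smul_eq_mul]
    ring
  have q1 := (abs_le.1 g6).2
  have q2 := (abs_le.1 g5).2
  have hCL : 100 * (C * Real.log U) ^ 2 ≤ U := by
    have hx : 0 < C * Real.log U := by positivity
    have := pow_le_pow_left₀ hx.le (show C * Real.log U ≤ C * Real.log U + 1 by linarith) 2
    linarith
  have q3 : Real.log (1 + b) ≤ Real.log (1 + a) := Real.log_le_log (by linarith) (by linarith)
  refine ⟨by linarith, by linarith, ?_, ?_, ?_⟩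
  · rw [e2]
    have q4 : 2 * b * (∫ t in U..(2 * U), cc U h t) ≤ 2 * b * (b * U + h * (2 * C * U)) :=
      mul_le_mul_of_nonneg_left (by linarith) (by positivity)
    have q5 : U / Real.pi ^ 2 * Real.log (1 + b) ≤ U / Real.pi ^ 2 * Real.log (1 + a) :=
      mul_le_mul_of_nonneg_left q3 (by positivity)
    have q6 : 4 * b * h * C ≤ 1 := by
      have r1 : 4 * b * h * C * Real.log U ≤ 8 * Real.pi * a ^ 2 * C := by
        have r2 : b * (h * Real.log U) ≤ a * (2 * Real.pi * a) :=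
          mul_le_mul hba hha (by positivity) (by linarith)
        have r3 : 4 * C * (b * (h * Real.log U)) ≤ 4 * C * (a * (2 * Real.pi * a)) :=
          mul_le_mul_of_nonneg_left r2 (by linarith)
        linarith
      have r4 : 4 * b * h * C * Real.log U ≤ 1 * Real.log U := by
        have : 0 ≤ 7 * a := by linarith
        linarith
      exact le_of_mul_le_mul_right r4 hLp
    have q7 : 4 * b * h * C * U ≤ U := by nlinarith
    have q8 : b ^ 2 * U ≤ a ^ 2 * U := by
      apply mul_le_mul_of_nonneg_right _ hUp.le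
      exact pow_le_pow_left₀ hb0.le hba 2
    have e4 : U / Real.pi ^ 2 * Real.log (1 + a) = U * (Real.log (1 + a) / Real.pi ^ 2) := by ring
    rw [e4] at q5
    have q9 : 2 * b * (b * U + h * (2 * C * U)) = 2 * (b ^ 2 * U) + 4 * b * h * C * U := by ring
    have q10 : U * (a ^ 2 + Real.log (1 + a) / Real.pi ^ 2 + (C + 1)) =
      a ^ 2 * U + U * (Real.log (1 + a) / Real.pi ^ 2) + C * U + U := by ring
    rw [q9] at q4
    rw [q10]
    linarith
  · have r1 := dg_edge (S := SU U) (m := mS) (x := Complex.im) mS_nonneg (A := U) (η := 2 * h)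
    have r2 := f4 U (2 * h) (by linarith) (by linarith) (by positivity) (by linarith)
    have r3 := cc_nonneg U (2 * h) U
    have r4 : cc U (2 * h) U ^ 2 ≤ (C * Real.log U) ^ 2 := pow_le_pow_left₀ r3 r2 2
    have r5 : (C * Real.log U) ^ 2 ≤ U := by
      have := sq_nonneg (C * Real.log U)
      linarith
    have r6 := dg_nonneg (S := SU U) (m := mS) (x := Complex.im) mS_nonneg U (U + 2 * h)
    have r7 : dg (SU U) mS Complex.im U (U + 2 * h) ≤ U := r1.trans (r4.trans r5)
    exact (mul_le_of_le_one_right r6 h7).trans r7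
  · intro r hr0 hrh
    have r1 := pr_edge (S := SU U) (m := mS) (x := Complex.im) mS_nonneg (A := U) (η := 2 * h)
      (h := r) (by linarith) hr0
    have r2 := f4 (U - r) r (by linarith) (by linarith) hr0 (by linarith)
    have r3 := f4 U (2 * h) (by linarith) (by linarith) (by positivity) (by linarith)
    have r4 := cc_nonneg U r (U - r)
    have r5 := cc_nonneg U (2 * h) U
    have r6 : (cc U r (U - r) + cc U (2 * h) U) ^ 2 ≤ (C * Real.log U + C * Real.log U) ^ 2 :=
      pow_le_pow_left₀ (by linarith) (by linarith) 2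
    have r7 : 2 * (C * Real.log U + C * Real.log U) ^ 2 ≤ U := by
      have e5 : 2 * (C * Real.log U + C * Real.log U) ^ 2 = 8 * (C * Real.log U) ^ 2 := by ring
      have := sq_nonneg (C * Real.log U)
      rw [e5]
      linarith
    have r8 := pr_nonneg (S := SU U) (m := mS) (x := Complex.im) mS_nonneg U (U + 2 * h) r
    have r9 : 2 * pr (SU U) mS Complex.im U (U + 2 * h) r ≤ U := by
      have : pr (SU U) mS Complex.im U (U + 2 * h) r ≤
        (C * Real.log U + C * Real.log U) ^ 2 := r1.trans r6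
      linarith
    have r10 : 2 * h * pr (SU U) mS Complex.im U (U + 2 * h) r =
      (2 * pr (SU U) mS Complex.im U (U + 2 * h) r) * h := by ring
    rw [r10]
    exact (mul_le_of_le_one_right (by linarith) h7).trans r9

/-- the block inequality -/
theorem block_ineq : ∃ C : ℝ, 1 ≤ C ∧ ∀ a : ℝ, 1 ≤ a → ∃ U0 : ℝ, 100 ≤ U0 ∧ ∀ U : ℝ, U0 ≤ U →
    ∀ h : ℝ, 0 < h → h * Real.log U ≤ 2 * Real.pi * a → h ≤ 7 ∧ ∀ K : ℕ, 0 < K →
      h * dg (SU U) mS Complex.im U (2 * U) + 2 * (h / K) * ∑ k ∈ Finset.range K,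
        pr (SU U) mS Complex.im U (2 * U) (k * h / K) ≤
      U * (a ^ 2 + Real.log (1 + a) / Real.pi ^ 2 + C) := by
  obtain ⟨C, hC, hf⟩ := second_up
  refine ⟨C + 2, by linarith, fun a ha => ?_⟩
  obtain ⟨U0, hU0, hU⟩ := hf a ha
  refine ⟨U0, hU0, fun U hUU h h0 hha => ?_⟩
  obtain ⟨c1, c2, c3, c4, c5⟩ := hU U hUU h h0 hha
  refine ⟨c1, fun K hK => ?_⟩
  have hKr : (0 : ℝ) < K := by exact_mod_cast hK
  have hUp : 0 < U := by linarith
  have d1 := second_lo (S := SU U) (m := mS) (x := Complex.im) mS_nonneg (A := U) (B := 2 * U)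
    (h := h) (by linarith) h0 hK
  have d2 := dg_add (S := SU U) (m := mS) (x := Complex.im) (A := U) (B := U + 2 * h)
    (C := 2 * U) (by linarith) (by linarith)
  have d3 : ∀ r : ℝ, pr (SU U) mS Complex.im U (2 * U) r =
      pr (SU U) mS Complex.im U (U + 2 * h) r + pr (SU U) mS Complex.im (U + 2 * h) (2 * U) r :=
    fun r => pr_add (by linarith) (by linarith) r
  have d4 : ∑ k ∈ Finset.range K, pr (SU U) mS Complex.im U (2 * U) (k * h / K) =
      ∑ k ∈ Finset.range K, pr (SU U) mS Complex.im U (U + 2 * h) (k * h / K) +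
      ∑ k ∈ Finset.range K, pr (SU U) mS Complex.im (U + 2 * h) (2 * U) (k * h / K) := by
    rw [← Finset.sum_add_distrib]
    exact Finset.sum_congr rfl fun k _ => d3 _
  have d5 : 2 * (h / K) * ∑ k ∈ Finset.range K,
      pr (SU U) mS Complex.im U (U + 2 * h) (k * h / K) ≤ U := by
    have e1 : ∑ k ∈ Finset.range K, 2 * h * pr (SU U) mS Complex.im U (U + 2 * h) (k * h / K) ≤
        ∑ k ∈ Finset.range K, U := by
      refine Finset.sum_le_sum fun k hk => c5 _ (by positivity) ?_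
      rw [div_le_iff₀ hKr]
      have : (k : ℝ) ≤ K := by exact_mod_cast (Finset.mem_range.1 hk).le
      nlinarith
    rw [Finset.sum_const, Finset.card_range, nsmul_eq_mul, ← Finset.mul_sum] at e1
    have e2 : 2 * (h / K) * ∑ k ∈ Finset.range K,
      pr (SU U) mS Complex.im U (U + 2 * h) (k * h / K) = (2 * h * ∑ k ∈ Finset.range K,
      pr (SU U) mS Complex.im U (U + 2 * h) (k * h / K)) / K := by ring
    rw [e2, div_le_iff₀ hKr]
    linarith
  change _ ≤ ∫ t in U..(2 * U), cc U h t ^ 2 at d1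
  rw [d4, d2]
  have d6 : h * (dg (SU U) mS Complex.im U (U + 2 * h) +
      dg (SU U) mS Complex.im (U + 2 * h) (2 * U)) + 2 * (h / K) *
      (∑ k ∈ Finset.range K, pr (SU U) mS Complex.im U (U + 2 * h) (k * h / K) +
      ∑ k ∈ Finset.range K, pr (SU U) mS Complex.im (U + 2 * h) (2 * U) (k * h / K)) =
      dg (SU U) mS Complex.im U (U + 2 * h) * h +
      2 * (h / K) * ∑ k ∈ Finset.range K, pr (SU U) mS Complex.im U (U + 2 * h) (k * h / K) +
      (h * dg (SU U) mS Complex.im (U + 2 * h) (2 * U) + 2 * (h / K) *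
      ∑ k ∈ Finset.range K, pr (SU U) mS Complex.im (U + 2 * h) (2 * U) (k * h / K)) := by ring
  have d7 : U * (a ^ 2 + Real.log (1 + a) / Real.pi ^ 2 + (C + 2)) =
      U * (a ^ 2 + Real.log (1 + a) / Real.pi ^ 2 + C) + 2 * U := by ring
  rw [d6, d7]
  linarith

/-- pairs of zeros with equal ordinates in `(A, T]` -/
def DSt (A T : ℝ) : Set (ℂ × ℂ) := {p : ℂ × ℂ | p.1 ∈ ZZ ∧ p.2 ∈ ZZ ∧ A < p.1.im ∧
  p.1.im ≤ T ∧ p.1.im = p.2.im}

/-- the number of pairs of zeros with equal ordinates in `(A, T]`, with multiplicity -/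
noncomputable def DS (A T : ℝ) : ℕ := ∑ᶠ p ∈ DSt A T,
  analyticOrderNatAt riemannZeta p.1 * analyticOrderNatAt riemannZeta p.2

lemma DSt_fin (A T : ℝ) : (DSt A T).Finite := by
  refine ((ZZ_fin A T).prod (ZZ_fin A T)).subset ?_
  rintro p ⟨h1, h2, h3, h4, h5⟩
  exact ⟨⟨h1, h3.le, h4⟩, ⟨h2, by linarith, by linarith⟩⟩

lemma DS_mono {A T T' : ℝ} (h1 : T ≤ T') : DS A T ≤ DS A T' := by
  unfold DS
  rw [finsum_mem_eq_finite_toFinset_sum _ (DSt_fin A T),
    finsum_mem_eq_finite_toFinset_sum _ (DSt_fin A T')]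
  refine Finset.sum_le_sum_of_subset_of_nonneg ?_ fun _ _ _ => Nat.zero_le _
  intro p hp
  rw [Set.Finite.mem_toFinset] at hp ⊢
  obtain ⟨a1, a2, a3, a4, a5⟩ := hp
  exact ⟨a1, a2, a3, by linarith, a5⟩

lemma DS_add {A B C : ℝ} (h1 : A ≤ B) (h2 : B ≤ C) : DS A C = DS A B + DS B C := by
  unfold DS
  rw [← finsum_mem_union ?_ (DSt_fin A B) (DSt_fin B C)]
  · have : DSt A C = DSt A B ∪ DSt B C := by
      ext p
      constructor
      · rintro ⟨a1, a2, a3, a4, a5⟩
        rcases le_or_gt p.1.im B with g | g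
        · exact Or.inl ⟨a1, a2, a3, g, a5⟩
        · exact Or.inr ⟨a1, a2, g, a4, a5⟩
      · rintro (⟨a1, a2, a3, a4, a5⟩ | ⟨a1, a2, a3, a4, a5⟩)
        · exact ⟨a1, a2, a3, a4.trans h2, a5⟩
        · exact ⟨a1, a2, by linarith, a4, a5⟩
    rw [this]
  · rw [Set.disjoint_left]
    rintro p ⟨a1, a2, a3, a4, a5⟩ ⟨b1, b2, b3, b4, b5⟩
    linarith

lemma DS_dg {U : ℝ} (hU : 100 ≤ U) :
    (DS U (2 * U) : ℝ) = dg (SU U) mS Complex.im U (2 * U) := by
  classical
  have hset : DSt U (2 * U) = (((SU U) ×ˢ (SU U)).filter (fun p : ℂ × ℂ => U < p.1.im ∧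
      p.1.im ≤ 2 * U ∧ p.1.im = p.2.im) : Finset (ℂ × ℂ)) := by
    ext p
    rw [Finset.mem_coe, Finset.mem_filter, Finset.mem_product]
    unfold SU
    rw [mem_Zf good_zeta (by linarith), mem_Zf good_zeta (by linarith)]
    constructor
    · rintro ⟨⟨b1, b2, b3⟩, ⟨b4, b5, b6⟩, a3, a4, a5⟩
      exact ⟨⟨⟨b2, b3, by linarith, by linarith, b1⟩, ⟨b5, b6, by linarith, by linarith, b4⟩⟩,
        a3, a4, a5⟩
    · rintro ⟨⟨⟨b2, b3, -, -, b1⟩, ⟨b5, b6, -, -, b4⟩⟩, a3, a4, a5⟩
      exact ⟨⟨b1, b2, b3⟩, ⟨b4, b5, b6⟩, a3, a4, a5⟩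
  unfold DS
  rw [hset, finsum_mem_coe_finset, Finset.sum_filter, Finset.sum_product]
  unfold dg
  push_cast
  refine Finset.sum_congr rfl fun s _ => Finset.sum_congr rfl fun s' _ => ?_
  show (if U < s.im ∧ s.im ≤ 2 * U ∧ s.im = s'.im then
      (analyticOrderNatAt riemannZeta s : ℝ) * (analyticOrderNatAt riemannZeta s' : ℝ) else 0) =
    mS s * mS s' * (if U < s.im ∧ s.im ≤ 2 * U ∧ s.im = s'.im then 1 else 0)
  rw [mul_ite, mul_one, mul_zero]
  rfl

/-- **the mean of the pair counts and the number of pairs with equal ordinates** -/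
theorem mean_up : ∃ C : ℝ, 1 ≤ C ∧ ∀ a : ℝ, 1 ≤ a → ∀ K : ℕ, 0 < K → ∀ᶠ T : ℝ in atTop,
    (DS 0 T : ℝ) + 2 / K * ∑ k ∈ Finset.range K,
      (FF 0 T (2 * Real.pi * (k * a / K) / Real.log T) : ℝ) ≤
    T * Real.log T / (2 * Real.pi) *
      (a + (Real.log (1 + a) / Real.pi ^ 2 + C) / a) := by
  obtain ⟨C, hC, hf⟩ := block_ineq
  have hpi := Real.pi_pos
  refine ⟨C + 1, by linarith, fun a ha K hK => ?_⟩
  have hKr : (0 : ℝ) < K := by exact_mod_cast hK
  obtain ⟨U0, hU0, hb⟩ := hf a ha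
  obtain ⟨Q, hQ⟩ : ∃ Q : ℝ, Q = a ^ 2 + Real.log (1 + a) / Real.pi ^ 2 + C := ⟨_, rfl⟩
  have hQ0 : 0 ≤ Q := by
    have : 0 ≤ Real.log (1 + a) := Real.log_nonneg (by linarith)
    rw [hQ]; positivity
  obtain ⟨K1, hK1⟩ : ∃ K1 : ℝ, K1 = (DS 0 (2 * U0) : ℝ) + 2 * (FF 0 (2 * U0) 7 : ℝ) := ⟨_, rfl⟩
  have hK10 : 0 ≤ K1 := by rw [hK1]; positivity
  have key : ∀ j : ℕ, ∀ T : ℝ, U0 ≤ T → T ≤ 2 ^ (j + 1) * U0 → ∀ h : ℝ, 0 < h →
      h * Real.log T ≤ 2 * Real.pi * a →
      h * (DS 0 T : ℝ) + 2 * (h / K) * ∑ k ∈ Finset.range K, (FF 0 T (k * h / K) : ℝ) ≤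
        T * Q + h * K1 := by
    intro j
    induction j with
    | zero =>
      intro T h1 h2 h h0 hha
      obtain ⟨h7, -⟩ := hb T h1 h h0 hha
      have h2' : T ≤ 2 * U0 := by simpa using h2
      have hT : 0 < T := by linarith
      have g1 : (DS 0 T : ℝ) ≤ DS 0 (2 * U0) := by exact_mod_cast DS_mono h2'
      have g2 : ∑ k ∈ Finset.range K, (FF 0 T (k * h / K) : ℝ) ≤
          ∑ k ∈ Finset.range K, (FF 0 (2 * U0) 7 : ℝ) := by
        refine Finset.sum_le_sum fun k hk => ?_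
        have : (k : ℝ) * h / K ≤ 7 := by
          rw [div_le_iff₀ hKr]
          have : (k : ℝ) ≤ K := by exact_mod_cast (Finset.mem_range.1 hk).le
          nlinarith
        exact_mod_cast FF_mono h2' this
      rw [Finset.sum_const, Finset.card_range, nsmul_eq_mul] at g2
      have g3 : 2 * (h / K) * ∑ k ∈ Finset.range K, (FF 0 T (k * h / K) : ℝ) ≤
          2 * (h / K) * (K * (FF 0 (2 * U0) 7 : ℝ)) :=
        mul_le_mul_of_nonneg_left g2 (by positivity)
      have g4 : 2 * (h / K) * (K * (FF 0 (2 * U0) 7 : ℝ)) = h * (2 * (FF 0 (2 * U0) 7 : ℝ)) := by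
        field_simp
      have g5 : h * (DS 0 T : ℝ) ≤ h * DS 0 (2 * U0) := mul_le_mul_of_nonneg_left g1 h0.le
      have g6 : 0 ≤ T * Q := by positivity
      have g7 : h * K1 = h * (DS 0 (2 * U0) : ℝ) + h * (2 * (FF 0 (2 * U0) 7 : ℝ)) := by
        rw [hK1]; ring
      rw [g7]
      linarith
    | succ j ih =>
      intro T h1 h2 h h0 hha
      rcases le_or_gt T (2 ^ (j + 1) * U0) with h3 | h3
      · exact ih T h1 h3 h h0 hha
      · obtain ⟨V, hV⟩ : ∃ V, V = T / 2 := ⟨_, rfl⟩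
        have hTV : T = 2 * V := by rw [hV]; ring
        have hV1 : U0 ≤ V := by
          have : (2 : ℝ) ≤ 2 ^ (j + 1) := by
            calc (2 : ℝ) = 2 ^ 1 := by norm_num
              _ ≤ _ := pow_le_pow_right₀ (by norm_num) (by omega)
          nlinarith
        have hV2 : V ≤ 2 ^ (j + 1) * U0 := by
          rw [hV, div_le_iff₀ two_pos]
          calc T ≤ 2 ^ (j + 1 + 1) * U0 := h2
            _ = _ := by ring
        have hV0 : 0 < V := by linarith
        have hlog : Real.log V ≤ Real.log T := Real.log_le_log hV0 (by linarith)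
        have hha' : h * Real.log V ≤ 2 * Real.pi * a :=
          (mul_le_mul_of_nonneg_left hlog h0.le).trans hha
        have i1 := ih V hV1 hV2 h h0 hha'
        obtain ⟨h7, i2⟩ := hb V hV1 h h0 hha'
        have i3 := i2 K hK
        have i4 : (DS 0 T : ℝ) = DS 0 V + dg (SU V) mS Complex.im V (2 * V) := by
          rw [← DS_dg (by linarith), hTV, DS_add hV0.le (by linarith)]
          push_cast; rfl
        have i5 : ∑ k ∈ Finset.range K, (FF 0 T (k * h / K) : ℝ) =
            ∑ k ∈ Finset.range K, (FF 0 V (k * h / K) : ℝ) +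
            ∑ k ∈ Finset.range K, pr (SU V) mS Complex.im V (2 * V) (k * h / K) := by
          rw [← Finset.sum_add_distrib]
          refine Finset.sum_congr rfl fun k hk => ?_
          have : (k : ℝ) * h / K ≤ 7 := by
            rw [div_le_iff₀ hKr]
            have : (k : ℝ) ≤ K := by exact_mod_cast (Finset.mem_range.1 hk).le
            nlinarith
          rw [← FF_pr (by linarith) this, hTV, FF_add hV0.le (by linarith)]
          push_cast; rfl
        rw [← hQ] at i3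
        rw [i4, i5]
        have i6 : h * ((DS 0 V : ℝ) + dg (SU V) mS Complex.im V (2 * V)) + 2 * (h / K) *
            (∑ k ∈ Finset.range K, (FF 0 V (k * h / K) : ℝ) +
            ∑ k ∈ Finset.range K, pr (SU V) mS Complex.im V (2 * V) (k * h / K)) =
            (h * (DS 0 V : ℝ) + 2 * (h / K) * ∑ k ∈ Finset.range K, (FF 0 V (k * h / K) : ℝ)) +
            (h * dg (SU V) mS Complex.im V (2 * V) + 2 * (h / K) *
            ∑ k ∈ Finset.range K, pr (SU V) mS Complex.im V (2 * V) (k * h / K)) := by ring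
        have i7 : T * Q = V * Q + V * Q := by rw [hTV]; ring
        rw [i6, i7]
        linarith
  have hlim : ∀ᶠ T : ℝ in atTop, 2 * Real.pi * a / Real.log T * K1 ≤ T := by
    have h1 : Tendsto (fun T : ℝ => 2 * Real.pi * a / Real.log T * K1) atTop (𝓝 (0 * K1)) :=
      (Real.tendsto_log_atTop.const_div_atTop _).mul_const _
    rw [zero_mul] at h1
    filter_upwards [h1.eventually (gt_mem_nhds one_pos), eventually_ge_atTop 1] with T g1 g2
    linarith
  filter_upwards [hlim, eventually_ge_atTop U0] with T hT1 hT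
  have hTp : 0 < T := by linarith
  have hlog : 0 < Real.log T := Real.log_pos (by linarith)
  obtain ⟨h, hh⟩ : ∃ h : ℝ, h = 2 * Real.pi * a / Real.log T := ⟨_, rfl⟩
  have h0 : 0 < h := by rw [hh]; positivity
  obtain ⟨j, hj⟩ := pow_unbounded_of_one_lt (T / U0) (by norm_num : (1 : ℝ) < 2)
  rw [div_lt_iff₀ (by linarith)] at hj
  have hj2 : (2 : ℝ) ^ j * U0 ≤ 2 ^ (j + 1) * U0 := by
    rw [pow_succ]
    have : (0 : ℝ) < 2 ^ j * U0 := by positivity
    linarith
  have hfin := key j T hT (by linarith) h h0 (by rw [hh]; field_simp; exact le_rfl)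
  have e1 : ∀ k : ℕ, 2 * Real.pi * (k * a / K) / Real.log T = k * h / K := by
    intro k; rw [hh]; ring
  simp_rw [e1]
  rw [← hh] at hT1
  have e2 : h * ((DS 0 T : ℝ) + 2 / K * ∑ k ∈ Finset.range K, (FF 0 T (k * h / K) : ℝ)) ≤
      h * (T * Real.log T / (2 * Real.pi) *
      (a + (Real.log (1 + a) / Real.pi ^ 2 + (C + 1)) / a)) := by
    have e3 : h * (T * Real.log T / (2 * Real.pi) *
      (a + (Real.log (1 + a) / Real.pi ^ 2 + (C + 1)) / a)) = T * (Q + 1) := by
      rw [hh, hQ]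
      field_simp
      ring
    rw [e3]
    have e4 : h * ((DS 0 T : ℝ) + 2 / K * ∑ k ∈ Finset.range K, (FF 0 T (k * h / K) : ℝ)) =
      h * (DS 0 T : ℝ) + 2 * (h / K) * ∑ k ∈ Finset.range K, (FF 0 T (k * h / K) : ℝ) := by ring
    rw [e4]
    linarith
  exact le_of_mul_le_mul_left e2 h0

end Pool.Agent.X83.PC
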