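import Pool.Agent.X83.PC.Cum3
import Pool.Agent.Y749.Rig.FFc

/-! # From the limit measures to the pair counts -/

set_option autoImplicit false

open MeasureTheory Set Filter Topology
open scoped NNReal ENNReal

namespace Pool.Agent.X83.PC

open Pool.Agent.Y749.Rig

variable {C : ℝ}

lemma mG_sym {x : ℝ} (hx : 0 ≤ x) : mG.real (Icc (-x) x) = 1 + 2 * ∫ u in (0:ℝ)..x, FF u := by
  have h1 : (Icc (-x) x).indicator (1 : ℝ → ℝ≥0∞) 0 = 1 := by
    rw [indicator_of_mem (show (0:ℝ) ∈ Icc (-x) x from ⟨by linarith, hx⟩)]; rfl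
  have h2 : ∫⁻ u in Icc (-x) x, ENNReal.ofReal (FF u) = ENNReal.ofReal (∫ u in (-x)..x, FF u) := by
    rw [intervalIntegral.integral_of_le (by linarith), ← integral_Icc_eq_integral_Ioc,
      ofReal_integral_eq_lintegral_ofReal _ (ae_of_all _ fun u => FF_nonneg u)]
    have := FF_ii (-x) x
    rw [intervalIntegrable_iff_integrableOn_Icc_of_le (by linarith)] at this
    exact this
  have h3 : ∫ u in (-x)..x, FF u = 2 * ∫ u in (0:ℝ)..x, FF u := by
    rw [← intervalIntegral.integral_add_adjacent_intervals (FF_ii (-x) 0) (FF_ii 0 x)]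
    have h5 : ∫ u in (-x)..0, FF u = ∫ u in (0 : ℝ)..x, FF u := by
      have := intervalIntegral.integral_comp_neg (a := (0 : ℝ)) (b := x) FF
      rw [neg_zero] at this
      rw [← this]
      exact intervalIntegral.integral_congr fun u _ => FF_even u
    rw [h5]; ring
  have h4 : 0 ≤ ∫ u in (0:ℝ)..x, FF u :=
    intervalIntegral.integral_nonneg hx fun u _ => FF_nonneg u
  rw [Measure.real, mG_apply, h1, h2, h3, ← ENNReal.ofReal_one, ← ENNReal.ofReal_add (by norm_num)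
    (by positivity), ENNReal.toReal_ofReal (by positivity)]

lemma FF_int_mono {a b : ℝ} (hab : a ≤ b) :
    ∫ u in (0:ℝ)..a, FF u ≤ ∫ u in (0:ℝ)..b, FF u := by
  have h1 := intervalIntegral.integral_add_adjacent_intervals (FF_ii 0 a) (FF_ii a b)
  have h2 : 0 ≤ ∫ u in a..b, FF u := intervalIntegral.integral_nonneg hab fun u _ => FF_nonneg u
  linarith

lemma FF_int_lip {a b : ℝ} (hab : a ≤ b) :
    ∫ u in (0:ℝ)..b, FF u ≤ (∫ u in (0:ℝ)..a, FF u) + (b - a) := by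
  have h1 := intervalIntegral.integral_add_adjacent_intervals (FF_ii 0 a) (FF_ii a b)
  have h2 : ∫ u in a..b, FF u ≤ b - a := by
    calc ∫ x in a..b, FF x ≤ ∫ x in a..b, (1 : ℝ) :=
          intervalIntegral.integral_mono_on hab (FF_ii a b) (by simp) fun x _ => FF_le_one x
      _ = b - a := by simp
  linarith

/-- a property that holds almost everywhere on the positive line holds somewhere in an interval -/
lemma ae_pick {P : ℝ → Prop} (h : ∀ᵐ x : ℝ, 0 < x → P x) {a b : ℝ} (ha : 0 ≤ a) (hab : a < b) :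
    ∃ x ∈ Ioo a b, P x := by
  by_contra hcon
  push Not at hcon
  have h4 : Ioo a b ⊆ {x | ¬ (0 < x → P x)} := by
    intro x hx hP
    exact hcon x hx (hP (lt_of_le_of_lt ha hx.1))
  have h5 := measure_mono_null h4 (ae_iff.1 h)
  rw [Real.volume_Ioo, ENNReal.ofReal_eq_zero] at h5
  linarith

section

variable {M : ℝ → Measure ℝ} {U : Ultrafilter ℝ} {μ : Measure ℝ}

/-- from the distribution of the limit to the family -/
theorem cum_end (hC : 2 ≤ C) (hM : ∀ᶠ T in atTop, Bdd C (M T)) (hU : (U : Filter ℝ) ≤ atTop)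
    (hμ : ∀ f : ℝ → ℝ, Continuous f → QD f →
      Integrable f μ ∧ Tendsto (fun T => ∫ x, f x ∂(M T)) U (𝓝 (∫ x, f x ∂μ)))
    (hsym : ∀ᵐ x : ℝ, 0 < x → sy μ x = sy mG x) {a : ℝ} (ha : 0 < a) :
    Tendsto (fun T => (M T).real (Icc (-a) a)) U (𝓝 (1 + 2 * ∫ u in (0:ℝ)..a, FF u)) := by
  have hC0 : 0 ≤ C := by linarith
  have b1 := bdd_limit hU hC0 hM hμ
  have b2 : Bdd (4 * C) mG := fun a => (mG_bdd a).trans (ENNReal.ofReal_le_ofReal (by linarith))
  rw [Metric.tendsto_nhds]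
  intro ε hε
  obtain ⟨δ, hδ⟩ : ∃ δ : ℝ, δ = min (a / 4) (ε / 16) := ⟨_, rfl⟩
  have hδ0 : 0 < δ := by rw [hδ]; exact lt_min (by positivity) (by positivity)
  have hδ1 : δ ≤ a / 4 := by rw [hδ]; exact min_le_left _ _
  have hδ2 : δ ≤ ε / 16 := by rw [hδ]; exact min_le_right _ _
  have fin1 : ∀ α β : ℝ, μ (Ioo α β) ≠ ⊤ := fun α β =>
    ((measure_mono Ioo_subset_Icc_self).trans_lt (b1.lt_top _ _)).ne
  have fin2 : ∀ α β : ℝ, mG (Ioo α β) ≠ ⊤ := fun α β =>
    ((measure_mono Ioo_subset_Icc_self).trans_lt (b2.lt_top _ _)).ne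
  have u1 : ∫ x, tz (-a) a δ x ∂μ ≤ 1 + 2 * (∫ u in (0:ℝ)..a, FF u) + 4 * δ := by
    have s1 := tz_upper (by linarith) b1 hδ0 (-a) a
    obtain ⟨x, hx, hx2⟩ := ae_pick hsym (a := a + δ) (b := a + 2 * δ) (by linarith) (by linarith)
    have s2 : μ.real (Icc (-a - δ) (a + δ)) ≤ sy μ x := by
      refine measureReal_mono ?_ (fin1 _ _)
      exact Icc_subset_Ioo (by linarith [hx.1]) hx.1
    have s3 : sy mG x ≤ mG.real (Icc (-x) x) :=
      measureReal_mono Ioo_subset_Icc_self (b2.lt_top _ _).ne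
    rw [mG_sym (by linarith [hx.1])] at s3
    have s4 := FF_int_lip (a := a) (b := x) (by linarith [hx.1])
    linarith [hx.2]
  have l1 : 1 + 2 * (∫ u in (0:ℝ)..a, FF u) - 4 * δ ≤ ∫ x, tz (-(a - δ)) (a - δ) δ x ∂μ := by
    have s1 := tz_lower (by linarith) b1 hδ0 (-(a - δ)) (a - δ)
    obtain ⟨x, hx, hx2⟩ := ae_pick hsym (a := a - 2 * δ) (b := a - δ) (by linarith) (by linarith)
    have s2 : sy μ x ≤ μ.real (Icc (-(a - δ)) (a - δ)) := by
      refine measureReal_mono ?_ (b1.lt_top _ _).ne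
      exact fun y hy => ⟨by linarith [hy.1, hx.2], by linarith [hy.2, hx.2]⟩
    have s3 : mG.real (Icc (-(a - 2 * δ)) (a - 2 * δ)) ≤ sy mG x := by
      refine measureReal_mono ?_ (fin2 _ _)
      exact Icc_subset_Ioo (by linarith [hx.1]) hx.1
    rw [mG_sym (by linarith)] at s3
    have s4 := FF_int_lip (a := a - 2 * δ) (b := a) (by linarith)
    linarith
  have t1 := (hμ _ (tz_cont (-a) a δ) (tz_qd hδ0 (-a) a)).2
  have t2 := (hμ _ (tz_cont (-(a - δ)) (a - δ) δ) (tz_qd hδ0 (-(a - δ)) (a - δ))).2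
  filter_upwards [hU hM, t1.eventually (eventually_lt_nhds (show ∫ x, tz (-a) a δ x ∂μ <
    1 + 2 * (∫ u in (0:ℝ)..a, FF u) + ε by linarith)), t2.eventually (eventually_gt_nhds
    (show 1 + 2 * (∫ u in (0:ℝ)..a, FF u) - ε < ∫ x, tz (-(a - δ)) (a - δ) δ x ∂μ by linarith))]
    with T h1 h2 h3
  rw [Real.dist_eq, abs_lt]
  have s1 := tz_lower hC0 h1 hδ0 (-a) a
  have s2 := tz_upper hC0 h1 hδ0 (-(a - δ)) (a - δ)
  have e1 : -(a - δ) - δ = -a := by ring
  have e2 : a - δ + δ = a := by ring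
  rw [e1, e2] at s2
  constructor <;> linarith

end

/-- all ultrafilter limits have the distribution of the conjecture -/
def SymLim : Prop := ∀ U : Ultrafilter ℝ, (U : Filter ℝ) ≤ atTop → ∀ μ : Measure ℝ, SFinite μ →
  (∀ f : ℝ → ℝ, Continuous f → QD f →
    Integrable f μ ∧ Tendsto (fun T => ∫ x, f x ∂(Mp T)) U (𝓝 (∫ x, f x ∂μ))) →
  ∀ᵐ x : ℝ, 0 < x → sy μ x = sy mG x

theorem sym_end (h : SymLim) {a : ℝ} (ha : 0 < a) :
    Tendsto (fun T => (Mp T).real (Icc (-a) a)) atTop (𝓝 (1 + 2 * ∫ u in (0:ℝ)..a, FF u)) := by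
  obtain ⟨C, hC, hB⟩ := Mp_bdd
  rw [tendsto_iff_ultrafilter]
  intro U hU
  obtain ⟨μ, hsf, hμ⟩ := exists_limit (by linarith) hB U hU
  exact cum_end hC hB hU hμ (h U hU μ hsf hμ) ha

theorem zero_end (h : SymLim) : Tendsto (fun T => (Mp T).real {0}) atTop (𝓝 1) := by
  obtain ⟨C, hC, hB⟩ := Mp_bdd
  rw [Metric.tendsto_nhds]
  intro ε hε
  have h1 := sym_end h (a := ε / 4) (by positivity)
  have h2 := FF_int_lip (a := 0) (b := ε / 4) (by positivity)
  rw [intervalIntegral.integral_same] at h2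
  filter_upwards [h1.eventually (eventually_lt_nhds (show 1 + 2 * (∫ u in (0:ℝ)..(ε / 4), FF u) <
    1 + ε by linarith)), Mp_zero (show 0 < ε / 2 by positivity), hB] with T g1 g2 g3
  rw [Real.dist_eq, abs_lt]
  have g4 : (Mp T).real {0} ≤ (Mp T).real (Icc (-(ε / 4)) (ε / 4)) := by
    refine measureReal_mono ?_ (g3.lt_top _ _).ne
    intro x hx
    rw [mem_singleton_iff] at hx
    rw [hx]
    exact ⟨by linarith, by linarith⟩
  constructor <;> linarith

/-- the pair measure is symmetric -/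
lemma Mp_split {T : ℝ} (hT : 10 ≤ T) {a : ℝ} (ha : 0 ≤ a) :
    (Mp T).real (Icc (-a) a) = (Mp T).real {0} + 2 * (Mp T).real (Ioc 0 a) := by
  have hn := nT_pos hT
  rw [Mp_real hT measurableSet_Icc, Mp_real hT (measurableSet_singleton 0),
    Mp_real hT measurableSet_Ioc]
  have e1 : RR ((Icc (-a) a).indicator fun _ => 1) (ZZ T) (ZZ T) (Real.log T) =
      RR (({0} : Set ℝ).indicator fun _ => 1) (ZZ T) (ZZ T) (Real.log T) +
      (RR ((Ioc 0 a).indicator fun _ => 1) (ZZ T) (ZZ T) (Real.log T) +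
      RR ((Ico (-a) 0).indicator fun _ => 1) (ZZ T) (ZZ T) (Real.log T)) := by
    unfold RR
    rw [← Finset.sum_add_distrib, ← Finset.sum_add_distrib]
    refine Finset.sum_congr rfl fun s _ => ?_
    rw [← Finset.sum_add_distrib, ← Finset.sum_add_distrib]
    refine Finset.sum_congr rfl fun s' _ => ?_
    rw [← mul_add, ← mul_add]
    congr 1
    obtain ⟨y, hy⟩ : ∃ y : ℝ, y = (s.im - s'.im) * Real.log T / (2 * Real.pi) := ⟨_, rfl⟩
    rw [← hy]
    simp only [indicator_apply, mem_Icc, mem_singleton_iff, mem_Ioc, mem_Ico]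
    rcases lt_trichotomy y 0 with g | g | g
    · have c1 : ¬ y = 0 := g.ne
      have c2 : ¬ (0 < y ∧ y ≤ a) := fun z => absurd z.1 (not_lt.2 g.le)
      rw [if_neg c1, if_neg c2]
      by_cases c3 : -a ≤ y
      · rw [if_pos ⟨c3, by linarith⟩, if_pos ⟨c3, g⟩]; norm_num
      · rw [if_neg (fun z => c3 z.1), if_neg (fun z => c3 z.1)]; norm_num
    · have c2 : ¬ (0 < y ∧ y ≤ a) := fun z => absurd z.1 (not_lt.2 g.le)
      have c3 : ¬ (-a ≤ y ∧ y < 0) := fun z => absurd z.2 (not_lt.2 g.ge)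
      rw [if_pos g, if_neg c2, if_neg c3, if_pos ⟨by linarith, by linarith⟩]; norm_num
    · have c1 : ¬ y = 0 := g.ne'
      have c3 : ¬ (-a ≤ y ∧ y < 0) := fun z => absurd z.2 (not_lt.2 g.le)
      rw [if_neg c1, if_neg c3]
      by_cases c4 : y ≤ a
      · rw [if_pos ⟨by linarith, c4⟩, if_pos ⟨g, c4⟩]; norm_num
      · rw [if_neg (fun z => c4 z.2), if_neg (fun z => c4 z.2)]; norm_num
  have e2 : RR ((Ico (-a) 0).indicator fun _ => 1) (ZZ T) (ZZ T) (Real.log T) =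
      RR ((Ioc 0 a).indicator fun _ => 1) (ZZ T) (ZZ T) (Real.log T) := by
    unfold RR
    rw [Finset.sum_comm]
    refine Finset.sum_congr rfl fun s _ => Finset.sum_congr rfl fun s' _ => ?_
    rw [mul_comm (mm s') (mm s)]
    congr 1
    have e3 : (s'.im - s.im) * Real.log T / (2 * Real.pi) =
        -((s.im - s'.im) * Real.log T / (2 * Real.pi)) := by ring
    rw [e3]
    obtain ⟨y, hy⟩ : ∃ y : ℝ, y = (s.im - s'.im) * Real.log T / (2 * Real.pi) := ⟨_, rfl⟩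
    rw [← hy]
    simp only [indicator_apply, mem_Ioc, mem_Ico]
    by_cases c : 0 < y ∧ y ≤ a
    · rw [if_pos c, if_pos ⟨by linarith [c.2], by linarith [c.1]⟩]
    · rw [if_neg c, if_neg (fun z => c ⟨by linarith [z.2], by linarith [z.1]⟩)]
  rw [e1, e2]
  ring

theorem half_end (h : SymLim) {a : ℝ} (ha : 0 < a) :
    Tendsto (fun T => (Mp T).real (Ioc 0 a)) atTop (𝓝 (∫ u in (0:ℝ)..a, FF u)) := by
  have h1 := ((sym_end h ha).sub (zero_end h)).div_const 2
  have e : (1 + 2 * (∫ u in (0:ℝ)..a, FF u) - 1) / 2 = ∫ u in (0:ℝ)..a, FF u := by ring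
  rw [e] at h1
  refine h1.congr' ?_
  filter_upwards [eventually_ge_atTop 10] with T hT
  rw [Mp_split hT ha.le]
  ring

/-! ### the counting function of the problem -/

/-- multiplicity of `s` as a zero of the Riemann zeta function (order of vanishing at `s`) -/
noncomputable def zmult (s : ℂ) : ℕ := analyticOrderNatAt riemannZeta s

/-- the nontrivial zeros of `ζ` -/
def NZ : Set ℂ := {s : ℂ | riemannZeta s = 0 ∧ 0 < s.re ∧ s.re < 1}

/-- `N*(T, a)` -/
noncomputable def Nstar (T a : ℝ) : ℕ :=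
  ∑ᶠ p ∈ {p : ℂ × ℂ | p.1 ∈ NZ ∧ p.2 ∈ NZ ∧ 0 < p.1.im ∧ p.1.im ≤ T ∧
    0 < p.1.im - p.2.im ∧ p.1.im - p.2.im ≤ 2 * Real.pi * a / Real.log T}, zmult p.1 * zmult p.2

/-- there are no zeros with a very small positive ordinate -/
lemma low_gap : ∃ δ : ℝ, 0 < δ ∧ ∀ s ∈ NZ, 0 < s.im → δ ≤ s.im := by
  classical
  obtain ⟨F, hF⟩ : ∃ F : Finset ℝ, F = insert 1 ((ZZ 1).image Complex.im) := ⟨_, rfl⟩
  have hne : F.Nonempty := ⟨1, by rw [hF]; exact Finset.mem_insert_self _ _⟩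
  refine ⟨F.min' hne, ?_, ?_⟩
  · rw [Finset.lt_min'_iff]
    intro y hy
    rw [hF, Finset.mem_insert, Finset.mem_image] at hy
    rcases hy with hy | ⟨s, hs, hs2⟩
    · rw [hy]; norm_num
    · rw [← hs2]; exact zs_im_pos (mem_ZZ.1 hs)
  · intro s hs h0
    rcases le_or_gt s.im 1 with g | g
    · refine Finset.min'_le _ _ ?_
      rw [hF, Finset.mem_insert, Finset.mem_image]
      right
      exact ⟨s, mem_ZZ.2 ⟨hs.1, hs.2.1, hs.2.2, h0.le, g⟩, rfl⟩
    · refine (Finset.min'_le F 1 ?_).trans g.le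
      rw [hF]; exact Finset.mem_insert_self _ _

lemma Nstar_eq (a : ℝ) : ∀ᶠ T : ℝ in atTop,
    (Nstar T a : ℝ) = nT T * (Mp T).real (Ioc 0 a) := by
  classical
  obtain ⟨δ, hδ, hlow⟩ := low_gap
  have hpi := Real.pi_pos
  have hlim : Tendsto (fun T : ℝ => 2 * Real.pi * a / Real.log T) atTop (𝓝 0) :=
    Real.tendsto_log_atTop.const_div_atTop _
  filter_upwards [eventually_ge_atTop 10, hlim.eventually (gt_mem_nhds hδ)] with T hT hTδ
  have hn := nT_pos hT
  have hlog : 0 < Real.log T := Real.log_pos (by linarith)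
  rw [Mp_real hT measurableSet_Ioc]
  have e : nT T * (RR ((Ioc 0 a).indicator fun _ => 1) (ZZ T) (ZZ T) (Real.log T) / nT T) =
      RR ((Ioc 0 a).indicator fun _ => 1) (ZZ T) (ZZ T) (Real.log T) := by field_simp
  rw [e]
  have hset : {p : ℂ × ℂ | p.1 ∈ NZ ∧ p.2 ∈ NZ ∧ 0 < p.1.im ∧ p.1.im ≤ T ∧
      0 < p.1.im - p.2.im ∧ p.1.im - p.2.im ≤ 2 * Real.pi * a / Real.log T} =
      ((ZZ T ×ˢ ZZ T).filter (fun p : ℂ × ℂ => 0 < p.1.im - p.2.im ∧
        p.1.im - p.2.im ≤ 2 * Real.pi * a / Real.log T) : Finset (ℂ × ℂ)) := by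
    ext p
    rw [Finset.mem_coe, Finset.mem_filter, Finset.mem_product, mem_ZZ, mem_ZZ]
    constructor
    · rintro ⟨h1, h2, h3, h4, h5, h6⟩
      have h7 := hlow _ h1 h3
      exact ⟨⟨⟨h1.1, h1.2.1, h1.2.2, h3.le, h4⟩, ⟨h2.1, h2.2.1, h2.2.2, by linarith,
        by linarith⟩⟩, h5, h6⟩
    · rintro ⟨⟨h1, h2⟩, h5, h6⟩
      exact ⟨⟨h1.1, h1.2.1, h1.2.2.1⟩, ⟨h2.1, h2.2.1, h2.2.2.1⟩, zs_im_pos h1, h1.2.2.2.2, h5, h6⟩
  unfold Nstar
  rw [hset, finsum_mem_coe_finset, Finset.sum_filter, Finset.sum_product]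
  unfold RR
  push_cast
  refine Finset.sum_congr rfl fun s _ => Finset.sum_congr rfl fun s' _ => ?_
  have c : (0 < s.im - s'.im ∧ s.im - s'.im ≤ 2 * Real.pi * a / Real.log T) ↔
      (s.im - s'.im) * Real.log T / (2 * Real.pi) ∈ Ioc 0 a := by
    rw [mem_Ioc, div_le_iff₀ (by positivity), le_div_iff₀ hlog]
    constructor
    · rintro ⟨h1, h2⟩
      exact ⟨by positivity, by linarith⟩
    · rintro ⟨h1, h2⟩
      refine ⟨?_, by linarith⟩
      by_contra hcon
      push Not at hcon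
      have : (s.im - s'.im) * Real.log T / (2 * Real.pi) ≤ 0 :=
        div_nonpos_of_nonpos_of_nonneg (mul_nonpos_of_nonpos_of_nonneg hcon hlog.le)
          (by positivity)
      linarith
  by_cases hc : 0 < s.im - s'.im ∧ s.im - s'.im ≤ 2 * Real.pi * a / Real.log T
  · rw [if_pos hc, indicator_of_mem (c.1 hc), mul_one]
    rfl
  · rw [if_neg hc, indicator_of_notMem (fun z => hc (c.2 z)), mul_zero]

/-- the limit for the counting function of the problem -/
theorem Nstar_lim (h : SymLim) {a : ℝ} (ha : 0 < a) :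
    Tendsto (fun T => (Nstar T a : ℝ) / nT T) atTop (𝓝 (∫ u in (0:ℝ)..a, FF u)) := by
  refine (half_end h ha).congr' ?_
  filter_upwards [Nstar_eq a, eventually_ge_atTop 10] with T h1 hT
  have hn := nT_pos hT
  rw [h1]
  field_simp

end Pool.Agent.X83.PC
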