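import Pool.Agent.X83.PC.Diag2
import Pool.Agent.X83.PC.End

/-! # Lower bounds for distant pairs force almost all zeros onto the critical line -/

set_option autoImplicit false

namespace Pool.Agent.X83.PC

open MeasureTheory Set Filter Topology
open H370 (Zf mult mem_Zf good_zeta NN NN_eq zset)
open Pool.Agent.Y749.Rig

lemma FF_Nstar (T a : ℝ) :
    Pool.Agent.X113.PC.FF 0 T (2 * Real.pi * a / Real.log T) = Nstar T a := rfl

lemma DS_sum (T : ℝ) : (DS 0 T : ℝ) = ∑ s ∈ ZZ T, ∑ s' ∈ ZZ T,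
    mm s * mm s' * (if s.im = s'.im then 1 else 0) := by
  classical
  have hset : DSt 0 T = (((ZZ T) ×ˢ (ZZ T)).filter (fun p : ℂ × ℂ => p.1.im = p.2.im) :
      Finset (ℂ × ℂ)) := by
    ext p
    rw [Finset.mem_coe, Finset.mem_filter, Finset.mem_product, mem_ZZ, mem_ZZ]
    constructor
    · rintro ⟨⟨b1, b2, b3⟩, ⟨b4, b5, b6⟩, a3, a4, a5⟩
      exact ⟨⟨⟨b1, b2, b3, a3.le, a4⟩, ⟨b4, b5, b6, by linarith, by linarith⟩⟩, a5⟩
    · rintro ⟨⟨h1, h2⟩, h3⟩
      exact ⟨⟨h1.1, h1.2.1, h1.2.2.1⟩, ⟨h2.1, h2.2.1, h2.2.2.1⟩, zs_im_pos h1, h1.2.2.2.2, h3⟩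
  unfold DS
  rw [hset, finsum_mem_coe_finset, Finset.sum_filter, Finset.sum_product]
  push_cast
  refine Finset.sum_congr rfl fun s _ => Finset.sum_congr rfl fun s' _ => ?_
  show (if s.im = s'.im then
      (analyticOrderNatAt riemannZeta s : ℝ) * (analyticOrderNatAt riemannZeta s' : ℝ) else 0) =
    mm s * mm s' * (if s.im = s'.im then 1 else 0)
  rw [mul_ite, mul_one, mul_zero]
  rfl

lemma one_le_mm {T : ℝ} {s : ℂ} (hs : s ∈ ZZ T) : 1 ≤ mm s := by
  have h1 := mem_ZZ.1 hs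
  have := H370.Loc.mult_pos' good_zeta (zs_im_pos h1) h1.1
  unfold mm
  exact_mod_cast this

/-- zeros off the line have a partner with the same ordinate -/
lemma DS_low : ∃ K2 : ℝ, 0 ≤ K2 ∧ ∀ T : ℝ, (∑ s ∈ ZZ T, mm s) + NF T - K2 ≤ (DS 0 T : ℝ) := by
  classical
  refine ⟨∑ s ∈ ZZ 1, mm s, Finset.sum_nonneg fun s _ => mm_nonneg s, fun T => ?_⟩
  have h1 : ∀ s ∈ ZZ T, mm s + (if s.re ≠ 1 / 2 ∧ 1 ≤ s.im then mm s else 0) ≤
      ∑ s' ∈ ZZ T, mm s * mm s' * (if s.im = s'.im then 1 else 0) := by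
    intro s hs
    have hz := mem_ZZ.1 hs
    have h1s := one_le_mm hs
    have hnn : ∀ s' ∈ ZZ T, 0 ≤ mm s * mm s' * (if s.im = s'.im then (1 : ℝ) else 0) :=
      fun s' _ => mul_nonneg (mul_nonneg (mm_nonneg _) (mm_nonneg _)) (by split_ifs <;> norm_num)
    by_cases c : s.re ≠ 1 / 2 ∧ 1 ≤ s.im
    · rw [if_pos c]
      obtain ⟨s', hs'⟩ : ∃ s' : ℂ, s' = 1 - (starRingEnd ℂ) s := ⟨_, rfl⟩
      have him : s'.im = s.im := by rw [hs']; simp
      have hre : s'.re = 1 - s.re := by rw [hs']; simp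
      have hmem : s ∈ zset riemannZeta (s.im - 1 / 2) T := by
        exact ⟨hz.2.1, hz.2.2.1, by linarith, hz.2.2.2.2, hz.1⟩
      have hmult : mult riemannZeta s' = mult riemannZeta s := by
        rw [hs']; exact H370.mult_refl good_zeta hz.2.1 hz.2.2.1 c.2
      have hz' : s' ∈ ZZ T := by
        have h2 : s ∈ zset riemannZeta 1 T ∨ s.im = 1 := by
          rcases c.2.lt_or_eq with g | g
          · left; exact ⟨hz.2.1, hz.2.2.1, g, hz.2.2.2.2, hz.1⟩
          · right; exact g.symm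
        have h3 : 1 ≤ mult riemannZeta s' := by
          rw [hmult]; exact H370.Loc.mult_pos' good_zeta (zs_im_pos hz) hz.1
        have h4 : riemannZeta s' = 0 := by
          by_contra hcon
          have h5 : analyticOrderNatAt riemannZeta s' = 0 := by
            have h6 : analyticOrderAt riemannZeta s' = 0 := by
              by_cases ha : AnalyticAt ℂ riemannZeta s'
              · exact (ha.analyticOrderAt_eq_zero).2 hcon
              · exact analyticOrderAt_of_not_analyticAt ha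
            unfold analyticOrderNatAt
            rw [h6]; rfl
          unfold mult at h3
          omega
        rw [mem_ZZ]
        exact ⟨h4, by rw [hre]; linarith [hz.2.2.1], by rw [hre]; linarith [hz.2.1],
          by rw [him]; exact hz.2.2.2.1, by rw [him]; exact hz.2.2.2.2⟩
      have hne : s ≠ s' := by
        intro hcon
        apply c.1
        have : s.re = 1 - s.re := by
          conv_lhs => rw [hcon]
          exact hre
        linarith
      have h5 : ∑ t ∈ ({s, s'} : Finset ℂ), mm s * mm t * (if s.im = t.im then (1 : ℝ) else 0) ≤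
          ∑ s' ∈ ZZ T, mm s * mm s' * (if s.im = s'.im then 1 else 0) := by
        refine Finset.sum_le_sum_of_subset_of_nonneg ?_ fun t ht _ => hnn t ht
        intro t ht
        rw [Finset.mem_insert, Finset.mem_singleton] at ht
        rcases ht with ht | ht
        · rw [ht]; exact hs
        · rw [ht]; exact hz'
      rw [Finset.sum_pair hne, if_pos rfl, if_pos him.symm] at h5
      have h6 : mm s' = mm s := by unfold mm; rw [hmult]
      rw [h6] at h5
      nlinarith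
    · rw [if_neg c, add_zero]
      have h5 := Finset.single_le_sum hnn hs
      rw [if_pos rfl] at h5
      nlinarith
  have h2 := Finset.sum_le_sum h1
  rw [← DS_sum, Finset.sum_add_distrib] at h2
  have h3 : NF T - ∑ s ∈ ZZ 1, mm s ≤
      ∑ s ∈ ZZ T, (if s.re ≠ 1 / 2 ∧ 1 ≤ s.im then mm s else 0) := by
    have e1 : ∑ s ∈ ZZ T, (if s.re ≠ 1 / 2 ∧ 1 ≤ s.im then mm s else 0) +
        ∑ s ∈ ZZ T, (if s.im ≤ 1 then mm s else 0) ≥ NF T := by
      unfold NF
      rw [Finset.sum_filter, ← Finset.sum_add_distrib]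
      refine Finset.sum_le_sum fun s _ => ?_
      have h0 := mm_nonneg s
      by_cases c1 : s.re ≠ 1 / 2
      · rw [if_pos c1]
        rcases le_total 1 s.im with g | g
        · rw [if_pos ⟨c1, g⟩]
          split_ifs <;> linarith
        · rw [if_pos g]
          split_ifs <;> linarith
      · rw [if_neg c1]
        split_ifs <;> linarith
    have e2 : ∑ s ∈ ZZ T, (if s.im ≤ 1 then mm s else 0) ≤ ∑ s ∈ ZZ 1, mm s := by
      rw [← Finset.sum_filter]
      refine Finset.sum_le_sum_of_subset_of_nonneg ?_ fun s _ _ => mm_nonneg s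
      intro s hs
      rw [Finset.mem_filter, mem_ZZ] at hs
      rw [mem_ZZ]
      exact ⟨hs.1.1, hs.1.2.1, hs.1.2.2.1, hs.1.2.2.2.1, hs.2⟩
    linarith
  linarith

lemma N_low {ε : ℝ} (hε : 0 < ε) : ∀ᶠ T : ℝ in atTop, (1 - ε) * nT T ≤ ∑ s ∈ ZZ T, mm s := by
  obtain ⟨T0, hT0, h⟩ := Pool.Agent.W54.TCF.NT_asymp' ε hε
  filter_upwards [eventually_ge_atTop T0] with T hT
  have h1 := (h T hT).1
  have e : ∑ s ∈ ZZ T, mm s = (NN riemannZeta 0 T : ℝ) := by
    rw [ZZ_eq, ← Pool.Agent.Y744.sum_Zt]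
    rfl
  rw [e]
  refine le_trans (le_of_eq ?_) h1
  unfold nT
  ring

lemma FF_int_lower {b : ℝ} (hb : 0 ≤ b) : b - 1 / 2 ≤ ∫ u in (0:ℝ)..b, FF u := by
  have h1 := int_fl (adm_tr (h := 1) one_pos)
  have h1' : tr 1 0 = 1 := by unfold tr; simp
  rw [h1'] at h1
  have hi := fl_int (adm_tr (h := 1) one_pos)
  have h2 : ∫ x, fl (tr 1) x = 2 * ∫ x in Ioi (0:ℝ), fl (tr 1) x := by
    have h3 := integral_comp_abs (f := fl (tr 1))
    rw [← h3]
    refine integral_congr_ae (ae_of_all _ fun x => ?_)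
    show fl (tr 1) x = fl (tr 1) |x|
    rcases abs_cases x with g | g
    · rw [g.1]
    · rw [g.1, fl_even]
  have h4 : ∫ x in (0:ℝ)..b, fl (tr 1) x ≤ ∫ x in Ioi (0:ℝ), fl (tr 1) x := by
    rw [intervalIntegral.integral_of_le hb]
    refine setIntegral_mono_set hi.integrableOn (ae_of_all _ fun x => fl_tr_nonneg one_pos x) ?_
    exact (Ioc_subset_Ioi_self).eventuallyLE
  have h5 : ∫ u in (0:ℝ)..b, FF u = b - ∫ x in (0:ℝ)..b, fl (tr 1) x := by
    have e1 : ∫ u in (0:ℝ)..b, FF u = ∫ u in (0:ℝ)..b, (1 - fl (tr 1) u) := by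
      refine intervalIntegral.integral_congr_ae ?_
      have h0 : ∀ᵐ x : ℝ, x ≠ 0 := by
        rw [ae_iff]
        simp
      filter_upwards [h0] with x hx _
      unfold FF
      rw [fl_tr one_pos hx]
      norm_num
    rw [e1, intervalIntegral.integral_sub (by simp) hi.intervalIntegrable]
    simp
  rw [h5]
  linarith

lemma log_lim (D : ℝ) : Tendsto (fun a : ℝ => (Real.log (1 + a) / Real.pi ^ 2 + D) / a) atTop
    (𝓝 0) := by
  have h1 := Real.tendsto_pow_log_div_mul_add_atTop 1 (-1) 1 one_ne_zero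
  have h2 : Tendsto (fun a : ℝ => 1 + a) atTop atTop := tendsto_atTop_add_const_left _ _ tendsto_id
  have h3 := h1.comp h2
  have h4 : Tendsto (fun a : ℝ => D / a) atTop (𝓝 0) := tendsto_id.const_div_atTop D
  have h5 := (h3.div_const (Real.pi ^ 2)).add h4
  rw [zero_div, add_zero] at h5
  refine h5.congr fun a => ?_
  simp only [Function.comp_apply, pow_one]
  rw [show 1 * (1 + a) + -1 = a by ring]
  ring

/-- lower bounds at large distances: the sum over equal ordinates -/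
theorem diag_up (HL : ∀ ε : ℝ, 0 < ε → ∃ A : ℝ, ∀ b : ℝ, A ≤ b → ∀ᶠ T : ℝ in atTop,
    (b - 1 / 2 - ε) * nT T ≤ (Nstar T b : ℝ)) {ε : ℝ} (hε : 0 < ε) :
    ∀ᶠ T : ℝ in atTop, (DS 0 T : ℝ) ≤ (1 + 4 * ε) * nT T := by
  obtain ⟨C, hC, hmean⟩ := mean_up
  obtain ⟨A', hA'⟩ := HL ε hε
  obtain ⟨A, hA⟩ : ∃ A : ℝ, A = max A' 1 := ⟨_, rfl⟩
  have hA1 : 1 ≤ A := by rw [hA]; exact le_max_right _ _
  have hAA : ∀ b : ℝ, A ≤ b → ∀ᶠ T : ℝ in atTop, (b - 1 / 2 - ε) * nT T ≤ (Nstar T b : ℝ) :=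
    fun b hb => hA' b ((le_max_left _ _).trans (hA ▸ hb))
  obtain ⟨a, ha1, ha2⟩ : ∃ a : ℝ, 1 ≤ a ∧
      (Real.log (1 + a) / Real.pi ^ 2 + (C + 2 * A ^ 2)) / a ≤ ε :=
    ((eventually_ge_atTop (1 : ℝ)).and ((log_lim (C + 2 * A ^ 2)).eventually
      (ge_mem_nhds hε))).exists
  have hap : 0 < a := by linarith
  obtain ⟨K, hK0, hK⟩ : ∃ K : ℕ, 0 < K ∧ (a + 2 * A) / K ≤ ε := by
    have h1 : Tendsto (fun K : ℕ => (a + 2 * A) / (K : ℝ)) atTop (𝓝 0) :=
      tendsto_const_div_atTop_nhds_zero_nat _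
    exact ((eventually_gt_atTop 0).and (h1.eventually (ge_mem_nhds hε))).exists
  have hKr : (0 : ℝ) < K := by exact_mod_cast hK0
  have hall : ∀ᶠ T : ℝ in atTop, ∀ k ∈ Finset.range K, A ≤ k * a / K →
      (k * a / K - 1 / 2 - ε) * nT T ≤ (Nstar T (k * a / K) : ℝ) := by
    rw [Filter.eventually_all_finset]
    intro k _
    by_cases g : A ≤ k * a / K
    · filter_upwards [hAA _ g] with T hT _ using hT
    · exact Eventually.of_forall fun T hcon => absurd hcon g
  filter_upwards [hmean a ha1 K hK0, hall, eventually_ge_atTop 10] with T h1 h2 h3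
  have hn := nT_pos h3
  simp_rw [FF_Nstar] at h1
  have h4 : ∀ k ∈ Finset.range K, nT T * ((k * a / K - 1 / 2 - ε) -
      (if (k : ℝ) * a / K < A then A else 0)) ≤ (Nstar T (k * a / K) : ℝ) := by
    intro k hk
    by_cases g : (k : ℝ) * a / K < A
    · rw [if_pos g]
      have e1 : nT T * ((k * a / K - 1 / 2 - ε) - A) ≤ 0 :=
        mul_nonpos_of_nonneg_of_nonpos hn.le (by linarith)
      exact e1.trans (Nat.cast_nonneg _)
    · rw [if_neg g, sub_zero, mul_comm]
      exact h2 k hk (not_lt.1 g)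
  have h5 := Finset.sum_le_sum h4
  have h6 : ∑ k ∈ Finset.range K, (if (k : ℝ) * a / K < A then A else 0) ≤
      A * (A * K / a + 1) := by
    classical
    rw [← Finset.sum_filter, Finset.sum_const, nsmul_eq_mul, mul_comm]
    apply mul_le_mul_of_nonneg_left _ (by linarith)
    have e1 : (Finset.range K).filter (fun k : ℕ => (k : ℝ) * a / K < A) ⊆
        Finset.range ⌈A * K / a⌉₊ := by
      intro k hk
      rw [Finset.mem_filter] at hk
      rw [Finset.mem_range, Nat.lt_ceil, lt_div_iff₀ hap]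
      have := hk.2
      rwa [div_lt_iff₀ hKr] at this
    have e2 := Finset.card_le_card e1
    rw [Finset.card_range] at e2
    have e3 : (⌈A * K / a⌉₊ : ℝ) < A * K / a + 1 := Nat.ceil_lt_add_one (by positivity)
    have e4 : (((Finset.range K).filter (fun k : ℕ => (k : ℝ) * a / K < A)).card : ℝ) ≤
      (⌈A * K / a⌉₊ : ℝ) := by exact_mod_cast e2
    linarith
  have h7 : ∑ k ∈ Finset.range K, ((k : ℝ) * a / K - 1 / 2 - ε) =
      a * (K - 1) / 2 - K * (1 / 2 + ε) := by
    have e1 : ∑ k ∈ Finset.range K, ((k : ℝ) * a / K - 1 / 2 - ε) =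
        a / K * ∑ k ∈ Finset.range K, (k : ℝ) - K * (1 / 2 + ε) := by
      rw [Finset.mul_sum]
      have e2 : ∀ k : ℕ, (k : ℝ) * a / K - 1 / 2 - ε = a / K * k - (1 / 2 + ε) := by
        intro k; ring
      simp_rw [e2]
      rw [Finset.sum_sub_distrib, Finset.sum_const, Finset.card_range, nsmul_eq_mul]
    have e3 : ∑ k ∈ Finset.range K, (k : ℝ) = K * (K - 1) / 2 := by
      have e4 : ((∑ k ∈ Finset.range K, k : ℕ) : ℝ) * 2 = K * ((K : ℝ) - 1) := by
        have e5 := Finset.sum_range_id_mul_two K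
        have e6 : ((∑ k ∈ Finset.range K, k : ℕ) : ℝ) * 2 = ((K * (K - 1) : ℕ) : ℝ) := by
          rw [← e5]; push_cast; ring
        rw [e6, Nat.cast_mul, Nat.cast_sub (by omega)]
        norm_num
      push_cast at e4
      linarith
    rw [e1, e3]
    field_simp
  rw [← Finset.mul_sum, Finset.sum_sub_distrib, h7] at h5
  have h8 : nT T * (a * (K - 1) / 2 - K * (1 / 2 + ε) - A * (A * K / a + 1)) ≤
      ∑ k ∈ Finset.range K, (Nstar T (k * a / K) : ℝ) := by
    refine le_trans ?_ h5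
    exact mul_le_mul_of_nonneg_left (by linarith) hn.le
  have h9 : 2 / (K : ℝ) * (nT T * (a * (K - 1) / 2 - K * (1 / 2 + ε) - A * (A * K / a + 1))) ≤
      2 / K * ∑ k ∈ Finset.range K, (Nstar T (k * a / K) : ℝ) :=
    mul_le_mul_of_nonneg_left h8 (by positivity)
  have h10 : 2 / (K : ℝ) * (nT T * (a * (K - 1) / 2 - K * (1 / 2 + ε) - A * (A * K / a + 1))) =
      nT T * (a - 1 - 2 * ε - (a + 2 * A) / K - 2 * A ^ 2 / a) := by
    field_simp
    ring
  rw [h10] at h9
  have h11 : T * Real.log T / (2 * Real.pi) = nT T := rfl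
  rw [h11] at h1
  have h12 : nT T * (a + (Real.log (1 + a) / Real.pi ^ 2 + C) / a) -
      nT T * (a - 1 - 2 * ε - (a + 2 * A) / K - 2 * A ^ 2 / a) =
      nT T * (1 + 2 * ε + (a + 2 * A) / K +
        (Real.log (1 + a) / Real.pi ^ 2 + (C + 2 * A ^ 2)) / a) := by
    field_simp
    ring
  have h13 : nT T * (1 + 2 * ε + (a + 2 * A) / K +
      (Real.log (1 + a) / Real.pi ^ 2 + (C + 2 * A ^ 2)) / a) ≤ nT T * (1 + 4 * ε) :=
    mul_le_mul_of_nonneg_left (by linarith) hn.le
  linarith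

/-- lower bounds at large distances: almost all zeros are on the critical line -/
theorem all_on (HL : ∀ ε : ℝ, 0 < ε → ∃ A : ℝ, ∀ b : ℝ, A ≤ b → ∀ᶠ T : ℝ in atTop,
    (b - 1 / 2 - ε) * nT T ≤ (Nstar T b : ℝ)) :
    ∀ η : ℝ, 0 < η → ∀ᶠ T : ℝ in atTop, NF T ≤ η * (T * Real.log T) := by
  intro η hη
  obtain ⟨K2, hK2, hlow⟩ := DS_low
  have hlim : Tendsto (fun T : ℝ => η * nT T) atTop atTop := by
    have h1 : Tendsto (fun T : ℝ => T * Real.log T) atTop atTop :=
      tendsto_id.atTop_mul_atTop₀ Real.tendsto_log_atTop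
    have h2 : (fun T : ℝ => η * nT T) = fun T => η / (2 * Real.pi) * (T * Real.log T) := by
      funext T
      unfold nT
      ring
    rw [h2]
    exact h1.const_mul_atTop (by positivity)
  filter_upwards [diag_up HL hη, N_low hη, hlim.eventually_ge_atTop K2, eventually_ge_atTop 10]
    with T h1 h2 h3 h4
  have h5 := hlow T
  have h6 : NF T ≤ 6 * (η * nT T) := by linarith
  refine h6.trans ?_
  have h7 : η * (T * Real.log T) = 2 * Real.pi * (η * nT T) := by
    unfold nT; field_simp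
  rw [h7]
  have := Real.pi_gt_three
  have hn : 0 < η * nT T := mul_pos hη (nT_pos h4)
  nlinarith

end Pool.Agent.X83.PC
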