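import Pool.Agent.X83.PC.Diag3

/-! # The second moment of the counts, from above in terms of pairs; uniform two-sided bounds -/

set_option autoImplicit false

namespace Pool.Agent.X83.PC

open MeasureTheory Set Filter Topology
open H370 (Zf mult mem_Zf good_zeta NN NN_eq zset)
open Pool.Agent.TH850.UV (NS mS mS_nonneg)
open Pool.Agent.X113.PG
open Pool.Agent.X113.PC (SU cc BM facts first_moment ZZ ZZ_fin PSt PSt_fin FF FF_mono FF_add FF_pr
  cc_nonneg)

section

variable {ι : Type*} {S : Finset ι} {m x : ι → ℝ}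

/-- counting the multiples of `h / K` above `d`, from below -/
lemma count_ge {h d : ℝ} (hh : 0 < h) (hd0 : 0 < d) {K : ℕ} (hK : 0 < K) :
    h - d ≤ h / K * ∑ k ∈ Finset.range K,
      (if 0 < d ∧ d ≤ ((k + 1 : ℕ) : ℝ) * h / K then (1 : ℝ) else 0) := by
  classical
  have hKr : (0 : ℝ) < K := by exact_mod_cast hK
  rcases le_or_gt h d with g | g
  · have : 0 ≤ h / K * ∑ k ∈ Finset.range K,
      (if 0 < d ∧ d ≤ ((k + 1 : ℕ) : ℝ) * h / K then (1 : ℝ) else 0) :=
      mul_nonneg (by positivity) (Finset.sum_nonneg fun k _ => ite01 _)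
    linarith
  obtain ⟨y, hy⟩ : ∃ y : ℝ, y = d * K / h := ⟨_, rfl⟩
  have hy0 : 0 ≤ y := by rw [hy]; positivity
  have h1 : ∑ k ∈ Finset.range K, (if ⌊y⌋₊ + 1 ≤ k + 1 then (1 : ℝ) else 0) ≤
      ∑ k ∈ Finset.range K, (if 0 < d ∧ d ≤ ((k + 1 : ℕ) : ℝ) * h / K then (1 : ℝ) else 0) := by
    refine Finset.sum_le_sum fun k _ => ite_le_ite ?_
    intro h2
    refine ⟨hd0, ?_⟩
    have h3 : y < (⌊y⌋₊ : ℝ) + 1 := Nat.lt_floor_add_one y
    have h4 : ((⌊y⌋₊ : ℕ) : ℝ) + 1 ≤ ((k + 1 : ℕ) : ℝ) := by exact_mod_cast h2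
    have h5 : y ≤ ((k + 1 : ℕ) : ℝ) := by linarith
    rw [hy, div_le_iff₀ hh] at h5
    rw [le_div_iff₀ hKr]
    exact h5
  have h2 : ∑ k ∈ Finset.range K, (if ⌊y⌋₊ + 1 ≤ k + 1 then (1 : ℝ) else 0) = K - ⌊y⌋₊ := by
    have hyK : y ≤ K := by
      rw [hy, div_le_iff₀ hh, mul_comm]
      exact mul_le_mul_of_nonneg_left g.le hKr.le
    have hc : ⌊y⌋₊ ≤ K := by
      have : (⌊y⌋₊ : ℝ) ≤ K := (Nat.floor_le hy0).trans hyK
      exact_mod_cast this
    rw [Finset.sum_boole]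
    have e : (Finset.range K).filter (fun k => ⌊y⌋₊ + 1 ≤ k + 1) = Finset.Ico ⌊y⌋₊ K := by
      ext k
      simp only [Finset.mem_filter, Finset.mem_range, Finset.mem_Ico]
      omega
    rw [e, Nat.card_Ico, Nat.cast_sub hc]
  have h3 : (⌊y⌋₊ : ℝ) ≤ y := Nat.floor_le hy0
  calc h - d = h / K * (K - y) := by rw [hy]; field_simp
    _ ≤ h / K * ∑ k ∈ Finset.range K,
      (if 0 < d ∧ d ≤ ((k + 1 : ℕ) : ℝ) * h / K then (1 : ℝ) else 0) := by
        apply mul_le_mul_of_nonneg_left _ (by positivity)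
        linarith

/-- the second moment from above -/
lemma second_hi (hm : ∀ s, 0 ≤ m s) {A B h : ℝ} (hAB : A ≤ B) (hh : 0 < h) {K : ℕ} (hK : 0 < K) :
    ∫ t in A..B, cn S m x h t ^ 2 ≤ h * dg S m x A (B + h) +
      2 * (h / K) * ∑ k ∈ Finset.range K, pr S m x A (B + h) (((k + 1 : ℕ) : ℝ) * h / K) := by
  have hKr : (0 : ℝ) < K := by exact_mod_cast hK
  classical
  obtain ⟨Q, hQ⟩ : ∃ Q : ι → ι → Prop, ∀ s s', Q s s' ↔ A < x s ∧ x s ≤ B + h ∧
      0 ≤ x s - x s' ∧ x s - x s' ≤ h := ⟨_, fun s s' => Iff.rfl⟩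
  obtain ⟨w, hw⟩ : ∃ w : ι → ι → ℝ, ∀ s s', w s s' = if x s = x s' then 1 else
      if x s' < x s then 2 else 0 := ⟨_, fun s s' => rfl⟩
  have hw0 : ∀ s s', 0 ≤ w s s' := by
    intro s s'; rw [hw]; split_ifs <;> norm_num
  obtain ⟨c, hc⟩ : ∃ c : ι → ι → ℝ, ∀ s s', c s s' = m s * m s' *
      (if Q s s' then w s s' else 0) := ⟨_, fun s s' => rfl⟩
  have hc0 : ∀ s s', 0 ≤ c s s' := by
    intro s s'
    rw [hc]
    refine mul_nonneg (mul_nonneg (hm s) (hm s')) ?_
    split_ifs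
    · exact hw0 _ _
    · exact le_rfl
  -- the pointwise inequality
  have hpt : ∀ t ∈ Icc A B, cn S m x h t ^ 2 ≤
      ∑ s ∈ S, ∑ s' ∈ S, c s s' * W (x s - h) (h - (x s - x s')) t := by
    intro t ht
    obtain ⟨P, hP⟩ : ∃ P : ι → ι → ℝ, ∀ s s', P s s' = m s * m s' *
      ((if t < x s ∧ x s ≤ t + h then 1 else 0) * (if t < x s' ∧ x s' ≤ t + h then 1 else 0)) :=
      ⟨_, fun s s' => rfl⟩
    have e1 : cn S m x h t ^ 2 = ∑ s ∈ S, ∑ s' ∈ S, P s s' := by
      have := cn_prod (S := S) (m := m) (x := x) h 0 h t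
      rw [add_zero, ← sq] at this
      rw [this]
      refine Finset.sum_congr rfl fun s _ => Finset.sum_congr rfl fun s' _ => ?_
      rw [hP]
    have e2 : ∑ s ∈ S, ∑ s' ∈ S, P s s' * w s s' = ∑ s ∈ S, ∑ s' ∈ S, P s s' * w s' s := by
      rw [Finset.sum_comm]
      refine Finset.sum_congr rfl fun s _ => Finset.sum_congr rfl fun s' _ => ?_
      rw [hP, hP]; ring
    have e3 : ∑ s ∈ S, ∑ s' ∈ S, P s s' * w s s' + ∑ s ∈ S, ∑ s' ∈ S, P s s' * w s' s =
        2 * ∑ s ∈ S, ∑ s' ∈ S, P s s' := by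
      rw [← Finset.sum_add_distrib, Finset.mul_sum]
      refine Finset.sum_congr rfl fun s _ => ?_
      rw [← Finset.sum_add_distrib, Finset.mul_sum]
      refine Finset.sum_congr rfl fun s' _ => ?_
      rw [← mul_add, mul_comm 2]
      congr 1
      rw [hw, hw]
      rcases lt_trichotomy (x s) (x s') with g | g | g
      · rw [if_neg g.ne, if_neg (not_lt.2 g.le), if_neg g.ne', if_pos g]; norm_num
      · rw [if_pos g, if_pos g.symm]; norm_num
      · rw [if_neg g.ne', if_pos g, if_neg g.ne, if_neg (not_lt.2 g.le)]; norm_num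
    have e4 : cn S m x h t ^ 2 = ∑ s ∈ S, ∑ s' ∈ S, P s s' * w s s' := by
      rw [e1]; linarith
    rw [e4]
    refine Finset.sum_le_sum fun s _ => Finset.sum_le_sum fun s' _ => ?_
    by_cases c2 : (t < x s ∧ x s ≤ t + h) ∧ (t < x s' ∧ x s' ≤ t + h)
    · have hPe : P s s' = m s * m s' := by rw [hP, if_pos c2.1, if_pos c2.2]; ring
      rcases lt_or_ge (x s) (x s') with g | g
      · have : w s s' = 0 := by rw [hw, if_neg g.ne, if_neg (not_lt.2 g.le)]
        rw [this, mul_zero]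
        exact mul_nonneg (hc0 _ _) (W_nonneg _ _ _)
      · have c1 : Q s s' := (hQ s s').2 ⟨by linarith [ht.1, c2.1.1], by linarith [ht.2, c2.1.2],
          by linarith, by linarith [c2.1.2, c2.2.1]⟩
        have hWe : W (x s - h) (h - (x s - x s')) t = 1 := by
          unfold W
          rw [if_pos ⟨by linarith [c2.1.2], by linarith [c2.2.1]⟩]
        rw [hWe, mul_one, hc, if_pos c1, hPe]
    · have hPe : P s s' = 0 := by
        rw [hP]
        by_cases c3 : t < x s ∧ x s ≤ t + h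
        · rw [if_neg (fun z => c2 ⟨c3, z⟩)]; ring
        · rw [if_neg c3]; ring
      rw [hPe, zero_mul]
      exact mul_nonneg (hc0 _ _) (W_nonneg _ _ _)
  have hii : ∀ s ∈ S, IntervalIntegrable (fun t => ∑ s' ∈ S, c s s' *
      W (x s - h) (h - (x s - x s')) t) volume A B := fun s _ => by
    have h3 : ∀ s' ∈ S, IntervalIntegrable (fun t => c s s' * W (x s - h) (h - (x s - x s')) t)
      volume A B := fun s' _ => (W_int _ _ _ _).const_mul _
    exact ii_sum h3
  have h1 : ∫ t in A..B, cn S m x h t ^ 2 ≤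
      ∫ t in A..B, ∑ s ∈ S, ∑ s' ∈ S, c s s' * W (x s - h) (h - (x s - x s')) t := by
    refine intervalIntegral.integral_mono_on hAB ?_ (ii_sum hii) hpt
    have := cn_prod_int (S := S) (m := m) (x := x) hm h 0 h A B
    simp_rw [add_zero, ← sq] at this
    exact this
  refine h1.trans ?_
  rw [intervalIntegral.integral_finsetSum hii]
  have h2 : h * dg S m x A (B + h) + 2 * (h / K) * ∑ k ∈ Finset.range K,
      pr S m x A (B + h) (((k + 1 : ℕ) : ℝ) * h / K) = ∑ s ∈ S, ∑ s' ∈ S, m s * m s' *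
      (h * (if A < x s ∧ x s ≤ B + h ∧ x s = x s' then 1 else 0) +
        2 * (h / K * ∑ k ∈ Finset.range K, (if A < x s ∧ x s ≤ B + h ∧ 0 < x s - x s' ∧
          x s - x s' ≤ ((k + 1 : ℕ) : ℝ) * h / K then 1 else 0))) := by
    unfold dg pr
    rw [Finset.sum_comm (s := Finset.range K)]
    simp_rw [Finset.sum_comm (s := Finset.range K)]
    rw [Finset.mul_sum, Finset.mul_sum, ← Finset.sum_add_distrib]
    refine Finset.sum_congr rfl fun s _ => ?_
    rw [Finset.mul_sum, Finset.mul_sum, ← Finset.sum_add_distrib]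
    refine Finset.sum_congr rfl fun s' _ => ?_
    rw [← Finset.mul_sum]
    ring
  rw [h2]
  refine Finset.sum_le_sum fun s _ => ?_
  rw [intervalIntegral.integral_finsetSum fun s' _ => (W_int _ _ _ _).const_mul _]
  refine Finset.sum_le_sum fun s' _ => ?_
  rw [intervalIntegral.integral_const_mul]
  have hnn : 0 ≤ h * (if A < x s ∧ x s ≤ B + h ∧ x s = x s' then (1 : ℝ) else 0) +
        2 * (h / K * ∑ k ∈ Finset.range K, (if A < x s ∧ x s ≤ B + h ∧ 0 < x s - x s' ∧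
          x s - x s' ≤ ((k + 1 : ℕ) : ℝ) * h / K then (1 : ℝ) else 0)) := by
    have u1 := ite01 (A < x s ∧ x s ≤ B + h ∧ x s = x s')
    have u2 : 0 ≤ ∑ k ∈ Finset.range K, (if A < x s ∧ x s ≤ B + h ∧ 0 < x s - x s' ∧
          x s - x s' ≤ ((k + 1 : ℕ) : ℝ) * h / K then (1 : ℝ) else 0) :=
      Finset.sum_nonneg fun k _ => ite01 _
    positivity
  by_cases c1 : Q s s'
  · have c3 := (hQ s s').1 c1
    have hW := W_up (A := A) (B := B) (u := x s - h) (d := h - (x s - x s')) hAB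
      (by linarith [c3.2.2.2])
    refine (mul_le_mul_of_nonneg_left hW (hc0 s s')).trans ?_
    rw [hc, if_pos c1, mul_assoc (m s * m s') (w s s')]
    refine mul_le_mul_of_nonneg_left ?_ (mul_nonneg (hm s) (hm s'))
    rcases c3.2.2.1.eq_or_lt with g | g
    · have g1 : x s = x s' := by linarith
      rw [hw, if_pos g1, if_pos ⟨c3.1, c3.2.1, g1⟩]
      have u2 : 0 ≤ ∑ k ∈ Finset.range K, (if A < x s ∧ x s ≤ B + h ∧ 0 < x s - x s' ∧
          x s - x s' ≤ ((k + 1 : ℕ) : ℝ) * h / K then (1 : ℝ) else 0) :=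
        Finset.sum_nonneg fun k _ => ite01 _
      have u3 : 0 ≤ 2 * (h / K * ∑ k ∈ Finset.range K, (if A < x s ∧ x s ≤ B + h ∧
          0 < x s - x s' ∧ x s - x s' ≤ ((k + 1 : ℕ) : ℝ) * h / K then (1 : ℝ) else 0)) := by
        positivity
      linarith
    · have g1 : x s ≠ x s' := by
        intro hcon
        rw [hcon] at g
        linarith
      rw [hw, if_neg g1, if_pos (show x s' < x s by linarith), if_neg (fun z => g1 z.2.2)]
      have e0 : ∀ k : ℕ, (if A < x s ∧ x s ≤ B + h ∧ 0 < x s - x s' ∧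
          x s - x s' ≤ ((k + 1 : ℕ) : ℝ) * h / K then (1 : ℝ) else 0) =
          if 0 < x s - x s' ∧ x s - x s' ≤ ((k + 1 : ℕ) : ℝ) * h / K then 1 else 0 := by
        intro k
        by_cases g : 0 < x s - x s' ∧ x s - x s' ≤ ((k + 1 : ℕ) : ℝ) * h / K
        · rw [if_pos ⟨c3.1, c3.2.1, g⟩, if_pos g]
        · rw [if_neg (fun z => g z.2.2), if_neg g]
      simp_rw [e0]
      have := count_ge hh g hK
      linarith
  · rw [hc, if_neg c1, mul_zero, zero_mul]
    exact mul_nonneg (mul_nonneg (hm s) (hm s')) hnn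

end

end Pool.Agent.X83.PC
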