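import Pool.Agent.X83.PC.Diag4

/-! # Uniform two-sided bounds for the mean of the pair counts -/

set_option autoImplicit false

namespace Pool.Agent.X83.PC

open MeasureTheory Set Filter Topology
open H370 (Zf mult mem_Zf good_zeta NN NN_eq zset)
open Pool.Agent.TH850.UV (NS mS mS_nonneg)
open Pool.Agent.X113.PG
open Pool.Agent.X113.PC (SU cc BM facts first_moment ZZ ZZ_fin PSt PSt_fin FF FF_mono FF_add FF_pr
  cc_nonneg)

/-- two-sided estimates of the second moment, uniformly -/
theorem second2 : ∃ C U0 : ℝ, 1 ≤ C ∧ 100 ≤ U0 ∧ ∀ U : ℝ, U0 ≤ U → ∀ h : ℝ, 0 < h →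
    h ^ 2 * Real.log U ≤ 4 * Real.pi ^ 2 → ∀ b : ℝ, b = h * Real.log U / (2 * Real.pi) →
    h ≤ 1 ∧ 2 * h ≤ U ∧
    (∫ t in U..(2 * U), cc U h t ^ 2) ≤ U * (b ^ 2 + Real.log (1 + b) / Real.pi ^ 2 + C) ∧
    U * (b ^ 2 - C) ≤ (∫ t in U..(2 * U), cc U h t ^ 2) ∧
    (∫ t in (2 * U - h)..(2 * U), cc U h t ^ 2) ≤ U ∧
    dg (SU U) mS Complex.im U (U + 2 * h) * h ≤ U ∧
    (∀ r : ℝ, 0 ≤ r → r ≤ h → 2 * h * pr (SU U) mS Complex.im U (U + 2 * h) r ≤ U) := by
  obtain ⟨C, U0, hC, hU0, hf⟩ := facts 1 le_rfl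
  have hpi := Real.pi_pos
  have hpi3 := Real.pi_gt_three
  have hpi4 := Real.pi_lt_d2
  refine ⟨27 * C, max U0 (Real.exp 40), by linarith, hU0.trans (le_max_left _ _),
    fun U hU h h0 hh b hb => ?_⟩
  obtain ⟨f1, f2, f3, f4, f5, f6⟩ := hf U ((le_max_left _ _).trans hU)
  have hU100 : 100 ≤ U := hU0.trans ((le_max_left _ _).trans hU)
  have hUp : 0 < U := by linarith
  have hL40 : 40 ≤ Real.log U := by
    rw [Real.le_log_iff_exp_le hUp]
    exact (le_max_right _ _).trans hU
  have hLp : 0 < Real.log U := by linarith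
  have h7 : h ≤ 1 := by
    by_contra hcon
    push Not at hcon
    have h1 : 1 < h ^ 2 := by nlinarith
    have h2 : 40 < h ^ 2 * Real.log U := by nlinarith
    nlinarith
  have hb0 : 0 < b := by rw [hb]; positivity
  have hb2 : b ^ 2 ≤ Real.log U := by
    rw [hb, div_pow, div_le_iff₀ (by positivity)]
    have : (h * Real.log U) ^ 2 = h ^ 2 * Real.log U * Real.log U := by ring
    rw [this]
    nlinarith
  have hbh : b * h ≤ 2 * Real.pi := by
    rw [hb, div_mul_eq_mul_div, div_le_iff₀ (by positivity)]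
    nlinarith
  have hhb : 2 * Real.pi * b / Real.log U = h := by rw [hb]; field_simp
  have g6 := f6 b hb0 (by
    rcases le_or_gt b 1 with g | g
    · have : b * Real.log b ≤ 0 := mul_nonpos_of_nonneg_of_nonpos hb0.le
        (Real.log_nonpos hb0.le g)
      linarith
    · have h1 : Real.log b ≤ b := by
        have := Real.log_le_sub_one_of_pos hb0
        linarith
      have h2 : b * Real.log b ≤ b * b := mul_le_mul_of_nonneg_left h1 hb0.le
      nlinarith) (by rw [hhb]; linarith)
  rw [hhb] at g6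
  have g5 := first_moment hC hU100 f1 f2 f4 f5 (h := 0) (k := h) le_rfl h0.le (by linarith)
  simp_rw [add_zero] at g5
  have e1 : h * (U * Real.log U / (2 * Real.pi)) = b * U := by rw [hb]; ring
  rw [e1] at g5
  have hBM := BM.cc U h
  have i1 : IntervalIntegrable (fun t => (cc U h t - b) ^ 2) volume U (2 * U) :=
    (hBM.sub (BM.const b)).sq.ii _ _
  have i2 : IntervalIntegrable (fun t => cc U h t) volume U (2 * U) := hBM.ii _ _
  have e2 : ∫ t in U..(2 * U), cc U h t ^ 2 = (∫ t in U..(2 * U), (cc U h t - b) ^ 2) +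
      2 * b * (∫ t in U..(2 * U), cc U h t) - b ^ 2 * U := by
    have e3 : ∫ t in U..(2 * U), cc U h t ^ 2 = ∫ t in U..(2 * U),
        ((cc U h t - b) ^ 2 + 2 * b * cc U h t - b ^ 2) := by
      refine intervalIntegral.integral_congr fun t _ => ?_
      show cc U h t ^ 2 = (cc U h t - b) ^ 2 + 2 * b * cc U h t - b ^ 2
      ring
    rw [e3, intervalIntegral.integral_sub (i1.add (i2.const_mul _)) (by simp),
      intervalIntegral.integral_add i1 (i2.const_mul _), intervalIntegral.integral_const_mul,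
      intervalIntegral.integral_const]
    simp only [smul_eq_mul]
    ring
  have q1 := (abs_le.1 g6).2
  have q2 := (abs_le.1 g5).2
  have q2' := (abs_le.1 g5).1
  have hCL : 100 * (C * Real.log U) ^ 2 ≤ U := by
    have hx : 0 < C * Real.log U := by positivity
    have := pow_le_pow_left₀ hx.le (show C * Real.log U ≤ C * Real.log U + 1 by linarith) 2
    linarith
  have q7 : 4 * b * h * C * U ≤ 26 * C * U := by
    apply mul_le_mul_of_nonneg_right _ hUp.le
    nlinarith
  refine ⟨h7, by linarith, ?_, ?_, ?_, ?_, ?_⟩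
  · rw [e2]
    have q4 : 2 * b * (∫ t in U..(2 * U), cc U h t) ≤ 2 * b * (b * U + h * (2 * C * U)) :=
      mul_le_mul_of_nonneg_left (by linarith) (by positivity)
    have e4 : U / Real.pi ^ 2 * Real.log (1 + b) = U * (Real.log (1 + b) / Real.pi ^ 2) := by ring
    rw [e4] at q1
    have q9 : 2 * b * (b * U + h * (2 * C * U)) = 2 * (b ^ 2 * U) + 4 * b * h * C * U := by ring
    have q10 : U * (b ^ 2 + Real.log (1 + b) / Real.pi ^ 2 + 27 * C) =
      b ^ 2 * U + U * (Real.log (1 + b) / Real.pi ^ 2) + 26 * C * U + C * U := by ring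
    rw [q9] at q4
    rw [q10]
    linarith
  · rw [e2]
    have q4 : 2 * b * (b * U - h * (2 * C * U)) ≤ 2 * b * (∫ t in U..(2 * U), cc U h t) :=
      mul_le_mul_of_nonneg_left (by linarith) (by positivity)
    have q5 : 0 ≤ ∫ t in U..(2 * U), (cc U h t - b) ^ 2 :=
      intervalIntegral.integral_nonneg (by linarith) fun t _ => sq_nonneg _
    have q9 : 2 * b * (b * U - h * (2 * C * U)) = 2 * (b ^ 2 * U) - 4 * b * h * C * U := by ring
    have q10 : U * (b ^ 2 - 27 * C) = b ^ 2 * U - 26 * C * U - C * U := by ring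
    rw [q9] at q4
    rw [q10]
    have : 0 ≤ C * U := by positivity
    linarith
  · have r1 : ∫ t in (2 * U - h)..(2 * U), cc U h t ^ 2 ≤
        ∫ t in (2 * U - h)..(2 * U), (C * Real.log U) ^ 2 := by
      refine intervalIntegral.integral_mono_on (by linarith) (hBM.sq.ii _ _) (by simp)
        fun t ht => ?_
      exact pow_le_pow_left₀ (cc_nonneg U h t) (f4 t h (by linarith [ht.1]) (by linarith [ht.2])
        h0.le (by linarith)) 2
    rw [intervalIntegral.integral_const, smul_eq_mul] at r1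
    have r2 : (2 * U - (2 * U - h)) * (C * Real.log U) ^ 2 ≤ (C * Real.log U) ^ 2 := by
      have := sq_nonneg (C * Real.log U)
      nlinarith
    have := sq_nonneg (C * Real.log U)
    linarith
  · have r1 := dg_edge (S := SU U) (m := mS) (x := Complex.im) mS_nonneg (A := U) (η := 2 * h)
    have r2 := f4 U (2 * h) (by linarith) (by linarith) (by positivity) (by linarith)
    have r3 := cc_nonneg U (2 * h) U
    have r4 : cc U (2 * h) U ^ 2 ≤ (C * Real.log U) ^ 2 := pow_le_pow_left₀ r3 r2 2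
    have r5 : (C * Real.log U) ^ 2 ≤ U := by
      have := sq_nonneg (C * Real.log U)
      linarith
    have r6 := dg_nonneg (S := SU U) (m := mS) (x := Complex.im) mS_nonneg U (U + 2 * h)
    have r7 : dg (SU U) mS Complex.im U (U + 2 * h) ≤ U := r1.trans (r4.trans r5)
    exact (mul_le_of_le_one_right r6 h7).trans r7
  · intro r hr0 hrh
    have r1 := pr_edge (S := SU U) (m := mS) (x := Complex.im) mS_nonneg (A := U) (η := 2 * h)
      (h := r) (by linarith) hr0
    have r2 := f4 (U - r) r (by linarith) (by linarith) hr0 (by linarith)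
    have r3 := f4 U (2 * h) (by linarith) (by linarith) (by positivity) (by linarith)
    have r4 := cc_nonneg U r (U - r)
    have r5 := cc_nonneg U (2 * h) U
    have r6 : (cc U r (U - r) + cc U (2 * h) U) ^ 2 ≤ (C * Real.log U + C * Real.log U) ^ 2 :=
      pow_le_pow_left₀ (by linarith) (by linarith) 2
    have r7 : 2 * (C * Real.log U + C * Real.log U) ^ 2 ≤ U := by
      have e5 : 2 * (C * Real.log U + C * Real.log U) ^ 2 = 8 * (C * Real.log U) ^ 2 := by ring
      have := sq_nonneg (C * Real.log U)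
      rw [e5]
      linarith
    have r8 := pr_nonneg (S := SU U) (m := mS) (x := Complex.im) mS_nonneg U (U + 2 * h) r
    have r9 : 2 * pr (SU U) mS Complex.im U (U + 2 * h) r ≤ U := by
      have : pr (SU U) mS Complex.im U (U + 2 * h) r ≤
        (C * Real.log U + C * Real.log U) ^ 2 := r1.trans r6
      linarith
    have r10 : 2 * h * pr (SU U) mS Complex.im U (U + 2 * h) r =
      (2 * pr (SU U) mS Complex.im U (U + 2 * h) r) * h := by ring
    rw [r10]
    exact (mul_le_of_le_one_right (by linarith) h7).trans r9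

/-- the block inequalities, uniformly -/
theorem block2 : ∃ C U0 : ℝ, 1 ≤ C ∧ 100 ≤ U0 ∧ ∀ U : ℝ, U0 ≤ U → ∀ h : ℝ, 0 < h →
    h ^ 2 * Real.log U ≤ 4 * Real.pi ^ 2 → ∀ b : ℝ, b = h * Real.log U / (2 * Real.pi) →
    h ≤ 1 ∧ ∀ K : ℕ, 0 < K →
      (h * dg (SU U) mS Complex.im U (2 * U) + 2 * (h / K) * ∑ k ∈ Finset.range K,
        pr (SU U) mS Complex.im U (2 * U) (k * h / K) ≤
        U * (b ^ 2 + Real.log (1 + b) / Real.pi ^ 2 + C)) ∧
      U * (b ^ 2 - C) ≤ h * dg (SU U) mS Complex.im U (2 * U) +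
        2 * (h / K) * ∑ k ∈ Finset.range K,
          pr (SU U) mS Complex.im U (2 * U) (((k + 1 : ℕ) : ℝ) * h / K) := by
  obtain ⟨C, U0, hC, hU0, hf⟩ := second2
  refine ⟨C + 2, U0, by linarith, hU0, fun U hU h h0 hh b hb => ?_⟩
  obtain ⟨c1, c2, c3, c3', c3'', c4, c5⟩ := hf U hU h h0 hh b hb
  refine ⟨c1, fun K hK => ?_⟩
  have hKr : (0 : ℝ) < K := by exact_mod_cast hK
  have hUp : 0 < U := by linarith
  constructor
  · have d1 := second_lo (S := SU U) (m := mS) (x := Complex.im) mS_nonneg (A := U) (B := 2 * U)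
      (h := h) (by linarith) h0 hK
    have d2 := dg_add (S := SU U) (m := mS) (x := Complex.im) (A := U) (B := U + 2 * h)
      (C := 2 * U) (by linarith) (by linarith)
    have d3 : ∀ r : ℝ, pr (SU U) mS Complex.im U (2 * U) r =
        pr (SU U) mS Complex.im U (U + 2 * h) r + pr (SU U) mS Complex.im (U + 2 * h) (2 * U) r :=
      fun r => pr_add (by linarith) (by linarith) r
    have d4 : ∑ k ∈ Finset.range K, pr (SU U) mS Complex.im U (2 * U) (k * h / K) =
        ∑ k ∈ Finset.range K, pr (SU U) mS Complex.im U (U + 2 * h) (k * h / K) +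
        ∑ k ∈ Finset.range K, pr (SU U) mS Complex.im (U + 2 * h) (2 * U) (k * h / K) := by
      rw [← Finset.sum_add_distrib]
      exact Finset.sum_congr rfl fun k _ => d3 _
    have d5 : 2 * (h / K) * ∑ k ∈ Finset.range K,
        pr (SU U) mS Complex.im U (U + 2 * h) (k * h / K) ≤ U := by
      have e1 : ∑ k ∈ Finset.range K, 2 * h * pr (SU U) mS Complex.im U (U + 2 * h) (k * h / K) ≤
          ∑ k ∈ Finset.range K, U := by
        refine Finset.sum_le_sum fun k hk => c5 _ (by positivity) ?_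
        rw [div_le_iff₀ hKr]
        have : (k : ℝ) ≤ K := by exact_mod_cast (Finset.mem_range.1 hk).le
        nlinarith
      rw [Finset.sum_const, Finset.card_range, nsmul_eq_mul, ← Finset.mul_sum] at e1
      have e2 : 2 * (h / K) * ∑ k ∈ Finset.range K,
        pr (SU U) mS Complex.im U (U + 2 * h) (k * h / K) = (2 * h * ∑ k ∈ Finset.range K,
        pr (SU U) mS Complex.im U (U + 2 * h) (k * h / K)) / K := by ring
      rw [e2, div_le_iff₀ hKr]
      linarith
    change _ ≤ ∫ t in U..(2 * U), cc U h t ^ 2 at d1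
    rw [d4, d2]
    have d6 : h * (dg (SU U) mS Complex.im U (U + 2 * h) +
        dg (SU U) mS Complex.im (U + 2 * h) (2 * U)) + 2 * (h / K) *
        (∑ k ∈ Finset.range K, pr (SU U) mS Complex.im U (U + 2 * h) (k * h / K) +
        ∑ k ∈ Finset.range K, pr (SU U) mS Complex.im (U + 2 * h) (2 * U) (k * h / K)) =
        dg (SU U) mS Complex.im U (U + 2 * h) * h +
        2 * (h / K) * ∑ k ∈ Finset.range K, pr (SU U) mS Complex.im U (U + 2 * h) (k * h / K) +
        (h * dg (SU U) mS Complex.im (U + 2 * h) (2 * U) + 2 * (h / K) *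
        ∑ k ∈ Finset.range K, pr (SU U) mS Complex.im (U + 2 * h) (2 * U) (k * h / K)) := by ring
    have d7 : U * (b ^ 2 + Real.log (1 + b) / Real.pi ^ 2 + (C + 2)) =
        U * (b ^ 2 + Real.log (1 + b) / Real.pi ^ 2 + C) + 2 * U := by ring
    rw [d6, d7]
    linarith
  · have d1 := second_hi (S := SU U) (m := mS) (x := Complex.im) mS_nonneg (A := U)
      (B := 2 * U - h) (h := h) (by linarith) h0 hK
    rw [sub_add_cancel] at d1
    change ∫ t in U..(2 * U - h), cc U h t ^ 2 ≤ _ at d1
    have hBM := BM.cc U h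
    have d2 := intervalIntegral.integral_add_adjacent_intervals (hBM.sq.ii U (2 * U - h))
      (hBM.sq.ii (2 * U - h) (2 * U))
    have d7 : U * (b ^ 2 - (C + 2)) = U * (b ^ 2 - C) - 2 * U := by ring
    rw [d7]
    linarith

/-- two-sided bounds up to the height `T`, uniformly -/
theorem mean2 : ∃ C T0 : ℝ, 1 ≤ C ∧ 100 ≤ T0 ∧ ∀ T : ℝ, T0 ≤ T → ∀ h : ℝ, 0 < h →
    h ^ 2 * Real.log T ≤ 4 * Real.pi ^ 2 → ∀ b : ℝ, b = h * Real.log T / (2 * Real.pi) →
    ∀ K : ℕ, 0 < K →
      (h * (DS 0 T : ℝ) + 2 * (h / K) * ∑ k ∈ Finset.range K, (FF 0 T (k * h / K) : ℝ) ≤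
        T * (b ^ 2 + Real.log (1 + b) / Real.pi ^ 2 + C)) ∧
      T * (b ^ 2 - C) ≤ h * (DS 0 T : ℝ) + 2 * (h / K) * ∑ k ∈ Finset.range K,
        (FF 0 T (((k + 1 : ℕ) : ℝ) * h / K) : ℝ) := by
  obtain ⟨C, U0, hC, hU0, hb⟩ := block2
  have hpi := Real.pi_pos
  have hpi3 := Real.pi_gt_three
  obtain ⟨K1, hK1⟩ : ∃ K1 : ℝ, K1 = (DS 0 (2 * U0) : ℝ) + 2 * (FF 0 (2 * U0) 7 : ℝ) := ⟨_, rfl⟩
  have hK10 : 0 ≤ K1 := by rw [hK1]; positivity
  have hlU0 : 0 ≤ Real.log (2 * U0) := Real.log_nonneg (by linarith)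
  obtain ⟨C', hC'⟩ : ∃ C' : ℝ, C' = C + 4 + K1 + Real.log (2 * U0) := ⟨_, rfl⟩
  have key : ∀ j : ℕ, ∀ T : ℝ, U0 ≤ T → T ≤ 2 ^ (j + 1) * U0 → ∀ h : ℝ, 0 < h →
      h ^ 2 * Real.log T ≤ 4 * Real.pi ^ 2 → ∀ b : ℝ, b = h * Real.log T / (2 * Real.pi) →
      ∀ K : ℕ, 0 < K →
      (h * (DS 0 T : ℝ) + 2 * (h / K) * ∑ k ∈ Finset.range K, (FF 0 T (k * h / K) : ℝ) ≤
        T * (b ^ 2 + Real.log (1 + b) / Real.pi ^ 2 + C')) ∧
      T * (b ^ 2 - C') ≤ h * (DS 0 T : ℝ) + 2 * (h / K) * ∑ k ∈ Finset.range K,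
        (FF 0 T (((k + 1 : ℕ) : ℝ) * h / K) : ℝ) := by
    intro j
    induction j with
    | zero =>
      intro T h1 h2 h h0 hh b hbd K hK
      have hKr : (0 : ℝ) < K := by exact_mod_cast hK
      obtain ⟨h7, -⟩ := hb T h1 h h0 hh b hbd
      have h2' : T ≤ 2 * U0 := by simpa using h2
      have hT : 0 < T := by linarith
      have hT1 : 1 ≤ T := by linarith
      have hlT : 0 < Real.log T := Real.log_pos (by linarith)
      have hb0 : 0 < b := by rw [hbd]; positivity
      constructor
      · have g1 : (DS 0 T : ℝ) ≤ DS 0 (2 * U0) := by exact_mod_cast DS_mono h2'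
        have g2 : ∑ k ∈ Finset.range K, (FF 0 T (k * h / K) : ℝ) ≤
            ∑ k ∈ Finset.range K, (FF 0 (2 * U0) 7 : ℝ) := by
          refine Finset.sum_le_sum fun k hk => ?_
          have : (k : ℝ) * h / K ≤ 7 := by
            rw [div_le_iff₀ hKr]
            have : (k : ℝ) ≤ K := by exact_mod_cast (Finset.mem_range.1 hk).le
            nlinarith
          exact_mod_cast FF_mono h2' this
        rw [Finset.sum_const, Finset.card_range, nsmul_eq_mul] at g2
        have g3 : 2 * (h / K) * ∑ k ∈ Finset.range K, (FF 0 T (k * h / K) : ℝ) ≤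
            2 * (h / K) * (K * (FF 0 (2 * U0) 7 : ℝ)) :=
          mul_le_mul_of_nonneg_left g2 (by positivity)
        have g4 : 2 * (h / K) * (K * (FF 0 (2 * U0) 7 : ℝ)) = h * (2 * (FF 0 (2 * U0) 7 : ℝ)) := by
          field_simp
        have g5 : h * (DS 0 T : ℝ) ≤ h * DS 0 (2 * U0) := mul_le_mul_of_nonneg_left g1 h0.le
        have g7 : h * K1 = h * (DS 0 (2 * U0) : ℝ) + h * (2 * (FF 0 (2 * U0) 7 : ℝ)) := by
          rw [hK1]; ring
        have g8 : h * K1 ≤ K1 := mul_le_of_le_one_left hK10 h7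
        have g9 : 0 ≤ Real.log (1 + b) / Real.pi ^ 2 := by
          have : 0 ≤ Real.log (1 + b) := Real.log_nonneg (by linarith)
          positivity
        have g10 : K1 ≤ b ^ 2 + Real.log (1 + b) / Real.pi ^ 2 + C' := by
          have := sq_nonneg b
          rw [hC']; linarith
        have g11 : b ^ 2 + Real.log (1 + b) / Real.pi ^ 2 + C' ≤
            T * (b ^ 2 + Real.log (1 + b) / Real.pi ^ 2 + C') :=
          le_mul_of_one_le_left (by linarith) hT1
        linarith
      · have g1 : b ^ 2 ≤ Real.log T := by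
          rw [hbd, div_pow, div_le_iff₀ (by positivity)]
          have : (h * Real.log T) ^ 2 = h ^ 2 * Real.log T * Real.log T := by ring
          rw [this]
          nlinarith
        have g2 : Real.log T ≤ Real.log (2 * U0) := Real.log_le_log hT h2'
        have g3 : T * (b ^ 2 - C') ≤ 0 :=
          mul_nonpos_of_nonneg_of_nonpos hT.le (by rw [hC']; linarith)
        refine g3.trans ?_
        positivity
    | succ j ih =>
      intro T h1 h2 h h0 hh b hbd K hK
      have hKr : (0 : ℝ) < K := by exact_mod_cast hK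
      rcases le_or_gt T (2 ^ (j + 1) * U0) with h3 | h3
      · exact ih T h1 h3 h h0 hh b hbd K hK
      · obtain ⟨V, hV⟩ : ∃ V, V = T / 2 := ⟨_, rfl⟩
        have hTV : T = 2 * V := by rw [hV]; ring
        have hV1 : U0 ≤ V := by
          have : (2 : ℝ) ≤ 2 ^ (j + 1) := by
            calc (2 : ℝ) = 2 ^ 1 := by norm_num
              _ ≤ _ := pow_le_pow_right₀ (by norm_num) (by omega)
          nlinarith
        have hV2 : V ≤ 2 ^ (j + 1) * U0 := by
          rw [hV, div_le_iff₀ two_pos]
          calc T ≤ 2 ^ (j + 1 + 1) * U0 := h2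
            _ = _ := by ring
        have hV0 : 0 < V := by linarith
        have hlog : Real.log V ≤ Real.log T := Real.log_le_log hV0 (by linarith)
        have hlogV : 0 < Real.log V := Real.log_pos (by linarith)
        have hh' : h ^ 2 * Real.log V ≤ 4 * Real.pi ^ 2 :=
          (mul_le_mul_of_nonneg_left hlog (sq_nonneg h)).trans hh
        obtain ⟨c, hc⟩ : ∃ c : ℝ, c = h * Real.log V / (2 * Real.pi) := ⟨_, rfl⟩
        have hc0 : 0 < c := by rw [hc]; positivity
        have hcb : c ≤ b := by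
          rw [hc, hbd]
          have := mul_le_mul_of_nonneg_left hlog h0.le
          gcongr
        obtain ⟨i1, i1'⟩ := ih V hV1 hV2 h h0 hh' c hc K hK
        obtain ⟨h7, i2⟩ := hb V hV1 h h0 hh' c hc
        obtain ⟨i3, i3'⟩ := i2 K hK
        have i4 : (DS 0 T : ℝ) = DS 0 V + dg (SU V) mS Complex.im V (2 * V) := by
          rw [← DS_dg (by linarith), hTV, DS_add hV0.le (by linarith)]
          push_cast; rfl
        have i5g : ∀ r : ℝ, r ≤ 7 → (FF 0 T r : ℝ) = FF 0 V r + pr (SU V) mS Complex.im V (2 * V) r := by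
          intro r hr
          rw [← FF_pr (by linarith) hr, hTV, FF_add hV0.le (by linarith)]
          push_cast; rfl
        constructor
        · have i5 : ∑ k ∈ Finset.range K, (FF 0 T (k * h / K) : ℝ) =
              ∑ k ∈ Finset.range K, (FF 0 V (k * h / K) : ℝ) +
              ∑ k ∈ Finset.range K, pr (SU V) mS Complex.im V (2 * V) (k * h / K) := by
            rw [← Finset.sum_add_distrib]
            refine Finset.sum_congr rfl fun k hk => i5g _ ?_
            rw [div_le_iff₀ hKr]
            have : (k : ℝ) ≤ K := by exact_mod_cast (Finset.mem_range.1 hk).le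
            nlinarith
          rw [i4, i5]
          have i6 : h * ((DS 0 V : ℝ) + dg (SU V) mS Complex.im V (2 * V)) + 2 * (h / K) *
              (∑ k ∈ Finset.range K, (FF 0 V (k * h / K) : ℝ) +
              ∑ k ∈ Finset.range K, pr (SU V) mS Complex.im V (2 * V) (k * h / K)) =
              (h * (DS 0 V : ℝ) + 2 * (h / K) * ∑ k ∈ Finset.range K, (FF 0 V (k * h / K) : ℝ)) +
              (h * dg (SU V) mS Complex.im V (2 * V) + 2 * (h / K) *
              ∑ k ∈ Finset.range K, pr (SU V) mS Complex.im V (2 * V) (k * h / K)) := by ring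
          have j1 : Real.log (1 + c) ≤ Real.log (1 + b) := Real.log_le_log (by linarith) (by linarith)
          have j2 : Real.log (1 + c) / Real.pi ^ 2 ≤ Real.log (1 + b) / Real.pi ^ 2 := by gcongr
          have j3 : c ^ 2 ≤ b ^ 2 := pow_le_pow_left₀ hc0.le hcb 2
          have j4 : V * (c ^ 2 + Real.log (1 + c) / Real.pi ^ 2 + C') ≤
              V * (b ^ 2 + Real.log (1 + b) / Real.pi ^ 2 + C') :=
            mul_le_mul_of_nonneg_left (by linarith) hV0.le
          have j5 : V * (c ^ 2 + Real.log (1 + c) / Real.pi ^ 2 + C) ≤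
              V * (b ^ 2 + Real.log (1 + b) / Real.pi ^ 2 + C') :=
            mul_le_mul_of_nonneg_left (by rw [hC']; linarith) hV0.le
          have i7 : T * (b ^ 2 + Real.log (1 + b) / Real.pi ^ 2 + C') =
              V * (b ^ 2 + Real.log (1 + b) / Real.pi ^ 2 + C') +
              V * (b ^ 2 + Real.log (1 + b) / Real.pi ^ 2 + C') := by rw [hTV]; ring
          rw [i6, i7]
          linarith
        · have i5 : ∑ k ∈ Finset.range K, (FF 0 T (((k + 1 : ℕ) : ℝ) * h / K) : ℝ) =
              ∑ k ∈ Finset.range K, (FF 0 V (((k + 1 : ℕ) : ℝ) * h / K) : ℝ) +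
              ∑ k ∈ Finset.range K, pr (SU V) mS Complex.im V (2 * V)
                (((k + 1 : ℕ) : ℝ) * h / K) := by
            rw [← Finset.sum_add_distrib]
            refine Finset.sum_congr rfl fun k hk => i5g _ ?_
            rw [div_le_iff₀ hKr]
            have : (((k + 1 : ℕ) : ℝ)) ≤ K := by exact_mod_cast (Finset.mem_range.1 hk)
            nlinarith
          rw [i4, i5]
          have i6 : h * ((DS 0 V : ℝ) + dg (SU V) mS Complex.im V (2 * V)) + 2 * (h / K) *
              (∑ k ∈ Finset.range K, (FF 0 V (((k + 1 : ℕ) : ℝ) * h / K) : ℝ) +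
              ∑ k ∈ Finset.range K, pr (SU V) mS Complex.im V (2 * V)
                (((k + 1 : ℕ) : ℝ) * h / K)) =
              (h * (DS 0 V : ℝ) + 2 * (h / K) * ∑ k ∈ Finset.range K,
                (FF 0 V (((k + 1 : ℕ) : ℝ) * h / K) : ℝ)) +
              (h * dg (SU V) mS Complex.im V (2 * V) + 2 * (h / K) *
              ∑ k ∈ Finset.range K, pr (SU V) mS Complex.im V (2 * V)
                (((k + 1 : ℕ) : ℝ) * h / K)) := by ring
          have j0 : Real.log T = Real.log 2 + Real.log V := by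
            rw [hTV, Real.log_mul (by norm_num) hV0.ne']
          have j1 : b = c + h * Real.log 2 / (2 * Real.pi) := by
            rw [hbd, hc, j0]; ring
          have hl2 := Real.log_two_lt_d9
          have hl20 : 0 < Real.log 2 := Real.log_pos (by norm_num)
          have j2 : b * h ≤ 2 * Real.pi := by
            rw [hbd, div_mul_eq_mul_div, div_le_iff₀ (by positivity)]
            nlinarith
          have j3 : b ^ 2 ≤ c ^ 2 + 2 := by
            have e1 : c = b - h * Real.log 2 / (2 * Real.pi) := by linarith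
            have e2 : 2 * b * (h * Real.log 2 / (2 * Real.pi)) ≤ 2 := by
              rw [mul_div_assoc', div_le_iff₀ (by positivity)]
              have : 2 * b * (h * Real.log 2) = (b * h) * (2 * Real.log 2) := by ring
              rw [this]
              calc (b * h) * (2 * Real.log 2) ≤ (2 * Real.pi) * 2 := by
                    apply mul_le_mul j2 (by linarith) (by linarith) (by positivity)
                _ = _ := by ring
            rw [e1]
            nlinarith [sq_nonneg (h * Real.log 2 / (2 * Real.pi))]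
          have j4 : V * (b ^ 2 - 2 - C') ≤ V * (c ^ 2 - C') :=
            mul_le_mul_of_nonneg_left (by linarith) hV0.le
          have j5 : V * (b ^ 2 - 2 - C) ≤ V * (c ^ 2 - C) :=
            mul_le_mul_of_nonneg_left (by linarith) hV0.le
          have i7 : T * (b ^ 2 - C') ≤ V * (b ^ 2 - 2 - C') + V * (b ^ 2 - 2 - C) := by
            rw [hTV]
            have : V * (C + 4 - C') ≤ 0 :=
              mul_nonpos_of_nonneg_of_nonpos hV0.le (by rw [hC']; linarith)
            nlinarith
          rw [i6]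
          linarith
  refine ⟨C', U0, by rw [hC']; linarith, hU0, fun T hT h h0 hh b hbd K hK => ?_⟩
  obtain ⟨j, hj⟩ := pow_unbounded_of_one_lt (T / U0) (by norm_num : (1 : ℝ) < 2)
  rw [div_lt_iff₀ (by linarith)] at hj
  have hj2 : (2 : ℝ) ^ j * U0 ≤ 2 ^ (j + 1) * U0 := by
    rw [pow_succ]
    have : (0 : ℝ) < 2 ^ j * U0 := by positivity
    linarith
  exact key j T hT (by linarith) h h0 hh b hbd K hK

end Pool.Agent.X83.PC
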