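import Pool.Agent.X83.PC.Diag5

/-! # The mean of the pair counts: integral form, and lower bounds on one interval -/

set_option autoImplicit false

namespace Pool.Agent.X83.PC

open MeasureTheory Set Filter Topology
open Pool.Agent.Y749.Rig

lemma Nstar_mono (T : ℝ) (hT : 1 ≤ T) : Monotone fun x : ℝ => (Nstar T x : ℝ) := by
  intro x y hxy
  show (Nstar T x : ℝ) ≤ (Nstar T y : ℝ)
  rw [← FF_Nstar, ← FF_Nstar]
  have hl : 0 ≤ Real.log T := Real.log_nonneg hT
  have hpi := Real.pi_pos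
  have h1 : 2 * Real.pi * x / Real.log T ≤ 2 * Real.pi * y / Real.log T := by
    gcongr
  exact_mod_cast Pool.Agent.X113.PC.FF_mono le_rfl h1

/-- Riemann sums of a monotone function -/
lemma riem {f : ℝ → ℝ} (hf : Monotone f) {p q : ℝ} (hpq : p < q) {K : ℕ} (hK : 0 < K) :
    (q - p) / K * ∑ k ∈ Finset.range K, f (p + k * (q - p) / K) ≤ ∫ x in p..q, f x ∧
    ∫ x in p..q, f x ≤ (q - p) / K * ∑ k ∈ Finset.range K, f (p + ((k + 1 : ℕ) : ℝ) * (q - p) / K) := by
  have hKr : (0 : ℝ) < K := by exact_mod_cast hK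
  obtain ⟨d, hd⟩ : ∃ d : ℝ, d = (q - p) / K := ⟨_, rfl⟩
  have hd0 : 0 < d := by rw [hd]; exact div_pos (by linarith) hKr
  obtain ⟨g, hg⟩ : ∃ g : ℝ → ℝ, ∀ y, g y = f (y * d + p) := ⟨_, fun y => rfl⟩
  have hgm : Monotone g := by
    intro y z hyz
    rw [hg, hg]
    apply hf
    have := mul_le_mul_of_nonneg_right hyz hd0.le
    linarith
  have h1 := (hgm.monotoneOn (Icc 0 (0 + (K : ℝ)))).sum_le_integral
  have h2 := (hgm.monotoneOn (Icc 0 (0 + (K : ℝ)))).integral_le_sum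
  have e1 : ∫ y in (0:ℝ)..(0 + (K : ℝ)), g y = d⁻¹ * ∫ x in p..q, f x := by
    have e2 : ∀ y, g y = f (d * y + p) := fun y => by rw [hg, mul_comm]
    simp_rw [e2]
    rw [intervalIntegral.integral_comp_mul_add (fun x => f x) hd0.ne' p, smul_eq_mul]
    congr 2
    · ring
    · rw [hd]; field_simp; ring
  rw [e1] at h1 h2
  have e3 : ∀ k : ℕ, g (0 + (k : ℝ)) = f (p + k * (q - p) / K) := by
    intro k
    rw [hg, hd]
    congr 1
    ring
  have e4 : ∀ k : ℕ, g (0 + ((k + 1 : ℕ) : ℝ)) = f (p + ((k + 1 : ℕ) : ℝ) * (q - p) / K) :=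
    fun k => e3 (k + 1)
  simp_rw [e3] at h1
  simp_rw [e4] at h2
  rw [← hd]
  constructor
  · have := mul_le_mul_of_nonneg_left h1 hd0.le
    rwa [← mul_assoc, mul_inv_cancel₀ hd0.ne', one_mul] at this
  · have := mul_le_mul_of_nonneg_left h2 hd0.le
    rwa [← mul_assoc, mul_inv_cancel₀ hd0.ne', one_mul] at this

/-- **the mean of the pair counts and the pairs of equal ordinates**, uniformly -/
theorem mean_int : ∃ C T0 : ℝ, 1 ≤ C ∧ 100 ≤ T0 ∧ ∀ T : ℝ, T0 ≤ T → ∀ a : ℝ, 0 < a →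
    a ^ 2 ≤ Real.log T →
    nT T * (a ^ 2 - C) ≤ a * (DS 0 T : ℝ) + 2 * ∫ x in (0:ℝ)..a, (Nstar T x : ℝ) ∧
    a * (DS 0 T : ℝ) + 2 * ∫ x in (0:ℝ)..a, (Nstar T x : ℝ) ≤
      nT T * (a ^ 2 + Real.log (1 + a) / Real.pi ^ 2 + C) := by
  obtain ⟨C, T0, hC, hT0, hm⟩ := mean2
  have hpi := Real.pi_pos
  refine ⟨C, T0, hC, hT0, fun T hT a ha haL => ?_⟩
  have hT100 : 100 ≤ T := hT0.trans hT
  have hL : 0 < Real.log T := Real.log_pos (by linarith)
  obtain ⟨h, hh⟩ : ∃ h : ℝ, h = 2 * Real.pi * a / Real.log T := ⟨_, rfl⟩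
  have h0 : 0 < h := by rw [hh]; positivity
  have hb : a = h * Real.log T / (2 * Real.pi) := by rw [hh]; field_simp
  have hcond : h ^ 2 * Real.log T ≤ 4 * Real.pi ^ 2 := by
    rw [hh, div_pow, div_mul_eq_mul_div, div_le_iff₀ (by positivity)]
    have e : (2 * Real.pi * a) ^ 2 * Real.log T = 4 * Real.pi ^ 2 * (a ^ 2 * Real.log T) := by ring
    rw [e]
    apply mul_le_mul_of_nonneg_left _ (by positivity)
    nlinarith
  have hfm := Nstar_mono T (by linarith)
  have hff : ∀ y : ℝ, (Pool.Agent.X113.PC.FF 0 T (y * h) : ℝ) = Nstar T (y * a) := by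
    intro y
    rw [← FF_Nstar]
    congr 2
    rw [hh]; ring
  have hn : 0 < nT T := nT_pos (by linarith)
  have hTh : T * a = nT T * h := by
    unfold nT
    rw [hh]
    field_simp
  have hra := hm T hT h h0 hcond a hb
  -- both bounds with a parameter
  have key : ∀ K : ℕ, 0 < K →
      nT T * (a ^ 2 - C) - 2 * a * (Nstar T a : ℝ) / K ≤
        a * (DS 0 T : ℝ) + 2 * ∫ x in (0:ℝ)..a, (Nstar T x : ℝ) ∧
      a * (DS 0 T : ℝ) + 2 * ∫ x in (0:ℝ)..a, (Nstar T x : ℝ) ≤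
        nT T * (a ^ 2 + Real.log (1 + a) / Real.pi ^ 2 + C) + 2 * a * (Nstar T a : ℝ) / K := by
    intro K hK
    have hKr : (0 : ℝ) < K := by exact_mod_cast hK
    obtain ⟨r1, r2⟩ := riem hfm ha hK
    obtain ⟨m1, m2⟩ := hra K hK
    have e1 : ∀ k : ℕ, (Pool.Agent.X113.PC.FF 0 T (k * h / K) : ℝ) = Nstar T (0 + k * (a - 0) / K) := by
      intro k
      have := hff (k / K)
      rw [show (k : ℝ) / K * h = k * h / K by ring, show (k : ℝ) / K * a = 0 + k * (a - 0) / K by ring]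
        at this
      exact this
    have e2 : ∀ k : ℕ, (Pool.Agent.X113.PC.FF 0 T (((k + 1 : ℕ) : ℝ) * h / K) : ℝ) =
        Nstar T (0 + ((k + 1 : ℕ) : ℝ) * (a - 0) / K) := fun k => e1 (k + 1)
    simp_rw [e1] at m1
    simp_rw [e2] at m2
    obtain ⟨S1, hS1⟩ : ∃ S1 : ℝ, S1 = ∑ k ∈ Finset.range K, (Nstar T (0 + k * (a - 0) / K) : ℝ) :=
      ⟨_, rfl⟩
    obtain ⟨S2, hS2⟩ : ∃ S2 : ℝ, S2 = ∑ k ∈ Finset.range K,
      (Nstar T (0 + ((k + 1 : ℕ) : ℝ) * (a - 0) / K) : ℝ) := ⟨_, rfl⟩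
    rw [← hS1] at m1 r1
    rw [← hS2] at m2 r2
    have e3 : S2 ≤ S1 + Nstar T a := by
      have h1 := Finset.sum_range_succ (fun k : ℕ => (Nstar T (0 + k * (a - 0) / K) : ℝ)) K
      have h2 := Finset.sum_range_succ' (fun k : ℕ => (Nstar T (0 + k * (a - 0) / K) : ℝ)) K
      rw [← hS1] at h1
      rw [← hS2] at h2
      have h3 : (Nstar T (0 + (K : ℝ) * (a - 0) / K) : ℝ) = Nstar T a := by
        congr 2
        field_simp
        ring
      have h4 : (0 : ℝ) ≤ (Nstar T (0 + ((0 : ℕ) : ℝ) * (a - 0) / K) : ℝ) := Nat.cast_nonneg _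
      rw [h3] at h1
      linarith
    -- scale
    have s1 : h * (a * (DS 0 T : ℝ) + 2 * (a / K * S1)) ≤
        h * (nT T * (a ^ 2 + Real.log (1 + a) / Real.pi ^ 2 + C)) := by
      have e : h * (a * (DS 0 T : ℝ) + 2 * (a / K * S1)) =
          a * (h * (DS 0 T : ℝ) + 2 * (h / K) * S1) := by ring
      have e' : h * (nT T * (a ^ 2 + Real.log (1 + a) / Real.pi ^ 2 + C)) =
          a * (T * (a ^ 2 + Real.log (1 + a) / Real.pi ^ 2 + C)) := by
        rw [← mul_assoc, mul_comm h, ← hTh]; ring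
      rw [e, e']
      exact mul_le_mul_of_nonneg_left m1 ha.le
    have s2 : h * (nT T * (a ^ 2 - C)) ≤ h * (a * (DS 0 T : ℝ) + 2 * (a / K * S2)) := by
      have e : h * (a * (DS 0 T : ℝ) + 2 * (a / K * S2)) =
          a * (h * (DS 0 T : ℝ) + 2 * (h / K) * S2) := by ring
      have e' : h * (nT T * (a ^ 2 - C)) = a * (T * (a ^ 2 - C)) := by
        rw [← mul_assoc, mul_comm h, ← hTh]; ring
      rw [e, e']
      exact mul_le_mul_of_nonneg_left m2 ha.le
    have s1' := le_of_mul_le_mul_left s1 h0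
    have s2' := le_of_mul_le_mul_left s2 h0
    rw [sub_zero] at r1 r2
    have s3 : a / K * S2 ≤ a / K * S1 + a * (Nstar T a : ℝ) / K := by
      have := mul_le_mul_of_nonneg_left e3 (show 0 ≤ a / K by positivity)
      calc a / K * S2 ≤ a / K * (S1 + Nstar T a) := this
        _ = _ := by ring
    have e5 : 2 * a * (Nstar T a : ℝ) / K = 2 * (a * (Nstar T a : ℝ) / K) := by ring
    rw [e5]
    constructor <;> linarith
  have hlim : Tendsto (fun K : ℕ => 2 * a * (Nstar T a : ℝ) / (K : ℝ)) atTop (𝓝 0) :=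
    tendsto_const_div_atTop_nhds_zero_nat _
  constructor
  · have h1 := hlim.const_sub (nT T * (a ^ 2 - C))
    rw [sub_zero] at h1
    refine le_of_tendsto h1 ?_
    filter_upwards [eventually_gt_atTop 0] with K hK using (key K hK).1
  · have h1 := hlim.const_add (nT T * (a ^ 2 + Real.log (1 + a) / Real.pi ^ 2 + C))
    rw [add_zero] at h1
    refine ge_of_tendsto h1 ?_
    filter_upwards [eventually_gt_atTop 0] with K hK using (key K hK).2

lemma Nstar_ii (T : ℝ) (hT : 1 ≤ T) (p q : ℝ) :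
    IntervalIntegrable (fun x => (Nstar T x : ℝ)) volume p q :=
  (Nstar_mono T hT).intervalIntegrable

/-- the bound on an interval -/
theorem mean_diff : ∃ C T0 : ℝ, 1 ≤ C ∧ 100 ≤ T0 ∧ ∀ T : ℝ, T0 ≤ T → ∀ p q : ℝ, 0 < p → p < q →
    q ^ 2 ≤ Real.log T →
    (q - p) * (DS 0 T : ℝ) + 2 * ∫ x in p..q, (Nstar T x : ℝ) ≤
      nT T * (q ^ 2 - p ^ 2 + Real.log (1 + q) / Real.pi ^ 2 + C) := by
  obtain ⟨C, T0, hC, hT0, hm⟩ := mean_int
  refine ⟨2 * C, T0, by linarith, hT0, fun T hT p q hp hpq hq => ?_⟩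
  have hT1 : 1 ≤ T := by linarith
  have h1 := (hm T hT q (hp.trans hpq) hq).2
  have h2 := (hm T hT p hp (by nlinarith)).1
  have h3 := intervalIntegral.integral_add_adjacent_intervals (Nstar_ii T hT1 0 p)
    (Nstar_ii T hT1 p q)
  have e : nT T * (q ^ 2 - p ^ 2 + Real.log (1 + q) / Real.pi ^ 2 + 2 * C) =
      nT T * (q ^ 2 + Real.log (1 + q) / Real.pi ^ 2 + C) - nT T * (p ^ 2 - C) := by ring
  rw [e]
  linarith

/-- the integral from below, from a grid -/
lemma int_low {T p q e : ℝ} (hT : 10 ≤ T) (hp : 0 < p) (hpq : p < q) (he : 0 ≤ e) {K : ℕ}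
    (hK : 0 < K) (hg : ∀ k ∈ Finset.range K, 1 ≤ k →
      (p + k * (q - p) / K - 1 / 2 - e) * nT T ≤ (Nstar T (p + k * (q - p) / K) : ℝ)) :
    nT T * ((q ^ 2 - p ^ 2) / 2 - (1 / 2 + e) * (q - p) - 2 * q * (q - p) / K) ≤
      ∫ x in p..q, (Nstar T x : ℝ) := by
  have hKr : (0 : ℝ) < K := by exact_mod_cast hK
  have hn := nT_pos hT
  obtain ⟨r1, -⟩ := riem (Nstar_mono T (by linarith)) hpq hK
  refine le_trans ?_ r1
  obtain ⟨d, hd⟩ : ∃ d : ℝ, d = (q - p) / K := ⟨_, rfl⟩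
  have hd0 : 0 < d := by rw [hd]; exact div_pos (by linarith) hKr
  have h1 : ∀ k ∈ Finset.range K, (p + k * (q - p) / K - 1 / 2 - e) * nT T -
      (if k = 0 then p * nT T else 0) ≤ (Nstar T (p + k * (q - p) / K) : ℝ) := by
    intro k hk
    by_cases g : k = 0
    · rw [if_pos g, g]
      have h2 : (p + ((0 : ℕ) : ℝ) * (q - p) / K - 1 / 2 - e) * nT T - p * nT T ≤ 0 := by
        have : (p + ((0 : ℕ) : ℝ) * (q - p) / K - 1 / 2 - e) * nT T - p * nT T =
          -((1 / 2 + e) * nT T) := by push_cast; ring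
        rw [this]
        have : 0 ≤ (1 / 2 + e) * nT T := by positivity
        linarith
      exact h2.trans (Nat.cast_nonneg _)
    · rw [if_neg g, sub_zero]
      exact hg k hk (by omega)
  have h2 := Finset.sum_le_sum h1
  rw [Finset.sum_sub_distrib, Finset.sum_ite_eq' (Finset.range K) 0 (fun _ => p * nT T),
    if_pos (Finset.mem_range.2 hK), ← Finset.sum_mul] at h2
  have h3 : ∑ k ∈ Finset.range K, (p + (k : ℝ) * (q - p) / K - 1 / 2 - e) =
      K * (p - 1 / 2 - e) + (q - p) * (K - 1) / 2 := by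
    have e1 : ∑ k ∈ Finset.range K, (p + (k : ℝ) * (q - p) / K - 1 / 2 - e) =
        (q - p) / K * ∑ k ∈ Finset.range K, (k : ℝ) + K * (p - 1 / 2 - e) := by
      rw [Finset.mul_sum]
      have e2 : ∀ k : ℕ, p + (k : ℝ) * (q - p) / K - 1 / 2 - e = (q - p) / K * k + (p - 1 / 2 - e) := by
        intro k; ring
      simp_rw [e2]
      rw [Finset.sum_add_distrib, Finset.sum_const, Finset.card_range, nsmul_eq_mul]
    have e3 : ∑ k ∈ Finset.range K, (k : ℝ) = K * (K - 1) / 2 := by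
      have e4 : ((∑ k ∈ Finset.range K, k : ℕ) : ℝ) * 2 = K * ((K : ℝ) - 1) := by
        have e5 := Finset.sum_range_id_mul_two K
        have e6 : ((∑ k ∈ Finset.range K, k : ℕ) : ℝ) * 2 = ((K * (K - 1) : ℕ) : ℝ) := by
          rw [← e5]; push_cast; ring
        rw [e6, Nat.cast_mul, Nat.cast_sub (by omega)]
        norm_num
      push_cast at e4
      linarith
    rw [e1, e3]
    field_simp
    ring
  rw [h3] at h2
  have h4 : (q - p) / K * ((K * (p - 1 / 2 - e) + (q - p) * (K - 1) / 2) * nT T - p * nT T) ≤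
      (q - p) / K * ∑ k ∈ Finset.range K, (Nstar T (p + k * (q - p) / K) : ℝ) :=
    mul_le_mul_of_nonneg_left h2 (by rw [← hd]; exact hd0.le)
  refine le_trans ?_ h4
  have h5 : (q - p) / K * ((K * (p - 1 / 2 - e) + (q - p) * (K - 1) / 2) * nT T - p * nT T) =
      nT T * ((q ^ 2 - p ^ 2) / 2 - (1 / 2 + e) * (q - p) - (q - p) * ((q + p) / 2) / K) := by
    field_simp
    ring
  rw [h5]
  apply mul_le_mul_of_nonneg_left _ hn.le
  have h6 : (q - p) * ((q + p) / 2) / K ≤ 2 * q * (q - p) / K := by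
    apply div_le_div_of_nonneg_right _ hKr.le
    nlinarith
  linarith

/-- lower bounds on long intervals: the sum over equal ordinates -/
theorem diag_up2 (HL : ∀ ε : ℝ, 0 < ε → ∃ p q : ℝ, 0 < p ∧ p < q ∧
    Real.log (1 + q) + 1 ≤ ε * (q - p) ∧ ∀ x : ℝ, p < x → x < q → ∀ᶠ T : ℝ in atTop,
      (x - 1 / 2 - ε) * nT T ≤ (Nstar T x : ℝ)) {ε : ℝ} (hε : 0 < ε) :
    ∀ᶠ T : ℝ in atTop, (DS 0 T : ℝ) ≤ (1 + ε) * nT T := by
  obtain ⟨C, T0, hC, hT0, hm⟩ := mean_diff
  have hpi3 := Real.pi_gt_three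
  obtain ⟨e, he⟩ : ∃ e : ℝ, e = ε / (4 + 2 * C) := ⟨_, rfl⟩
  have he0 : 0 < e := by rw [he]; positivity
  obtain ⟨p, q, hp, hpq, hlog, hx⟩ := HL e he0
  have hqp : 0 < q - p := by linarith
  obtain ⟨K, hK0, hK⟩ : ∃ K : ℕ, 0 < K ∧ 2 * q * (q - p) / K ≤ e * (q - p) := by
    have h1 : Tendsto (fun K : ℕ => 2 * q * (q - p) / (K : ℝ)) atTop (𝓝 0) :=
      tendsto_const_div_atTop_nhds_zero_nat _
    exact ((eventually_gt_atTop 0).and (h1.eventually
      (ge_mem_nhds (show 0 < e * (q - p) by positivity)))).exists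
  have hKr : (0 : ℝ) < K := by exact_mod_cast hK0
  have hall : ∀ᶠ T : ℝ in atTop, ∀ k ∈ Finset.range K, 1 ≤ k →
      (p + k * (q - p) / K - 1 / 2 - e) * nT T ≤ (Nstar T (p + k * (q - p) / K) : ℝ) := by
    rw [Filter.eventually_all_finset]
    intro k hk
    by_cases g : 1 ≤ k
    · have k1 : (1 : ℝ) ≤ k := by exact_mod_cast g
      have k2 : (k : ℝ) < K := by exact_mod_cast Finset.mem_range.1 hk
      have k3 : (k : ℝ) * (q - p) / K < q - p := by
        rw [div_lt_iff₀ hKr]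
        nlinarith
      have k4 : 0 < (k : ℝ) * (q - p) / K := by positivity
      filter_upwards [hx (p + k * (q - p) / K) (by linarith) (by linarith)] with T hT _ using hT
    · exact Eventually.of_forall fun T hcon => absurd hcon g
  filter_upwards [hall, eventually_ge_atTop T0,
    Real.tendsto_log_atTop.eventually_ge_atTop (q ^ 2)] with T h1 h2 h3
  have hn : 0 < nT T := nT_pos (by linarith)
  have h4 := hm T h2 p q hp hpq h3
  have h5 := int_low (by linarith) hp hpq he0.le hK0 h1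
  have h6 : nT T * ((q ^ 2 - p ^ 2) / 2 - (1 / 2 + e) * (q - p) - e * (q - p)) ≤
      ∫ x in p..q, (Nstar T x : ℝ) :=
    (mul_le_mul_of_nonneg_left (by linarith) hn.le).trans h5
  have hl0 : 0 ≤ Real.log (1 + q) := Real.log_nonneg (by linarith)
  have h7 : Real.log (1 + q) / Real.pi ^ 2 ≤ Real.log (1 + q) := by
    apply div_le_self hl0
    nlinarith
  have h8 : Real.log (1 + q) / Real.pi ^ 2 + C ≤ C * (e * (q - p)) := by
    nlinarith
  have h9 : (q - p) * (DS 0 T : ℝ) ≤ (q - p) * ((1 + ε) * nT T) := by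
    have h10 : nT T * (q ^ 2 - p ^ 2 + Real.log (1 + q) / Real.pi ^ 2 + C) ≤
        nT T * (q ^ 2 - p ^ 2 + C * (e * (q - p))) :=
      mul_le_mul_of_nonneg_left (by linarith) hn.le
    have h11 : (q - p) * (DS 0 T : ℝ) ≤ nT T * (q ^ 2 - p ^ 2 + C * (e * (q - p))) -
        2 * (nT T * ((q ^ 2 - p ^ 2) / 2 - (1 / 2 + e) * (q - p) - e * (q - p))) := by linarith
    have h12 : nT T * (q ^ 2 - p ^ 2 + C * (e * (q - p))) -
        2 * (nT T * ((q ^ 2 - p ^ 2) / 2 - (1 / 2 + e) * (q - p) - e * (q - p))) =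
        (q - p) * ((1 + (4 + C) * e) * nT T) := by ring
    rw [h12] at h11
    refine h11.trans ?_
    apply mul_le_mul_of_nonneg_left _ hqp.le
    apply mul_le_mul_of_nonneg_right _ hn.le
    have : (4 + 2 * C) * e = ε := by rw [he]; field_simp
    nlinarith
  exact le_of_mul_le_mul_left h9 hqp

/-- the sum over equal ordinates and the zeros off the line -/
theorem online_of_diag (H : ∀ ε : ℝ, 0 < ε → ∀ᶠ T : ℝ in atTop, (DS 0 T : ℝ) ≤ (1 + ε) * nT T) :
    ∀ η : ℝ, 0 < η → ∀ᶠ T : ℝ in atTop, NF T ≤ η * (T * Real.log T) := by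
  intro η hη
  obtain ⟨K2, hK2, hlow⟩ := DS_low
  have hlim : Tendsto (fun T : ℝ => η * nT T) atTop atTop := by
    have h1 : Tendsto (fun T : ℝ => T * Real.log T) atTop atTop :=
      tendsto_id.atTop_mul_atTop₀ Real.tendsto_log_atTop
    have h2 : (fun T : ℝ => η * nT T) = fun T => η / (2 * Real.pi) * (T * Real.log T) := by
      funext T
      unfold nT
      ring
    rw [h2]
    exact h1.const_mul_atTop (by positivity)
  filter_upwards [H η hη, N_low hη, hlim.eventually_ge_atTop K2, eventually_ge_atTop 10]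
    with T h1 h2 h3 h4
  have h5 := hlow T
  have h6 : NF T ≤ 6 * (η * nT T) := by
    have : 0 < η * nT T := mul_pos hη (nT_pos h4)
    linarith
  refine h6.trans ?_
  have h7 : η * (T * Real.log T) = 2 * Real.pi * (η * nT T) := by
    unfold nT; field_simp
  rw [h7]
  have := Real.pi_gt_three
  have hn : 0 < η * nT T := mul_pos hη (nT_pos h4)
  nlinarith

end Pool.Agent.X83.PC
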