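import Mathlib

/-! # The Cauchy transform of a function with a spectral gap -/

set_option autoImplicit false

open MeasureTheory Set Filter Topology
open Complex (I)

namespace Pool.Agent.X83.PC

variable {v : ℝ → ℝ}

/-- powers of the Cauchy kernel against `v` -/
noncomputable def CT (v : ℝ → ℝ) (k : ℕ) (z : ℂ) : ℂ := ∫ x : ℝ, (v x : ℂ) * (((x : ℂ) - z) ^ k)⁻¹

lemma im_le (x : ℝ) (z : ℂ) : |z.im| ≤ ‖(x : ℂ) - z‖ := by
  have h := Complex.abs_im_le_norm ((x : ℂ) - z)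
  simpa using h

lemma CT_norm_le {ε : ℝ} (hε : 0 < ε) {z : ℂ} {x : ℝ} (h : v x ≠ 0 → ε ≤ ‖(x : ℂ) - z‖) (k : ℕ) :
    ‖(v x : ℂ) * (((x : ℂ) - z) ^ k)⁻¹‖ ≤ |v x| * (ε ^ k)⁻¹ := by
  by_cases h0 : v x = 0
  · rw [h0]; simp
  · have h1 := h h0
    rw [norm_mul, Complex.norm_real, Real.norm_eq_abs, norm_inv, norm_pow]
    gcongr

lemma CT_meas (hv : Integrable v) (z : ℂ) (k : ℕ) :
    AEStronglyMeasurable (fun x : ℝ => (v x : ℂ) * (((x : ℂ) - z) ^ k)⁻¹) volume := by
  refine hv.ofReal.aestronglyMeasurable.mul ?_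
  have : Measurable fun x : ℝ => (((x : ℂ) - z) ^ k)⁻¹ := by
    apply Measurable.inv
    fun_prop
  exact this.aestronglyMeasurable

lemma CT_int (hv : Integrable v) {ε : ℝ} (hε : 0 < ε) {z : ℂ}
    (h : ∀ x : ℝ, v x ≠ 0 → ε ≤ ‖(x : ℂ) - z‖) (k : ℕ) :
    Integrable fun x : ℝ => (v x : ℂ) * (((x : ℂ) - z) ^ k)⁻¹ := by
  refine (hv.abs.mul_const ((ε ^ k)⁻¹)).mono' (CT_meas hv z k) (ae_of_all _ fun x => ?_)
  exact CT_norm_le hε (h x) k

lemma CT_deriv (hv : Integrable v) {ε : ℝ} (hε : 0 < ε) {z : ℂ}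
    (h : ∀ x : ℝ, v x ≠ 0 → ε ≤ ‖(x : ℂ) - z‖) (k : ℕ) :
    HasDerivAt (CT v k) ((k : ℂ) * CT v (k + 1) z) z := by
  have hball : ∀ w ∈ Metric.ball z (ε / 2), ∀ x : ℝ, v x ≠ 0 → ε / 2 ≤ ‖(x : ℂ) - w‖ := by
    intro w hw x hx
    have h1 := h x hx
    rw [mem_ball_iff_norm] at hw
    have h2 : ‖(x : ℂ) - z‖ ≤ ‖(x : ℂ) - w‖ + ‖w - z‖ := by
      have : (x : ℂ) - z = ((x : ℂ) - w) + (w - z) := by ring
      rw [this]; exact norm_add_le _ _
    linarith
  have key := hasDerivAt_integral_of_dominated_loc_of_deriv_le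
    (F := fun (w : ℂ) (x : ℝ) => (v x : ℂ) * (((x : ℂ) - w) ^ k)⁻¹)
    (F' := fun (w : ℂ) (x : ℝ) => (v x : ℂ) * ((k : ℂ) * (((x : ℂ) - w) ^ (k + 1))⁻¹))
    (x₀ := z) (s := Metric.ball z (ε / 2)) (μ := volume)
    (bound := fun x => |v x| * (k * (((ε / 2) ^ (k + 1))⁻¹)))
    (Metric.ball_mem_nhds z (by positivity))
    (Eventually.of_forall fun w => CT_meas hv w k) (CT_int hv hε h k) ?_ ?_ ?_ ?_
  · have h2 := key.2
    have e : ∫ x : ℝ, (v x : ℂ) * ((k : ℂ) * (((x : ℂ) - z) ^ (k + 1))⁻¹) =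
        (k : ℂ) * CT v (k + 1) z := by
      unfold CT
      rw [← integral_const_mul]
      refine integral_congr_ae (ae_of_all _ fun x => ?_)
      show (v x : ℂ) * ((k : ℂ) * (((x : ℂ) - z) ^ (k + 1))⁻¹) =
        (k : ℂ) * ((v x : ℂ) * (((x : ℂ) - z) ^ (k + 1))⁻¹)
      ring
    rw [e] at h2
    exact h2
  · have := (CT_meas hv z (k + 1)).const_mul (k : ℂ)
    refine this.congr (ae_of_all _ fun x => ?_)
    show (k : ℂ) * ((v x : ℂ) * (((x : ℂ) - z) ^ (k + 1))⁻¹) =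
      (v x : ℂ) * ((k : ℂ) * (((x : ℂ) - z) ^ (k + 1))⁻¹)
    ring
  · refine ae_of_all _ fun x w hw => ?_
    by_cases h0 : v x = 0
    · rw [h0]; simp
    · have h1 := hball w hw x h0
      rw [norm_mul, Complex.norm_real, Real.norm_eq_abs, norm_mul, norm_inv, norm_pow]
      have : ‖(k : ℂ)‖ = k := by simp
      rw [this]
      gcongr
  · exact hv.abs.mul_const _
  · refine ae_of_all _ fun x w hw => ?_
    by_cases h0 : v x = 0
    · have e1 : (fun w : ℂ => (v x : ℂ) * (((x : ℂ) - w) ^ k)⁻¹) = fun _ => 0 := by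
        ext w; rw [h0]; simp
      show HasDerivAt (fun w : ℂ => (v x : ℂ) * (((x : ℂ) - w) ^ k)⁻¹) _ w
      rw [e1, h0]
      simpa using hasDerivAt_const w (0 : ℂ)
    · have h1 := hball w hw x h0
      have hne : (x : ℂ) - w ≠ 0 := by
        intro hcon
        rw [hcon, norm_zero] at h1
        linarith
      have d1 : HasDerivAt (fun w : ℂ => (x : ℂ) - w) (-1) w := by
        simpa using (hasDerivAt_id w).const_sub (x : ℂ)
      have d2 := (d1.pow k).inv (pow_ne_zero k hne)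
      have d3 : HasDerivAt (fun w : ℂ => (v x : ℂ) * (((x : ℂ) - w) ^ k)⁻¹)
          ((v x : ℂ) * (-((k : ℂ) * ((x : ℂ) - w) ^ (k - 1) * -1) / (((x : ℂ) - w) ^ k) ^ 2)) w :=
        d2.const_mul (v x : ℂ)
      refine d3.congr_deriv ?_
      rcases k with _ | k
      · simp
      · rw [Nat.add_sub_cancel]
        congr 1
        field_simp
        ring

lemma CT_diff_im (hv : Integrable v) {z : ℂ} (hz : z.im ≠ 0) (k : ℕ) :
    HasDerivAt (CT v k) ((k : ℂ) * CT v (k + 1) z) z :=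
  CT_deriv hv (abs_pos.2 hz) (fun x _ => im_le x z) k

/-- if the Cauchy transform vanishes on an open set off the real line, so do all the powers -/
lemma CT_zero_all (hv : Integrable v) {U : Set ℂ} (hU : IsOpen U) (hUi : ∀ z ∈ U, z.im ≠ 0)
    (h : ∀ z ∈ U, CT v 1 z = 0) : ∀ k : ℕ, 1 ≤ k → ∀ z ∈ U, CT v k z = 0 := by
  intro k hk
  induction k with
  | zero => omega
  | succ n ih =>
    rcases Nat.eq_zero_or_pos n with hn | hn
    · subst hn; exact h
    · intro z hz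
      have h1 := ih hn
      have h2 := CT_diff_im hv (hUi z hz) n
      have h3 : HasDerivAt (CT v n) 0 z := by
        have : (fun _ : ℂ => (0 : ℂ)) =ᶠ[𝓝 z] CT v n := by
          filter_upwards [hU.mem_nhds hz] with w hw using (h1 w hw).symm
        exact (hasDerivAt_const z (0 : ℂ)).congr_of_eventuallyEq this.symm
      have h4 := h2.unique h3
      have h5 : (n : ℂ) ≠ 0 := by exact_mod_cast hn.ne'
      exact (mul_eq_zero.1 h4).resolve_left h5

/-- the spectral gap as a statement on complex exponentials -/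
def Gap (v : ℝ → ℝ) (R : ℝ) : Prop := ∀ c : ℝ, |c| < R → ∫ x : ℝ, (v x : ℂ) * Complex.exp (-I * c * x) = 0

lemma exp_int (hv : Integrable v) (c : ℝ) :
    Integrable fun x : ℝ => (v x : ℂ) * Complex.exp (-I * c * x) := by
  refine hv.ofReal.mul_bdd (c := 1) (by fun_prop) (ae_of_all _ fun x => ?_)
  rw [Complex.norm_exp]
  simp

lemma exp_norm (c x : ℝ) (z : ℂ) : ‖Complex.exp (-I * c * ((x : ℂ) - z))‖ = Real.exp (-(c * z.im)) := by
  rw [Complex.norm_exp]
  congr 1
  simp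

/-- moving the gap -/
lemma gap_id (hv : Integrable v) {R : ℝ} (hg : Gap v R) {z : ℂ} (hz : z.im ≠ 0) {c : ℝ}
    (hc : |c| < R) : CT v 1 z =
      ∫ x : ℝ, (v x : ℂ) * (Complex.exp (-I * c * ((x : ℂ) - z)) * ((x : ℂ) - z)⁻¹) := by
  obtain ⟨G, hG⟩ : ∃ G : ℝ → ℂ, ∀ c, G c =
      ∫ x : ℝ, (v x : ℂ) * (Complex.exp (-I * c * ((x : ℂ) - z)) * ((x : ℂ) - z)⁻¹) :=
    ⟨_, fun c => rfl⟩
  have hy : 0 < |z.im| := abs_pos.2 hz
  have hne : ∀ x : ℝ, (x : ℂ) - z ≠ 0 := by
    intro x hcon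
    have := im_le x z
    rw [hcon, norm_zero] at this
    linarith
  have hmeas : ∀ c : ℝ, AEStronglyMeasurable (fun x : ℝ => (v x : ℂ) *
      (Complex.exp (-I * c * ((x : ℂ) - z)) * ((x : ℂ) - z)⁻¹)) volume := by
    intro c
    refine hv.ofReal.aestronglyMeasurable.mul ?_
    refine Continuous.aestronglyMeasurable ?_
    exact (by fun_prop : Continuous fun x : ℝ => Complex.exp (-I * c * ((x : ℂ) - z))).mul
      ((by fun_prop : Continuous fun x : ℝ => (x : ℂ) - z).inv₀ hne)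
  have hG0 : G 0 = CT v 1 z := by
    rw [hG]
    unfold CT
    refine integral_congr_ae (ae_of_all _ fun x => ?_)
    simp
  have hder : ∀ c : ℝ, |c| < R → HasDerivAt G 0 c := by
    intro c hc
    have key := hasDerivAt_integral_of_dominated_loc_of_deriv_le
      (F := fun (c : ℝ) (x : ℝ) => (v x : ℂ) *
        (Complex.exp (-I * c * ((x : ℂ) - z)) * ((x : ℂ) - z)⁻¹))
      (F' := fun (c : ℝ) (x : ℝ) => (v x : ℂ) * (-I * Complex.exp (-I * c * ((x : ℂ) - z))))
      (x₀ := c) (s := Metric.ball c 1) (μ := volume)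
      (bound := fun x => |v x| * Real.exp ((|c| + 1) * |z.im|))
      (Metric.ball_mem_nhds c one_pos)
      (Eventually.of_forall fun c => hmeas c) ?_ ?_ ?_ ?_ ?_
    · have h2 := key.2
      have e : ∫ x : ℝ, (v x : ℂ) * (-I * Complex.exp (-I * c * ((x : ℂ) - z))) = 0 := by
        have e2 : ∀ x : ℝ, (v x : ℂ) * (-I * Complex.exp (-I * c * ((x : ℂ) - z))) =
            (-I * Complex.exp (I * c * z)) * ((v x : ℂ) * Complex.exp (-I * c * x)) := by
          intro x
          rw [show -I * (c : ℂ) * ((x : ℂ) - z) = I * c * z + -I * c * x by ring, Complex.exp_add]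
          ring
        simp_rw [e2]
        rw [integral_const_mul, hg c hc, mul_zero]
      rw [e] at h2
      have : G = fun c : ℝ => ∫ x : ℝ, (v x : ℂ) *
        (Complex.exp (-I * c * ((x : ℂ) - z)) * ((x : ℂ) - z)⁻¹) := funext hG
      rw [this]
      exact h2
    · refine (hv.abs.mul_const (Real.exp (-(c * z.im)) * |z.im|⁻¹)).mono' (hmeas c)
        (ae_of_all _ fun x => ?_)
      rw [norm_mul, norm_mul, exp_norm, norm_inv, Complex.norm_real, Real.norm_eq_abs]
      have := im_le x z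
      gcongr
    · refine hv.ofReal.aestronglyMeasurable.mul ?_
      refine Continuous.aestronglyMeasurable ?_
      fun_prop
    · refine ae_of_all _ fun x d hd => ?_
      rw [norm_mul, norm_mul, exp_norm, Complex.norm_real, Real.norm_eq_abs, norm_neg,
        Complex.norm_I, one_mul]
      rw [mem_ball_iff_norm, Real.norm_eq_abs] at hd
      have h1 : |d| ≤ |c| + 1 := by
        have : d = c + (d - c) := by ring
        rw [this]
        refine (abs_add_le _ _).trans ?_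
        linarith
      have h2 : -(d * z.im) ≤ (|c| + 1) * |z.im| := by
        calc -(d * z.im) ≤ |d * z.im| := neg_le_abs _
          _ = |d| * |z.im| := abs_mul _ _
          _ ≤ _ := by gcongr
      gcongr
    · exact hv.abs.mul_const _
    · refine ae_of_all _ fun x d hd => ?_
      have d1 : HasDerivAt (fun d : ℝ => -I * (d : ℂ) * ((x : ℂ) - z)) (-I * 1 * ((x : ℂ) - z)) d :=
        ((Complex.ofRealCLM.hasDerivAt (x := d)).const_mul (-I)).mul_const _
      have d2 : HasDerivAt (fun d : ℝ => (v x : ℂ) *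
          (Complex.exp (-I * (d : ℂ) * ((x : ℂ) - z)) * ((x : ℂ) - z)⁻¹))
          ((v x : ℂ) * (Complex.exp (-I * (d : ℂ) * ((x : ℂ) - z)) * (-I * 1 * ((x : ℂ) - z)) *
            ((x : ℂ) - z)⁻¹)) d := (d1.cexp.mul_const (((x : ℂ) - z)⁻¹)).const_mul (v x : ℂ)
      refine d2.congr_deriv ?_
      have := hne x
      rw [show Complex.exp (-I * (d : ℂ) * ((x : ℂ) - z)) * (-I * 1 * ((x : ℂ) - z)) *
        ((x : ℂ) - z)⁻¹ = -I * Complex.exp (-I * (d : ℂ) * ((x : ℂ) - z)) *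
        (((x : ℂ) - z) * ((x : ℂ) - z)⁻¹) by ring, mul_inv_cancel₀ this, mul_one]
  have hconst : G c = G 0 := by
    have hR : 0 < R := (abs_nonneg c).trans_lt hc
    have hconv : Convex ℝ (Ioo (-R) R) := convex_Ioo _ _
    have h1 := hconv.norm_image_sub_le_of_norm_hasDerivWithin_le (f := G) (f' := fun _ => 0)
      (C := 0) (x := 0) (y := c) (fun x hx => (hder x (abs_lt.2 hx)).hasDerivWithinAt)
      (fun x _ => by simp) ⟨by linarith, hR⟩ (abs_lt.1 hc)
    rw [zero_mul] at h1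
    have h2 := norm_le_zero_iff.1 h1
    rwa [sub_eq_zero] at h2
  rw [← hG, hconst, hG0]

/-- the decay of the Cauchy transform -/
lemma CT_decay (hv : Integrable v) {R : ℝ} (hg : Gap v R) {z : ℂ} (hz : z.im ≠ 0) {c : ℝ}
    (hc0 : 0 ≤ c) (hc : c < R) :
    ‖CT v 1 z‖ ≤ (∫ x, |v x|) * Real.exp (-(c * |z.im|)) / |z.im| := by
  obtain ⟨d, hd, hdz⟩ : ∃ d : ℝ, |d| = c ∧ d * z.im = c * |z.im| := by
    rcases lt_or_gt_of_ne hz with h | h
    · exact ⟨-c, by rw [abs_neg, abs_of_nonneg hc0], by rw [abs_of_neg h]; ring⟩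
    · exact ⟨c, abs_of_nonneg hc0, by rw [abs_of_pos h]⟩
  have hy : 0 < |z.im| := abs_pos.2 hz
  rw [gap_id hv hg hz (c := d) (by rw [hd]; exact hc)]
  calc ‖∫ x : ℝ, (v x : ℂ) * (Complex.exp (-I * d * ((x : ℂ) - z)) * ((x : ℂ) - z)⁻¹)‖ ≤
      ∫ x : ℝ, |v x| * (Real.exp (-(c * |z.im|)) / |z.im|) := by
        refine norm_integral_le_of_norm_le (hv.abs.mul_const _) (ae_of_all _ fun x => ?_)
        rw [norm_mul, norm_mul, exp_norm, norm_inv, Complex.norm_real, Real.norm_eq_abs, hdz,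
          div_eq_mul_inv]
        have := im_le x z
        gcongr
    _ = _ := by rw [integral_mul_const]; ring

end Pool.Agent.X83.PC
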