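import Mathlib

/-! # Estimates in discs and in a half plane -/

set_option autoImplicit false

open MeasureTheory Set Filter Topology
open Complex (I)

namespace Pool.Agent.X83.PC

/-- the maximum principle in a disc centred on the real line -/
lemma disc_bound {f : ℂ → ℂ} {m ρ c K : ℝ} (hρ : 0 < ρ) (hc : 0 ≤ c) (hK : 0 ≤ K)
    (hf : DiffContOnCl ℂ f (Metric.ball (m : ℂ) ρ))
    (hb : ∀ z ∈ Metric.closedBall (m : ℂ) ρ, z.im ≠ 0 →
      ‖f z‖ ≤ K * Real.exp (-(c * |z.im|)) / |z.im|) {z : ℂ}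
    (hz : z ∈ Metric.closedBall (m : ℂ) ρ) :
    ‖f z‖ * Real.exp (c / (2 * ρ) * (ρ ^ 2 - ((z - m) ^ 2).re)) * ‖(z - m) ^ 2 - (ρ : ℂ) ^ 2‖ ≤
      2 * ρ * K := by
  obtain ⟨h, hh⟩ : ∃ h : ℂ → ℂ, ∀ z, h z = f z *
      Complex.exp ((c / (2 * ρ) : ℝ) * ((ρ : ℂ) ^ 2 - (z - m) ^ 2)) * ((z - m) ^ 2 - (ρ : ℂ) ^ 2) :=
    ⟨_, fun z => rfl⟩
  have hn : ∀ z, ‖h z‖ = ‖f z‖ * Real.exp (c / (2 * ρ) * (ρ ^ 2 - ((z - m) ^ 2).re)) *
      ‖(z - m) ^ 2 - (ρ : ℂ) ^ 2‖ := by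
    intro z
    rw [hh, norm_mul, norm_mul, Complex.norm_exp, Complex.re_ofReal_mul, Complex.sub_re]
    congr 3
    norm_cast
  have hd : DiffContOnCl ℂ h (Metric.ball (m : ℂ) ρ) := by
    have e : h = fun z => f z *
      Complex.exp ((c / (2 * ρ) : ℝ) * ((ρ : ℂ) ^ 2 - (z - m) ^ 2)) *
      ((z - m) ^ 2 - (ρ : ℂ) ^ 2) := funext hh
    rw [e]
    have d1 : Differentiable ℂ fun z : ℂ =>
      Complex.exp ((c / (2 * ρ) : ℝ) * ((ρ : ℂ) ^ 2 - (z - m) ^ 2)) := by fun_prop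
    have d2 : Differentiable ℂ fun z : ℂ => (z - m) ^ 2 - (ρ : ℂ) ^ 2 := by fun_prop
    exact (hf.smul d1.diffContOnCl).smul d2.diffContOnCl
  rw [← hn]
  refine Complex.norm_le_of_forall_mem_frontier_norm_le Metric.isBounded_ball hd ?_
    (by rw [closure_ball _ hρ.ne']; exact hz)
  intro w hw
  rw [frontier_ball _ hρ.ne', mem_sphere_iff_norm] at hw
  rw [hn]
  obtain ⟨a, b, hab⟩ : ∃ a b : ℝ, w - m = a + b * I := ⟨(w - m).re, (w - m).im, by
    rw [Complex.re_add_im]⟩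
  have hb2 : w.im = b := by
    have : w = (m : ℂ) + (a + b * I) := by rw [← hab]; ring
    rw [this]; simp
  have hsq : a ^ 2 + b ^ 2 = ρ ^ 2 := by
    have h1 : ‖w - m‖ ^ 2 = ρ ^ 2 := by rw [hw]
    rw [hab, ← Complex.normSq_eq_norm_sq, Complex.normSq_add_mul_I] at h1
    exact h1
  have hre : ((w - m) ^ 2).re = a ^ 2 - b ^ 2 := by
    rw [hab, pow_two]
    simp [Complex.mul_re]
    ring
  have hnorm : ‖(w - m) ^ 2 - (ρ : ℂ) ^ 2‖ = 2 * |b| * ρ := by
    have e : (w - m) ^ 2 - (ρ : ℂ) ^ 2 = (2 * b : ℝ) * I * (w - m) := by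
      rw [hab]
      have : (ρ : ℂ) ^ 2 = (a : ℂ) ^ 2 + (b : ℂ) ^ 2 := by exact_mod_cast hsq.symm
      rw [this]
      push_cast
      linear_combination (b : ℂ) ^ 2 * Complex.I_sq - 2 * (b : ℂ) ^ 2 * Complex.I_sq
    rw [e, norm_mul, norm_mul, Complex.norm_I, mul_one, hw, Complex.norm_real, Real.norm_eq_abs,
      abs_mul, abs_two]
  rw [hre, hnorm]
  by_cases hb0 : b = 0
  · rw [hb0]
    simp only [abs_zero, mul_zero, zero_mul]
    positivity
  · have h1 := hb w (by rw [mem_closedBall_iff_norm]; exact hw.le) (by rw [hb2]; exact hb0)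
    rw [hb2] at h1
    have hbp : 0 < |b| := abs_pos.2 hb0
    have h2 : c / (2 * ρ) * (ρ ^ 2 - (a ^ 2 - b ^ 2)) ≤ c * |b| := by
      have e : ρ ^ 2 - (a ^ 2 - b ^ 2) = 2 * |b| ^ 2 := by rw [sq_abs]; linarith
      have hle : |b| ≤ ρ := by
        apply abs_le_of_sq_le_sq _ hρ.le
        nlinarith [sq_nonneg a]
      rw [e, div_mul_eq_mul_div, div_le_iff₀ (by positivity)]
      have : c * (2 * |b| ^ 2) = c * |b| * (2 * |b|) := by ring
      rw [this]
      apply mul_le_mul_of_nonneg_left (by linarith) (by positivity)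
    calc ‖f w‖ * Real.exp (c / (2 * ρ) * (ρ ^ 2 - (a ^ 2 - b ^ 2))) * (2 * |b| * ρ) ≤
        (K * Real.exp (-(c * |b|)) / |b|) * Real.exp (c * |b|) * (2 * |b| * ρ) := by gcongr
      _ = 2 * ρ * K * (Real.exp (-(c * |b|)) * Real.exp (c * |b|)) := by
          field_simp
      _ = 2 * ρ * K := by rw [← Real.exp_add]; simp

/-- the value near the real diameter -/
lemma disc_small {f : ℂ → ℂ} {m ρ c K : ℝ} (hρ : 5 ≤ ρ) (hc : 0 ≤ c) (hK : 0 ≤ K)
    (hf : DiffContOnCl ℂ f (Metric.ball (m : ℂ) ρ))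
    (hb : ∀ z ∈ Metric.closedBall (m : ℂ) ρ, z.im ≠ 0 →
      ‖f z‖ ≤ K * Real.exp (-(c * |z.im|)) / |z.im|) {z : ℂ}
    (h1 : |z.re - m| ≤ 3 / 4 * ρ) (h2 : |z.im| ≤ 1) :
    ‖f z‖ ≤ K * Real.exp (-(7 / 32 * c * ρ)) := by
  have hρ0 : 0 < ρ := by linarith
  have hre : ((z - m) ^ 2).re = (z.re - m) ^ 2 - z.im ^ 2 := by
    rw [pow_two, Complex.mul_re]
    simp only [Complex.sub_re, Complex.ofReal_re, Complex.sub_im, Complex.ofReal_im, sub_zero]
    ring
  have s1 : (z.re - m) ^ 2 ≤ 9 / 16 * ρ ^ 2 := by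
    rw [← sq_abs]
    have := pow_le_pow_left₀ (abs_nonneg _) h1 2
    nlinarith
  have s2 : z.im ^ 2 ≤ 1 := by
    rw [← sq_abs]
    have := pow_le_pow_left₀ (abs_nonneg _) h2 2
    simpa using this
  have s3 : 7 / 16 * ρ ^ 2 ≤ ρ ^ 2 - ((z - m) ^ 2).re := by
    rw [hre]
    nlinarith [sq_nonneg z.im]
  have hz : z ∈ Metric.closedBall (m : ℂ) ρ := by
    rw [mem_closedBall_iff_norm]
    apply le_of_sq_le_sq _ hρ0.le
    rw [← Complex.normSq_eq_norm_sq, Complex.normSq_apply]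
    simp only [Complex.sub_re, Complex.ofReal_re, Complex.sub_im, Complex.ofReal_im, sub_zero]
    nlinarith
  have key := disc_bound hρ0 hc hK hf hb hz
  have s4 : 7 / 16 * ρ ^ 2 ≤ ‖(z - m) ^ 2 - (ρ : ℂ) ^ 2‖ := by
    have g1 := Complex.abs_re_le_norm ((z - m) ^ 2 - (ρ : ℂ) ^ 2)
    have g2 : ((z - m) ^ 2 - (ρ : ℂ) ^ 2).re = ((z - m) ^ 2).re - ρ ^ 2 := by
      rw [Complex.sub_re]
      congr 1
      norm_cast
    rw [g2] at g1
    have g3 := neg_le_abs (((z - m) ^ 2).re - ρ ^ 2)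
    linarith
  have s5 : Real.exp (7 / 32 * c * ρ) ≤ Real.exp (c / (2 * ρ) * (ρ ^ 2 - ((z - m) ^ 2).re)) := by
    apply Real.exp_le_exp.2
    have e : 7 / 32 * c * ρ = c / (2 * ρ) * (7 / 16 * ρ ^ 2) := by field_simp; ring
    rw [e]
    exact mul_le_mul_of_nonneg_left s3 (by positivity)
  have s6 : ‖f z‖ * Real.exp (7 / 32 * c * ρ) * (7 / 16 * ρ ^ 2) ≤ 2 * ρ * K := by
    refine le_trans ?_ key
    gcongr
  have s7 : ‖f z‖ * Real.exp (7 / 32 * c * ρ) ≤ K := by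
    have s8 : 2 * ρ * K ≤ K * (7 / 16 * ρ ^ 2) := by nlinarith [mul_nonneg hK hρ0.le]
    have s9 : 0 < 7 / 16 * ρ ^ 2 := by positivity
    exact le_of_mul_le_mul_right (s6.trans s8) s9
  have e : K * Real.exp (-(7 / 32 * c * ρ)) = K / Real.exp (7 / 32 * c * ρ) := by
    rw [Real.exp_neg]; rfl
  rw [e, le_div_iff₀ (Real.exp_pos _)]
  exact s7

/-- the logarithm of the harmonic measure of an interval -/
noncomputable def LL (p q : ℝ) (ζ : ℂ) : ℂ := Complex.log ((q : ℂ) - ζ) - Complex.log ((p : ℂ) - ζ)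

lemma slit {q : ℝ} {ζ : ℂ} (h : 0 < ζ.im) : (q : ℂ) - ζ ∈ Complex.slitPlane := by
  right
  simp only [Complex.sub_im, Complex.ofReal_im, zero_sub]
  linarith

lemma LL_diff (p q : ℝ) {ζ : ℂ} (h : 0 < ζ.im) : DifferentiableAt ℂ (LL p q) ζ := by
  unfold LL
  exact (((differentiableAt_const _).sub differentiableAt_id).clog (slit h)).sub
    (((differentiableAt_const _).sub differentiableAt_id).clog (slit h))

lemma LL_im_le (p q : ℝ) {ζ : ℂ} (h : 0 < ζ.im) : (LL p q ζ).im ≤ Real.pi := by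
  unfold LL
  rw [Complex.sub_im, Complex.log_im, Complex.log_im]
  have h1 : Complex.arg ((q : ℂ) - ζ) < 0 := by
    rw [Complex.arg_neg_iff]
    simp only [Complex.sub_im, Complex.ofReal_im, zero_sub]
    linarith
  have h2 := Complex.neg_pi_lt_arg ((p : ℂ) - ζ)
  linarith

lemma th_deriv (ζ : ℂ) (h : 0 < ζ.im) (t : ℝ) :
    HasDerivAt (fun t : ℝ => (Complex.log ((t : ℂ) - ζ)).im) (ζ.im / ((t - ζ.re) ^ 2 + ζ.im ^ 2)) t := by
  have d1 : HasDerivAt (fun t : ℝ => (t : ℂ) - ζ) 1 t := (Complex.ofRealCLM.hasDerivAt (x := t)).sub_const ζ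
  have d2 := d1.clog_real (slit h)
  have d3 := Complex.imCLM.hasFDerivAt.comp_hasDerivAt t d2
  refine d3.congr_deriv ?_
  show (1 / ((t : ℂ) - ζ)).im = _
  rw [one_div, Complex.inv_im, Complex.normSq_apply]
  simp only [Complex.sub_re, Complex.sub_im, Complex.ofReal_re, Complex.ofReal_im, zero_sub, neg_neg]
  congr 1
  ring

lemma LL_im_lower {p q : ℝ} (hpq : p ≤ q) {ζ : ℂ} (h : 0 < ζ.im) {D : ℝ}
    (hD : ∀ t ∈ Icc p q, (t - ζ.re) ^ 2 + ζ.im ^ 2 ≤ D) :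
    ζ.im / D * (q - p) ≤ (LL p q ζ).im := by
  have hc : Convex ℝ (Icc p q) := convex_Icc _ _
  have h1 := hc.mul_sub_le_image_sub_of_le_deriv (f := fun t : ℝ => (Complex.log ((t : ℂ) - ζ)).im)
    (fun t _ => (th_deriv ζ h t).continuousAt.continuousWithinAt)
    (fun t _ => (th_deriv ζ h t).differentiableAt.differentiableWithinAt)
    (C := ζ.im / D) (fun t ht => by
      rw [(th_deriv ζ h t).deriv]
      have h2 := hD t (interior_subset ht)
      have h3 : 0 < (t - ζ.re) ^ 2 + ζ.im ^ 2 := by positivity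
      gcongr) p ⟨le_rfl, hpq⟩ q ⟨hpq, le_rfl⟩ hpq
  unfold LL
  rw [Complex.sub_im]
  exact h1

lemma LL_im_upper {p q : ℝ} (hpq : p ≤ q) {ζ : ℂ} (h : 0 < ζ.im) {τ : ℝ} (hτ : 0 < τ)
    (hD : ∀ t ∈ Icc p q, τ ≤ |t - ζ.re|) :
    (LL p q ζ).im ≤ ζ.im / τ ^ 2 * (q - p) := by
  have hc : Convex ℝ (Icc p q) := convex_Icc _ _
  have h1 := hc.image_sub_le_mul_sub_of_deriv_le (f := fun t : ℝ => (Complex.log ((t : ℂ) - ζ)).im)
    (fun t _ => (th_deriv ζ h t).continuousAt.continuousWithinAt)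
    (fun t _ => (th_deriv ζ h t).differentiableAt.differentiableWithinAt)
    (C := ζ.im / τ ^ 2) (fun t ht => by
      rw [(th_deriv ζ h t).deriv]
      have h2 := hD t (interior_subset ht)
      have h3 : τ ^ 2 ≤ (t - ζ.re) ^ 2 := by
        rw [← sq_abs (t - ζ.re)]
        exact pow_le_pow_left₀ hτ.le h2 2
      have h4 : τ ^ 2 ≤ (t - ζ.re) ^ 2 + ζ.im ^ 2 := by nlinarith [sq_nonneg ζ.im]
      gcongr) p ⟨le_rfl, hpq⟩ q ⟨hpq, le_rfl⟩ hpq
  unfold LL
  rw [Complex.sub_im]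
  exact h1

/-- the function with real part `∑ (lam n / π) Im (LL (p n) (q n))` -/
noncomputable def HH (s : Finset ℕ) (p q lam : ℕ → ℝ) (ζ : ℂ) : ℂ :=
  ∑ n ∈ s, ((lam n / Real.pi : ℝ) : ℂ) * (-I * LL (p n) (q n) ζ)

lemma HH_re (s : Finset ℕ) (p q lam : ℕ → ℝ) (ζ : ℂ) :
    (HH s p q lam ζ).re = ∑ n ∈ s, lam n / Real.pi * (LL (p n) (q n) ζ).im := by
  unfold HH
  rw [Complex.re_sum]
  refine Finset.sum_congr rfl fun n _ => ?_
  rw [Complex.re_ofReal_mul]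
  simp

/-- the half plane estimate with finitely many intervals -/
lemma half_plane {F : ℂ → ℂ} {K δ1 : ℝ} (hK : 0 ≤ K) (hδ1 : 0 < δ1)
    (hF : ∀ ζ : ℂ, 0 ≤ ζ.im → DifferentiableAt ℂ F ζ) (hFK : ∀ ζ : ℂ, 0 ≤ ζ.im → ‖F ζ‖ ≤ K)
    (s : Finset ℕ) (p q τ lam : ℕ → ℝ) (hpq : ∀ n ∈ s, p n ≤ q n) (hτ : ∀ n ∈ s, 0 < τ n)
    (hlam : ∀ n ∈ s, 0 ≤ lam n)
    (hdis : ∀ n ∈ s, ∀ k ∈ s, n ≠ k → ∀ x : ℝ, x ∈ Icc (p n - τ n) (q n + τ n) →
      x ∉ Icc (p k - τ k) (q k + τ k))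
    (hsm : ∀ n ∈ s, ∀ ζ : ℂ, 0 ≤ ζ.im → ζ.im ≤ δ1 → ζ.re ∈ Icc (p n - τ n) (q n + τ n) →
      ‖F ζ‖ ≤ K * Real.exp (-lam n))
    {ζ : ℂ} (hζ : 0 < ζ.im) :
    ‖F ζ‖ ≤ K * Real.exp (-∑ n ∈ s, lam n / Real.pi * (LL (p n) (q n) ζ).im) := by
  have hpi := Real.pi_pos
  obtain ⟨G, hG⟩ : ∃ G : ℂ → ℂ, ∀ ω, G ω = F ω * Complex.exp (HH s p q lam ω) := ⟨_, fun ω => rfl⟩
  have hGn : ∀ ω, ‖G ω‖ = ‖F ω‖ * Real.exp (∑ n ∈ s, lam n / Real.pi * (LL (p n) (q n) ω).im) := by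
    intro ω
    rw [hG, norm_mul, Complex.norm_exp, HH_re]
  have hGd : ∀ ω : ℂ, 0 < ω.im → DifferentiableAt ℂ G ω := by
    intro ω hω
    have e : G = fun ω => F ω * Complex.exp (HH s p q lam ω) := funext hG
    rw [e]
    refine (hF ω hω.le).mul (DifferentiableAt.cexp ?_)
    unfold HH
    refine DifferentiableAt.fun_sum fun n _ => ?_
    exact ((LL_diff (p n) (q n) hω).const_mul (-I)).const_mul _
  obtain ⟨D, hD⟩ : ∃ D : ℝ, D = ∑ n ∈ s, lam n / Real.pi * (1 / τ n ^ 2 * (q n - p n)) := ⟨_, rfl⟩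
  have hline : ∀ δ : ℝ, 0 < δ → δ ≤ δ1 → ∀ ω : ℂ, ω.im = δ → ‖G ω‖ ≤ K * Real.exp (δ * D) := by
    intro δ hδ hδδ ω hω
    have hω0 : 0 < ω.im := by rw [hω]; exact hδ
    have hup : ∀ n ∈ s, ω.re ∉ Icc (p n - τ n) (q n + τ n) →
        lam n / Real.pi * (LL (p n) (q n) ω).im ≤
          δ * (lam n / Real.pi * (1 / τ n ^ 2 * (q n - p n))) := by
      intro n hn hx
      have h1 := LL_im_upper (hpq n hn) hω0 (hτ n hn) (fun t ht => by
        rcases le_or_gt (p n - τ n) ω.re with g | g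
        · have g2 : q n + τ n < ω.re := by
            by_contra hcon
            push Not at hcon
            exact hx ⟨g, hcon⟩
          rw [abs_sub_comm]
          refine le_trans ?_ (le_abs_self _)
          linarith [ht.2]
        · refine le_trans ?_ (le_abs_self _)
          linarith [ht.1])
      have h2 : 0 ≤ lam n / Real.pi := div_nonneg (hlam n hn) hpi.le
      calc lam n / Real.pi * (LL (p n) (q n) ω).im ≤
          lam n / Real.pi * (ω.im / τ n ^ 2 * (q n - p n)) := mul_le_mul_of_nonneg_left h1 h2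
        _ = _ := by rw [hω]; ring
    have hterm : ∀ n ∈ s, 0 ≤ δ * (lam n / Real.pi * (1 / τ n ^ 2 * (q n - p n))) := by
      intro n hn
      have h2 : 0 ≤ lam n / Real.pi := div_nonneg (hlam n hn) hpi.le
      have h3 : 0 ≤ q n - p n := by linarith [hpq n hn]
      have := hτ n hn
      positivity
    rw [hGn]
    by_cases hex : ∃ k ∈ s, ω.re ∈ Icc (p k - τ k) (q k + τ k)
    · obtain ⟨k, hk, hkx⟩ := hex
      have h1 := hsm k hk ω hω0.le (by rw [hω]; exact hδδ) hkx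
      have h2 : ∑ n ∈ s, lam n / Real.pi * (LL (p n) (q n) ω).im ≤ lam k + δ * D := by
        rw [← Finset.add_sum_erase s _ hk, hD, Finset.mul_sum, ← Finset.add_sum_erase s _ hk]
        have g1 : lam k / Real.pi * (LL (p k) (q k) ω).im ≤ lam k := by
          have := LL_im_le (p k) (q k) hω0
          calc lam k / Real.pi * (LL (p k) (q k) ω).im ≤ lam k / Real.pi * Real.pi :=
                mul_le_mul_of_nonneg_left this (div_nonneg (hlam k hk) hpi.le)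
            _ = lam k := by field_simp
        have g2 : ∑ n ∈ s.erase k, lam n / Real.pi * (LL (p n) (q n) ω).im ≤
            ∑ n ∈ s.erase k, δ * (lam n / Real.pi * (1 / τ n ^ 2 * (q n - p n))) := by
          refine Finset.sum_le_sum fun n hn => ?_
          rw [Finset.mem_erase] at hn
          exact hup n hn.2 (hdis k hk n hn.2 hn.1.symm _ hkx)
        have g3 := hterm k hk
        linarith
      calc ‖F ω‖ * Real.exp (∑ n ∈ s, lam n / Real.pi * (LL (p n) (q n) ω).im) ≤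
          (K * Real.exp (-lam k)) * Real.exp (lam k + δ * D) := by gcongr
        _ = K * (Real.exp (-lam k) * Real.exp (lam k + δ * D)) := by ring
        _ = K * Real.exp (δ * D) := by
            rw [← Real.exp_add]
            congr 2
            ring
    · push Not at hex
      have h2 : ∑ n ∈ s, lam n / Real.pi * (LL (p n) (q n) ω).im ≤ δ * D := by
        rw [hD, Finset.mul_sum]
        exact Finset.sum_le_sum fun n hn => hup n hn (hex n hn)
      have := hFK ω hω0.le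
      gcongr
  have hbd : ∀ ω : ℂ, 0 < ω.im → ‖G ω‖ ≤ K * Real.exp (∑ n ∈ s, lam n) := by
    intro ω hω
    rw [hGn]
    have h1 := hFK ω hω.le
    have h2 : ∑ n ∈ s, lam n / Real.pi * (LL (p n) (q n) ω).im ≤ ∑ n ∈ s, lam n := by
      refine Finset.sum_le_sum fun n hn => ?_
      have := LL_im_le (p n) (q n) hω
      calc lam n / Real.pi * (LL (p n) (q n) ω).im ≤ lam n / Real.pi * Real.pi :=
            mul_le_mul_of_nonneg_left this (div_nonneg (hlam n hn) hpi.le)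
        _ = lam n := by field_simp
    gcongr
  have hPL : ∀ δ : ℝ, 0 < δ → δ ≤ δ1 → δ < ζ.im → ‖G ζ‖ ≤ K * Real.exp (δ * D) := by
    intro δ hδ hδδ hδζ
    obtain ⟨g, hg⟩ : ∃ g : ℂ → ℂ, ∀ w, g w = G ((δ : ℂ) * I + I * w) := ⟨_, fun w => rfl⟩
    have him : ∀ w : ℂ, ((δ : ℂ) * I + I * w).im = δ + w.re := by
      intro w; simp
    have hgd : ∀ w : ℂ, 0 ≤ w.re → DifferentiableAt ℂ g w := by
      intro w hw
      have e : g = fun w => G ((δ : ℂ) * I + I * w) := funext hg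
      rw [e]
      have h1 := hGd ((δ : ℂ) * I + I * w) (by rw [him]; linarith)
      exact h1.comp w (by fun_prop)
    have hcl : DiffContOnCl ℂ g {w : ℂ | 0 < w.re} := by
      refine ⟨fun w hw => (hgd w (le_of_lt hw)).differentiableWithinAt, fun w hw => ?_⟩
      rw [Complex.closure_setOfPred_lt_re] at hw
      exact (hgd w hw).continuousAt.continuousWithinAt
    have h2 := PhragmenLindelof.right_half_plane_of_bounded_on_real (f := g)
      (C := K * Real.exp (δ * D)) (z := ζ / I - δ) hcl ⟨1, by norm_num, 0, ?_⟩ ?_ ?_ ?_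
    · rw [hg] at h2
      have e : (δ : ℂ) * I + I * (ζ / I - δ) = ζ := by
        field_simp
        ring
      rwa [e] at h2
    · refine Asymptotics.IsBigO.of_bound (K * Real.exp (∑ n ∈ s, lam n)) ?_
      rw [Filter.eventually_inf_principal]
      refine Eventually.of_forall fun w hw => ?_
      have h3 : 0 < w.re := hw
      rw [hg]
      refine (hbd _ (by rw [him]; linarith)).trans ?_
      simp
    · refine ⟨K * Real.exp (∑ n ∈ s, lam n), ?_⟩
      rw [Filter.eventually_map]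
      filter_upwards [eventually_ge_atTop (0 : ℝ)] with x hx
      show ‖g x‖ ≤ _
      rw [hg]
      exact hbd _ (by rw [him]; simp only [Complex.ofReal_re]; linarith)
    · intro x
      rw [hg]
      exact hline δ hδ hδδ _ (by rw [him]; simp)
    · rw [Complex.sub_re, Complex.div_I]
      simp
      linarith
  have hfin : ‖G ζ‖ ≤ K := by
    have ht : Tendsto (fun δ : ℝ => K * Real.exp (δ * D)) (𝓝[>] 0) (𝓝 K) := by
      have h1 : Continuous fun δ : ℝ => K * Real.exp (δ * D) := by fun_prop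
      have h2 := h1.tendsto 0
      simp only [zero_mul, Real.exp_zero, mul_one] at h2
      exact h2.mono_left nhdsWithin_le_nhds
    refine ge_of_tendsto ht ?_
    have h3 : ∀ᶠ δ : ℝ in 𝓝[>] 0, δ ∈ Ioo (0 : ℝ) (min δ1 ζ.im) :=
      Ioo_mem_nhdsGT (lt_min hδ1 hζ)
    filter_upwards [h3] with δ hδ
    exact hPL δ hδ.1 (hδ.2.le.trans (min_le_left _ _)) (hδ.2.trans_le (min_le_right _ _))
  rw [hGn] at hfin
  rw [Real.exp_neg, ← div_eq_mul_inv, le_div_iff₀ (Real.exp_pos _)]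
  exact hfin

end Pool.Agent.X83.PC
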