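import Pool.Agent.X83.PC.Gap1
import Pool.Agent.X83.PC.Gap2

/-! # A function with a spectral gap does not vanish on many long intervals -/

set_option autoImplicit false

open MeasureTheory Set Filter Topology
open Complex (I)

namespace Pool.Agent.X83.PC

variable {v : ℝ → ℝ}

/-- the short intervals do not contribute to the sum -/
lemma short_sum {a b : ℕ → ℝ} (ha : ∀ n, 0 < a n) (hab : ∀ n, a n < b n)
    (hd : ∀ n, b n ≤ a (n + 1)) {L : ℝ} (hL : 0 < L) :
    Summable fun n => if b n - a n < L then ((b n - a n) / b n) ^ 2 else 0 := by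
  have hnn : ∀ n, 0 ≤ (if b n - a n < L then ((b n - a n) / b n) ^ 2 else 0) := by
    intro n; split_ifs <;> positivity
  refine summable_of_sum_range_le (c := L / a 0) hnn fun N => ?_
  have hterm : ∀ n, (if b n - a n < L then ((b n - a n) / b n) ^ 2 else 0) ≤
      L / a n - L / a (n + 1) := by
    intro n
    have h1 := ha n
    have h2 := hab n
    have h3 := hd n
    have hb : 0 < b n := h1.trans h2
    have ha1 := ha (n + 1)
    have h4 : L / b n ≥ L / a (n + 1) := by
      gcongr
    have h5 : L / a n - L / b n = L * (b n - a n) / (a n * b n) := by field_simp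
    have h6 : 0 ≤ L * (b n - a n) / (a n * b n) := by
      have : 0 ≤ b n - a n := by linarith
      positivity
    split_ifs with h
    · have h7 : ((b n - a n) / b n) ^ 2 ≤ L * (b n - a n) / (a n * b n) := by
        rw [div_pow, div_le_div_iff₀ (by positivity) (by positivity)]
        have h8 : 0 < b n - a n := by linarith
        have h9 : (b n - a n) * a n ≤ L * b n := by nlinarith
        calc (b n - a n) ^ 2 * (a n * b n) = ((b n - a n) * a n) * ((b n - a n) * b n) := by ring
          _ ≤ (L * b n) * ((b n - a n) * b n) := by gcongr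
          _ = _ := by ring
      linarith
    · linarith
  calc ∑ n ∈ Finset.range N, (if b n - a n < L then ((b n - a n) / b n) ^ 2 else 0) ≤
      ∑ n ∈ Finset.range N, (L / a n - L / a (n + 1)) := Finset.sum_le_sum fun n _ => hterm n
    _ = L / a 0 - L / a N := Finset.sum_range_sub' _ _
    _ ≤ L / a 0 := by have := ha N; have : 0 ≤ L / a N := by positivity
                      linarith

lemma dis {a b : ℕ → ℝ} (hab : ∀ n, a n < b n) (hd : ∀ n, b n ≤ a (n + 1)) {n k : ℕ}
    (h : n < k) : b n ≤ a k := by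
  obtain ⟨d, rfl⟩ := Nat.exists_eq_add_of_lt h
  induction d with
  | zero => exact hd n
  | succ d ih =>
    have h1 := ih (by omega)
    have h2 := hd (n + d + 1)
    have h3 := hab (n + d + 1)
    have e : n + (d + 1) + 1 = n + d + 1 + 1 := by ring
    rw [e]
    linarith

/-- the trivial bound -/
lemma CT_triv (hv : Integrable v) {z : ℂ} (hz : z.im ≠ 0) :
    ‖CT v 1 z‖ ≤ (∫ x, |v x|) / |z.im| := by
  have hy : 0 < |z.im| := abs_pos.2 hz
  unfold CT
  refine (norm_integral_le_integral_norm _).trans ?_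
  rw [div_eq_mul_inv, ← integral_mul_const]
  refine integral_mono (CT_int hv hy (fun x _ => im_le x z) 1).norm (hv.abs.mul_const _) fun x => ?_
  have h1 := CT_norm_le (v := v) (x := x) hy (fun _ => im_le x z) 1
  rw [pow_one |z.im|] at h1
  exact h1

/-- splitting the Cauchy transform -/
lemma CT_split (hv : Integrable v) (s : Set ℝ) (hs : MeasurableSet s) {z : ℂ} (hz : z.im ≠ 0) :
    CT v 1 z = CT (s.indicator v) 1 z + CT (sᶜ.indicator v) 1 z := by
  have hy : 0 < |z.im| := abs_pos.2 hz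
  unfold CT
  rw [← integral_add (CT_int (hv.indicator hs) hy (fun x _ => im_le x z) 1)
    (CT_int (hv.indicator hs.compl) hy (fun x _ => im_le x z) 1)]
  refine integral_congr_ae (ae_of_all _ fun x => ?_)
  show (v x : ℂ) * (((x : ℂ) - z) ^ 1)⁻¹ = ((s.indicator v x : ℝ) : ℂ) * (((x : ℂ) - z) ^ 1)⁻¹ +
    ((sᶜ.indicator v x : ℝ) : ℂ) * (((x : ℂ) - z) ^ 1)⁻¹
  rw [← add_mul, ← Complex.ofReal_add]
  congr 2
  exact (Set.indicator_self_add_compl_apply s v x).symm

/-- the Cauchy transform vanishes off the real line -/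
theorem CT_zero (hv : Integrable v) {R : ℝ} (hR : 0 < R) (hg : Gap v R)
    {a b : ℕ → ℝ} (ha : ∀ n, 0 < a n) (hab : ∀ n, a n < b n) (hd : ∀ n, b n ≤ a (n + 1))
    {C₀ c₀ : ℝ} (hC₀ : 0 ≤ C₀) (hc₀ : 0 < c₀)
    (hz : ∀ n, ∫ x in Ioo (a n) (b n), |v x| ≤ C₀ * Real.exp (-(c₀ * (b n - a n))))
    (hs : ¬ Summable fun n => ((b n - a n) / b n) ^ 2) :
    ∀ z : ℂ, 0 < z.im → CT v 1 z = 0 := by
  have hpi := Real.pi_pos
  obtain ⟨c, hc⟩ : ∃ c : ℝ, c = min (R / 2) (4 * c₀) := ⟨_, rfl⟩
  have hc0 : 0 < c := by rw [hc]; exact lt_min (by positivity) (by positivity)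
  have hcR : c < R := by
    have : c ≤ R / 2 := by rw [hc]; exact min_le_left _ _
    linarith
  have hc4 : c ≤ 4 * c₀ := by rw [hc]; exact min_le_right _ _
  obtain ⟨K1, hK1⟩ : ∃ K1 : ℝ, K1 = ∫ x, |v x| := ⟨_, rfl⟩
  have hK10 : 0 ≤ K1 := by rw [hK1]; exact integral_nonneg fun x => abs_nonneg _
  obtain ⟨K0, hK0⟩ : ∃ K0 : ℝ, K0 = K1 + C₀ := ⟨_, rfl⟩
  have hK00 : 0 ≤ K0 := by rw [hK0]; positivity
  have hdec1 : ∀ z : ℂ, z.im ≠ 0 → ‖CT v 1 z‖ ≤ K1 * Real.exp (-(c * |z.im|)) / |z.im| :=
    fun z hz => by rw [hK1]; exact CT_decay hv hg hz hc0.le hcR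
  have hdec : ∀ z : ℂ, z.im ≠ 0 → ‖CT v 1 z‖ ≤ K0 * Real.exp (-(c * |z.im|)) / |z.im| := by
    intro z hz
    refine (hdec1 z hz).trans ?_
    have : K1 ≤ K0 := by rw [hK0]; linarith
    gcongr
  -- the intervals
  obtain ⟨ρ, hρ⟩ : ∃ ρ : ℕ → ℝ, ∀ n, ρ n = (b n - a n) / 4 := ⟨_, fun n => rfl⟩
  obtain ⟨m, hm⟩ : ∃ m : ℕ → ℝ, ∀ n, m n = (a n + b n) / 2 := ⟨_, fun n => rfl⟩
  have hρ0 : ∀ n, 0 < ρ n := fun n => by rw [hρ]; linarith [hab n]
  -- the parts
  obtain ⟨vi, hvi⟩ : ∃ vi : ℕ → ℝ → ℝ, ∀ n, vi n = (Ioo (a n) (b n)).indicator v := ⟨_, fun n => rfl⟩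
  obtain ⟨vo, hvo⟩ : ∃ vo : ℕ → ℝ → ℝ, ∀ n, vo n = (Ioo (a n) (b n))ᶜ.indicator v :=
    ⟨_, fun n => rfl⟩
  have hvii : ∀ n, Integrable (vi n) := fun n => by rw [hvi]; exact hv.indicator measurableSet_Ioo
  have hvoi : ∀ n, Integrable (vo n) := fun n => by
    rw [hvo]; exact hv.indicator measurableSet_Ioo.compl
  have hsplit : ∀ n (z : ℂ), z.im ≠ 0 → CT v 1 z = CT (vi n) 1 z + CT (vo n) 1 z := by
    intro n z hz
    rw [hvi, hvo]
    exact CT_split hv _ measurableSet_Ioo hz
  have hvib : ∀ n (z : ℂ), z.im ≠ 0 →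
      ‖CT (vi n) 1 z‖ ≤ C₀ * Real.exp (-(c₀ * (b n - a n))) / |z.im| := by
    intro n z hz0
    refine (CT_triv (hvii n) hz0).trans ?_
    have h1 : ∫ x, |vi n x| = ∫ x in Ioo (a n) (b n), |v x| := by
      rw [← integral_indicator measurableSet_Ioo]
      refine integral_congr_ae (ae_of_all _ fun x => ?_)
      show |vi n x| = _
      rw [hvi]
      by_cases hx : x ∈ Ioo (a n) (b n)
      · rw [indicator_of_mem hx, indicator_of_mem hx]
      · rw [indicator_of_notMem hx, indicator_of_notMem hx, abs_zero]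
    rw [h1]
    have := hz n
    gcongr
  have hvob : ∀ n, ∀ z ∈ Metric.closedBall (m n : ℂ) (ρ n), z.im ≠ 0 →
      ‖CT (vo n) 1 z‖ ≤ K0 * Real.exp (-(c * |z.im|)) / |z.im| := by
    intro n z hzb hz0
    have hy : 0 < |z.im| := abs_pos.2 hz0
    have h1 : CT (vo n) 1 z = CT v 1 z - CT (vi n) 1 z := by
      rw [hsplit n z hz0]; ring
    have h2 : |z.im| ≤ ρ n := by
      rw [mem_closedBall_iff_norm] at hzb
      have := Complex.abs_im_le_norm (z - m n)
      simp only [Complex.sub_im, Complex.ofReal_im, sub_zero] at this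
      exact this.trans hzb
    have h3 : Real.exp (-(c₀ * (b n - a n))) ≤ Real.exp (-(c * |z.im|)) := by
      apply Real.exp_le_exp.2
      have e := hρ n
      have h4 : c * |z.im| ≤ 4 * c₀ * ρ n := by gcongr
      have h5 : 4 * c₀ * ρ n = c₀ * (b n - a n) := by rw [e]; ring
      linarith
    rw [h1]
    refine (norm_sub_le _ _).trans ?_
    have h6 := hdec1 z hz0
    have h7 := hvib n z hz0
    have h8 : C₀ * Real.exp (-(c₀ * (b n - a n))) / |z.im| ≤
        C₀ * Real.exp (-(c * |z.im|)) / |z.im| := by gcongr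
    rw [hK0]
    calc ‖CT v 1 z‖ + ‖CT (vi n) 1 z‖ ≤ K1 * Real.exp (-(c * |z.im|)) / |z.im| +
        C₀ * Real.exp (-(c * |z.im|)) / |z.im| := by linarith
      _ = _ := by ring
  -- analyticity in the discs
  have hdisc : ∀ n, DiffContOnCl ℂ (CT (vo n) 1) (Metric.ball (m n : ℂ) (ρ n)) := by
    intro n
    have hda : ∀ z ∈ Metric.closedBall (m n : ℂ) (ρ n), DifferentiableAt ℂ (CT (vo n) 1) z := by
      intro z hzb
      refine (CT_deriv (hvoi n) (hρ0 n) (fun x hx => ?_) 1).differentiableAt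
      have h1 : x ∉ Ioo (a n) (b n) := fun hcon => hx (by
        rw [hvo]; exact indicator_of_notMem (notMem_compl_iff.2 hcon) _)
      have h2 : 2 * ρ n ≤ |x - m n| := by
        rw [hρ, hm]
        by_contra hcon
        push Not at hcon
        rw [abs_lt] at hcon
        exact h1 ⟨by linarith [hcon.1], by linarith [hcon.2]⟩
      rw [mem_closedBall_iff_norm] at hzb
      have h3 : ‖(x : ℂ) - m n‖ = |x - m n| := by
        rw [← Complex.ofReal_sub, Complex.norm_real, Real.norm_eq_abs]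
      have h4 : ‖(x : ℂ) - m n‖ ≤ ‖(x : ℂ) - z‖ + ‖z - m n‖ := by
        have : (x : ℂ) - m n = ((x : ℂ) - z) + (z - m n) := by ring
        rw [this]; exact norm_add_le _ _
      linarith
    refine ⟨fun z hzb => (hda z (Metric.ball_subset_closedBall hzb)).differentiableWithinAt,
      fun z hzb => ?_⟩
    exact (hda z (Metric.closure_ball_subset_closedBall hzb)).continuousAt.continuousWithinAt
  -- main step
  intro z hzim
  obtain ⟨t, ht⟩ : ∃ t : ℝ, t = min (1 / 2) (z.im / 2) := ⟨_, rfl⟩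
  have ht0 : 0 < t := by rw [ht]; exact lt_min (by norm_num) (by linarith)
  have ht1 : t ≤ 1 / 2 := by rw [ht]; exact min_le_left _ _
  have ht2 : t ≤ z.im / 2 := by rw [ht]; exact min_le_right _ _
  obtain ⟨F, hF⟩ : ∃ F : ℂ → ℂ, ∀ ζ, F ζ = CT v 1 (ζ + t * I) := ⟨_, fun ζ => rfl⟩
  have him : ∀ ζ : ℂ, (ζ + t * I).im = ζ.im + t := fun ζ => by simp
  have hre : ∀ ζ : ℂ, (ζ + t * I).re = ζ.re := fun ζ => by simp
  obtain ⟨K, hK⟩ : ∃ K : ℝ, K = (K0 + C₀) / t := ⟨_, rfl⟩
  have hKnn : 0 ≤ K := by rw [hK]; positivity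
  have hK0K : K0 + C₀ / t ≤ K := by
    rw [hK, add_div]
    have : K0 ≤ K0 / t := by rw [le_div_iff₀ ht0]; nlinarith
    linarith
  have hFd : ∀ ζ : ℂ, 0 ≤ ζ.im → DifferentiableAt ℂ F ζ := by
    intro ζ hζ
    have e : F = fun ζ => CT v 1 (ζ + t * I) := funext hF
    rw [e]
    have h1 := (CT_diff_im hv (z := ζ + t * I) (by rw [him]; linarith) 1).differentiableAt
    exact DifferentiableAt.comp (g := CT v 1) (f := fun ζ : ℂ => ζ + t * I) ζ h1 (by fun_prop)
  have hFK : ∀ ζ : ℂ, 0 ≤ ζ.im → ‖F ζ‖ ≤ K := by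
    intro ζ hζ
    rw [hF]
    have h0 : 0 < (ζ + t * I).im := by rw [him]; linarith
    refine (hdec _ h0.ne').trans ?_
    rw [abs_of_pos h0, hK]
    have h1 : Real.exp (-(c * (ζ + t * I).im)) ≤ 1 := by
      apply Real.exp_le_one_iff.2
      have : 0 < c * (ζ + t * I).im := by positivity
      linarith
    have h2 : t ≤ (ζ + t * I).im := by rw [him]; linarith
    calc K0 * Real.exp (-(c * (ζ + t * I).im)) / (ζ + t * I).im ≤ K0 * 1 / t := by gcongr
      _ ≤ (K0 + C₀) / t := by
          rw [mul_one]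
          gcongr
          linarith
  -- the long intervals
  obtain ⟨P, hP⟩ : ∃ P : ℕ → Prop, ∀ n, P n ↔ 20 ≤ b n - a n := ⟨_, fun n => Iff.rfl⟩
  have hns : ¬ Summable fun n => if b n - a n < 20 then 0 else ((b n - a n) / b n) ^ 2 := by
    intro hcon
    apply hs
    refine ((short_sum ha hab hd (L := 20) (by norm_num)).add hcon).congr fun n => ?_
    split_ifs <;> simp
  obtain ⟨ζ, hζ⟩ : ∃ ζ : ℂ, ζ = z - t * I := ⟨_, rfl⟩
  have hζim : 0 < ζ.im := by rw [hζ]; simp; linarith
  have hζF : F ζ = CT v 1 z := by rw [hF, hζ]; congr 1; ring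
  -- the constant in the lower bound
  obtain ⟨Q, hQ⟩ : ∃ Q : ℝ, Q = (1 + |ζ.re| / b 0) ^ 2 + ζ.im ^ 2 / b 0 ^ 2 := ⟨_, rfl⟩
  have hb0 : ∀ n, 0 < b n := fun n => (ha n).trans (hab n)
  have hQ0 : 0 < Q := by
    rw [hQ]
    have := hb0 0
    positivity
  have hbmono : ∀ n, b 0 ≤ b n := by
    intro n
    rcases Nat.eq_zero_or_pos n with h | h
    · rw [h]
    · have := dis hab hd h
      linarith [hab n]
  obtain ⟨w, hw⟩ : ∃ w : ℝ, w = 7 / 32 * c / Real.pi * ζ.im / (16 * Q) := ⟨_, rfl⟩
  have hw0 : 0 < w := by rw [hw]; positivity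
  have key : ∀ N : ℕ, ‖CT v 1 z‖ ≤ K * Real.exp (-(w * ∑ n ∈ Finset.range N,
      if b n - a n < 20 then 0 else ((b n - a n) / b n) ^ 2)) := by
    intro N
    classical
    obtain ⟨s, hsd⟩ : ∃ s : Finset ℕ, s = (Finset.range N).filter (fun n => ¬ b n - a n < 20) :=
      ⟨_, rfl⟩
    have hsl : ∀ n ∈ s, 20 ≤ b n - a n := by
      intro n hn
      rw [hsd, Finset.mem_filter] at hn
      exact not_lt.1 hn.2
    have hmain := half_plane (F := F) (K := K) (δ1 := 1 / 2) hKnn (by norm_num) hFd hFK s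
      (fun n => m n - ρ n / 2) (fun n => m n + ρ n / 2) (fun n => ρ n / 4)
      (fun n => 7 / 32 * c * ρ n)
      (fun n _ => by have := hρ0 n; show m n - ρ n / 2 ≤ m n + ρ n / 2; linarith)
      (fun n _ => by have := hρ0 n; show 0 < ρ n / 4; positivity)
      (fun n _ => by have := hρ0 n; show 0 ≤ 7 / 32 * c * ρ n; positivity) ?_ ?_ hζim
    · rw [hζF] at hmain
      refine hmain.trans ?_
      apply mul_le_mul_of_nonneg_left _ hKnn
      apply Real.exp_le_exp.2
      rw [neg_le_neg_iff, Finset.mul_sum]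
      have e1 : ∑ n ∈ Finset.range N, w * (if b n - a n < 20 then 0 else ((b n - a n) / b n) ^ 2) =
          ∑ n ∈ s, w * ((b n - a n) / b n) ^ 2 := by
        rw [hsd, Finset.sum_filter]
        refine Finset.sum_congr rfl fun n _ => ?_
        split_ifs <;> simp
      rw [e1]
      refine Finset.sum_le_sum fun n hn => ?_
      have hbn := hb0 n
      have hρn := hρ0 n
      have hl := LL_im_lower (p := m n - ρ n / 2) (q := m n + ρ n / 2) (by linarith) hζim
        (D := Q * b n ^ 2) (fun t ht => by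
          have g1 : |t| ≤ b n := by
            have h1 : 0 ≤ t := by
              have := ht.1
              have h2 := ha n
              have h3 := hab n
              rw [hm, hρ] at this
              linarith
            rw [abs_of_nonneg h1]
            have := ht.2
            have h3 := hab n
            rw [hm, hρ] at this
            linarith
          have g2 : |t - ζ.re| ≤ b n + |ζ.re| := (abs_sub _ _).trans (by linarith)
          have g3 : b n + |ζ.re| ≤ b n * (1 + |ζ.re| / b 0) := by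
            have h0 := hb0 0
            have h1 : |ζ.re| ≤ b n * (|ζ.re| / b 0) := by
              rw [mul_div_assoc', le_div_iff₀ h0]
              nlinarith [hbmono n, abs_nonneg ζ.re]
            linarith
          have g4 : (t - ζ.re) ^ 2 ≤ (b n * (1 + |ζ.re| / b 0)) ^ 2 := by
            rw [← sq_abs (t - ζ.re)]
            exact pow_le_pow_left₀ (abs_nonneg _) (g2.trans g3) 2
          have g5 : ζ.im ^ 2 ≤ ζ.im ^ 2 / b 0 ^ 2 * b n ^ 2 := by
            have h0 := hb0 0
            rw [div_mul_eq_mul_div, le_div_iff₀ (by positivity)]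
            have : b 0 ^ 2 ≤ b n ^ 2 := pow_le_pow_left₀ h0.le (hbmono n) 2
            nlinarith [sq_nonneg ζ.im]
          rw [hQ]
          nlinarith)
      have e2 : w * ((b n - a n) / b n) ^ 2 = 7 / 32 * c * ρ n / Real.pi *
          (ζ.im / (Q * b n ^ 2) * (m n + ρ n / 2 - (m n - ρ n / 2))) := by
        have e3 : b n - a n = 4 * ρ n := by rw [hρ]; ring
        rw [hw, e3]
        field_simp
        ring
      rw [e2]
      exact mul_le_mul_of_nonneg_left hl (by positivity)
    · -- disjointness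
      intro n _ k _ hnk x hx1 hx2
      have hρn := hρ0 n
      have hρk := hρ0 k
      have i1 : a n < x ∧ x < b n := by
        have e := hρ n
        have e' := hm n
        have h3 := hab n
        have := hx1.1
        have h4 := hx1.2
        constructor <;> linarith
      have i2 : a k < x ∧ x < b k := by
        have e := hρ k
        have e' := hm k
        have h3 := hab k
        have := hx2.1
        have h4 := hx2.2
        constructor <;> linarith
      rcases lt_or_gt_of_ne hnk with h | h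
      · have := dis hab hd h
        linarith [i1.2, i2.1]
      · have := dis hab hd h
        linarith [i2.2, i1.1]
    · intro n hn ω hω0 hω1 hωre
      have hρn := hρ0 n
      have h5 : 5 ≤ ρ n := by rw [hρ]; linarith [hsl n hn]
      have h6 := disc_small h5 hc0.le hK00 (hdisc n) (hvob n) (z := ω + t * I)
        (by
          rw [hre, abs_le]
          have h1 := hωre.1
          have h2 := hωre.2
          constructor <;> linarith)
        (by rw [him, abs_of_nonneg (by linarith)]; linarith)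
      have h0 : 0 < (ω + t * I).im := by rw [him]; linarith
      have h7 := hvib n (ω + t * I) h0.ne'
      have h8 : C₀ * Real.exp (-(c₀ * (b n - a n))) / |(ω + t * I).im| ≤
          C₀ / t * Real.exp (-(7 / 32 * c * ρ n)) := by
        rw [abs_of_pos h0, div_mul_eq_mul_div]
        have h9 : t ≤ (ω + t * I).im := by rw [him]; linarith
        have h10 : Real.exp (-(c₀ * (b n - a n))) ≤ Real.exp (-(7 / 32 * c * ρ n)) := by
          apply Real.exp_le_exp.2
          have e := hρ n
          have h4 : c * ρ n ≤ 4 * c₀ * ρ n := by gcongr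
          have h5 : 4 * c₀ * ρ n = c₀ * (b n - a n) := by rw [e]; ring
          have h11 : 0 ≤ c * ρ n := by positivity
          linarith
        gcongr
      rw [hF, hsplit n _ h0.ne']
      refine (norm_add_le _ _).trans ?_
      calc ‖CT (vi n) 1 (ω + t * I)‖ + ‖CT (vo n) 1 (ω + t * I)‖ ≤
          C₀ / t * Real.exp (-(7 / 32 * c * ρ n)) + K0 * Real.exp (-(7 / 32 * c * ρ n)) :=
            add_le_add (h7.trans h8) h6
        _ = (K0 + C₀ / t) * Real.exp (-(7 / 32 * c * ρ n)) := by ring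
        _ ≤ K * Real.exp (-(7 / 32 * c * ρ n)) := by gcongr
  -- the limit
  have htop : Tendsto (fun N : ℕ => ∑ n ∈ Finset.range N,
      (if b n - a n < 20 then 0 else ((b n - a n) / b n) ^ 2)) atTop atTop :=
    (not_summable_iff_tendsto_nat_atTop_of_nonneg (fun n => by split_ifs <;> positivity)).1 hns
  have hlim : Tendsto (fun N : ℕ => K * Real.exp (-(w * ∑ n ∈ Finset.range N,
      if b n - a n < 20 then 0 else ((b n - a n) / b n) ^ 2))) atTop (𝓝 0) := by
    have h1 := (htop.const_mul_atTop hw0)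
    have h2 := (Real.tendsto_exp_neg_atTop_nhds_zero.comp h1).const_mul K
    rw [mul_zero] at h2
    exact h2
  have h0 : ‖CT v 1 z‖ ≤ 0 := ge_of_tendsto' hlim key
  exact norm_le_zero_iff.1 h0

end Pool.Agent.X83.PC
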