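import Pool.Agent.X83.PC.Gap3

/-! # The gap theorem -/

set_option autoImplicit false

open MeasureTheory Set Filter Topology
open Complex (I)

namespace Pool.Agent.X83.PC

variable {v : ℝ → ℝ}

lemma binom_ge (s x : ℝ) (n : ℕ) : 1 ≤ ‖1 - I * (s * x / (n + 1) : ℝ)‖ := by
  have h := Complex.abs_re_le_norm (1 - I * ((s * x / (n + 1) : ℝ) : ℂ))
  have e : (1 - I * ((s * x / (n + 1) : ℝ) : ℂ)).re = 1 := by
    rw [Complex.sub_re, Complex.one_re, mul_comm, Complex.re_ofReal_mul, Complex.I_re, mul_zero,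
      sub_zero]
  rw [e, abs_one] at h
  exact h

/-- the integrals against the negative powers -/
lemma pow_zero_int (hv : Integrable v) (h : ∀ z : ℂ, 0 < z.im → CT v 1 z = 0) {s : ℝ} (hs : s < 0)
    (n : ℕ) : ∫ x : ℝ, (v x : ℂ) * ((1 - I * (s * x / (n + 1) : ℝ)) ^ (n + 1))⁻¹ = 0 := by
  obtain ⟨y, hy⟩ : ∃ y : ℝ, y = (n + 1) / (-s) := ⟨_, rfl⟩
  have hs0 : 0 < -s := by linarith
  have hy0 : 0 < y := by rw [hy]; positivity
  have hU : IsOpen {z : ℂ | 0 < z.im} := isOpen_lt continuous_const Complex.continuous_im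
  have h1 := CT_zero_all hv hU (fun z hz => (show 0 < z.im from hz).ne') h (n + 1) (by omega)
    ((y : ℂ) * I) (by show 0 < ((y : ℂ) * I).im; simpa using hy0)
  have e : ∀ x : ℝ, (v x : ℂ) * ((1 - I * (s * x / (n + 1) : ℝ)) ^ (n + 1))⁻¹ =
      ((y : ℂ) * (-I)) ^ (n + 1) * ((v x : ℂ) * (((x : ℂ) - (y : ℂ) * I) ^ (n + 1))⁻¹) := by
    intro x
    have hy1 : (y : ℂ) ≠ 0 := by exact_mod_cast hy0.ne'
    have e1 : (1 - I * ((s * x / (n + 1) : ℝ) : ℂ)) * ((y : ℂ) * (-I)) = (x : ℂ) - (y : ℂ) * I := by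
      have e2 : s * x / (n + 1) * y = -x := by
        rw [hy]
        have : (n : ℝ) + 1 ≠ 0 := by positivity
        have hs' : s ≠ 0 := hs.ne
        field_simp
      have e3 : ((s * x / (n + 1) : ℝ) : ℂ) * (y : ℂ) = -(x : ℂ) := by
        rw [← Complex.ofReal_mul, e2, Complex.ofReal_neg]
      linear_combination I ^ 2 * e3 + (-(x : ℂ)) * Complex.I_sq
    have h2 : ((y : ℂ) * (-I)) ^ (n + 1) ≠ 0 := pow_ne_zero _ (mul_ne_zero hy1 (neg_ne_zero.2 Complex.I_ne_zero))
    have e4 : ((x : ℂ) - (y : ℂ) * I) ^ (n + 1) =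
        (1 - I * ((s * x / (n + 1) : ℝ) : ℂ)) ^ (n + 1) * ((y : ℂ) * (-I)) ^ (n + 1) := by
      rw [← e1]; exact mul_pow _ _ _
    rw [e4, mul_inv]
    calc (v x : ℂ) * ((1 - I * ((s * x / (n + 1) : ℝ) : ℂ)) ^ (n + 1))⁻¹
        = (((y : ℂ) * (-I)) ^ (n + 1) * (((y : ℂ) * (-I)) ^ (n + 1))⁻¹) *
          ((v x : ℂ) * ((1 - I * ((s * x / (n + 1) : ℝ) : ℂ)) ^ (n + 1))⁻¹) := by
          rw [mul_inv_cancel₀ h2, one_mul]
      _ = _ := by ring
  simp_rw [e]
  rw [integral_const_mul]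
  have h2 : ∫ x : ℝ, (v x : ℂ) * (((x : ℂ) - (y : ℂ) * I) ^ (n + 1))⁻¹ = CT v (n + 1) ((y : ℂ) * I) :=
    rfl
  rw [h2, h1, mul_zero]

lemma pow_tendsto (s x : ℝ) : Tendsto (fun n : ℕ => ((1 - I * (s * x / (n + 1) : ℝ)) ^ (n + 1))⁻¹)
    atTop (𝓝 (Complex.exp (I * (s * x : ℝ)))) := by
  have h1 := Complex.tendsto_one_add_div_pow_exp (-(I * (s * x : ℝ)))
  have h2 := (tendsto_add_atTop_iff_nat 1).2 h1
  have h3 := h2.inv₀ (Complex.exp_ne_zero _)
  rw [← Complex.exp_neg, neg_neg] at h3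
  refine h3.congr fun n => ?_
  congr 2
  push_cast
  ring

/-- the Fourier transform vanishes at negative frequencies -/
lemma four_neg (hv : Integrable v) (h : ∀ z : ℂ, 0 < z.im → CT v 1 z = 0) {s : ℝ} (hs : s < 0) :
    ∫ x : ℝ, (v x : ℂ) * Complex.exp (I * (s * x : ℝ)) = 0 := by
  have h1 : Tendsto (fun n : ℕ => ∫ x : ℝ, (v x : ℂ) * ((1 - I * (s * x / (n + 1) : ℝ)) ^ (n + 1))⁻¹)
      atTop (𝓝 (∫ x : ℝ, (v x : ℂ) * Complex.exp (I * (s * x : ℝ)))) := by
    refine tendsto_integral_of_dominated_convergence (fun x => |v x|) (fun n => ?_) hv.abs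
      (fun n => ?_) (ae_of_all _ fun x => ?_)
    · refine hv.ofReal.aestronglyMeasurable.mul ?_
      have : Measurable fun x : ℝ => ((1 - I * ((s * x / (n + 1) : ℝ) : ℂ)) ^ (n + 1))⁻¹ := by
        apply Measurable.inv
        fun_prop
      exact this.aestronglyMeasurable
    · refine ae_of_all _ fun x => ?_
      rw [norm_mul, Complex.norm_real, Real.norm_eq_abs, norm_inv, norm_pow]
      have h2 := one_le_pow₀ (binom_ge s x n) (n := n + 1)
      have h3 : (‖1 - I * ((s * x / (n + 1) : ℝ) : ℂ)‖ ^ (n + 1))⁻¹ ≤ 1 := inv_le_one_of_one_le₀ h2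
      calc |v x| * (‖1 - I * ((s * x / (n + 1) : ℝ) : ℂ)‖ ^ (n + 1))⁻¹ ≤ |v x| * 1 := by gcongr
        _ = |v x| := mul_one _
    · exact (pow_tendsto s x).const_mul _
  have h2 : (fun n : ℕ => ∫ x : ℝ, (v x : ℂ) * ((1 - I * (s * x / (n + 1) : ℝ)) ^ (n + 1))⁻¹) =
      fun _ => 0 := funext fun n => pow_zero_int hv h hs n
  rw [h2] at h1
  exact tendsto_nhds_unique h1 tendsto_const_nhds |>.symm ▸ rfl

lemma split_int (hv : Integrable v) : ∀ y : ℝ, ∫ x : ℝ, (v x : ℂ) * Complex.exp (I * (y * x : ℝ)) =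
      ((∫ x, v x * Real.cos (y * x) : ℝ) : ℂ) + ((∫ x, v x * Real.sin (y * x) : ℝ) : ℂ) * I := by
  have hic : ∀ y : ℝ, Integrable fun x => v x * Real.cos (y * x) := by
    intro y
    refine hv.mul_bdd (c := 1) (by fun_prop) (ae_of_all _ fun x => ?_)
    rw [Real.norm_eq_abs]; exact Real.abs_cos_le_one _
  have his : ∀ y : ℝ, Integrable fun x => v x * Real.sin (y * x) := by
    intro y
    refine hv.mul_bdd (c := 1) (by fun_prop) (ae_of_all _ fun x => ?_)
    rw [Real.norm_eq_abs]; exact Real.abs_sin_le_one _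
  intro y
  have e : ∀ x : ℝ, (v x : ℂ) * Complex.exp (I * (y * x : ℝ)) =
      ((v x * Real.cos (y * x) : ℝ) : ℂ) + ((v x * Real.sin (y * x) : ℝ) : ℂ) * I := by
    intro x
    rw [mul_comm I, Complex.exp_mul_I]
    push_cast
    ring
  simp_rw [e]
  have j1 : Integrable fun x : ℝ => ((v x * Real.cos (y * x) : ℝ) : ℂ) := (hic y).ofReal
  have j2 : Integrable fun x : ℝ => ((v x * Real.sin (y * x) : ℝ) : ℂ) * I :=
    ((his y).ofReal).mul_const I
  rw [integral_add j1 j2, integral_mul_const, integral_complex_ofReal, integral_complex_ofReal]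

lemma gap_of (hv : Integrable v) {η : ℝ}
    (h0 : ∀ ω : ℝ, |ω| < η → ∫ x, v x * Real.cos (2 * Real.pi * ω * x) = 0)
    (h1 : ∀ ω : ℝ, |ω| < η → ∫ x, v x * Real.sin (2 * Real.pi * ω * x) = 0) :
    Gap v (2 * Real.pi * η) := by
  have hpi := Real.pi_pos
  intro c hc
  have e : ∀ x : ℝ, (v x : ℂ) * Complex.exp (-I * c * x) =
      (v x : ℂ) * Complex.exp (I * (-c * x : ℝ)) := by
    intro x
    congr 2
    push_cast
    ring
  simp_rw [e]
  rw [split_int hv]
  have h2 : |-c / (2 * Real.pi)| < η := by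
    rw [abs_div, abs_neg, abs_of_pos (by positivity : (0 : ℝ) < 2 * Real.pi),
      div_lt_iff₀ (by positivity)]
    linarith
  have h3 := h0 _ h2
  have h4 := h1 _ h2
  have e2 : 2 * Real.pi * (-c / (2 * Real.pi)) = -c := by field_simp
  rw [e2] at h3 h4
  rw [h3, h4]
  simp

/-- **the gap theorem**: an integrable function with a spectral gap which is exponentially small in
mean on disjoint intervals `(a n, b n)` with `∑ ((b n - a n) / b n) ^ 2 = ∞` is zero -/
theorem gap_small (hv : Integrable v) {η : ℝ} (hη : 0 < η)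
    (h0 : ∀ ω : ℝ, |ω| < η → ∫ x, v x * Real.cos (2 * Real.pi * ω * x) = 0)
    (h1 : ∀ ω : ℝ, |ω| < η → ∫ x, v x * Real.sin (2 * Real.pi * ω * x) = 0)
    {a b : ℕ → ℝ} (ha : ∀ n, 0 < a n) (hab : ∀ n, a n < b n) (hd : ∀ n, b n ≤ a (n + 1))
    {C₀ c₀ : ℝ} (hC₀ : 0 ≤ C₀) (hc₀ : 0 < c₀)
    (hz : ∀ n, ∫ x in Ioo (a n) (b n), |v x| ≤ C₀ * Real.exp (-(c₀ * (b n - a n))))
    (hs : ¬ Summable fun n => ((b n - a n) / b n) ^ 2) : v =ᵐ[volume] 0 := by
  have hpi := Real.pi_pos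
  have hsplit := split_int hv
  have hgap : Gap v (2 * Real.pi * η) := gap_of hv h0 h1
  have hCT := CT_zero hv (by positivity) hgap ha hab hd hC₀ hc₀ hz hs
  have hneg : ∀ y : ℝ, y < 0 → (∫ x, v x * Real.cos (y * x)) = 0 ∧
      (∫ x, v x * Real.sin (y * x)) = 0 := by
    intro y hy
    have h2 := four_neg hv hCT hy
    rw [hsplit, Complex.ext_iff] at h2
    simp only [Complex.add_re, Complex.ofReal_re, Complex.mul_re, Complex.I_re, mul_zero,
      Complex.ofReal_im, Complex.I_im, mul_one, sub_self, add_zero, Complex.zero_re,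
      Complex.add_im, Complex.mul_im, zero_add, Complex.zero_im] at h2
    exact h2
  have hall : ∀ y : ℝ, ∫ x : ℝ, (v x : ℂ) * Complex.exp (I * (y * x : ℝ)) = 0 := by
    intro y
    rw [hsplit]
    rcases lt_trichotomy y 0 with hy | hy | hy
    · rw [(hneg y hy).1, (hneg y hy).2]; simp
    · have h2 := h0 0 (by simpa using hη)
      have h3 := h1 0 (by simpa using hη)
      rw [mul_zero] at h2 h3
      rw [hy, h2, h3]; simp
    · obtain ⟨h2, h3⟩ := hneg (-y) (by linarith)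
      have e1 : ∀ x, v x * Real.cos (-y * x) = v x * Real.cos (y * x) := by
        intro x; rw [neg_mul, Real.cos_neg]
      have e2 : ∀ x, v x * Real.sin (-y * x) = -(v x * Real.sin (y * x)) := by
        intro x; rw [neg_mul, Real.sin_neg]; ring
      simp_rw [e1] at h2
      simp_rw [e2] at h3
      rw [integral_neg, neg_eq_zero] at h3
      rw [h2, h3]; simp
  -- injectivity of the Fourier transform
  obtain ⟨mp, hmp⟩ : ∃ mp : (ℝ → ℝ) → Measure ℝ, ∀ w, mp w =
      volume.withDensity fun x => ENNReal.ofReal (w x) := ⟨_, fun w => rfl⟩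
  have hfin : ∀ w : ℝ → ℝ, Integrable w → IsFiniteMeasure (mp w) := fun w hw => by
    rw [hmp]; exact isFiniteMeasure_withDensity_ofReal hw.2
  have hint : ∀ w : ℝ → ℝ, Integrable w → ∀ f : ℝ → ℂ,
      ∫ x, f x ∂(mp w) = ∫ x, ((max (w x) 0 : ℝ) : ℂ) * f x := by
    intro w hw f
    rw [hmp, integral_withDensity_eq_integral_toReal_smul₀
      hw.aestronglyMeasurable.aemeasurable.ennreal_ofReal
      (ae_of_all _ fun x => ENNReal.ofReal_lt_top)]
    refine integral_congr_ae (ae_of_all _ fun x => ?_)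
    show (ENNReal.ofReal (w x)).toReal • f x = _
    rw [ENNReal.toReal_ofReal']
    simp
  have hvn : Integrable (-v) := hv.neg
  have f1 := hfin v hv
  have f2 := hfin (-v) hvn
  have hmeas : mp v = mp (-v) := by
    apply Measure.ext_of_charFun
    ext t
    rw [charFun_apply_real, charFun_apply_real, hint v hv, hint (-v) hvn, ← sub_eq_zero]
    have hb : ∀ {w : ℝ → ℝ}, Integrable w →
        Integrable fun x => ((w x : ℝ) : ℂ) * Complex.exp (t * x * I) := by
      intro w hw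
      refine hw.ofReal.mul_bdd (c := 1) (by fun_prop) (ae_of_all _ fun x => ?_)
      rw [Complex.norm_exp]
      simp
    rw [← integral_sub (hb hv.pos_part) (hb hvn.pos_part)]
    rw [← hall t]
    refine integral_congr_ae (ae_of_all _ fun x => ?_)
    show ((max (v x) 0 : ℝ) : ℂ) * Complex.exp (t * x * I) -
      ((max (-v x) 0 : ℝ) : ℂ) * Complex.exp (t * x * I) =
      (v x : ℂ) * Complex.exp (I * (t * x : ℝ))
    have e5 : ((max (v x) 0 : ℝ) : ℂ) - ((max (-v x) 0 : ℝ) : ℂ) = (v x : ℂ) := by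
      rw [← Complex.ofReal_sub]
      congr 1
      rcases le_total 0 (v x) with h | h
      · rw [max_eq_left h, max_eq_right (by linarith)]; ring
      · rw [max_eq_right h, max_eq_left (by linarith)]; ring
    rw [← sub_mul, e5]
    congr 2
    push_cast
    ring
  rw [hmp, hmp] at hmeas
  have hae := (withDensity_eq_iff hv.aestronglyMeasurable.aemeasurable.ennreal_ofReal
    hvn.aestronglyMeasurable.aemeasurable.ennreal_ofReal (by
      have := hv.lintegral_lt_top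
      exact this.ne)).1 hmeas
  filter_upwards [hae] with x hx
  have hx' : ENNReal.ofReal (v x) = ENNReal.ofReal (-v x) := hx
  show v x = 0
  rcases lt_trichotomy (v x) 0 with h | h | h
  · rw [ENNReal.ofReal_of_nonpos h.le] at hx'
    have := ENNReal.ofReal_eq_zero.1 hx'.symm
    linarith
  · exact h
  · rw [ENNReal.ofReal_of_nonpos (show -v x ≤ 0 by linarith)] at hx'
    have := ENNReal.ofReal_eq_zero.1 hx'
    linarith

/-- the case of a function which vanishes on the intervals -/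
theorem gap_zero (hv : Integrable v) {η : ℝ} (hη : 0 < η)
    (h0 : ∀ ω : ℝ, |ω| < η → ∫ x, v x * Real.cos (2 * Real.pi * ω * x) = 0)
    (h1 : ∀ ω : ℝ, |ω| < η → ∫ x, v x * Real.sin (2 * Real.pi * ω * x) = 0)
    {a b : ℕ → ℝ} (ha : ∀ n, 0 < a n) (hab : ∀ n, a n < b n) (hd : ∀ n, b n ≤ a (n + 1))
    (hz : ∀ n, ∀ x ∈ Ioo (a n) (b n), v x = 0)
    (hs : ¬ Summable fun n => ((b n - a n) / b n) ^ 2) : v =ᵐ[volume] 0 := by
  refine gap_small hv hη h0 h1 ha hab hd le_rfl one_pos (fun n => ?_) hs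
  rw [zero_mul]
  refine le_of_eq ?_
  refine setIntegral_eq_zero_of_forall_eq_zero fun x hx => ?_
  rw [hz n x hx, abs_zero]

end Pool.Agent.X83.PC
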