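import Pool.Agent.X83.PC.Win

/-! # The statement of the problem with two parameters and the zeros off the line -/

set_option autoImplicit false

namespace Pool.Agent.X83.PC

open MeasureTheory Set Filter Topology
open Pool.Agent.Y749.Rig

/-- the number of zeros off the line -/
noncomputable def OffN (T : ℝ) : ℕ :=
  ∑ᶠ s ∈ {s : ℂ | s ∈ NZ ∧ s.re ≠ 1 / 2 ∧ 0 < s.im ∧ s.im ≤ T}, zmult s

lemma OffN_eq (T : ℝ) : (OffN T : ℝ) = NF T := by
  classical
  have hset : {s : ℂ | s ∈ NZ ∧ s.re ≠ 1 / 2 ∧ 0 < s.im ∧ s.im ≤ T} =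
      ((ZZ T).filter (fun s => s.re ≠ 1 / 2) : Finset ℂ) := by
    ext s
    rw [Finset.mem_coe, Finset.mem_filter, mem_ZZ]
    constructor
    · rintro ⟨h1, h2, h3, h4⟩
      exact ⟨⟨h1.1, h1.2.1, h1.2.2, h3.le, h4⟩, h2⟩
    · rintro ⟨h1, h2⟩
      exact ⟨⟨h1.1, h1.2.1, h1.2.2.1⟩, h2, zs_im_pos h1, h1.2.2.2.2⟩
  unfold OffN
  rw [hset, finsum_mem_coe_finset]
  unfold NF
  push_cast
  rfl

lemma online_iff : Tendsto (fun T : ℝ => (OffN T : ℝ) / (T * Real.log T)) atTop (𝓝 0) ↔ OnLine := by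
  have h0 : ∀ T : ℝ, 10 ≤ T → 0 < T * Real.log T := fun T hT =>
    mul_pos (by linarith) (Real.log_pos (by linarith))
  constructor
  · intro h η hη
    filter_upwards [h.eventually (gt_mem_nhds hη), eventually_ge_atTop 10] with T h1 h2
    rw [div_lt_iff₀ (h0 T h2), OffN_eq] at h1
    exact h1.le
  · intro h
    rw [Metric.tendsto_nhds]
    intro ε hε
    filter_upwards [h (ε / 2) (by positivity), eventually_ge_atTop 10] with T h1 h2
    have h3 := h0 T h2
    rw [Real.dist_eq, sub_zero, abs_of_nonneg (by positivity), div_lt_iff₀ h3, OffN_eq]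
    nlinarith

lemma sinq_lt {x : ℝ} (hx : x ≠ 0) : (Real.sin x / x) ^ 2 < 1 := by
  have h0 : ∀ x : ℝ, 0 < x → (Real.sin x / x) ^ 2 < 1 := by
    intro x hx
    rw [div_pow, div_lt_one (by positivity)]
    have h1 : |Real.sin x| < |x| := by
      rw [abs_of_pos hx]
      rcases le_or_gt x 1 with h | h
      · have h2 := Real.sin_pos_of_pos_of_lt_pi hx (by linarith [Real.pi_gt_three])
        rw [abs_of_pos h2]
        exact Real.sin_lt hx
      · exact (Real.abs_sin_le_one x).trans_lt h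
    exact sq_lt_sq.2 h1
  rcases lt_or_gt_of_ne hx with h | h
  · have := h0 (-x) (by linarith)
    rwa [Real.sin_neg, neg_div_neg_eq] at this
  · exact h0 x h

lemma FF_pos {x : ℝ} (hx : x ≠ 0) : 0 < FF x := by
  unfold FF
  have := sinq_lt (mul_ne_zero Real.pi_pos.ne' hx)
  linarith

lemma FF_contOn {α β : ℝ} (hα : 0 < α) : ContinuousOn FF (Icc α β) := by
  have h : ∀ x ∈ Icc α β, Real.pi * x ≠ 0 := fun x hx =>
    mul_ne_zero Real.pi_pos.ne' (lt_of_lt_of_le hα hx.1).ne'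
  unfold FF
  refine continuousOn_const.sub (ContinuousOn.pow ?_ 2)
  exact (Real.continuous_sin.comp (by fun_prop)).continuousOn.div (by fun_prop) h

lemma FF_int_pos {α β : ℝ} (hα : 0 < α) (h : α < β) : 0 < ∫ u in α..β, FF u :=
  intervalIntegral.integral_pos h (FF_contOn hα) (fun u _ => FF_nonneg u)
    ⟨β, ⟨h.le, le_rfl⟩, FF_pos (by linarith)⟩

/-- the statement of the problem -/
def Q1W : Prop := ∀ α β : ℝ, 0 < α → α < β →
  Asymptotics.IsEquivalent atTop (fun T : ℝ => (Nw T α β : ℝ))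
    (fun T : ℝ => T * Real.log T / (2 * Real.pi) * ∫ u in α..β, FF u)

theorem q1w_iff : Q1W ↔ MontW := by
  refine forall_congr' fun α => forall_congr' fun β => forall_congr' fun hα =>
    forall_congr' fun h => ?_
  have hP := FF_int_pos hα h
  have hne : ∀ᶠ T : ℝ in atTop, T * Real.log T / (2 * Real.pi) * ∫ u in α..β, FF u ≠ 0 := by
    filter_upwards [eventually_ge_atTop 10] with T hT
    exact mul_ne_zero (nT_pos hT).ne' hP.ne'
  rw [Asymptotics.isEquivalent_iff_tendsto_one hne]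
  have e : ((fun T : ℝ => (Nw T α β : ℝ)) /
      fun T : ℝ => T * Real.log T / (2 * Real.pi) * ∫ u in α..β, FF u) =ᶠ[atTop]
      fun T => (Mp T).real (Icc α β) / ∫ u in α..β, FF u := by
    filter_upwards [eventually_ge_atTop 10] with T hT
    have hn := nT_pos hT
    show (Nw T α β : ℝ) / (T * Real.log T / (2 * Real.pi) * ∫ u in α..β, FF u) = _
    rw [Nw_eq hT]
    show nT T * (Mp T).real (Icc α β) / (nT T * ∫ u in α..β, FF u) = _
    rw [mul_div_mul_left _ _ hn.ne']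
  rw [tendsto_congr' e]
  constructor
  · intro h1
    have := h1.mul_const (∫ u in α..β, FF u)
    rw [one_mul] at this
    refine this.congr fun T => ?_
    rw [div_mul_cancel₀ _ hP.ne']
  · intro h1
    have := h1.div_const (∫ u in α..β, FF u)
    rwa [div_self hP.ne'] at this

lemma oneW_iff (l s : ℝ) : OneW l s ↔ ∃ C c A : ℝ, 0 < c ∧ ∀ α : ℝ, A ≤ α → ∀ ε : ℝ, 0 < ε →
    ∃ T₀ : ℝ, ∀ T : ℝ, T₀ ≤ T →
    s * ((Nw T α (α + l) : ℝ) / (T * Real.log T / (2 * Real.pi)) - ∫ u in α..(α + l), FF u) ≤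
      C * Real.exp (-(c * α)) + ε := by
  have e : ∀ T : ℝ, 10 ≤ T → ∀ α : ℝ,
      (Nw T α (α + l) : ℝ) / (T * Real.log T / (2 * Real.pi)) = (Mp T).real (Icc α (α + l)) := by
    intro T hT α
    have hn := nT_pos hT
    rw [Nw_eq hT]
    show nT T * (Mp T).real (Icc α (α + l)) / nT T = _
    rw [mul_div_cancel_left₀ _ hn.ne']
  constructor
  · rintro ⟨C, c, A, hc, h⟩
    refine ⟨C, c, A, hc, fun α hα ε hε => ?_⟩
    obtain ⟨T₀, hT₀⟩ := (h α hα ε hε).exists_forall_of_atTop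
    refine ⟨max T₀ 10, fun T hT => ?_⟩
    rw [e T ((le_max_right _ _).trans hT)]
    exact hT₀ T ((le_max_left _ _).trans hT)
  · rintro ⟨C, c, A, hc, h⟩
    refine ⟨C, c, A, hc, fun α hα ε hε => ?_⟩
    obtain ⟨T₀, hT₀⟩ := h α hα ε hε
    filter_upwards [eventually_ge_atTop T₀, eventually_ge_atTop 10] with T h1 h2
    rw [← e T h2]
    exact hT₀ T h1

end Pool.Agent.X83.PC
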