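import Pool.Agent.X83.PC.Sp
import Pool.Agent.X83.PC.GlueW

/-! # The statements of the results on sparse distances -/

set_option autoImplicit false

namespace Pool.Agent.X83.PC

open MeasureTheory Set Filter Topology
open Pool.Agent.Y749.Rig

/-- the number of ordered pairs of ordinates in `[0, T]` with scaled distance at most `x` -/
noncomputable def Ns (T x : ℝ) : ℕ :=
  ∑ᶠ p ∈ {p : ℂ × ℂ | (p.1 ∈ NZ ∧ 0 ≤ p.1.im ∧ p.1.im ≤ T) ∧ (p.2 ∈ NZ ∧ 0 ≤ p.2.im ∧ p.2.im ≤ T) ∧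
    |p.1.im - p.2.im| * Real.log T / (2 * Real.pi) ≤ x}, zmult p.1 * zmult p.2

lemma Ns_eq {T : ℝ} (hT : 10 ≤ T) (x : ℝ) : (Ns T x : ℝ) = nT T * (Mp T).real (Icc (-x) x) := by
  rw [← Nw_eq hT]
  congr 1
  unfold Ns Nw
  have e : {p : ℂ × ℂ | (p.1 ∈ NZ ∧ 0 ≤ p.1.im ∧ p.1.im ≤ T) ∧
      (p.2 ∈ NZ ∧ 0 ≤ p.2.im ∧ p.2.im ≤ T) ∧
      |p.1.im - p.2.im| * Real.log T / (2 * Real.pi) ≤ x} =
      {p : ℂ × ℂ | (p.1 ∈ NZ ∧ 0 ≤ p.1.im ∧ p.1.im ≤ T) ∧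
      (p.2 ∈ NZ ∧ 0 ≤ p.2.im ∧ p.2.im ≤ T) ∧
      (p.1.im - p.2.im) * Real.log T / (2 * Real.pi) ∈ Icc (-x) x} := by
    have hl : 0 < Real.log T := Real.log_pos (by linarith)
    have hpi := Real.pi_pos
    ext p
    simp only [mem_ofPred_eq]
    refine and_congr_right fun _ => and_congr_right fun _ => ?_
    rw [mem_Icc, ← abs_le, abs_div, abs_mul, abs_of_pos hl,
      abs_of_pos (by positivity : (0:ℝ) < 2 * Real.pi)]
  rw [e]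

lemma spOne_iff (a b s : ℕ → ℝ) : SpOne a b s ↔ ∃ C c : ℝ, 0 < c ∧ ∀ n : ℕ, ∀ x ∈ Ioo (a n) (b n),
    ∀ ε : ℝ, 0 < ε → ∃ T₀ : ℝ, ∀ T : ℝ, T₀ ≤ T →
    s n * ((Ns T x : ℝ) / (T * Real.log T / (2 * Real.pi)) - (1 + 2 * ∫ u in (0:ℝ)..x, FF u)) ≤
      C * Real.exp (-(c * (b n - a n))) + ε := by
  have e : ∀ T : ℝ, 10 ≤ T → ∀ x : ℝ,
      (Ns T x : ℝ) / (T * Real.log T / (2 * Real.pi)) = (Mp T).real (Icc (-x) x) := by
    intro T hT x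
    have hn := nT_pos hT
    rw [Ns_eq hT]
    show nT T * (Mp T).real (Icc (-x) x) / nT T = _
    rw [mul_div_cancel_left₀ _ hn.ne']
  constructor
  · rintro ⟨C, c, hc, h⟩
    refine ⟨C, c, hc, fun n x hx ε hε => ?_⟩
    obtain ⟨T₀, hT₀⟩ := (h n x hx ε hε).exists_forall_of_atTop
    refine ⟨max T₀ 10, fun T hT => ?_⟩
    rw [e T ((le_max_right _ _).trans hT)]
    exact hT₀ T ((le_max_left _ _).trans hT)
  · rintro ⟨C, c, hc, h⟩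
    refine ⟨C, c, hc, fun n x hx ε hε => ?_⟩
    obtain ⟨T₀, hT₀⟩ := h n x hx ε hε
    filter_upwards [eventually_ge_atTop T₀, eventually_ge_atTop 10] with T h1 h2
    rw [← e T h2]
    exact hT₀ T h1

lemma oneWS_iff (a b s : ℕ → ℝ) (l : ℝ) : OneWS a b s l ↔ ∃ C c : ℝ, 0 < c ∧ ∀ n : ℕ,
    ∀ α ∈ Ioo (a n) (b n), ∀ ε : ℝ, 0 < ε → ∃ T₀ : ℝ, ∀ T : ℝ, T₀ ≤ T →
    s n * ((Nw T α (α + l) : ℝ) / (T * Real.log T / (2 * Real.pi)) - ∫ u in α..(α + l), FF u) ≤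
      C * Real.exp (-(c * (b n - a n))) + ε := by
  have e : ∀ T : ℝ, 10 ≤ T → ∀ α : ℝ,
      (Nw T α (α + l) : ℝ) / (T * Real.log T / (2 * Real.pi)) = (Mp T).real (Icc α (α + l)) := by
    intro T hT α
    have hn := nT_pos hT
    rw [Nw_eq hT]
    show nT T * (Mp T).real (Icc α (α + l)) / nT T = _
    rw [mul_div_cancel_left₀ _ hn.ne']
  constructor
  · rintro ⟨C, c, hc, h⟩
    refine ⟨C, c, hc, fun n x hx ε hε => ?_⟩
    obtain ⟨T₀, hT₀⟩ := (h n x hx ε hε).exists_forall_of_atTop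
    refine ⟨max T₀ 10, fun T hT => ?_⟩
    rw [e T ((le_max_right _ _).trans hT)]
    exact hT₀ T ((le_max_left _ _).trans hT)
  · rintro ⟨C, c, hc, h⟩
    refine ⟨C, c, hc, fun n x hx ε hε => ?_⟩
    obtain ⟨T₀, hT₀⟩ := h n x hx ε hε
    filter_upwards [eventually_ge_atTop T₀, eventually_ge_atTop 10] with T h1 h2
    rw [← e T h2]
    exact hT₀ T h1

end Pool.Agent.X83.PC
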