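import Pool.Agent.X83.PC.Sp2

/-! # Montgomery's theorem at the heights where few zeros are off the line -/

set_option autoImplicit false

namespace Pool.Agent.X83.PC

open MeasureTheory Set Filter Topology
open scoped NNReal ENNReal
open Pool.Agent.Y749.Rig
open H370 (Zf mult good_zeta mem_Zf NN zset zz)
open Pool.Agent.TH850.UR (ew)
open Complex (I)

theorem blk_loc : ∃ κ : ℝ, 0 < κ ∧ κ ≤ 1 / 2 ∧ ∀ ψ : ℝ → ℝ, Adm κ ψ →
    ∀ ε : ℝ, 0 < ε → ∃ η : ℝ, 0 < η ∧ ∀ᶠ q : ℝ in atTop,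
      NF (9 / 8 * q) ≤ η * (9 / 8 * q * Real.log (9 / 8 * q)) →
      |RR (fl ψ) (Zf riemannZeta q (9 / 8 * q)) (Zf riemannZeta q (9 / 8 * q)) (Real.log q) -
        q / 8 * (Real.log q / (2 * Real.pi)) * cc ψ| ≤ ε * (q * Real.log q) := by
  classical
  obtain ⟨κ, Cw, Tw, hκ, hκ2, hCw, hTw, hwm⟩ := wm
  refine ⟨κ, hκ, hκ2, fun ψ h ε hε => ?_⟩
  obtain ⟨C, hC⟩ := h.dec
  have hC0 : 0 ≤ C := by
    have := (norm_nonneg _).trans (hC 0 0)
    simpa using this
  obtain ⟨C1, T1, hC1, hT1, hblk⟩ := sm_blk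
  have hW := W0_nonneg
  have hpi := Real.pi_pos
  -- constants
  obtain ⟨ρ, hρ⟩ : ∃ ρ : ℝ, ρ = ε / (8 * (C * (W0 + 1) * C1 + 1)) := ⟨_, rfl⟩
  have hρ0 : 0 < ρ := by rw [hρ]; positivity
  have hρ1 : C * (ρ * W0 + ρ) * C1 ≤ ε / 8 := by
    have h1 : (C * (W0 + 1) * C1 + 1) * ρ = ε / 8 := by rw [hρ]; field_simp
    nlinarith
  obtain ⟨R, hR0, hR⟩ : ∃ R : ℝ, 0 < R ∧ WT R ≤ ρ := by
    obtain ⟨R, hR1, hR2⟩ := ((eventually_gt_atTop 0).and
      (WT_tendsto.eventually (ge_mem_nhds hρ0))).exists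
    exact ⟨R, hR1, hR2⟩
  obtain ⟨D, hD⟩ : ∃ D : ℝ, D = 6 * C * W0 + 1 := ⟨_, rfl⟩
  have hD0 : 0 < D := by rw [hD]; positivity
  obtain ⟨y, hy⟩ : ∃ y : ℝ, y = (ε / (4 * D)) ^ 2 / Cw := ⟨_, rfl⟩
  have hy0 : 0 < y := by rw [hy]; positivity
  obtain ⟨K, hK⟩ : ∃ K : ℝ, K = 2 * Cw / y := ⟨_, rfl⟩
  have hK0 : 0 < K := by rw [hK]; positivity
  obtain ⟨η, hη⟩ : ∃ η : ℝ, η = y / (12 * K) := ⟨_, rfl⟩
  have hη0 : 0 < η := by rw [hη]; positivity
  obtain ⟨δ, hδ, hgood⟩ := good_piece h hκ hκ2 (show 0 < ε / (8 * (1 + 1)) by positivity)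
  refine ⟨η, hη0, ?_⟩
  filter_upwards [hgood, gap h hδ (show 0 < ε / 8 by positivity),
    eventually_ge_atTop Tw, eventually_ge_atTop T1, rpow_small hδ
      (show (0 : ℝ) < min (1 / 100) (ε / (8 * (|cc ψ| + 1))) by positivity),
    Real.tendsto_log_atTop.eventually_ge_atTop (2 * Real.pi * R / Real.sqrt ρ + 1)]
    with q ⟨t, H, ht1, ht2, hH, hgd⟩ hgap hq1 hq2 hw1 hLR hofq
  have hq10 : 10 ≤ q := hTw.trans hq1
  have hqp : 0 < q := by linarith
  have hg := hgap t H ht1 ht2 hH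
  obtain ⟨L, hL⟩ : ∃ L : ℝ, L = Real.log q := ⟨_, rfl⟩
  have hL1 : 1 < L := by rw [hL]; exact one_lt_log (by linarith)
  have hL0 : 0 < L := by linarith
  obtain ⟨w, hw⟩ : ∃ w : ℝ, w = q ^ (1 - δ) := ⟨_, rfl⟩
  have hwp : 0 < w := by rw [hw]; exact Real.rpow_pos_of_pos hqp _
  rw [← hw] at ht2 hH hw1
  have hwm1 := hwm q hq1
  have hblkT := hblk q hq2
  rw [← hL] at hg hgd hLR hwm1 hblkT ⊢
  have hw2 : w ≤ 1 / 100 * q := hw1.trans (by gcongr; exact min_le_left _ _)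
  have hw3 : w ≤ ε / (8 * (|cc ψ| + 1)) * q := hw1.trans (by gcongr; exact min_le_right _ _)
  obtain ⟨B, hB⟩ : ∃ B : Finset ℂ, B = Zf riemannZeta q (9 / 8 * q) := ⟨_, rfl⟩
  obtain ⟨P, hP⟩ : ∃ P : Finset ℂ, P = Zf riemannZeta t (t + H) := ⟨_, rfl⟩
  rw [← hB] at hg ⊢
  rw [← hP] at hg
  have hHt : t + H ≤ 9 / 8 * q := by rw [hH]; linarith
  have ht0 : 1 ≤ t := by linarith
  have hPB : P ⊆ B := by
    rw [hP, hB]
    intro s hs
    rw [mem_Zf good_zeta (by linarith)] at hs ⊢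
    exact ⟨hs.1, hs.2.1, by linarith [hs.2.2.1], by linarith [hs.2.2.2.1], hs.2.2.2.2⟩
  have hB2 : B ⊆ Zf riemannZeta q (2 * q) := by
    rw [hB]
    intro s hs
    rw [mem_Zf good_zeta (by linarith)] at hs ⊢
    exact ⟨hs.1, hs.2.1, hs.2.2.1, by linarith [hs.2.2.2.1], hs.2.2.2.2⟩
  have hPre : ∀ s ∈ P, 0 < s.re ∧ s.re < 1 := by
    intro s hs
    rw [hP, mem_Zf good_zeta (by linarith)] at hs
    exact ⟨hs.1, hs.2.1⟩
  -- the complex sum
  have hS := JN_eq h hκ (A := t) (B := t + H) (L := L) ht0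
  rw [← hP] at hS
  have hSre := congrArg Complex.re hS
  rw [Complex.ofReal_re] at hSre
  rw [hSre] at hgd
  -- the difference
  have hdiff := diff_sum h hκ hC hC0 hL0 hPre
  have hPm : ∫⁻ t, ENNReal.ofReal (fw P mm L t ^ 2) ≤ ENNReal.ofReal (C1 * q) := by
    refine le_trans (lintegral_mono fun t => ENNReal.ofReal_le_ofReal ?_) hblkT
    refine pow_le_pow_left₀ (fw_nonneg mm_nonneg t) ?_ 2
    exact fw_mono (hPB.trans hB2) (fun s _ => le_rfl) t mm_nonneg
  have hA1 : ∑ s ∈ P, ∑ s' ∈ P, mm s * mm s' * (C * (1 - Real.exp (-(s.im - s'.im) ^ 2 / 4)) *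
        (1 / (1 + ((s.im - s'.im) * L / (2 * Real.pi)) ^ 2))) ≤ ε / 8 * (q * L) := by
    have h1 := RR_split (A := P) (B := P) (L := L) hL0 (Y₁ := C1 * q) (Y₂ := C1 * q) (by positivity)
      (by positivity) mm_nonneg mm_nonneg hPm hPm
      (K := fun s s' => C * (1 - Real.exp (-(s.im - s'.im) ^ 2 / 4)) *
        (1 / (1 + ((s.im - s'.im) * L / (2 * Real.pi)) ^ 2))) (R := R) (η := C * ρ) (β := C)
      (by positivity) hC0 ?_
    · refine h1.trans ?_
      rw [mul_assoc L, Real.mul_self_sqrt (by positivity)]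
      calc (C * ρ * W0 + C * WT R) * (L * (C1 * q)) ≤ (C * ρ * W0 + C * ρ) * (L * (C1 * q)) := by
            gcongr
        _ = C * (ρ * W0 + ρ) * C1 * (q * L) := by ring
        _ ≤ _ := by gcongr
    · intro s _ s' _
      apply mul_le_mul_of_nonneg_right _ (by positivity)
      have hexp1 : 0 < Real.exp (-(s.im - s'.im) ^ 2 / 4) := Real.exp_pos _
      split_ifs with hh
      · nlinarith
      · push Not at hh
        apply mul_le_mul_of_nonneg_left _ hC0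
        have h2 := Real.add_one_le_exp (-(s.im - s'.im) ^ 2 / 4)
        rw [abs_div, abs_mul, abs_of_pos hL0, abs_of_pos (show 0 < 2 * Real.pi by positivity),
          div_lt_iff₀ (by positivity)] at hh
        have h3 : 2 * Real.pi * R / Real.sqrt ρ ≤ L := by linarith
        have hsρ : 0 < Real.sqrt ρ := Real.sqrt_pos.2 hρ0
        rw [div_le_iff₀ hsρ] at h3
        have h4 : |s.im - s'.im| ≤ Real.sqrt ρ := by
          have h5 : |s.im - s'.im| * L ≤ Real.sqrt ρ * L := by linarith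
          exact le_of_mul_le_mul_right h5 hL0
        have h6 : (s.im - s'.im) ^ 2 ≤ ρ := by
          rw [← sq_abs, ← Real.sq_sqrt hρ0.le]
          exact pow_le_pow_left₀ (abs_nonneg _) h4 2
        linarith
  have hA2 : ∑ s ∈ P.filter (fun s => s.re ≠ 1 / 2), ∑ s' ∈ P, (mm s * ew κ L s) *
        (mm s' * ew κ L s') * (1 / (1 + ((s.im - s'.im) * L / (2 * Real.pi)) ^ 2)) ≤
      W0 * (L * (ε / (4 * D) * q)) := by
    have hsubP : P ⊆ Zf riemannZeta q (2 * q) := hPB.trans hB2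
    have hsubF : P.filter (fun s => s.re ≠ 1 / 2) ⊆ Zf riemannZeta q (2 * q) :=
      (Finset.filter_subset _ _).trans hsubP
    have h1 := (hwm1 P hsubP).2
    have h2 := sparse (κ := κ) hL0 hK0 (by positivity) (hwm1 _ hsubF).1
    have h3 : ∑ s ∈ P.filter (fun s => s.re ≠ 1 / 2), mm s ≤ 3 * η * (q * L) := by
      have h4 : ∑ s ∈ P.filter (fun s => s.re ≠ 1 / 2), mm s ≤ NF (9 / 8 * q) := by
        unfold NF
        refine Finset.sum_le_sum_of_subset_of_nonneg ?_ fun s _ _ => mm_nonneg s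
        refine Finset.filter_subset_filter _ ?_
        rw [hP]
        exact Zf_sub_ZZ ht0 hHt
      have h5 : Real.log (9 / 8 * q) ≤ 2 * L := by
        have : Real.log (9 / 8 * q) ≤ Real.log (q ^ 2) := Real.log_le_log (by linarith)
          (by nlinarith)
        rw [Real.log_pow, ← hL] at this
        exact_mod_cast this
      calc ∑ s ∈ P.filter (fun s => s.re ≠ 1 / 2), mm s ≤ η * (9 / 8 * q * Real.log (9 / 8 * q)) :=
            h4.trans hofq
        _ ≤ η * (9 / 8 * q * (2 * L)) := by gcongr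
        _ ≤ _ := by
            have : 0 < η * (q * L) := by positivity
            nlinarith
    have h6 : K * ((∑ s ∈ P.filter (fun s => s.re ≠ 1 / 2), mm s) * (2 / L)) + Cw * q / K ≤ y * q := by
      have h7 : (∑ s ∈ P.filter (fun s => s.re ≠ 1 / 2), mm s) * (2 / L) ≤ 6 * η * q := by
        calc (∑ s ∈ P.filter (fun s => s.re ≠ 1 / 2), mm s) * (2 / L) ≤
              3 * η * (q * L) * (2 / L) := by gcongr
          _ = 6 * η * q := by field_simp; ring
      have h8 : K * (6 * η * q) = y / 2 * q := by rw [hη]; field_simp; ring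
      have h9 : Cw * q / K = y / 2 * q := by rw [hK]; field_simp
      have h10 := mul_le_mul_of_nonneg_left h7 hK0.le
      rw [h8] at h10
      rw [h9]
      linarith
    have h7 := h2.trans (ENNReal.ofReal_le_ofReal h6)
    have h8 := est_all (A := P.filter (fun s => s.re ≠ 1 / 2)) (B := P) (L := L) hL0 (Y₁ := y * q)
      (Y₂ := Cw * q) (by positivity) (by positivity) (aw_nonneg κ L) (aw_nonneg κ L) h7 h1
    refine h8.trans ?_
    rw [mul_assoc L]
    have h9 : Real.sqrt (y * q) * Real.sqrt (Cw * q) = ε / (4 * D) * q := by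
      rw [← Real.sqrt_mul (by positivity)]
      have : y * q * (Cw * q) = (ε / (4 * D) * q) ^ 2 := by
        rw [hy]; field_simp
      rw [this, Real.sqrt_sq (by positivity)]
    rw [h9]
  -- assembly
  obtain ⟨S, hSd⟩ : ∃ S : ℝ, S = (∑ s ∈ P, ∑ s' ∈ P, (mm s : ℂ) * (mm s' : ℂ) * PS ψ L s s').re :=
    ⟨_, rfl⟩
  rw [← hSd] at hdiff hgd
  have hd2 : |RR (fl ψ) P P L - S| ≤ ε / 8 * (q * L) + 6 * C * (W0 * (L * (ε / (4 * D) * q))) := by
    refine hdiff.trans ?_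
    have := mul_le_mul_of_nonneg_left hA2 (show 0 ≤ 6 * C by positivity)
    linarith
  have hd3 : 6 * C * (W0 * (L * (ε / (4 * D) * q))) ≤ ε / 4 * (q * L) := by
    have h1 : 6 * C * W0 ≤ D := by rw [hD]; linarith
    calc 6 * C * (W0 * (L * (ε / (4 * D) * q))) = (6 * C * W0) * (ε / (4 * D)) * (q * L) := by ring
      _ ≤ D * (ε / (4 * D)) * (q * L) := by gcongr
      _ = ε / 4 * (q * L) := by field_simp
  have hHq : H ≤ q := by rw [hH]; linarith
  have hH0 : 0 ≤ H := by rw [hH]; linarith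
  have h2pi : 1 ≤ 2 * Real.pi := by linarith [Real.pi_gt_three]
  have hgd2 : |S - H * L / (2 * Real.pi) * cc ψ| ≤ ε / 8 * (q * L) := by
    refine hgd.trans ?_
    have h1 : H * L / (2 * Real.pi) ≤ q * L := by
      rw [div_le_iff₀ (by positivity)]
      have : H * L ≤ q * L := by gcongr
      nlinarith [mul_pos hqp hL0]
    calc ε / (8 * (1 + 1)) * (H * L / (2 * Real.pi)) ≤ ε / (8 * (1 + 1)) * (q * L) := by gcongr
      _ ≤ _ := by
          have : 0 < ε * (q * L) := by positivity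
          nlinarith
  have hHd : |H * L / (2 * Real.pi) * cc ψ - q / 8 * (L / (2 * Real.pi)) * cc ψ| ≤
      ε / 4 * (q * L) := by
    have h1 : H * L / (2 * Real.pi) * cc ψ - q / 8 * (L / (2 * Real.pi)) * cc ψ =
        -(2 * w * (L / (2 * Real.pi)) * cc ψ) := by rw [hH]; ring
    rw [h1, abs_neg, abs_mul, abs_of_pos (show 0 < 2 * w * (L / (2 * Real.pi)) by positivity)]
    have h2 : L / (2 * Real.pi) ≤ L := div_le_self hL0.le h2pi
    have h3 : ε / (8 * (|cc ψ| + 1)) * (|cc ψ| + 1) = ε / 8 := by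
      have : 0 < |cc ψ| + 1 := by positivity
      field_simp
    calc 2 * w * (L / (2 * Real.pi)) * |cc ψ| ≤ 2 * w * L * |cc ψ| := by gcongr
      _ ≤ 2 * (ε / (8 * (|cc ψ| + 1)) * q) * L * (|cc ψ| + 1) := by
          gcongr
          linarith
      _ = 2 * (ε / (8 * (|cc ψ| + 1)) * (|cc ψ| + 1)) * (q * L) := by ring
      _ = ε / 4 * (q * L) := by rw [h3]; ring
  have e1 : RR (fl ψ) B B L - q / 8 * (L / (2 * Real.pi)) * cc ψ =
      (RR (fl ψ) B B L - RR (fl ψ) P P L) + (RR (fl ψ) P P L - S) +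
      (S - H * L / (2 * Real.pi) * cc ψ) +
      (H * L / (2 * Real.pi) * cc ψ - q / 8 * (L / (2 * Real.pi)) * cc ψ) := by ring
  rw [e1]
  have t1 := abs_add_le ((RR (fl ψ) B B L - RR (fl ψ) P P L) + (RR (fl ψ) P P L - S) +
      (S - H * L / (2 * Real.pi) * cc ψ))
      (H * L / (2 * Real.pi) * cc ψ - q / 8 * (L / (2 * Real.pi)) * cc ψ)
  have t2 := abs_add_le ((RR (fl ψ) B B L - RR (fl ψ) P P L) + (RR (fl ψ) P P L - S))
      (S - H * L / (2 * Real.pi) * cc ψ)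
  have t3 := abs_add_le (RR (fl ψ) B B L - RR (fl ψ) P P L) (RR (fl ψ) P P L - S)
  have hX : 0 < ε * (q * L) := by positivity
  linarith


end Pool.Agent.X83.PC
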