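import Pool.Agent.X83.PC.Lc1

/-! # From blocks to all zeros up to a height, along a filter of heights -/

set_option autoImplicit false

namespace Pool.Agent.X83.PC

open MeasureTheory Set Filter Topology
open scoped NNReal ENNReal
open Pool.Agent.Y749.Rig
open H370 (Zf mult good_zeta mem_Zf NN zset)

/-- a filter of heights along which almost all zeros are on the critical line -/
structure Good (l : Filter ℝ) : Prop where
  le : l ≤ atTop
  off : ∀ η : ℝ, 0 < η → ∀ᶠ T : ℝ in l, NF T ≤ η * (T * Real.log T)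

lemma NF_mono {T T' : ℝ} (h : T ≤ T') : NF T ≤ NF T' := by
  unfold NF
  refine Finset.sum_le_sum_of_subset_of_nonneg ?_ fun s _ _ => mm_nonneg s
  refine Finset.filter_subset_filter _ fun s hs => ?_
  rw [mem_ZZ] at hs ⊢
  exact ⟨hs.1, hs.2.1, hs.2.2.1, hs.2.2.2.1, hs.2.2.2.2.trans h⟩

lemma Good.map {l : Filter ℝ} (h : Good l) : Good (l.map fun T => 8 / 9 * T) := by
  have h89 : Tendsto (fun T : ℝ => 8 / 9 * T) atTop atTop :=
    tendsto_id.const_mul_atTop (by norm_num)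
  refine ⟨(Filter.map_mono h.le).trans h89, fun η hη => ?_⟩
  rw [Filter.eventually_map]
  filter_upwards [h.off (η / 2) (by positivity), h.le (eventually_ge_atTop 20)] with T h1 h2
  have h3 : NF (8 / 9 * T) ≤ NF T := NF_mono (by linarith)
  have h4 : Real.log (8 / 9 * T) = Real.log T - Real.log (9 / 8) := log_ratio (by linarith)
  have h5 := log98.2
  have h6 := one_lt_log (show 3 ≤ T by linarith)
  refine h3.trans (h1.trans ?_)
  rw [h4]
  have h7 : T * Real.log T ≤ 2 * (8 / 9 * T * (Real.log T - Real.log (9 / 8))) := by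
    have h8 : Real.log T ≤ 16 / 9 * (Real.log T - Real.log (9 / 8)) := by linarith
    calc T * Real.log T ≤ T * (16 / 9 * (Real.log T - Real.log (9 / 8))) := by gcongr
      _ = _ := by ring
  calc η / 2 * (T * Real.log T) ≤ η / 2 * (2 * (8 / 9 * T * (Real.log T - Real.log (9 / 8)))) := by
        gcongr
    _ = _ := by ring

lemma iter_l {d : ℝ → ℝ} {M E : ℝ} (hM : ∀ᶠ T in atTop, d T ≤ M)
    (h : ∀ l : Filter ℝ, Good l → ∀ ε : ℝ, 0 < ε → ∀ᶠ T in l,
      d T ≤ 8 / 9 * d (8 / 9 * T) + 8 / 9 * E + ε) {l : Filter ℝ} (hl : Good l) :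
    ∀ ε : ℝ, 0 < ε → ∀ᶠ T in l, d T ≤ 8 * E + ε := by
  intro ε hε
  obtain ⟨K, hK⟩ : ∃ K : ℝ, K = |M - 8 * E| := ⟨_, rfl⟩
  have hK0 : 0 ≤ K := by rw [hK]; exact abs_nonneg _
  have key : ∀ n : ℕ, ∀ l : Filter ℝ, Good l → ∀ᶠ T in l, d T ≤ (8 / 9) ^ n * K + 8 * E + ε / 2 := by
    intro n
    induction n with
    | zero =>
      intro l hl
      filter_upwards [hl.le hM] with T hT
      have := le_abs_self (M - 8 * E)
      rw [← hK] at this
      rw [pow_zero]
      linarith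
    | succ n ih =>
      intro l hl
      have h3' := ih _ hl.map
      rw [Filter.eventually_map] at h3'
      filter_upwards [h l hl (ε / 18) (by positivity), h3'] with T h2 h3
      rw [pow_succ]
      linarith
  obtain ⟨n, hn⟩ := exists_pow_lt_of_lt_one (show 0 < ε / (2 * (K + 1)) by positivity)
    (show (8 / 9 : ℝ) < 1 by norm_num)
  filter_upwards [key n l hl] with T hT
  have h1 : (8 / 9 : ℝ) ^ n * K ≤ ε / 2 := by
    have h2 : (8 / 9 : ℝ) ^ n * K ≤ ε / (2 * (K + 1)) * K := by gcongr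
    have h3 : ε / (2 * (K + 1)) * K ≤ ε / 2 := by
      rw [div_mul_eq_mul_div, div_le_div_iff₀ (by positivity) (by norm_num)]
      nlinarith
    linarith
  linarith

theorem recur_l {ψ : ℝ → ℝ} {κ : ℝ} (h : Adm κ ψ) {c E : ℝ} (hE : 0 ≤ E)
    (hb : ∀ l : Filter ℝ, Good l → ∀ ε : ℝ, 0 < ε → ∀ᶠ T : ℝ in l,
      |RR (fl ψ) (Zf riemannZeta (8 / 9 * T) (9 / 8 * (8 / 9 * T)))
        (Zf riemannZeta (8 / 9 * T) (9 / 8 * (8 / 9 * T))) (Real.log (8 / 9 * T)) -
        (8 / 9 * T) / 8 * (Real.log (8 / 9 * T) / (2 * Real.pi)) * c| ≤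
        (E + ε) * ((8 / 9 * T) * Real.log (8 / 9 * T))) :
    ∀ l : Filter ℝ, Good l → ∀ ε : ℝ, 0 < ε → ∀ᶠ T : ℝ in l,
      |RR (fl ψ) (ZZ T) (ZZ T) (Real.log T) - T * Real.log T / (2 * Real.pi) * c| ≤
        (8 * E + ε) * (T * Real.log T) := by
  classical
  obtain ⟨d, hd⟩ : ∃ d : ℝ → ℝ, ∀ T, d T = |RR (fl ψ) (ZZ T) (ZZ T) (Real.log T) -
      T * Real.log T / (2 * Real.pi) * c| / (T * Real.log T) := ⟨_, fun T => rfl⟩
  obtain ⟨b, hbd⟩ := fl_bound h
  have hb0 : 0 ≤ b := by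
    have := (abs_nonneg _).trans (hbd 0)
    simpa using this
  obtain ⟨C, T0, hC, hT0, hsm⟩ := sm_all
  have hpi := Real.pi_pos
  have hM : ∀ᶠ T in atTop, d T ≤ b * W0 * C + |c| / (2 * Real.pi) := by
    filter_upwards [eventually_ge_atTop T0] with T hT
    have hT10 : 10 ≤ T := hT0.trans hT
    have hL := one_lt_log (show 3 ≤ T by linarith)
    have hTp : 0 < T := by linarith
    have hLp : 0 < Real.log T := by linarith
    rw [hd, div_le_iff₀ (by positivity)]
    have h1 := RR_le (A := ZZ T) (B := ZZ T) hLp (Y₁ := C * T) (Y₂ := C * T) (by positivity)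
      (by positivity) (hsm T hT) (hsm T hT) hb0 hbd
    rw [mul_assoc (Real.log T), Real.mul_self_sqrt (by positivity)] at h1
    refine (abs_sub _ _).trans ?_
    have h2 : |T * Real.log T / (2 * Real.pi) * c| = T * Real.log T * (|c| / (2 * Real.pi)) := by
      rw [abs_mul, abs_of_pos (show 0 < T * Real.log T / (2 * Real.pi) by positivity)]
      ring
    rw [h2]
    linarith
  have hstep : ∀ l : Filter ℝ, Good l → ∀ ε : ℝ, 0 < ε → ∀ᶠ T in l,
      d T ≤ 8 / 9 * d (8 / 9 * T) + 8 / 9 * E + ε := by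
    intro l hl0 ε hε
    obtain ⟨e, he⟩ : ∃ e : ℝ, e = ε / 5 := ⟨_, rfl⟩
    have he0 : 0 < e := by rw [he]; positivity
    have h89 : Tendsto (fun T : ℝ => 8 / 9 * T) atTop atTop :=
      tendsto_id.const_mul_atTop (by norm_num)
    filter_upwards [hl0.le (dil h he0), hl0.le (h89.eventually (cross h he0)), hb l hl0 e he0,
      hl0.le (eventually_ge_atTop 20),
      hl0.le (Real.tendsto_log_atTop.eventually_ge_atTop (|c| / e + 1))] with T h1 h2 h3 hT hLc
    obtain ⟨q, hq⟩ : ∃ q : ℝ, q = 8 / 9 * T := ⟨_, rfl⟩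
    have hTq : T = 9 / 8 * q := by rw [hq]; ring
    have hq17 : 17 ≤ q := by rw [hq]; linarith
    have hqp : 0 < q := by linarith
    have hTp : 0 < T := by linarith
    rw [← hq] at h1 h2 h3 ⊢
    obtain ⟨L, hL⟩ : ∃ L : ℝ, L = Real.log T := ⟨_, rfl⟩
    obtain ⟨L', hL'⟩ : ∃ L' : ℝ, L' = Real.log q := ⟨_, rfl⟩
    obtain ⟨l, hl⟩ : ∃ l : ℝ, l = Real.log (9 / 8) := ⟨_, rfl⟩
    have hl0 : 0 < l := by rw [hl]; exact log98.1
    have hl1 : l ≤ 1 / 8 := by rw [hl]; exact log98.2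
    have hLL : L' = L - l := by
      rw [hL', hL, hl, hq]; exact log_ratio hTp
    have hL'1 : 1 < L' := by rw [hL']; exact one_lt_log (by linarith)
    have hL1 : 1 < L := by linarith
    rw [hd, hd, ← hL, ← hL']
    rw [← hL, ← hL'] at h1
    rw [← hL'] at h2 h3
    rw [← hL] at hLc
    -- decomposition
    have hdec : RR (fl ψ) (ZZ T) (ZZ T) L' = RR (fl ψ) (ZZ q) (ZZ q) L' +
        2 * RR (fl ψ) (ZZ q) (Zf riemannZeta q (9 / 8 * q)) L' +
        RR (fl ψ) (Zf riemannZeta q (9 / 8 * q)) (Zf riemannZeta q (9 / 8 * q)) L' := by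
      rw [ZZ_split (q := q) (T := T) (by linarith) (by linarith), ← hTq]
      exact RR_union (ZZ_disj (by linarith)) fun x => fl_even x
    obtain ⟨R1, hR1⟩ : ∃ R1 : ℝ, R1 = RR (fl ψ) (ZZ T) (ZZ T) L := ⟨_, rfl⟩
    obtain ⟨R2, hR2⟩ : ∃ R2 : ℝ, R2 = RR (fl ψ) (ZZ T) (ZZ T) L' := ⟨_, rfl⟩
    obtain ⟨R3, hR3⟩ : ∃ R3 : ℝ, R3 = RR (fl ψ) (ZZ q) (ZZ q) L' := ⟨_, rfl⟩
    obtain ⟨R4, hR4⟩ : ∃ R4 : ℝ, R4 = RR (fl ψ) (ZZ q) (Zf riemannZeta q (9 / 8 * q)) L' :=
      ⟨_, rfl⟩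
    obtain ⟨R5, hR5⟩ : ∃ R5 : ℝ, R5 = RR (fl ψ) (Zf riemannZeta q (9 / 8 * q))
      (Zf riemannZeta q (9 / 8 * q)) L' := ⟨_, rfl⟩
    rw [← hR1, ← hR2] at h1
    rw [← hR4] at h2
    rw [← hR5] at h3
    rw [← hR2, ← hR3, ← hR4, ← hR5] at hdec
    rw [← hR1, ← hR3]
    have hX : 0 < T * L := by positivity
    have hY : 0 < q * L' := by positivity
    have hYX : q * L' ≤ 8 / 9 * (T * L) := by
      rw [hTq]
      nlinarith
    obtain ⟨D, hD⟩ : ∃ D : ℝ, D = |R3 - q * L' / (2 * Real.pi) * c| := ⟨_, rfl⟩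
    rw [← hD]
    have hD0 : 0 ≤ D := by rw [hD]; exact abs_nonneg _
    have hmain : |R1 - T * L / (2 * Real.pi) * c| ≤ e * (T * L) + D + 2 * (e * (q * L')) +
        (E + e) * (q * L') + e * (T * L) := by
      have e1 : R1 - T * L / (2 * Real.pi) * c = (R1 - R2) + (R3 - q * L' / (2 * Real.pi) * c) +
          2 * R4 + (R5 - q / 8 * (L' / (2 * Real.pi)) * c) - T * l / (2 * Real.pi) * c := by
        rw [hdec, hLL, hTq]; ring
      have e2 : |T * l / (2 * Real.pi) * c| ≤ e * (T * L) := by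
        rw [abs_mul, abs_of_pos (show 0 < T * l / (2 * Real.pi) by positivity)]
        have h5 : |c| / e ≤ L := by linarith
        rw [div_le_iff₀ he0] at h5
        have h6 : T * l / (2 * Real.pi) ≤ T := by
          rw [div_le_iff₀ (by positivity)]
          have := Real.pi_gt_three
          nlinarith
        calc T * l / (2 * Real.pi) * |c| ≤ T * |c| := by gcongr
          _ ≤ T * (L * e) := by gcongr
          _ = _ := by ring
      rw [e1]
      have t1 := abs_add_le ((R1 - R2) + (R3 - q * L' / (2 * Real.pi) * c) +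
          2 * R4 + (R5 - q / 8 * (L' / (2 * Real.pi)) * c)) (-(T * l / (2 * Real.pi) * c))
      have t2 := abs_add_le ((R1 - R2) + (R3 - q * L' / (2 * Real.pi) * c) +
          2 * R4) (R5 - q / 8 * (L' / (2 * Real.pi)) * c)
      have t3 := abs_add_le ((R1 - R2) + (R3 - q * L' / (2 * Real.pi) * c)) (2 * R4)
      have t4 := abs_add_le (R1 - R2) (R3 - q * L' / (2 * Real.pi) * c)
      rw [abs_neg, ← sub_eq_add_neg] at t1
      have t5 : |2 * R4| = 2 * |R4| := by rw [abs_mul, abs_of_pos (by norm_num : (0:ℝ) < 2)]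
      rw [t5] at t3
      rw [← hD] at t4
      linarith
    rw [div_le_iff₀ hX]
    have hD2 : D ≤ 8 / 9 * (D / (q * L')) * (T * L) := by
      have : D = D / (q * L') * (q * L') := by field_simp
      calc D = D / (q * L') * (q * L') := this
        _ ≤ D / (q * L') * (8 / 9 * (T * L)) := by gcongr
        _ = _ := by ring
    have hE2 : (E + e) * (q * L') ≤ (E + e) * (8 / 9 * (T * L)) := by gcongr
    have he2 : e * (q * L') ≤ e * (8 / 9 * (T * L)) := by gcongr
    have hεe : ε = 5 * e := by rw [he]; ring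
    rw [hεe]
    have heX : 0 < e * (T * L) := by positivity
    calc |R1 - T * L / (2 * Real.pi) * c| ≤ _ := hmain
      _ ≤ e * (T * L) + 8 / 9 * (D / (q * L')) * (T * L) + 2 * (e * (8 / 9 * (T * L))) +
          (E + e) * (8 / 9 * (T * L)) + e * (T * L) := by linarith
      _ ≤ _ := by
        have : (8 / 9 * (D / (q * L')) + 8 / 9 * E + 5 * e) * (T * L) =
          8 / 9 * (D / (q * L')) * (T * L) + 8 / 9 * (E * (T * L)) + 5 * (e * (T * L)) := by ring
        rw [this]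
        have : (E + e) * (8 / 9 * (T * L)) = 8 / 9 * (E * (T * L)) + 8 / 9 * (e * (T * L)) := by ring
        rw [this]
        linarith
  intro l hl0 ε hε
  filter_upwards [iter_l hM hstep hl0 ε hε, hl0.le (eventually_ge_atTop 10)] with T hT hT10
  have hL := one_lt_log (show 3 ≤ T by linarith)
  rw [hd, div_le_iff₀ (by positivity)] at hT
  exact hT

/-- the limit at a test function along a good filter -/
theorem test_l : ∃ κ : ℝ, 0 < κ ∧ κ ≤ 1 / 2 ∧ ∀ ψ : ℝ → ℝ, Adm κ ψ → ∀ l : Filter ℝ, Good l →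
    Tendsto (fun T => ∫ x, fl ψ x ∂(Mp T)) l (𝓝 (cc ψ)) := by
  obtain ⟨κ, hκ, hκ2, hblk⟩ := blk_loc
  refine ⟨κ, hκ, hκ2, fun ψ h l hl => ?_⟩
  have hpi := Real.pi_pos
  have h89 : Tendsto (fun T : ℝ => 8 / 9 * T) atTop atTop :=
    tendsto_id.const_mul_atTop (by norm_num)
  have h1 := recur_l h (c := cc ψ) (E := 0) le_rfl (fun l hl ε hε => by
    obtain ⟨η, hη, hq⟩ := hblk ψ h ε hε
    filter_upwards [hl.le (h89.eventually hq), hl.off η hη] with T h2 h3
    rw [zero_add]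
    refine h2 ?_
    have e : 9 / 8 * (8 / 9 * T) = T := by ring
    rw [e]
    exact h3) l hl
  rw [Metric.tendsto_nhds]
  intro ε hε
  filter_upwards [h1 (ε / (4 * Real.pi)) (by positivity), hl.le (eventually_ge_atTop 10)]
    with T hT hT10
  have hn := nT_pos hT10
  rw [Mp_integral hT10, Real.dist_eq]
  have e1 : RR (fl ψ) (ZZ T) (ZZ T) (Real.log T) / nT T - cc ψ =
      (RR (fl ψ) (ZZ T) (ZZ T) (Real.log T) - nT T * cc ψ) / nT T := by
    field_simp
  rw [e1, abs_div, abs_of_pos hn, div_lt_iff₀ hn]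
  have h2 : (8 * 0 + ε / (4 * Real.pi)) * (T * Real.log T) = ε / 2 * nT T := by
    unfold nT; field_simp; ring
  rw [h2] at hT
  refine lt_of_le_of_lt hT ?_
  nlinarith

end Pool.Agent.X83.PC
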