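import Pool.Agent.X83.PC.Diag6

/-! # Simple zeros, pairs of equal ordinates and the mean of the pair counts -/

set_option autoImplicit false

namespace Pool.Agent.X83.PC

open MeasureTheory Set Filter Topology
open H370 (mult good_zeta zset)
open Pool.Agent.Y749.Rig

lemma partner {T : ℝ} {s : ℂ} (hs : s ∈ ZZ T) (h1 : 1 ≤ s.im) (hne : s.re ≠ 1 / 2) :
    ∃ s' ∈ ZZ T, s' ≠ s ∧ s'.im = s.im ∧ mm s' = mm s := by
  have hz := mem_ZZ.1 hs
  obtain ⟨s', hs'⟩ : ∃ s' : ℂ, s' = 1 - (starRingEnd ℂ) s := ⟨_, rfl⟩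
  have him : s'.im = s.im := by rw [hs']; simp
  have hre : s'.re = 1 - s.re := by rw [hs']; simp
  have hmult : mult riemannZeta s' = mult riemannZeta s := by
    rw [hs']; exact H370.mult_refl good_zeta hz.2.1 hz.2.2.1 h1
  have h3 : 1 ≤ mult riemannZeta s' := by
    rw [hmult]; exact H370.Loc.mult_pos' good_zeta (zs_im_pos hz) hz.1
  have h4 : riemannZeta s' = 0 := by
    by_contra hcon
    have h5 : analyticOrderNatAt riemannZeta s' = 0 := by
      have h6 : analyticOrderAt riemannZeta s' = 0 := by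
        by_cases ha : AnalyticAt ℂ riemannZeta s'
        · exact (ha.analyticOrderAt_eq_zero).2 hcon
        · exact analyticOrderAt_of_not_analyticAt ha
      unfold analyticOrderNatAt
      rw [h6]; rfl
    unfold mult at h3
    omega
  refine ⟨s', ?_, ?_, him, ?_⟩
  · rw [mem_ZZ]
    exact ⟨h4, by rw [hre]; linarith [hz.2.2.1], by rw [hre]; linarith [hz.2.1],
      by rw [him]; exact hz.2.2.2.1, by rw [him]; exact hz.2.2.2.2⟩
  · intro hcon
    apply hne
    have : s.re = 1 - s.re := by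
      conv_lhs => rw [← hcon]
      exact hre
    linarith
  · unfold mm; rw [hmult]

/-- the number of simple zeros on the line from below -/
lemma simple_low : ∃ K2 : ℝ, 0 ≤ K2 ∧ ∀ T : ℝ, 2 * (∑ s ∈ ZZ T, mm s) - K2 ≤
    (DS 0 T : ℝ) + (H370.Ns riemannZeta 0 T : ℝ) := by
  classical
  refine ⟨∑ s ∈ ZZ 1, 2 * mm s, Finset.sum_nonneg fun s _ => by
    have := mm_nonneg s; positivity, fun T => ?_⟩
  have h1 : ∀ s ∈ ZZ T, 2 * mm s - (if s.im ≤ 1 then 2 * mm s else 0) ≤
      (∑ s' ∈ ZZ T, mm s * mm s' * (if s.im = s'.im then 1 else 0)) +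
      (if s.re = 1 / 2 ∧ mult riemannZeta s = 1 then 1 else 0) := by
    intro s hs
    have hz := mem_ZZ.1 hs
    have h1s := one_le_mm hs
    have hnn : ∀ s' ∈ ZZ T, 0 ≤ mm s * mm s' * (if s.im = s'.im then (1 : ℝ) else 0) :=
      fun s' _ => mul_nonneg (mul_nonneg (mm_nonneg _) (mm_nonneg _)) (by split_ifs <;> norm_num)
    have h5 := Finset.single_le_sum hnn hs
    rw [if_pos rfl] at h5
    have h6 : (0 : ℝ) ≤ (if s.re = 1 / 2 ∧ mult riemannZeta s = 1 then 1 else 0) := by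
      split_ifs <;> norm_num
    by_cases c : s.im ≤ 1
    · rw [if_pos c]
      nlinarith
    · rw [if_neg c, sub_zero]
      have hmcast : mm s = (mult riemannZeta s : ℝ) := rfl
      rcases Nat.lt_or_ge (mult riemannZeta s) 2 with g | g
      · have g1 : mult riemannZeta s = 1 := by
          have : (1 : ℝ) ≤ (mult riemannZeta s : ℝ) := by rw [← hmcast]; exact h1s
          have : 1 ≤ mult riemannZeta s := by exact_mod_cast this
          omega
        have g2 : mm s = 1 := by rw [hmcast, g1]; norm_num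
        by_cases r : s.re = 1 / 2
        · rw [if_pos ⟨r, g1⟩]
          rw [g2] at h5 ⊢
          linarith
        · obtain ⟨s', hs', hne, him, hmm⟩ := partner hs (by linarith) r
          have h7 : ∑ t ∈ ({s, s'} : Finset ℂ), mm s * mm t * (if s.im = t.im then (1 : ℝ) else 0) ≤
              ∑ s' ∈ ZZ T, mm s * mm s' * (if s.im = s'.im then 1 else 0) := by
            refine Finset.sum_le_sum_of_subset_of_nonneg ?_ fun t ht _ => hnn t ht
            intro t ht
            rw [Finset.mem_insert, Finset.mem_singleton] at ht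
            rcases ht with ht | ht
            · rw [ht]; exact hs
            · rw [ht]; exact hs'
          rw [Finset.sum_pair hne.symm, if_pos rfl, if_pos him.symm, hmm, g2] at h7
          rw [g2]
          linarith
      · have g2 : (2 : ℝ) ≤ mm s := by rw [hmcast]; exact_mod_cast g
        nlinarith
  have h2 := Finset.sum_le_sum h1
  rw [Finset.sum_add_distrib, ← DS_sum, Finset.sum_sub_distrib, ← Finset.mul_sum] at h2
  have e2 : ∑ s ∈ ZZ T, (if s.im ≤ 1 then 2 * mm s else 0) ≤ ∑ s ∈ ZZ 1, 2 * mm s := by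
    rw [← Finset.sum_filter]
    refine Finset.sum_le_sum_of_subset_of_nonneg ?_ fun s _ _ => by
      have := mm_nonneg s; positivity
    intro s hs
    rw [Finset.mem_filter, mem_ZZ] at hs
    rw [mem_ZZ]
    exact ⟨hs.1.1, hs.1.2.1, hs.1.2.2.1, hs.1.2.2.2.1, hs.2⟩
  have e3 : ∑ s ∈ ZZ T, (if s.re = 1 / 2 ∧ mult riemannZeta s = 1 then (1 : ℝ) else 0) =
      (H370.Ns riemannZeta 0 T : ℝ) := by
    rw [Finset.sum_boole]
    unfold H370.Ns
    rw [← Set.ncard_coe_finset]
    congr 2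
    ext s
    rw [Finset.mem_coe, Finset.mem_filter, mem_ZZ]
    constructor
    · rintro ⟨h, h7, h8⟩
      exact ⟨⟨h.2.1, h.2.2.1, zs_im_pos h, h.2.2.2.2, h.1⟩, h7, h8⟩
    · rintro ⟨⟨h3, h4, h5, h6, h7⟩, h8, h9⟩
      exact ⟨⟨h7, h3, h4, h5.le, h6⟩, h8, h9⟩
  rw [e3] at h2
  linarith

/-- the mean of the pair counts on an interval of distances, two-sided -/
theorem mean_both : ∃ C T0 : ℝ, 1 ≤ C ∧ 100 ≤ T0 ∧ ∀ T : ℝ, T0 ≤ T → ∀ p q : ℝ, 0 ≤ p → p < q →
    q ^ 2 ≤ Real.log T →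
    |(q - p) * (DS 0 T : ℝ) + 2 * (∫ x in p..q, (Nstar T x : ℝ)) - (q ^ 2 - p ^ 2) * nT T| ≤
      (Real.log (1 + q) / Real.pi ^ 2 + C) * nT T := by
  obtain ⟨C, T0, hC, hT0, hm⟩ := mean_int
  refine ⟨2 * C, T0, by linarith, hT0, fun T hT p q hp hpq hq => ?_⟩
  have hT1 : 1 ≤ T := by linarith
  have hn : 0 < nT T := nT_pos (by linarith)
  have hq0 : 0 < q := hp.trans_lt hpq
  obtain ⟨h1, h2⟩ := hm T hT q hq0 hq
  have hl : 0 ≤ Real.log (1 + q) / Real.pi ^ 2 := by
    have : 0 ≤ Real.log (1 + q) := Real.log_nonneg (by linarith)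
    positivity
  rcases hp.eq_or_lt with h0 | h0
  · rw [← h0, abs_le]
    simp only [sub_zero]
    have e1 : (q ^ 2 - 0 ^ 2) * nT T = q ^ 2 * nT T := by ring
    rw [e1]
    have : 0 ≤ Real.log (1 + q) / Real.pi ^ 2 * nT T := by positivity
    have : 0 ≤ C * nT T := by positivity
    constructor <;> nlinarith
  · obtain ⟨h3, h4⟩ := hm T hT p h0 (by nlinarith)
    have h5 := intervalIntegral.integral_add_adjacent_intervals (Nstar_ii T hT1 0 p)
      (Nstar_ii T hT1 p q)
    have hlp : Real.log (1 + p) / Real.pi ^ 2 ≤ Real.log (1 + q) / Real.pi ^ 2 := by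
      have : Real.log (1 + p) ≤ Real.log (1 + q) := Real.log_le_log (by linarith) (by linarith)
      gcongr
    have h6 := mul_le_mul_of_nonneg_right hlp hn.le
    rw [abs_le]
    constructor <;> nlinarith

/-- the number of simple zeros in terms of the pair counts at distances in `[p, q]` -/
theorem simple_pairs : ∃ C : ℝ, 1 ≤ C ∧ ∀ p q : ℝ, 0 ≤ p → p < q → ∀ᶠ T : ℝ in atTop,
    nT T * (2 - (p + q) - (Real.log (1 + q) / Real.pi ^ 2 + C) / (q - p)) +
      2 / (q - p) * (∫ x in p..q, (Nstar T x : ℝ)) ≤ (H370.Ns riemannZeta 0 T : ℝ) := by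
  obtain ⟨C, T0, hC, hT0, hm⟩ := mean_both
  obtain ⟨K2, hK2, hs⟩ := simple_low
  refine ⟨C + 1, by linarith, fun p q hp hpq => ?_⟩
  have hqp : 0 < q - p := by linarith
  obtain ⟨e, he⟩ : ∃ e : ℝ, e = 1 / (3 * (q - p)) := ⟨_, rfl⟩
  have he0 : 0 < e := by rw [he]; positivity
  have hlim : Tendsto (fun T : ℝ => e * nT T) atTop atTop := by
    have h1 : Tendsto (fun T : ℝ => T * Real.log T) atTop atTop :=
      tendsto_id.atTop_mul_atTop₀ Real.tendsto_log_atTop
    have h2 : (fun T : ℝ => e * nT T) = fun T => e / (2 * Real.pi) * (T * Real.log T) := by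
      funext T
      unfold nT
      ring
    rw [h2]
    have := Real.pi_pos
    exact h1.const_mul_atTop (by positivity)
  filter_upwards [N_low he0, hlim.eventually_ge_atTop K2, eventually_ge_atTop T0,
    Real.tendsto_log_atTop.eventually_ge_atTop (q ^ 2)] with T h1 h2 h3 h4
  have hn : 0 < nT T := nT_pos (by linarith)
  have h5 := (abs_le.1 (hm T h3 p q hp hpq h4)).2
  have h6 := hs T
  obtain ⟨I, hI⟩ : ∃ I : ℝ, I = ∫ x in p..q, (Nstar T x : ℝ) := ⟨_, rfl⟩
  rw [← hI] at h5 ⊢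
  obtain ⟨E, hE⟩ : ∃ E : ℝ, E = Real.log (1 + q) / Real.pi ^ 2 + C := ⟨_, rfl⟩
  rw [← hE] at h5
  have hE' : Real.log (1 + q) / Real.pi ^ 2 + (C + 1) = E + 1 := by rw [hE]; ring
  rw [hE']
  have h7 : (DS 0 T : ℝ) ≤ ((q ^ 2 - p ^ 2) * nT T + E * nT T - 2 * I) / (q - p) := by
    rw [le_div_iff₀ hqp]; linarith
  have h8 : ((q ^ 2 - p ^ 2) * nT T + E * nT T - 2 * I) / (q - p) =
      (q + p) * nT T + E / (q - p) * nT T - 2 / (q - p) * I := by
    field_simp
    ring
  rw [h8] at h7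
  have h9 : nT T * (2 - (p + q) - (E + 1) / (q - p)) =
      2 * nT T - (q + p) * nT T - E / (q - p) * nT T - 3 * (e * nT T) := by
    rw [he]
    field_simp
    ring
  rw [h9]
  linarith

/-- the second moment of the multiplicities and the mean of the pair counts -/
theorem diag_iff : Tendsto (fun T => (DS 0 T : ℝ) / nT T) atTop (𝓝 1) ↔
    ∀ ε : ℝ, 0 < ε → ∃ A : ℝ, ∀ a : ℝ, A ≤ a → ∀ᶠ T : ℝ in atTop,
      |1 / a * (∫ x in (0:ℝ)..a, (Nstar T x : ℝ)) / nT T - (a - 1) / 2| ≤ ε := by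
  obtain ⟨C, T0, hC, hT0, hm⟩ := mean_both
  have hdl := log_lim C
  -- the main estimate
  have key : ∀ ε : ℝ, 0 < ε → ∃ A : ℝ, 1 ≤ A ∧ ∀ a : ℝ, A ≤ a → ∀ᶠ T : ℝ in atTop,
      |(DS 0 T : ℝ) / nT T - 1 +
        2 * (1 / a * (∫ x in (0:ℝ)..a, (Nstar T x : ℝ)) / nT T - (a - 1) / 2)| ≤ ε := by
    intro ε hε
    obtain ⟨A, hA⟩ := (hdl.eventually (ge_mem_nhds hε)).exists_forall_of_atTop
    refine ⟨max A 1, le_max_right _ _, fun a ha => ?_⟩
    have ha1 : 1 ≤ a := (le_max_right _ _).trans ha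
    have hap : 0 < a := by linarith
    have h1 := hA a ((le_max_left _ _).trans ha)
    filter_upwards [eventually_ge_atTop T0,
      Real.tendsto_log_atTop.eventually_ge_atTop (a ^ 2)] with T h3 h4
    have hn : 0 < nT T := nT_pos (by linarith)
    have h5 := hm T h3 0 a le_rfl hap h4
    obtain ⟨I, hI⟩ : ∃ I : ℝ, I = ∫ x in (0:ℝ)..a, (Nstar T x : ℝ) := ⟨_, rfl⟩
    rw [← hI] at h5 ⊢
    have e1 : (DS 0 T : ℝ) / nT T - 1 + 2 * (1 / a * I / nT T - (a - 1) / 2) =
        ((a - 0) * (DS 0 T : ℝ) + 2 * I - (a ^ 2 - 0 ^ 2) * nT T) / (a * nT T) := by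
      field_simp
      ring
    rw [e1, abs_div, abs_of_pos (show 0 < a * nT T by positivity), div_le_iff₀ (by positivity)]
    refine h5.trans ?_
    have e2 : ε * (a * nT T) = (ε * a) * nT T := by ring
    rw [e2]
    apply mul_le_mul_of_nonneg_right _ hn.le
    rwa [div_le_iff₀ hap] at h1
  constructor
  · intro h ε hε
    obtain ⟨A, hA1, hA⟩ := key ε hε
    refine ⟨A, fun a ha => ?_⟩
    filter_upwards [hA a ha, Metric.tendsto_nhds.1 h ε hε] with T h1 h2
    rw [Real.dist_eq] at h2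
    rw [abs_le] at h1 ⊢
    rw [abs_lt] at h2
    constructor <;> linarith [h1.1, h1.2, h2.1, h2.2]
  · intro h
    rw [Metric.tendsto_nhds]
    intro ε hε
    obtain ⟨A, hA1, hA⟩ := key (ε / 4) (by positivity)
    obtain ⟨B, hB⟩ := h (ε / 4) (by positivity)
    filter_upwards [hA (max A B) (le_max_left _ _), hB (max A B) (le_max_right _ _)] with T h1 h2
    rw [Real.dist_eq]
    rw [abs_le] at h1 h2
    rw [abs_lt]
    constructor <;> linarith [h1.1, h1.2, h2.1, h2.2]

/-- if the second moment of the multiplicities is as small as possible then almost all zeros are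
simple and on the line -/
theorem simple_of_diag (h : Tendsto (fun T => (DS 0 T : ℝ) / nT T) atTop (𝓝 1)) :
    Tendsto (fun T => (H370.Ns riemannZeta 0 T : ℝ) / nT T) atTop (𝓝 1) := by
  obtain ⟨K2, hK2, hs⟩ := simple_low
  rw [Metric.tendsto_nhds]
  intro ε hε
  have hlim : Tendsto (fun T : ℝ => ε / 8 * nT T) atTop atTop := by
    have h1 : Tendsto (fun T : ℝ => T * Real.log T) atTop atTop :=
      tendsto_id.atTop_mul_atTop₀ Real.tendsto_log_atTop
    have h2 : (fun T : ℝ => ε / 8 * nT T) = fun T => ε / 8 / (2 * Real.pi) * (T * Real.log T) := by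
      funext T
      unfold nT
      ring
    rw [h2]
    have := Real.pi_pos
    exact h1.const_mul_atTop (by positivity)
  obtain ⟨T1, hT1, hN⟩ := Pool.Agent.W54.TCF.NT_asymp' (ε / 2) (by positivity)
  filter_upwards [N_low (show 0 < ε / 8 by positivity), hlim.eventually_ge_atTop K2,
    eventually_ge_atTop 10, eventually_ge_atTop T1,
    Metric.tendsto_nhds.1 h (ε / 8) (by positivity)] with T h1 h2 h3 h3' h4
  have hn : 0 < nT T := nT_pos h3
  have h5 := hs T
  rw [Real.dist_eq, abs_lt] at h4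
  have h6 : (DS 0 T : ℝ) < (1 + ε / 8) * nT T := by
    rw [← div_lt_iff₀ hn]; linarith
  have h7 : (H370.Ns riemannZeta 0 T : ℝ) ≤ (H370.NN riemannZeta 0 T : ℝ) := by
    have e : ∑ s ∈ ZZ T, mm s = (H370.NN riemannZeta 0 T : ℝ) := by
      rw [ZZ_eq, ← Pool.Agent.Y744.sum_Zt]
      rfl
    rw [← e]
    classical
    have e3 : (H370.Ns riemannZeta 0 T : ℝ) =
        ∑ s ∈ ZZ T, (if s.re = 1 / 2 ∧ mult riemannZeta s = 1 then (1 : ℝ) else 0) := by
      rw [Finset.sum_boole]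
      unfold H370.Ns
      rw [← Set.ncard_coe_finset]
      congr 2
      ext s
      rw [Finset.mem_coe, Finset.mem_filter, mem_ZZ]
      constructor
      · rintro ⟨⟨h3, h4, h5, h6, h7⟩, h8, h9⟩
        exact ⟨⟨h7, h3, h4, h5.le, h6⟩, h8, h9⟩
      · rintro ⟨h, h7, h8⟩
        exact ⟨⟨h.2.1, h.2.2.1, zs_im_pos h, h.2.2.2.2, h.1⟩, h7, h8⟩
    rw [e3]
    refine Finset.sum_le_sum fun s hs => ?_
    have := one_le_mm hs
    split_ifs <;> linarith
  have h8 := (hN T h3').2
  have h9 : (1 + ε / 2) * (T / (2 * Real.pi) * Real.log T) = (1 + ε / 2) * nT T := by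
    unfold nT; ring
  rw [h9] at h8
  have g1 : (1 - ε / 2) * nT T ≤ (H370.Ns riemannZeta 0 T : ℝ) := by linarith
  have g2 : (H370.Ns riemannZeta 0 T : ℝ) ≤ (1 + ε / 2) * nT T := h7.trans h8
  rw [Real.dist_eq, abs_lt]
  constructor
  · have : 1 - ε < (H370.Ns riemannZeta 0 T : ℝ) / nT T := by
      rw [lt_div_iff₀ hn]; nlinarith
    linarith
  · have : (H370.Ns riemannZeta 0 T : ℝ) / nT T < 1 + ε := by
      rw [div_lt_iff₀ hn]; nlinarith
    linarith

end Pool.Agent.X83.PC
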