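import Pool.Agent.X83.PC.Lc2
import Pool.Agent.X83.PC.Simp

/-! # Lower bounds along a filter of heights -/

set_option autoImplicit false

namespace Pool.Agent.X83.PC

open MeasureTheory Set Filter Topology
open Pool.Agent.Y749.Rig

/-- lower bounds on long intervals: the sum over equal ordinates -/
theorem diag_l {l : Filter ℝ} (hl : l ≤ atTop) (HL : ∀ ε : ℝ, 0 < ε → ∃ p q : ℝ, 0 < p ∧ p < q ∧
    Real.log (1 + q) + 1 ≤ ε * (q - p) ∧ ∀ x : ℝ, p < x → x < q → ∀ᶠ T : ℝ in l,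
      (x - 1 / 2 - ε) * nT T ≤ (Nstar T x : ℝ)) {ε : ℝ} (hε : 0 < ε) :
    ∀ᶠ T : ℝ in l, (DS 0 T : ℝ) ≤ (1 + ε) * nT T := by
  obtain ⟨C, T0, hC, hT0, hm⟩ := mean_diff
  have hpi3 := Real.pi_gt_three
  obtain ⟨e, he⟩ : ∃ e : ℝ, e = ε / (4 + 2 * C) := ⟨_, rfl⟩
  have he0 : 0 < e := by rw [he]; positivity
  obtain ⟨p, q, hp, hpq, hlog, hx⟩ := HL e he0
  have hqp : 0 < q - p := by linarith
  obtain ⟨K, hK0, hK⟩ : ∃ K : ℕ, 0 < K ∧ 2 * q * (q - p) / K ≤ e * (q - p) := by
    have h1 : Tendsto (fun K : ℕ => 2 * q * (q - p) / (K : ℝ)) atTop (𝓝 0) :=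
      tendsto_const_div_atTop_nhds_zero_nat _
    exact ((eventually_gt_atTop 0).and (h1.eventually
      (ge_mem_nhds (show 0 < e * (q - p) by positivity)))).exists
  have hKr : (0 : ℝ) < K := by exact_mod_cast hK0
  have hall : ∀ᶠ T : ℝ in l, ∀ k ∈ Finset.range K, 1 ≤ k →
      (p + k * (q - p) / K - 1 / 2 - e) * nT T ≤ (Nstar T (p + k * (q - p) / K) : ℝ) := by
    rw [Filter.eventually_all_finset]
    intro k hk
    by_cases g : 1 ≤ k
    · have k1 : (1 : ℝ) ≤ k := by exact_mod_cast g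
      have k2 : (k : ℝ) < K := by exact_mod_cast Finset.mem_range.1 hk
      have k3 : (k : ℝ) * (q - p) / K < q - p := by
        rw [div_lt_iff₀ hKr]
        nlinarith
      have k4 : 0 < (k : ℝ) * (q - p) / K := by positivity
      filter_upwards [hx (p + k * (q - p) / K) (by linarith) (by linarith)] with T hT _ using hT
    · exact Eventually.of_forall fun T hcon => absurd hcon g
  filter_upwards [hall, hl (eventually_ge_atTop T0),
    hl (Real.tendsto_log_atTop.eventually_ge_atTop (q ^ 2))] with T h1 h2 h3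
  have hn : 0 < nT T := nT_pos (by linarith)
  have h4 := hm T h2 p q hp hpq h3
  have h5 := int_low (by linarith) hp hpq he0.le hK0 h1
  have h6 : nT T * ((q ^ 2 - p ^ 2) / 2 - (1 / 2 + e) * (q - p) - e * (q - p)) ≤
      ∫ x in p..q, (Nstar T x : ℝ) :=
    (mul_le_mul_of_nonneg_left (by linarith) hn.le).trans h5
  have hl0 : 0 ≤ Real.log (1 + q) := Real.log_nonneg (by linarith)
  have h7 : Real.log (1 + q) / Real.pi ^ 2 ≤ Real.log (1 + q) := by
    apply div_le_self hl0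
    nlinarith
  have h8 : Real.log (1 + q) / Real.pi ^ 2 + C ≤ C * (e * (q - p)) := by
    nlinarith
  have h9 : (q - p) * (DS 0 T : ℝ) ≤ (q - p) * ((1 + ε) * nT T) := by
    have h10 : nT T * (q ^ 2 - p ^ 2 + Real.log (1 + q) / Real.pi ^ 2 + C) ≤
        nT T * (q ^ 2 - p ^ 2 + C * (e * (q - p))) :=
      mul_le_mul_of_nonneg_left (by linarith) hn.le
    have h11 : (q - p) * (DS 0 T : ℝ) ≤ nT T * (q ^ 2 - p ^ 2 + C * (e * (q - p))) -
        2 * (nT T * ((q ^ 2 - p ^ 2) / 2 - (1 / 2 + e) * (q - p) - e * (q - p))) := by linarith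
    have h12 : nT T * (q ^ 2 - p ^ 2 + C * (e * (q - p))) -
        2 * (nT T * ((q ^ 2 - p ^ 2) / 2 - (1 / 2 + e) * (q - p) - e * (q - p))) =
        (q - p) * ((1 + (4 + C) * e) * nT T) := by ring
    rw [h12] at h11
    refine h11.trans ?_
    apply mul_le_mul_of_nonneg_left _ hqp.le
    apply mul_le_mul_of_nonneg_right _ hn.le
    have : (4 + 2 * C) * e = ε := by rw [he]; field_simp
    nlinarith
  exact le_of_mul_le_mul_left h9 hqp

/-- the sum over equal ordinates and the zeros off the line -/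
theorem good_of_diag {l : Filter ℝ} (hl : l ≤ atTop)
    (H : ∀ ε : ℝ, 0 < ε → ∀ᶠ T : ℝ in l, (DS 0 T : ℝ) ≤ (1 + ε) * nT T) : Good l := by
  refine ⟨hl, ?_⟩
  show ∀ η : ℝ, 0 < η → ∀ᶠ T : ℝ in l, NF T ≤ η * (T * Real.log T)
  intro η hη
  obtain ⟨K2, hK2, hlow⟩ := DS_low
  have hlim : Tendsto (fun T : ℝ => η * nT T) atTop atTop := by
    have h1 : Tendsto (fun T : ℝ => T * Real.log T) atTop atTop :=
      tendsto_id.atTop_mul_atTop₀ Real.tendsto_log_atTop
    have h2 : (fun T : ℝ => η * nT T) = fun T => η / (2 * Real.pi) * (T * Real.log T) := by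
      funext T
      unfold nT
      ring
    rw [h2]
    exact h1.const_mul_atTop (by positivity)
  filter_upwards [H η hη, hl (N_low hη), hl (hlim.eventually_ge_atTop K2),
    hl (eventually_ge_atTop 10)]
    with T h1 h2 h3 h4
  have h5 := hlow T
  have h6 : NF T ≤ 6 * (η * nT T) := by
    have : 0 < η * nT T := mul_pos hη (nT_pos h4)
    linarith
  refine h6.trans ?_
  have h7 : η * (T * Real.log T) = 2 * Real.pi * (η * nT T) := by
    unfold nT; field_simp
  rw [h7]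
  have := Real.pi_gt_three
  have hn : 0 < η * nT T := mul_pos hη (nT_pos h4)
  nlinarith


/-- lower bounds on the intervals, along a filter -/
def LowL (l : Filter ℝ) (a b : ℕ → ℝ) (C c : ℝ) : Prop := ∀ n : ℕ, ∀ x ∈ Ioo (a n) (b n),
  ∀ ε : ℝ, 0 < ε → ∀ᶠ T : ℝ in l,
  ((∫ u in (0:ℝ)..x, FF u) - C * Real.exp (-(c * (b n - a n))) - ε) * nT T ≤ (Nstar T x : ℝ)

theorem lowL_diag {l : Filter ℝ} (hl : l ≤ atTop) {a b : ℕ → ℝ} (hab : Sparse a b) {C c : ℝ}
    (hc : 0 < c) (hL : LowL l a b C c) {ε : ℝ} (hε : 0 < ε) :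
    ∀ᶠ T : ℝ in l, (DS 0 T : ℝ) ≤ (1 + ε) * nT T := by
  refine diag_l hl ?_ hε
  intro e he
  have h1 : Tendsto (fun a : ℝ => C * Real.exp (-(c * a))) atTop (𝓝 0) := by
    have h2 : Tendsto (fun a : ℝ => c * a) atTop atTop := tendsto_id.const_mul_atTop hc
    have h3 := (Real.tendsto_exp_neg_atTop_nhds_zero.comp h2).const_mul C
    rw [mul_zero] at h3
    exact h3
  obtain ⟨L, hL1, hL2⟩ := ((eventually_gt_atTop (0:ℝ)).and
    (((h1.eventually (ge_mem_nhds (show 0 < e / 2 by positivity))).and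
      (log_sqrt_lim he)).exists_forall_of_atTop.choose_spec |> fun h => eventually_atTop.2
        ⟨_, fun b hb => fun c hc => h c (hb.trans hc)⟩)).exists
  obtain ⟨n, hn1, hn2⟩ := hab.long hL1
  have ha := hab.pos n
  have hlt := hab.lt n
  have g1 := (hL2 (b n - a n) hn1).1
  have g2 := (hL2 (b n) (by linarith)).2
  refine ⟨a n, b n, ha, hlt, ?_, fun x hx1 hx2 => ?_⟩
  · refine g2.trans ?_
    exact mul_le_mul_of_nonneg_left hn2 he.le
  · filter_upwards [hL n x ⟨hx1, hx2⟩ (e / 2) (by positivity), hl (eventually_ge_atTop 10)]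
      with T h4 h5
    refine le_trans (mul_le_mul_of_nonneg_right ?_ (nT_pos h5).le) h4
    have h6 := FF_int_lower (b := x) (by linarith)
    linarith

/-- the limit along an ultrafilter of heights -/
theorem lowL_lim {U : Ultrafilter ℝ} (hU : (U : Filter ℝ) ≤ atTop) {a b : ℕ → ℝ}
    (hab : Sparse a b) {C c : ℝ} (hc : 0 < c) (hL : LowL U a b C c) {x : ℝ} (hx : 0 < x) :
    Tendsto (fun T => (Mp T).real (Icc (-x) x)) U (𝓝 (1 + 2 * ∫ u in (0:ℝ)..x, FF u)) := by
  have hg : Good U := good_of_diag hU fun ε hε => lowL_diag hU hab hc hL hε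
  obtain ⟨κ, hκ, hκ2, htest⟩ := test_l
  obtain ⟨C0, hC0, hB⟩ := Mp_bdd
  obtain ⟨μ, hsf, hμ⟩ := exists_limit (by linarith : 0 ≤ C0) hB U hU
  refine cum_end hC0 hB hU hμ ?_ hx
  have hsfG := mG_sf
  have b1 : Bdd (4 * C0) μ := bdd_limit hU (by linarith) hB hμ
  have b2 : Bdd (4 * C0) mG := fun a => (mG_bdd a).trans (ENNReal.ofReal_le_ofReal (by linarith))
  have hCC : ∀ y : ℝ, C * Real.exp y ≤ |C| * Real.exp y := fun y =>
    mul_le_mul_of_nonneg_right (le_abs_self C) (Real.exp_pos _).le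
  have ht : ∀ ψ, Adm κ ψ → ∫ x, fl ψ x ∂μ = ∫ x, fl ψ x ∂mG := by
    intro ψ hψ
    rw [mG_test hψ (by linarith)]
    exact tendsto_nhds_unique (hμ _ (fl_cont hψ.int) (fl_qd hψ)).2 (htest ψ hψ U hg)
  refine cum_sparse (by linarith) b1 b2 hκ ht
    hab.pos hab.lt hab.dis hab.div (s := fun _ => -1) (fun _ => Or.inr rfl) (C' := 2 * |C|)
    (by positivity) hc ?_
  intro n
  filter_upwards [sy_ae μ b1, sy_ae mG b2] with x hx1 hx2 hxm
  have hx0 : 0 < x := (hab.pos n).trans hxm.1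
  have h1 := lim_lower (C := C0) (U := U) (μ := μ) (M := Mp) (by linarith) hB hU hμ (α := -x)
    (β := x) (K := (1 + 2 * ∫ u in (0:ℝ)..x, FF u) - 2 * |C| * Real.exp (-(c * (b n - a n))))
    fun ε hε => by
      filter_upwards [hL n x hxm (ε / 4) (by positivity),
        hU (Mp_zero (show 0 < ε / 4 by positivity)), hU (Nstar_eq x),
        hU (eventually_ge_atTop 10)] with T h1 h2 h3 h4
      have hn := nT_pos h4
      rw [Mp_split h4 hx0.le]
      rw [h3, mul_comm (nT T)] at h1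
      have h5 := le_of_mul_le_mul_right h1 hn
      have := hCC (-(c * (b n - a n)))
      linarith
  have h3 := sy_le_icc b2 x
  rw [mG_sym hx0.le] at h3
  show -1 * (sy μ x - sy mG x) ≤ 2 * |C| * Real.exp (-(c * (b n - a n)))
  linarith

/-- the counting function along an ultrafilter of heights -/
theorem lowL_star {U : Ultrafilter ℝ} (hU : (U : Filter ℝ) ≤ atTop) {a b : ℕ → ℝ}
    (hab : Sparse a b) {C c : ℝ} (hc : 0 < c) (hL : LowL U a b C c) {x : ℝ} (hx : 0 < x) :
    Tendsto (fun T => (Nstar T x : ℝ) / nT T) U (𝓝 (∫ u in (0:ℝ)..x, FF u)) := by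
  obtain ⟨C0, hC0, hB⟩ := Mp_bdd
  have hz : Tendsto (fun T => (Mp T).real {0}) U (𝓝 1) := by
    rw [Metric.tendsto_nhds]
    intro ε hε
    have h1 := lowL_lim hU hab hc hL (x := ε / 4) (by positivity)
    have h2 := FF_int_lip (a := 0) (b := ε / 4) (by positivity)
    rw [intervalIntegral.integral_same] at h2
    filter_upwards [h1.eventually (eventually_lt_nhds (show 1 + 2 * (∫ u in (0:ℝ)..(ε / 4), FF u) <
      1 + ε by linarith)), hU (Mp_zero (show 0 < ε / 2 by positivity)), hU hB] with T g1 g2 g3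
    rw [Real.dist_eq, abs_lt]
    have g4 : (Mp T).real {0} ≤ (Mp T).real (Icc (-(ε / 4)) (ε / 4)) := by
      refine measureReal_mono ?_ (g3.lt_top _ _).ne
      intro x hx
      rw [mem_singleton_iff] at hx
      rw [hx]
      exact ⟨by linarith, by linarith⟩
    constructor <;> linarith
  have h1 := ((lowL_lim hU hab hc hL hx).sub hz).div_const 2
  have e : (1 + 2 * (∫ u in (0:ℝ)..x, FF u) - 1) / 2 = ∫ u in (0:ℝ)..x, FF u := by ring
  rw [e] at h1
  refine h1.congr' ?_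
  filter_upwards [hU (Nstar_eq x), hU (eventually_ge_atTop 10)] with T h2 h3
  have hn := nT_pos h3
  rw [Mp_split h3 hx.le, h2]
  field_simp
  ring

end Pool.Agent.X83.PC
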