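import Pool.Agent.X83.PC.Lc3

/-! # Lower bounds at one height and finitely many intervals of distances -/

set_option autoImplicit false

namespace Pool.Agent.X83.PC

open MeasureTheory Set Filter Topology
open Pool.Agent.Y749.Rig

/-- lower bounds at one height, for finitely many intervals -/
def LowAt (a b : ℕ → ℝ) (C c : ℝ) (N : ℕ) (δ T : ℝ) : Prop := ∀ n : ℕ, n < N →
  ∀ x ∈ Ioo (a n) (b n),
  ((∫ u in (0:ℝ)..x, FF u) - C * Real.exp (-(c * (b n - a n))) - δ) * nT T ≤ (Nstar T x : ℝ)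

/-- the conclusion at one height -/
def Concl (ε a₀ T : ℝ) : Prop := (∀ x : ℝ, 0 < x → x ≤ a₀ →
    |(Nstar T x : ℝ) - (∫ u in (0:ℝ)..x, FF u) * nT T| ≤ ε * nT T) ∧
  (1 - ε) * nT T ≤ (H370.Ns riemannZeta 0 T : ℝ)

lemma unif_star {l : Filter ℝ} (hl : l ≤ atTop) (H : ∀ x : ℝ, 0 < x →
    Tendsto (fun T => (Nstar T x : ℝ) / nT T) l (𝓝 (∫ u in (0:ℝ)..x, FF u))) {ε a₀ : ℝ}
    (hε : 0 < ε) (ha : 0 < a₀) : ∀ᶠ T : ℝ in l, ∀ x : ℝ, 0 < x → x ≤ a₀ →
    |(Nstar T x : ℝ) - (∫ u in (0:ℝ)..x, FF u) * nT T| ≤ ε * nT T := by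
  obtain ⟨K, hK0, hK⟩ : ∃ K : ℕ, 0 < K ∧ a₀ / K ≤ ε / 4 := by
    have h1 : Tendsto (fun K : ℕ => a₀ / (K : ℝ)) atTop (𝓝 0) :=
      tendsto_const_div_atTop_nhds_zero_nat _
    exact ((eventually_gt_atTop 0).and (h1.eventually
      (ge_mem_nhds (show 0 < ε / 4 by positivity)))).exists
  have hKr : (0 : ℝ) < K := by exact_mod_cast hK0
  obtain ⟨d, hd⟩ : ∃ d : ℝ, d = a₀ / K := ⟨_, rfl⟩
  have hd0 : 0 < d := by rw [hd]; positivity
  rw [← hd] at hK
  have hall : ∀ᶠ T : ℝ in l, ∀ k ∈ Finset.range (K + 1), 1 ≤ k →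
      |(Nstar T (k * d) : ℝ) / nT T - ∫ u in (0:ℝ)..(k * d), FF u| < ε / 4 := by
    rw [Filter.eventually_all_finset]
    intro k hk
    by_cases g : 1 ≤ k
    · have k1 : (1 : ℝ) ≤ k := by exact_mod_cast g
      have h1 := Metric.tendsto_nhds.1 (H (k * d) (by positivity)) (ε / 4) (by positivity)
      filter_upwards [h1] with T hT _
      rwa [Real.dist_eq] at hT
    · exact Eventually.of_forall fun T hcon => absurd hcon g
  filter_upwards [hall, hl (eventually_ge_atTop 10)] with T h1 h2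
  intro x hx hxa
  have hn := nT_pos h2
  have hmono := Nstar_mono T (by linarith)
  obtain ⟨j, hj⟩ : ∃ j : ℕ, j = ⌊x / d⌋₊ := ⟨_, rfl⟩
  have hxd : 0 ≤ x / d := by positivity
  have j1 : (j : ℝ) * d ≤ x := by
    have := Nat.floor_le hxd
    rw [← hj, le_div_iff₀ hd0] at this
    exact this
  have j2 : x < (j + 1) * d := by
    have := Nat.lt_floor_add_one (x / d)
    rw [← hj, div_lt_iff₀ hd0] at this
    exact this
  -- upper bound
  have up : (Nstar T x : ℝ) ≤ ((∫ u in (0:ℝ)..x, FF u) + ε) * nT T := by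
    rcases Nat.lt_or_ge j K with g | g
    · have h3 := h1 (j + 1) (Finset.mem_range.2 (by omega)) (by omega)
      push_cast at h3
      have h4 : (Nstar T x : ℝ) ≤ Nstar T ((j + 1) * d) := hmono j2.le
      have h5 := FF_int_lip (a := x) (b := (j + 1) * d) j2.le
      have h6 := (abs_lt.1 h3).2
      have h7 : (Nstar T ((j + 1) * d) : ℝ) / nT T ≤ (∫ u in (0:ℝ)..x, FF u) + ε := by
        have : (j + 1) * d - x ≤ d := by linarith
        linarith
      rw [div_le_iff₀ hn] at h7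
      exact h4.trans h7
    · have hx2 : x = K * d := by
        have e : (K : ℝ) * d = a₀ := by rw [hd]; field_simp
        have h8 : (K : ℝ) ≤ j := by exact_mod_cast g
        have h9 : (K : ℝ) * d ≤ j * d := by gcongr
        linarith
      have h3 := h1 K (Finset.mem_range.2 (by omega)) (by omega)
      rw [← hx2] at h3
      have h6 := (abs_lt.1 h3).2
      have h7 : (Nstar T x : ℝ) / nT T ≤ (∫ u in (0:ℝ)..x, FF u) + ε := by linarith
      rwa [div_le_iff₀ hn] at h7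
  have lo : ((∫ u in (0:ℝ)..x, FF u) - ε) * nT T ≤ (Nstar T x : ℝ) := by
    rcases Nat.eq_zero_or_pos j with g | g
    · have h5 := FF_int_lip (a := 0) (b := x) hx.le
      rw [intervalIntegral.integral_same] at h5
      rw [g] at j2
      have h6 : (∫ u in (0:ℝ)..x, FF u) - ε ≤ 0 := by
        push_cast at j2
        linarith
      exact (mul_nonpos_of_nonpos_of_nonneg h6 hn.le).trans (Nat.cast_nonneg _)
    · have hjK : j ≤ K := by
        have e : (K : ℝ) * d = a₀ := by rw [hd]; field_simp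
        have h8 : (j : ℝ) * d ≤ K * d := by linarith
        have h9 := le_of_mul_le_mul_right h8 hd0
        exact_mod_cast h9
      have h3 := h1 j (Finset.mem_range.2 (by omega)) g
      have h4 : (Nstar T (j * d) : ℝ) ≤ Nstar T x := hmono j1
      have h5 := FF_int_lip (a := j * d) (b := x) j1
      have h6 := (abs_lt.1 h3).1
      have h7 : (∫ u in (0:ℝ)..x, FF u) - ε ≤ (Nstar T (j * d) : ℝ) / nT T := by
        have : x - j * d ≤ d := by linarith
        linarith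
      rw [le_div_iff₀ hn] at h7
      exact h7.trans h4
  rw [abs_le]
  constructor <;> linarith

lemma simple_l {l : Filter ℝ} (hl : l ≤ atTop)
    (H : ∀ ε : ℝ, 0 < ε → ∀ᶠ T : ℝ in l, (DS 0 T : ℝ) ≤ (1 + ε) * nT T) {ε : ℝ} (hε : 0 < ε) :
    ∀ᶠ T : ℝ in l, (1 - ε) * nT T ≤ (H370.Ns riemannZeta 0 T : ℝ) := by
  obtain ⟨K2, hK2, hs⟩ := simple_low
  have hlim : Tendsto (fun T : ℝ => ε / 4 * nT T) atTop atTop := by
    have h1 : Tendsto (fun T : ℝ => T * Real.log T) atTop atTop :=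
      tendsto_id.atTop_mul_atTop₀ Real.tendsto_log_atTop
    have h2 : (fun T : ℝ => ε / 4 * nT T) = fun T => ε / 4 / (2 * Real.pi) * (T * Real.log T) := by
      funext T
      unfold nT
      ring
    rw [h2]
    have := Real.pi_pos
    exact h1.const_mul_atTop (by positivity)
  filter_upwards [H (ε / 4) (by positivity), hl (N_low (show 0 < ε / 4 by positivity)),
    hl (hlim.eventually_ge_atTop K2), hl (eventually_ge_atTop 10)] with T h1 h2 h3 h4
  have h5 := hs T
  linarith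

/-- **the conjecture at one height from lower bounds at the same height** -/
theorem local_main {a b : ℕ → ℝ} (hab : Sparse a b) (C : ℝ) {c : ℝ} (hc : 0 < c) {ε a₀ : ℝ}
    (hε : 0 < ε) (ha : 0 < a₀) : ∃ (N : ℕ) (δ T₀ : ℝ), 0 < δ ∧ ∀ T : ℝ, T₀ ≤ T →
      LowAt a b C c N δ T → Concl ε a₀ T := by
  by_contra hcon
  push Not at hcon
  have hpick : ∀ N : ℕ, ∃ T : ℝ, (N : ℝ) ≤ T ∧ LowAt a b C c N (1 / ((N : ℝ) + 1)) T ∧
      ¬ Concl ε a₀ T := by
    intro N
    obtain ⟨T, h1, h2, h3⟩ := hcon N (1 / ((N : ℝ) + 1)) N (by positivity)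
    exact ⟨T, h1, h2, h3⟩
  choose t ht1 ht2 ht3 using hpick
  have htt : Tendsto t atTop atTop :=
    tendsto_atTop_mono ht1 tendsto_natCast_atTop_atTop
  obtain ⟨U, hUdef⟩ : ∃ U : Ultrafilter ℝ, U = (Filter.hyperfilter ℕ).map t := ⟨_, rfl⟩
  have hh : ((Filter.hyperfilter ℕ : Ultrafilter ℕ) : Filter ℕ) ≤ atTop := by
    rw [← Nat.cofinite_eq_atTop]
    exact Filter.hyperfilter_le_cofinite
  have hU : (U : Filter ℝ) ≤ atTop := by
    rw [hUdef, Ultrafilter.coe_map]
    exact (Filter.map_mono hh).trans htt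
  have hL : LowL U a b C c := by
    intro n x hx e he
    rw [hUdef, Ultrafilter.coe_map, Filter.eventually_map]
    have h1 : Tendsto (fun N : ℕ => 1 / ((N : ℝ) + 1)) atTop (𝓝 0) :=
      tendsto_one_div_add_atTop_nhds_zero_nat
    filter_upwards [hh (eventually_gt_atTop n), hh (h1.eventually (ge_mem_nhds he)),
      hh (htt.eventually_ge_atTop 10)] with N g1 g2 g3
    refine le_trans (mul_le_mul_of_nonneg_right ?_ (nT_pos g3).le) (ht2 N n g1 x hx)
    linarith
  have hD : ∀ ε : ℝ, 0 < ε → ∀ᶠ T : ℝ in (U : Filter ℝ), (DS 0 T : ℝ) ≤ (1 + ε) * nT T :=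
    fun ε hε => lowL_diag hU hab hc hL hε
  have h1 := unif_star hU (fun x hx => lowL_star hU hab hc hL hx) hε ha
  have h2 := simple_l hU hD hε
  have h3 : ∀ᶠ T : ℝ in (U : Filter ℝ), Concl ε a₀ T := by
    filter_upwards [h1, h2] with T g1 g2 using ⟨g1, g2⟩
  rw [hUdef, Ultrafilter.coe_map, Filter.eventually_map] at h3
  obtain ⟨N, hN⟩ := h3.exists
  exact ht3 N hN

end Pool.Agent.X83.PC
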