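import Pool.Agent.X83.PC.Gap4
import Pool.Agent.X83.PC.End

/-! # From one-sided bounds on an interval to small means in the middle of the interval -/

set_option autoImplicit false

open MeasureTheory Set Filter Topology
open Complex (I)

namespace Pool.Agent.X83.PC

open Pool.Agent.Y749.Rig

variable {v : ℝ → ℝ}

/-- multiplication by a kernel keeps a part of the gap -/
lemma gap_mul (hv : Integrable v) {R h : ℝ} (hg : Gap v R) (hh : 0 < h) (x₀ : ℝ) :
    Gap (fun x => v x * fl (tr h) (x - x₀)) (R - 2 * Real.pi * h) := by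
  have hpi := Real.pi_pos
  intro c hc
  have hti := tr_int hh
  -- the kernel as an integral
  have hK : ∀ x : ℝ, ((fl (tr h) (x - x₀) : ℝ) : ℂ) =
      ∫ α : ℝ, (tr h α : ℂ) * Complex.exp (2 * Real.pi * I * α * ((x₀ - x : ℝ) : ℂ)) := by
    intro x
    have e : fl (tr h) (x - x₀) = fl (tr h) (x₀ - x) := by
      rw [← fl_even (x₀ - x)]
      congr 1; ring
    rw [e, ← FL_real hti (tr_even h)]
    rfl
  obtain ⟨f, hf⟩ : ∃ f : ℝ → ℝ → ℂ, ∀ x α, f x α = ((v x : ℂ) * (tr h α : ℂ)) *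
      (Complex.exp (-I * c * x) * Complex.exp (2 * Real.pi * I * α * ((x₀ - x : ℝ) : ℂ))) :=
    ⟨_, fun x α => rfl⟩
  have hint : Integrable (Function.uncurry f) (volume.prod volume) := by
    have h1 : Integrable (fun p : ℝ × ℝ => (v p.1 : ℂ) * (tr h p.2 : ℂ)) (volume.prod volume) :=
      hv.ofReal.mul_prod hti.ofReal
    have h2 : Function.uncurry f = fun p : ℝ × ℝ => ((v p.1 : ℂ) * (tr h p.2 : ℂ)) *
        (Complex.exp (-I * c * p.1) * Complex.exp (2 * Real.pi * I * p.2 * ((x₀ - p.1 : ℝ) : ℂ))) := by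
      ext p
      simp only [Function.uncurry]
      exact hf _ _
    rw [h2]
    refine h1.mul_bdd (c := 1) ?_ (ae_of_all _ fun p => ?_)
    · refine Continuous.aestronglyMeasurable ?_
      fun_prop
    · rw [norm_mul, Complex.norm_exp, Complex.norm_exp]
      have e1 : (-I * c * (p.1 : ℂ)).re = 0 := by simp
      have e2 : (2 * Real.pi * I * p.2 * ((x₀ - p.1 : ℝ) : ℂ)).re = 0 := by
        have : 2 * Real.pi * I * p.2 * ((x₀ - p.1 : ℝ) : ℂ) =
          ((2 * Real.pi * p.2 * (x₀ - p.1) : ℝ) : ℂ) * I := by push_cast; ring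
        rw [this]; simp
      rw [e1, e2]; simp
  have h3 := integral_integral_swap hint
  have e3 : ∫ x : ℝ, ((v x * fl (tr h) (x - x₀) : ℝ) : ℂ) * Complex.exp (-I * c * x) =
      ∫ x : ℝ, ∫ α : ℝ, f x α := by
    refine integral_congr_ae (ae_of_all _ fun x => ?_)
    show ((v x * fl (tr h) (x - x₀) : ℝ) : ℂ) * Complex.exp (-I * c * x) = ∫ α : ℝ, f x α
    rw [Complex.ofReal_mul, hK x]
    have : ∀ α, f x α = ((v x : ℂ) * Complex.exp (-I * c * x)) *
        ((tr h α : ℂ) * Complex.exp (2 * Real.pi * I * α * ((x₀ - x : ℝ) : ℂ))) := by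
      intro α; rw [hf]; ring
    simp_rw [this]
    rw [integral_const_mul]
    ring
  show ∫ x : ℝ, ((v x * fl (tr h) (x - x₀) : ℝ) : ℂ) * Complex.exp (-I * c * x) = 0
  rw [e3, h3]
  have h4 : ∀ α : ℝ, ∫ x : ℝ, f x α = 0 := by
    intro α
    rcases le_or_gt h |α| with g | g
    · have : ∀ x, f x α = 0 := by
        intro x
        rw [hf, tr_supp hh α g]
        simp
      simp_rw [this]
      simp
    · have e4 : ∀ x, f x α = ((tr h α : ℂ) * Complex.exp (2 * Real.pi * I * α * x₀)) *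
          ((v x : ℂ) * Complex.exp (-I * ((c + 2 * Real.pi * α : ℝ) : ℂ) * x)) := by
        intro x
        rw [hf]
        have e5 : Complex.exp (-I * c * x) * Complex.exp (2 * Real.pi * I * α * ((x₀ - x : ℝ) : ℂ)) =
            Complex.exp (2 * Real.pi * I * α * x₀) *
              Complex.exp (-I * ((c + 2 * Real.pi * α : ℝ) : ℂ) * x) := by
          rw [← Complex.exp_add, ← Complex.exp_add]
          congr 1
          push_cast
          ring
        rw [e5]; ring
      simp_rw [e4]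
      rw [integral_const_mul, hg (c + 2 * Real.pi * α) ?_, mul_zero]
      have g1 : |c + 2 * Real.pi * α| ≤ |c| + 2 * Real.pi * |α| := by
        refine (abs_add_le _ _).trans ?_
        rw [abs_mul, abs_of_pos (by positivity : (0:ℝ) < 2 * Real.pi)]
      have g2 : 2 * Real.pi * |α| < 2 * Real.pi * h := by gcongr
      linarith
  simp_rw [h4]
  simp

lemma fl_tr_le_one {h : ℝ} (hh : 0 < h) (x : ℝ) : fl (tr h) x ≤ 1 := by
  rcases eq_or_ne x 0 with hx | hx
  · rw [hx, fl_tr_zero hh]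
  · rw [fl_tr hh hx]
    have := sinc_sq_le (h * x)
    rw [show Real.pi * h * x = Real.pi * (h * x) by ring]
    exact this

/-- the kernel -/
noncomputable def KK (δ : ℝ) (k : ℕ) (y : ℝ) : ℝ := fl (tr δ) y ^ k

lemma KK_nonneg {δ : ℝ} (hδ : 0 < δ) (k : ℕ) (y : ℝ) : 0 ≤ KK δ k y :=
  pow_nonneg (fl_tr_nonneg hδ y) k

lemma KK_le_one {δ : ℝ} (hδ : 0 < δ) (k : ℕ) (y : ℝ) : KK δ k y ≤ 1 :=
  pow_le_one₀ (fl_tr_nonneg hδ y) (fl_tr_le_one hδ y)

lemma KK_cont {δ : ℝ} (hδ : 0 < δ) (k : ℕ) : Continuous (KK δ k) := by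
  have := fl_cont (tr_int hδ)
  unfold KK
  fun_prop

lemma mul_KK_int (hv : Integrable v) {δ : ℝ} (hδ : 0 < δ) (k : ℕ) (x₀ : ℝ) :
    Integrable fun x => v x * KK δ k (x - x₀) := by
  refine hv.mul_bdd (c := 1) ((KK_cont hδ k).comp (by fun_prop)).aestronglyMeasurable
    (ae_of_all _ fun x => ?_)
  rw [Real.norm_eq_abs, abs_of_nonneg (KK_nonneg hδ k _)]
  exact KK_le_one hδ k _

lemma gap_KK (hv : Integrable v) {R δ : ℝ} (hg : Gap v R) (hδ : 0 < δ) (x₀ : ℝ) (k : ℕ) :
    Gap (fun x => v x * KK δ k (x - x₀)) (R - 2 * Real.pi * δ * k) := by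
  induction k with
  | zero =>
    have e : (fun x => v x * KK δ 0 (x - x₀)) = v := by
      ext x; unfold KK; simp
    rw [e]
    simpa using hg
  | succ k ih =>
    have h1 := gap_mul (mul_KK_int hv hδ k x₀) ih hδ x₀
    have e1 : (fun x => v x * KK δ k (x - x₀) * fl (tr δ) (x - x₀)) =
        fun x => v x * KK δ (k + 1) (x - x₀) := by
      ext x; unfold KK; ring
    have e2 : R - 2 * Real.pi * δ * k - 2 * Real.pi * δ = R - 2 * Real.pi * δ * ((k + 1 : ℕ) : ℝ) := by
      push_cast; ring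
    rw [e1, e2] at h1
    exact h1

lemma int_KK (hv : Integrable v) {R δ : ℝ} (hg : Gap v R) (hδ : 0 < δ) (x₀ : ℝ) {k : ℕ}
    (hk : 2 * Real.pi * δ * k < R) : ∫ x, v x * KK δ k (x - x₀) = 0 := by
  have h1 := gap_KK hv hg hδ x₀ k 0 (by rw [abs_zero]; linarith)
  have e : ∀ x : ℝ, ((v x * KK δ k (x - x₀) : ℝ) : ℂ) * Complex.exp (-I * ((0:ℝ) : ℂ) * x) =
      ((v x * KK δ k (x - x₀) : ℝ) : ℂ) := by
    intro x; simp
  have h2 : ∫ x : ℝ, ((v x * KK δ k (x - x₀) : ℝ) : ℂ) = 0 := by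
    rw [← h1]
    exact integral_congr_ae (ae_of_all _ fun x => (e x).symm)
  rw [integral_complex_ofReal] at h2
  exact_mod_cast h2

/-- the kernel near the centre -/
lemma KK_near {R : ℝ} (hR : 0 < R) (hR4 : R ≤ 4) {k : ℕ} (hk : 1 ≤ k) {y : ℝ} (hy : |y| ≤ 1) :
    1 / 2 ≤ KK (R / (4 * Real.pi * k)) k y := by
  have hpi := Real.pi_pos
  have hk0 : (0:ℝ) < k := by exact_mod_cast hk
  have hk1 : (1:ℝ) ≤ k := by exact_mod_cast hk
  have hδ : 0 < R / (4 * Real.pi * k) := by positivity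
  rcases eq_or_ne y 0 with h0 | h0
  · unfold KK
    rw [h0, fl_tr_zero hδ, one_pow]; norm_num
  · unfold KK
    rw [fl_tr hδ h0]
    obtain ⟨x, hx⟩ : ∃ x : ℝ, x = R / (4 * k) * |y| := ⟨_, rfl⟩
    have hy0 : 0 < |y| := abs_pos.2 h0
    have hx0 : 0 < x := by rw [hx]; positivity
    have hRk : R / (4 * k) ≤ 1 := by
      rw [div_le_one (by positivity)]; linarith
    have hx1 : x ≤ 1 := by
      rw [hx]
      calc R / (4 * k) * |y| ≤ 1 * 1 := by gcongr
        _ = 1 := one_mul 1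
    have e1 : (Real.sin (Real.pi * (R / (4 * Real.pi * k)) * y) /
        (Real.pi * (R / (4 * Real.pi * k)) * y)) ^ 2 = (Real.sin x / x) ^ 2 := by
      have e2 : Real.pi * (R / (4 * Real.pi * k)) * y = R / (4 * k) * y := by field_simp
      rw [e2]
      rcases abs_cases y with g | g
      · rw [hx, g.1]
      · have e3 : R / (4 * k) * y = -x := by rw [hx, g.1]; ring
        rw [e3, Real.sin_neg, neg_div_neg_eq]
    rw [e1]
    have h2 : 1 - x ^ 2 / 4 ≤ Real.sin x / x := by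
      rw [le_div_iff₀ hx0]
      have h1 := Real.sin_gt_sub_cube hx0
      have h2 : (1 - x ^ 2 / 4) * x ≤ x - x ^ 3 / 6 := by
        have h3 : 0 ≤ x ^ 3 := by positivity
        nlinarith
      linarith
    have h3 : 0 ≤ 1 - x ^ 2 / 4 := by nlinarith
    have h4 : 1 - x ^ 2 / 2 ≤ (Real.sin x / x) ^ 2 := by
      calc 1 - x ^ 2 / 2 ≤ (1 - x ^ 2 / 4) ^ 2 := by nlinarith [sq_nonneg (x ^ 2)]
        _ ≤ _ := pow_le_pow_left₀ h3 h2 2
    have h5 : 1 + (k : ℝ) * (-(x ^ 2 / 2)) ≤ (1 + -(x ^ 2 / 2)) ^ k :=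
      one_add_mul_le_pow (by nlinarith) k
    have h6 : (1 + -(x ^ 2 / 2)) ^ k ≤ ((Real.sin x / x) ^ 2) ^ k := by
      apply pow_le_pow_left₀ (by nlinarith)
      linarith
    refine le_trans ?_ (h5.trans h6)
    have h7 : (k : ℝ) * (x ^ 2 / 2) ≤ 1 / 2 := by
      have h8 : x ≤ R / (4 * k) := by
        rw [hx]
        calc R / (4 * k) * |y| ≤ R / (4 * k) * 1 := by gcongr
          _ = _ := mul_one _
      have h9 : x ^ 2 ≤ (R / (4 * k)) ^ 2 := pow_le_pow_left₀ hx0.le h8 2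
      have h10 : (R / (4 * k)) ^ 2 ≤ 1 / k := by
        rw [div_pow, div_le_div_iff₀ (by positivity) hk0]
        have g1 : R ^ 2 ≤ 16 := by nlinarith
        have g2 : (k:ℝ) ≤ (k:ℝ) ^ 2 := by nlinarith
        calc R ^ 2 * k ≤ 16 * (k:ℝ) ^ 2 := by gcongr
          _ = 1 * (4 * (k:ℝ)) ^ 2 := by ring
      have h11 : (k : ℝ) * (1 / k) = 1 := by field_simp
      nlinarith
    linarith

/-- the kernel far from the centre -/
lemma KK_far {R Y : ℝ} (hR : 0 < R) {k : ℕ} (hk : 1 ≤ k) (hY : 0 < Y)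
    (hkY : Real.exp 1 * (4 * k) ≤ R * Y) {y : ℝ} (hy : Y ≤ |y|) :
    KK (R / (4 * Real.pi * k)) k y ≤ Real.exp (-(2 * (k : ℝ))) := by
  have hpi := Real.pi_pos
  have hk0 : (0:ℝ) < k := by exact_mod_cast hk
  have hδ : 0 < R / (4 * Real.pi * k) := by positivity
  have hy0 : 0 < |y| := hY.trans_le hy
  have h0 : y ≠ 0 := abs_pos.1 hy0
  unfold KK
  rw [fl_tr hδ h0]
  have e2 : Real.pi * (R / (4 * Real.pi * k)) * y = R / (4 * k) * y := by field_simp
  rw [e2]
  have h1 : (Real.sin (R / (4 * k) * y) / (R / (4 * k) * y)) ^ 2 ≤ Real.exp (-2) := by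
    have h2 : |Real.sin (R / (4 * k) * y) / (R / (4 * k) * y)| ≤ Real.exp (-1) := by
      rw [abs_div, div_le_iff₀ (by rw [abs_pos]; positivity)]
      have h3 : Real.exp 1 ≤ |R / (4 * k) * y| := by
        rw [abs_mul, abs_of_pos (by positivity : 0 < R / (4 * (k:ℝ))), div_mul_eq_mul_div,
          le_div_iff₀ (by positivity)]
        refine hkY.trans ?_
        gcongr
      calc |Real.sin (R / (4 * k) * y)| ≤ 1 := Real.abs_sin_le_one _
        _ = Real.exp (-1) * Real.exp 1 := by rw [← Real.exp_add]; simp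
        _ ≤ _ := by gcongr
    rw [← sq_abs]
    calc |Real.sin (R / (4 * k) * y) / (R / (4 * k) * y)| ^ 2 ≤ Real.exp (-1) ^ 2 :=
          pow_le_pow_left₀ (abs_nonneg _) h2 2
      _ = Real.exp (-2) := by rw [← Real.exp_nat_mul]; norm_num
  calc ((Real.sin (R / (4 * k) * y) / (R / (4 * k) * y)) ^ 2) ^ k ≤ Real.exp (-2) ^ k :=
        pow_le_pow_left₀ (sq_nonneg _) h1 k
    _ = Real.exp (-(2 * (k : ℝ))) := by
        rw [← Real.exp_nat_mul]; congr 1; ring

/-- **the local estimate** -/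
lemma local_one (hv : Integrable v) {R : ℝ} (hR : 0 < R) (hR4 : R ≤ 4) (hg : Gap v R)
    {a b Y x₀ ε : ℝ} (hY : 1 ≤ Y) {k : ℕ} (hk : 1 ≤ k)
    (hkY : Real.exp 1 * (4 * k) ≤ R * Y) (h1 : a + Y ≤ x₀) (h2 : x₀ ≤ b - Y) (hε : 0 ≤ ε)
    (ho : ∀ᵐ x : ℝ, x ∈ Ioo a b → v x ≤ ε) :
    ∫ x in Ioo (x₀ - 1) (x₀ + 1), |v x| ≤
      4 * ε * (b - a) + 2 * Real.exp (-(2 * (k : ℝ))) * ∫ x, |v x| := by
  have hpi := Real.pi_pos
  have hk0 : (0:ℝ) < k := by exact_mod_cast hk
  obtain ⟨δ, hδd⟩ : ∃ δ : ℝ, δ = R / (4 * Real.pi * k) := ⟨_, rfl⟩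
  have hδ : 0 < δ := by rw [hδd]; positivity
  have hz : ∫ x, v x * KK δ k (x - x₀) = 0 := by
    refine int_KK hv hg hδ x₀ ?_
    rw [hδd]
    have : 2 * Real.pi * (R / (4 * Real.pi * k)) * k = R / 2 := by field_simp; ring
    rw [this]; linarith
  have hi := mul_KK_int hv hδ k x₀
  have hia : Integrable fun x => |v x| * KK δ k (x - x₀) := mul_KK_int hv.abs hδ k x₀
  have hsplit := integral_add_compl (s := Ioo a b) measurableSet_Ioo hi
  rw [hz] at hsplit
  -- outside
  have hout : |∫ x in (Ioo a b)ᶜ, v x * KK δ k (x - x₀)| ≤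
      Real.exp (-(2 * (k : ℝ))) * ∫ x, |v x| := by
    rw [← Real.norm_eq_abs]
    refine (norm_integral_le_integral_norm _).trans ?_
    rw [← integral_const_mul]
    refine le_trans (setIntegral_mono_on hi.norm.integrableOn
      ((hv.abs.const_mul (Real.exp (-(2 * (k : ℝ))))).integrableOn) measurableSet_Ioo.compl
      fun x hx => ?_) (setIntegral_le_integral (hv.abs.const_mul _)
        (ae_of_all _ fun x => by positivity))
    rw [Real.norm_eq_abs, abs_mul, abs_of_nonneg (KK_nonneg hδ k _), mul_comm]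
    refine mul_le_mul_of_nonneg_right ?_ (abs_nonneg _)
    rw [hδd]
    refine KK_far hR hk (by linarith) hkY ?_
    by_contra hcon
    push Not at hcon
    rw [abs_lt] at hcon
    exact hx ⟨by linarith [hcon.1], by linarith [hcon.2]⟩
  -- inside
  have hin : ∫ x in Ioo a b, |v x| * KK δ k (x - x₀) ≤
      2 * ε * (b - a) - ∫ x in Ioo a b, v x * KK δ k (x - x₀) := by
    have hab : a ≤ b := by linarith
    have e1 : 2 * ε * (b - a) = ∫ x in Ioo a b, 2 * ε := by
      rw [setIntegral_const, smul_eq_mul, Real.volume_real_Ioo_of_le hab]; ring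
    have hci : IntegrableOn (fun _ : ℝ => 2 * ε) (Ioo a b) :=
      integrableOn_const (by rw [Real.volume_Ioo]; exact ENNReal.ofReal_ne_top)
    rw [e1, ← integral_sub hci hi.integrableOn]
    refine integral_mono_ae hia.integrableOn (hci.sub hi.integrableOn) ?_
    filter_upwards [ae_restrict_of_ae ho, ae_restrict_mem measurableSet_Ioo] with x hx hxm
    have hvx := hx hxm
    have k0 := KK_nonneg hδ k (x - x₀)
    have k1 := KK_le_one hδ k (x - x₀)
    show |v x| * KK δ k (x - x₀) ≤ 2 * ε - v x * KK δ k (x - x₀)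
    rcases abs_cases (v x) with g | g
    · rw [g.1]; nlinarith
    · rw [g.1]; nlinarith
  -- the unit interval
  have hun : ∫ x in Ioo (x₀ - 1) (x₀ + 1), |v x| ≤
      2 * ∫ x in Ioo a b, |v x| * KK δ k (x - x₀) := by
    have hsub : Ioo (x₀ - 1) (x₀ + 1) ⊆ Ioo a b := Ioo_subset_Ioo (by linarith) (by linarith)
    rw [← integral_const_mul]
    refine le_trans (setIntegral_mono_on hv.abs.integrableOn (hia.const_mul 2).integrableOn
      measurableSet_Ioo fun x hx => ?_) (setIntegral_mono_set (hia.const_mul 2).integrableOn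
        (ae_of_all _ fun x => ?_) (HasSubset.Subset.eventuallyLE hsub))
    · have h3 : 1 / 2 ≤ KK δ k (x - x₀) := by
        rw [hδd]
        refine KK_near hR hR4 hk ?_
        rw [abs_le]
        exact ⟨by linarith [hx.1], by linarith [hx.2]⟩
      have := abs_nonneg (v x)
      nlinarith
    · have := KK_nonneg hδ k (x - x₀)
      show 0 ≤ 2 * (|v x| * KK δ k (x - x₀))
      positivity
  have h3 : -∫ x in Ioo a b, v x * KK δ k (x - x₀) = ∫ x in (Ioo a b)ᶜ, v x * KK δ k (x - x₀) := by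
    linarith
  have h4 := le_abs_self (∫ x in (Ioo a b)ᶜ, v x * KK δ k (x - x₀))
  linarith

/-- covering an interval by unit intervals -/
lemma cover (hv : Integrable v) {p q M : ℝ} (hpq : p ≤ q)
    (h : ∀ x₀ ∈ Icc p q, ∫ x in Ioo (x₀ - 1) (x₀ + 1), |v x| ≤ M) :
    ∫ x in Ioo p q, |v x| ≤ (q - p + 1) * M := by
  obtain ⟨n, hn⟩ : ∃ n : ℕ, n = ⌈q - p⌉₊ := ⟨_, rfl⟩
  have h1 : q - p ≤ n := by rw [hn]; exact Nat.le_ceil _
  have h2 : (n : ℝ) < q - p + 1 := by rw [hn]; exact Nat.ceil_lt_add_one (by linarith)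
  have hM : 0 ≤ M := by
    have := h p ⟨le_rfl, hpq⟩
    exact le_trans (integral_nonneg fun x => abs_nonneg _) this
  have hint : ∀ s t : ℝ, IntervalIntegrable (fun x => |v x|) volume s t := fun s t =>
    hv.abs.intervalIntegrable
  have h3 : ∫ x in Ioo p q, |v x| ≤ ∫ x in p..(p + n), |v x| := by
    rw [intervalIntegral.integral_of_le (by linarith [(Nat.cast_nonneg n : (0:ℝ) ≤ n)]),
      integral_Ioc_eq_integral_Ioo]
    exact setIntegral_mono_set hv.abs.integrableOn (ae_of_all _ fun x => abs_nonneg _)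
      (HasSubset.Subset.eventuallyLE (Ioo_subset_Ioo le_rfl (by linarith)))
  have h4 : ∫ x in p..(p + n), |v x| = ∑ j ∈ Finset.range n, ∫ x in (p + j)..(p + (j + 1 : ℕ)), |v x| := by
    have := intervalIntegral.sum_integral_adjacent_intervals (f := fun x => |v x|) (μ := volume)
      (a := fun j : ℕ => p + (j : ℝ)) (n := n) (fun j _ => hint _ _)
    rw [this]
    simp
  rw [h4] at h3
  refine h3.trans ?_
  calc ∑ j ∈ Finset.range n, ∫ x in (p + j)..(p + (j + 1 : ℕ)), |v x| ≤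
      ∑ j ∈ Finset.range n, M := by
        refine Finset.sum_le_sum fun j hj => ?_
        rw [Finset.mem_range] at hj
        have hj1 : (j : ℝ) + 1 ≤ n := by exact_mod_cast hj
        have hj0 : (0:ℝ) ≤ j := Nat.cast_nonneg j
        have h5 := h (p + j) ⟨by linarith, by linarith⟩
        refine le_trans ?_ h5
        rw [intervalIntegral.integral_of_le (by push_cast; linarith), integral_Ioc_eq_integral_Ioo]
        exact setIntegral_mono_set hv.abs.integrableOn (ae_of_all _ fun x => abs_nonneg _)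
          (HasSubset.Subset.eventuallyLE (Ioo_subset_Ioo (by linarith) (by push_cast; linarith)))
    _ = n * M := by rw [Finset.sum_const, Finset.card_range, nsmul_eq_mul]
    _ ≤ (q - p + 1) * M := by gcongr

end Pool.Agent.X83.PC
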