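import Pool.Agent.X83.PC.Loc1

/-! # The one-sided gap theorem on sparse intervals -/

set_option autoImplicit false

open MeasureTheory Set Filter Topology
open Complex (I)

namespace Pool.Agent.X83.PC

open Pool.Agent.Y749.Rig

variable {v : ℝ → ℝ}

lemma xe_le {c L : ℝ} (hc : 0 < c) : L * Real.exp (-(c * L)) ≤ 1 / c := by
  have h1 := Real.add_one_le_exp (c * L)
  have h2 : c * L * Real.exp (-(c * L)) ≤ 1 := by
    calc c * L * Real.exp (-(c * L)) ≤ Real.exp (c * L) * Real.exp (-(c * L)) := by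
          apply mul_le_mul_of_nonneg_right (by linarith) (Real.exp_pos _).le
      _ = 1 := by rw [← Real.exp_add]; simp
  rw [le_div_iff₀ hc]
  linarith

lemma Gap.neg {R : ℝ} (hg : Gap v R) : Gap (fun x => -v x) R := by
  intro c hc
  have h := hg c hc
  have e : ∀ x : ℝ, ((-v x : ℝ) : ℂ) * Complex.exp (-I * c * x) =
      -((v x : ℂ) * Complex.exp (-I * c * x)) := by
    intro x; push_cast; ring
  simp_rw [e]
  rw [integral_neg, h, neg_zero]

/-- the middle of an interval with a one-sided bound -/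
lemma middle_pos (hv : Integrable v) {R : ℝ} (hR : 0 < R) (hR4 : R ≤ 4) (hg : Gap v R)
    {C' c : ℝ} (hC' : 0 ≤ C') (hc : 0 < c) {c₁ C₀ : ℝ} (hc₁ : c₁ = min c (R / 24) / 4)
    (hC₀ : C₀ = (1 / (2 * c₁) + 1) * (4 * C' / c₁ + 2 * Real.exp 2 * ∫ x, |v x|) +
      (∫ x, |v x|) * Real.exp (c₁ * (16 * Real.exp 1 / R))) {a b : ℝ} (hab : a < b)
    (ho : ∀ᵐ x : ℝ, x ∈ Ioo a b → v x ≤ C' * Real.exp (-(c * (b - a)))) :
    ∫ x in Ioo (a + (b - a) / 4) (b - (b - a) / 4), |v x| ≤ C₀ * Real.exp (-(c₁ * (b - a))) := by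
  obtain ⟨L, hL⟩ : ∃ L : ℝ, L = b - a := ⟨_, rfl⟩
  have hL0 : 0 < L := by rw [hL]; linarith
  obtain ⟨K1, hK1⟩ : ∃ K1 : ℝ, K1 = ∫ x, |v x| := ⟨_, rfl⟩
  have hK10 : 0 ≤ K1 := by rw [hK1]; exact integral_nonneg fun x => abs_nonneg _
  have he : 0 < Real.exp 1 := Real.exp_pos _
  have he1 : 1 < Real.exp 1 := by
    have := Real.add_one_lt_exp (x := 1) one_ne_zero
    linarith
  have he3 : Real.exp 1 < 3 := by
    have := Real.exp_one_lt_d9
    linarith
  have hc₁0 : 0 < c₁ := by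
    rw [hc₁]
    have : 0 < min c (R / 24) := lt_min hc (by positivity)
    positivity
  have hc4 : 4 * c₁ ≤ c := by
    have : min c (R / 24) ≤ c := min_le_left _ _
    rw [hc₁]; linarith
  have hR24 : 4 * c₁ ≤ R / 24 := by
    have : min c (R / 24) ≤ R / 24 := min_le_right _ _
    rw [hc₁]; linarith
  have hfirst : 0 ≤ (1 / (2 * c₁) + 1) * (4 * C' / c₁ + 2 * Real.exp 2 * K1) := by positivity
  rw [← hK1] at hC₀
  rw [← hL]
  rw [← hL] at ho
  rcases lt_or_ge L (16 * Real.exp 1 / R) with hs | hs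
  · -- short intervals
    have h1 : ∫ x in Ioo (a + L / 4) (b - L / 4), |v x| ≤ K1 := by
      rw [hK1]
      exact setIntegral_le_integral hv.abs (ae_of_all _ fun x => abs_nonneg _)
    have h2 : 1 ≤ Real.exp (c₁ * (16 * Real.exp 1 / R)) * Real.exp (-(c₁ * L)) := by
      rw [← Real.exp_add]
      apply Real.one_le_exp
      have : c₁ * L ≤ c₁ * (16 * Real.exp 1 / R) := by gcongr
      linarith
    calc ∫ x in Ioo (a + L / 4) (b - L / 4), |v x| ≤ K1 := h1
      _ ≤ K1 * (Real.exp (c₁ * (16 * Real.exp 1 / R)) * Real.exp (-(c₁ * L))) :=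
          le_mul_of_one_le_right hK10 h2
      _ = K1 * Real.exp (c₁ * (16 * Real.exp 1 / R)) * Real.exp (-(c₁ * L)) := by ring
      _ ≤ C₀ * Real.exp (-(c₁ * L)) := by
          apply mul_le_mul_of_nonneg_right _ (Real.exp_pos _).le
          rw [hC₀]; linarith
  · -- long intervals
    obtain ⟨k, hk⟩ : ∃ k : ℕ, k = ⌊R * L / (16 * Real.exp 1)⌋₊ := ⟨_, rfl⟩
    have hq : 1 ≤ R * L / (16 * Real.exp 1) := by
      rw [le_div_iff₀ (by positivity)]
      rw [div_le_iff₀ hR] at hs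
      linarith
    have hk1 : 1 ≤ k := by
      rw [hk]; exact Nat.one_le_floor_iff _ |>.2 hq
    have hkle : (k : ℝ) ≤ R * L / (16 * Real.exp 1) := by
      rw [hk]; exact Nat.floor_le (by positivity)
    have hkge : R * L / (16 * Real.exp 1) - 1 ≤ k := by
      rw [hk]
      have := Nat.lt_floor_add_one (R * L / (16 * Real.exp 1))
      linarith
    have hY : 1 ≤ L / 4 := by
      rw [div_le_iff₀ hR] at hs
      nlinarith
    have hkY : Real.exp 1 * (4 * k) ≤ R * (L / 4) := by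
      rw [le_div_iff₀ (by positivity)] at hkle
      nlinarith
    have hloc : ∀ x₀ ∈ Icc (a + L / 4) (b - L / 4), ∫ x in Ioo (x₀ - 1) (x₀ + 1), |v x| ≤
        4 * (C' * Real.exp (-(c * L))) * L + 2 * Real.exp (-(2 * (k : ℝ))) * K1 := by
      intro x₀ hx
      have := local_one hv hR hR4 hg (Y := L / 4) hY hk1 hkY hx.1 hx.2
        (ε := C' * Real.exp (-(c * L))) (by positivity) ho
      rw [← hL, ← hK1] at this
      exact this
    have hcov := cover hv (p := a + L / 4) (q := b - L / 4) (by linarith) hloc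
    refine hcov.trans ?_
    have e1 : b - L / 4 - (a + L / 4) + 1 = L / 2 + 1 := by rw [hL]; ring
    rw [e1]
    have h1 : Real.exp (-(c * L)) ≤ Real.exp (-(4 * c₁ * L)) := by
      apply Real.exp_le_exp.2
      have := mul_le_mul_of_nonneg_right hc4 hL0.le
      linarith
    have h2 : Real.exp (-(2 * (k : ℝ))) ≤ Real.exp 2 * Real.exp (-(4 * c₁ * L)) := by
      rw [← Real.exp_add]
      apply Real.exp_le_exp.2
      have h3 : R / 24 * L ≤ 2 * (R * L / (16 * Real.exp 1)) := by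
        rw [mul_div_assoc', le_div_iff₀ (by positivity)]
        have : 0 < R * L := by positivity
        nlinarith
      have h4 := mul_le_mul_of_nonneg_right hR24 hL0.le
      linarith
    have h5 := xe_le (L := L) hc₁0
    have h6 : Real.exp (-(c₁ * L)) ≤ 1 := by
      apply Real.exp_le_one_iff.2
      have : 0 < c₁ * L := by positivity
      linarith
    have e4 : Real.exp (-(4 * c₁ * L)) = Real.exp (-(c₁ * L)) * Real.exp (-(c₁ * L)) *
        (Real.exp (-(c₁ * L)) * Real.exp (-(c₁ * L))) := by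
      rw [← Real.exp_add, ← Real.exp_add]
      congr 1; ring
    have h7 : (L / 2 + 1) * Real.exp (-(c₁ * L)) ≤ 1 / (2 * c₁) + 1 := by
      have : 1 / (2 * c₁) = (1 / c₁) / 2 := by field_simp
      rw [this]
      nlinarith
    have h8 : (4 * C' * L + 2 * Real.exp 2 * K1) * Real.exp (-(c₁ * L)) ≤
        4 * C' / c₁ + 2 * Real.exp 2 * K1 := by
      have g1 : 4 * C' * (L * Real.exp (-(c₁ * L))) ≤ 4 * C' * (1 / c₁) := by gcongr
      have g2 : 2 * Real.exp 2 * K1 * Real.exp (-(c₁ * L)) ≤ 2 * Real.exp 2 * K1 :=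
        mul_le_of_le_one_right (by positivity) h6
      have g3 : 4 * C' * (1 / c₁) = 4 * C' / c₁ := by ring
      rw [g3] at g1
      nlinarith
    calc (L / 2 + 1) * (4 * (C' * Real.exp (-(c * L))) * L + 2 * Real.exp (-(2 * (k : ℝ))) * K1) ≤
        (L / 2 + 1) * (4 * (C' * Real.exp (-(4 * c₁ * L))) * L +
          2 * (Real.exp 2 * Real.exp (-(4 * c₁ * L))) * K1) := by gcongr
      _ = ((L / 2 + 1) * Real.exp (-(c₁ * L))) *
          ((4 * C' * L + 2 * Real.exp 2 * K1) * Real.exp (-(c₁ * L))) *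
          (Real.exp (-(c₁ * L)) * Real.exp (-(c₁ * L))) := by rw [e4]; ring
      _ ≤ (1 / (2 * c₁) + 1) * (4 * C' / c₁ + 2 * Real.exp 2 * K1) *
          (Real.exp (-(c₁ * L)) * 1) := by gcongr
      _ = (1 / (2 * c₁) + 1) * (4 * C' / c₁ + 2 * Real.exp 2 * K1) * Real.exp (-(c₁ * L)) := by
          rw [mul_one]
      _ ≤ C₀ * Real.exp (-(c₁ * L)) := by
          apply mul_le_mul_of_nonneg_right _ (Real.exp_pos _).le
          rw [hC₀]
          have : 0 ≤ K1 * Real.exp (c₁ * (16 * Real.exp 1 / R)) := by positivity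
          linarith

/-- **the one-sided gap theorem**: an integrable function with a spectral gap which has, on each of
the disjoint intervals `(a n, b n)`, one sign up to an exponentially small error, is zero if
`∑ ((b n - a n) / b n) ^ 2 = ∞` -/
theorem gap_one (hv : Integrable v) {η : ℝ} (hη : 0 < η)
    (h0 : ∀ ω : ℝ, |ω| < η → ∫ x, v x * Real.cos (2 * Real.pi * ω * x) = 0)
    (h1 : ∀ ω : ℝ, |ω| < η → ∫ x, v x * Real.sin (2 * Real.pi * ω * x) = 0)
    {a b : ℕ → ℝ} (ha : ∀ n, 0 < a n) (hab : ∀ n, a n < b n) (hd : ∀ n, b n ≤ a (n + 1))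
    {C' c : ℝ} (hC' : 0 ≤ C') (hc : 0 < c) {s : ℕ → ℝ} (hsg : ∀ n, s n = 1 ∨ s n = -1)
    (ho : ∀ n, ∀ᵐ x : ℝ, x ∈ Ioo (a n) (b n) → s n * v x ≤ C' * Real.exp (-(c * (b n - a n))))
    (hs : ¬ Summable fun n => ((b n - a n) / b n) ^ 2) : v =ᵐ[volume] 0 := by
  have hpi := Real.pi_pos
  obtain ⟨R, hR⟩ : ∃ R : ℝ, R = min 4 (2 * Real.pi * η) := ⟨_, rfl⟩
  have hR0 : 0 < R := by rw [hR]; exact lt_min (by norm_num) (by positivity)
  have hR4 : R ≤ 4 := by rw [hR]; exact min_le_left _ _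
  have hRη : R ≤ 2 * Real.pi * η := by rw [hR]; exact min_le_right _ _
  have hg : Gap v R := fun t ht => gap_of hv h0 h1 t (lt_of_lt_of_le ht hRη)
  obtain ⟨c₁, hc₁⟩ : ∃ c₁ : ℝ, c₁ = min c (R / 24) / 4 := ⟨_, rfl⟩
  obtain ⟨C₀, hC₀⟩ : ∃ C₀ : ℝ, C₀ = (1 / (2 * c₁) + 1) * (4 * C' / c₁ + 2 * Real.exp 2 * ∫ x, |v x|) +
      (∫ x, |v x|) * Real.exp (c₁ * (16 * Real.exp 1 / R)) := ⟨_, rfl⟩
  have hc₁0 : 0 < c₁ := by
    rw [hc₁]
    have : 0 < min c (R / 24) := lt_min hc (by positivity)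
    positivity
  have hK10 : 0 ≤ ∫ x, |v x| := integral_nonneg fun x => abs_nonneg _
  have hC₀0 : 0 ≤ C₀ := by rw [hC₀]; positivity
  have hmid : ∀ n, ∫ x in Ioo (a n + (b n - a n) / 4) (b n - (b n - a n) / 4), |v x| ≤
      C₀ * Real.exp (-(c₁ * (b n - a n))) := by
    intro n
    rcases hsg n with h | h
    · refine middle_pos hv hR0 hR4 hg hC' hc hc₁ hC₀ (hab n) ?_
      filter_upwards [ho n] with x hx hxm
      have := hx hxm
      rwa [h, one_mul] at this
    · have e : ∀ x, |v x| = |-v x| := fun x => (abs_neg _).symm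
      have e2 : ∫ x, |v x| = ∫ x, |-v x| := integral_congr_ae (ae_of_all _ e)
      rw [integral_congr_ae (ae_of_all _ e)]
      rw [e2] at hC₀
      refine middle_pos (v := fun x => -v x) hv.neg hR0 hR4 hg.neg hC' hc hc₁ hC₀ (hab n) ?_
      filter_upwards [ho n] with x hx hxm
      have := hx hxm
      rw [h] at this
      linarith
  refine gap_small (a := fun n => a n + (b n - a n) / 4) (b := fun n => b n - (b n - a n) / 4)
    hv hη h0 h1 (fun n => ?_) (fun n => ?_) (fun n => ?_) hC₀0 hc₁0 (fun n => ?_) ?_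
  · have := ha n; have := hab n
    show 0 < a n + (b n - a n) / 4
    linarith
  · have := hab n
    show a n + (b n - a n) / 4 < b n - (b n - a n) / 4
    linarith
  · have := hab n; have := hab (n + 1); have := hd n
    show b n - (b n - a n) / 4 ≤ a (n + 1) + (b (n + 1) - a (n + 1)) / 4
    linarith
  · refine (hmid n).trans ?_
    apply mul_le_mul_of_nonneg_left _ hC₀0
    apply Real.exp_le_exp.2
    show -(c₁ * (b n - a n)) ≤ -(c₁ * (b n - (b n - a n) / 4 - (a n + (b n - a n) / 4)))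
    have := hab n
    nlinarith
  · intro hcon
    apply hs
    refine Summable.of_nonneg_of_le (fun n => by positivity) (fun n => ?_) (hcon.mul_left 4)
    have h2 := ha n
    have h3 := hab n
    have hb : 0 < b n := h2.trans h3
    have hb2 : 0 < b n - (b n - a n) / 4 := by linarith
    show ((b n - a n) / b n) ^ 2 ≤
      4 * ((b n - (b n - a n) / 4 - (a n + (b n - a n) / 4)) / (b n - (b n - a n) / 4)) ^ 2
    have e1 : b n - (b n - a n) / 4 - (a n + (b n - a n) / 4) = (b n - a n) / 2 := by ring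
    rw [e1]
    have e2 : 4 * ((b n - a n) / 2 / (b n - (b n - a n) / 4)) ^ 2 =
        ((b n - a n) / (b n - (b n - a n) / 4)) ^ 2 := by
      field_simp
      ring
    rw [e2]
    have h4 : 0 < b n - a n := by linarith
    gcongr
    linarith

end Pool.Agent.X83.PC
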