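import Pool.Agent.X83.PC.Diag3

/-! # Montgomery's conjecture from one-sided bounds for distant pairs -/

set_option autoImplicit false

namespace Pool.Agent.X83.PC

open MeasureTheory Set Filter Topology
open Pool.Agent.Y749.Rig

/-- almost all zeros are on the critical line -/
def OnLine : Prop := ∀ η : ℝ, 0 < η → ∀ᶠ T : ℝ in atTop, NF T ≤ η * (T * Real.log T)

/-- lower bounds for distant pairs -/
def Lower : Prop := ∃ C c A : ℝ, 0 < c ∧ ∀ a : ℝ, A ≤ a → ∀ ε : ℝ, 0 < ε → ∀ᶠ T : ℝ in atTop,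
  ((∫ u in (0:ℝ)..a, FF u) - C * Real.exp (-(c * a)) - ε) * nT T ≤ (Nstar T a : ℝ)

/-- upper bounds for all pairs up to a large distance -/
def Upper : Prop := ∃ C c A : ℝ, 0 < c ∧ ∀ a : ℝ, A ≤ a → ∀ ε : ℝ, 0 < ε → ∀ᶠ T : ℝ in atTop,
  (Mp T).real (Icc (-a) a) ≤ 1 + 2 * (∫ u in (0:ℝ)..a, FF u) + C * Real.exp (-(c * a)) + ε

lemma lower_weak (h : Lower) : ∀ ε : ℝ, 0 < ε → ∃ A : ℝ, ∀ b : ℝ, A ≤ b → ∀ᶠ T : ℝ in atTop,
    (b - 1 / 2 - ε) * nT T ≤ (Nstar T b : ℝ) := by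
  obtain ⟨C, c, A, hc, hL⟩ := h
  intro ε hε
  have h1 : Tendsto (fun a : ℝ => C * Real.exp (-(c * a))) atTop (𝓝 0) := by
    have h2 : Tendsto (fun a : ℝ => c * a) atTop atTop := tendsto_id.const_mul_atTop hc
    have h3 := (Real.tendsto_exp_neg_atTop_nhds_zero.comp h2).const_mul C
    rw [mul_zero] at h3
    exact h3
  obtain ⟨A1, hA1⟩ := (h1.eventually (ge_mem_nhds (show 0 < ε / 2 by positivity))).exists_forall_of_atTop
  refine ⟨max (max A A1) 0, fun b hb => ?_⟩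
  have b1 : A ≤ b := ((le_max_left _ _).trans (le_max_left _ _)).trans hb
  have b2 : A1 ≤ b := ((le_max_right _ _).trans (le_max_left _ _)).trans hb
  have b3 : 0 ≤ b := (le_max_right _ _).trans hb
  filter_upwards [hL b b1 (ε / 2) (by positivity), eventually_ge_atTop 10] with T h4 h5
  refine le_trans (mul_le_mul_of_nonneg_right ?_ (nT_pos h5).le) h4
  have h6 := FF_int_lower b3
  have h7 := hA1 b b2
  linarith

lemma sy_ae (μ : Measure ℝ) [SFinite μ] {C : ℝ} (hb : Bdd C μ) :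
    ∀ᵐ x : ℝ, μ.real (Icc (-x) x) ≤ sy μ x := by
  filter_upwards [no_atom μ, ae_neg (no_atom μ)] with x h1 h2
  have hsub : Icc (-x) x ⊆ ({-x} ∪ {x}) ∪ Ioo (-x) x := by
    intro y hy
    rcases hy.1.eq_or_lt with h3 | h3
    · left; left; exact h3.symm
    · rcases hy.2.eq_or_lt with h4 | h4
      · left; right; exact h4
      · right; exact ⟨h3, h4⟩
  have hfin : μ (Ioo (-x) x) ≠ ⊤ :=
    ((measure_mono Ioo_subset_Icc_self).trans_lt (hb.lt_top _ _)).ne
  have hle : μ (Icc (-x) x) ≤ μ (Ioo (-x) x) := by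
    refine (measure_mono hsub).trans ((measure_union_le _ _).trans ?_)
    have : μ ({-x} ∪ {x}) ≤ 0 := by
      refine (measure_union_le _ _).trans ?_
      rw [h1, h2, add_zero]
    calc μ ({-x} ∪ {x}) + μ (Ioo (-x) x) ≤ 0 + μ (Ioo (-x) x) := by
          gcongr
      _ = _ := zero_add _
  exact ENNReal.toReal_mono hfin hle

lemma sy_le_icc {μ : Measure ℝ} {C : ℝ} (hb : Bdd C μ) (x : ℝ) : sy μ x ≤ μ.real (Icc (-x) x) :=
  measureReal_mono Ioo_subset_Icc_self (hb.lt_top _ _).ne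

/-- the limits at the test functions -/
lemma tests (hoff : OnLine) : ∃ κ : ℝ, 0 < κ ∧ ∀ U : Ultrafilter ℝ, (U : Filter ℝ) ≤ atTop →
    ∀ μ : Measure ℝ, (∀ f : ℝ → ℝ, Continuous f → QD f →
      Integrable f μ ∧ Tendsto (fun T => ∫ x, f x ∂(Mp T)) U (𝓝 (∫ x, f x ∂μ))) →
    ∀ ψ, Adm κ ψ → ∫ x, fl ψ x ∂mG = ∫ x, fl ψ x ∂μ := by
  obtain ⟨κ, hκ, hκ2, hblk⟩ := blk_main
  refine ⟨κ, hκ, fun U hU μ hμ ψ hψ => ?_⟩
  rw [mG_test hψ (by linarith)]
  exact (tendsto_nhds_unique (hμ _ (fl_cont hψ.int) (fl_qd hψ)).2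
    ((test_lim hψ (hblk ψ hψ hoff)).mono_left hU)).symm

theorem lower_sym (h : Lower) : SymLim := by
  have hoff : OnLine := all_on (lower_weak h)
  obtain ⟨κ, hκ, htest⟩ := tests hoff
  obtain ⟨C0, hC0, hB⟩ := Mp_bdd
  obtain ⟨C, c, A, hc, hL⟩ := h
  intro U hU μ hsf hμ
  have hsfG := mG_sf
  have b1 : Bdd (4 * C0) μ := bdd_limit hU (by linarith) hB hμ
  have b2 : Bdd (4 * C0) mG := fun a => (mG_bdd a).trans (ENNReal.ofReal_le_ofReal (by linarith))
  obtain ⟨C', hC'⟩ : ∃ C' : ℝ, C' = 2 * |C| := ⟨_, rfl⟩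
  have hC'0 : 0 ≤ C' := by rw [hC']; positivity
  have hkey : ∀ a : ℝ, A ≤ a → 0 ≤ a → mG.real (Icc (-a) a) - C' * Real.exp (-(c * a)) ≤
      μ.real (Icc (-a) a) := by
    intro a ha ha0
    refine lim_lower (by linarith) hB hU hμ fun ε hε => ?_
    apply hU
    filter_upwards [hL a ha (ε / 4) (by positivity), Mp_zero (show 0 < ε / 4 by positivity),
      Nstar_eq a, eventually_ge_atTop 10] with T h1 h2 h3 h4
    have hn := nT_pos h4
    rw [Mp_split h4 ha0, mG_sym ha0]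
    rw [h3, mul_comm (nT T)] at h1
    have h5 := le_of_mul_le_mul_right h1 hn
    have h6 : C * Real.exp (-(c * a)) ≤ |C| * Real.exp (-(c * a)) :=
      mul_le_mul_of_nonneg_right (le_abs_self C) (Real.exp_pos _).le
    rw [hC']
    linarith
  have hrig := cum_rig (C := 4 * C0) (by linarith) b2 b1 hκ (htest U hU μ hμ) hC'0 hc
    (A := max A 0) (by
      filter_upwards [sy_ae μ b1] with x hx hAx
      have h1 := hkey x ((le_max_left _ _).trans hAx) ((le_max_right _ _).trans hAx)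
      have h2 := sy_le_icc b2 x
      linarith)
  filter_upwards [hrig] with x hx h0 using (hx h0).symm

theorem upper_sym (hoff : OnLine) (h : Upper) : SymLim := by
  obtain ⟨κ, hκ, htest⟩ := tests hoff
  obtain ⟨C0, hC0, hB⟩ := Mp_bdd
  obtain ⟨C, c, A, hc, hL⟩ := h
  intro U hU μ hsf hμ
  have hsfG := mG_sf
  have b1 : Bdd (4 * C0) μ := bdd_limit hU (by linarith) hB hμ
  have b2 : Bdd (4 * C0) mG := fun a => (mG_bdd a).trans (ENNReal.ofReal_le_ofReal (by linarith))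
  have hkey : ∀ a : ℝ, A ≤ a → 0 ≤ a → sy μ a ≤ mG.real (Icc (-a) a) +
      |C| * Real.exp (-(c * a)) := by
    intro a ha ha0
    have := lim_upper (C := C0) (U := U) (μ := μ) (M := Mp) (by linarith) hB hU hμ (α := -a)
      (β := a) (K := mG.real (Icc (-a) a) + |C| * Real.exp (-(c * a))) fun ε hε => by
        apply hU
        filter_upwards [hL a ha ε hε] with T h1
        rw [mG_sym ha0]
        have h6 : C * Real.exp (-(c * a)) ≤ |C| * Real.exp (-(c * a)) :=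
          mul_le_mul_of_nonneg_right (le_abs_self C) (Real.exp_pos _).le
        linarith
    exact this
  refine cum_rig (C := 4 * C0) (by linarith) b1 b2 hκ
    (fun ψ hψ => (htest U hU μ hμ ψ hψ).symm) (abs_nonneg C) hc (A := max A 0) ?_
  filter_upwards [sy_ae mG b2] with x hx hAx
  have h1 := hkey x ((le_max_left _ _).trans hAx) ((le_max_right _ _).trans hAx)
  linarith

/-- Montgomery's conjecture -/
def Mont : Prop := ∀ a : ℝ, 0 < a →
  Tendsto (fun T => (Nstar T a : ℝ) / nT T) atTop (𝓝 (∫ u in (0:ℝ)..a, FF u))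

theorem mont_lower (h : Mont) : Lower := by
  refine ⟨0, 1, 1, one_pos, fun a ha ε hε => ?_⟩
  filter_upwards [(h a (by linarith)).eventually (lt_mem_nhds (show (∫ u in (0:ℝ)..a, FF u) - ε <
    ∫ u in (0:ℝ)..a, FF u by linarith)), eventually_ge_atTop 10] with T h1 h2
  rw [lt_div_iff₀ (nT_pos h2)] at h1
  rw [zero_mul, sub_zero]
  exact h1.le

theorem mont_iff_lower : Mont ↔ Lower :=
  ⟨mont_lower, fun h a ha => Nstar_lim (lower_sym h) ha⟩

theorem mont_sym (h : Mont) : SymLim := lower_sym (mont_lower h)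

theorem mont_online (h : Mont) : OnLine := all_on (lower_weak (mont_lower h))

theorem mont_iff_upper : Mont ↔ OnLine ∧ Upper := by
  refine ⟨fun h => ⟨mont_online h, 0, 1, 1, one_pos, fun a ha ε hε => ?_⟩,
    fun h a ha => Nstar_lim (upper_sym h.1 h.2) ha⟩
  filter_upwards [(sym_end (mont_sym h) (show 0 < a by linarith)).eventually
    (gt_mem_nhds (show 1 + 2 * (∫ u in (0:ℝ)..a, FF u) < 1 + 2 * (∫ u in (0:ℝ)..a, FF u) + ε by
      linarith))] with T h1
  rw [zero_mul, add_zero]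
  exact h1.le

end Pool.Agent.X83.PC
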