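import Pool.Agent.X83.PC.Win2

/-! # One-sided bounds on sparse sets of distances -/

set_option autoImplicit false

namespace Pool.Agent.X83.PC

open MeasureTheory Set Filter Topology
open Pool.Agent.Y749.Rig

/-- disjoint intervals which are not too sparse -/
structure Sparse (a b : ℕ → ℝ) : Prop where
  pos : ∀ n, 0 < a n
  lt : ∀ n, a n < b n
  dis : ∀ n, b n ≤ a (n + 1)
  div : ¬ Summable fun n => ((b n - a n) / b n) ^ 2

/-- one-sided bounds for windows of length `l` at distances in the intervals -/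
def OneWS (a b s : ℕ → ℝ) (l : ℝ) : Prop := ∃ C c : ℝ, 0 < c ∧ ∀ n : ℕ, ∀ α ∈ Ioo (a n) (b n),
  ∀ ε : ℝ, 0 < ε → ∀ᶠ T in atTop,
  s n * ((Mp T).real (Icc α (α + l)) - ∫ x in α..(α + l), FF x) ≤
    C * Real.exp (-(c * (b n - a n))) + ε

/-- one-sided bounds for the cumulative count at distances in the intervals -/
def SpOne (a b s : ℕ → ℝ) : Prop := ∃ C c : ℝ, 0 < c ∧ ∀ n : ℕ, ∀ x ∈ Ioo (a n) (b n),
  ∀ ε : ℝ, 0 < ε → ∀ᶠ T in atTop,
  s n * ((Mp T).real (Icc (-x) x) - (1 + 2 * ∫ u in (0:ℝ)..x, FF u)) ≤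
    C * Real.exp (-(c * (b n - a n))) + ε

theorem one_len_sp (hoff : OnLine) {a b : ℕ → ℝ} (hab : Sparse a b) {s : ℕ → ℝ}
    (hs : ∀ n, s n = 1 ∨ s n = -1) {l : ℝ} (hl : 0 < l) (ho : OneWS a b s l)
    (U : Ultrafilter ℝ) (hU : (U : Filter ℝ) ≤ atTop) (μ : Measure ℝ) [SFinite μ]
    (hμ : ∀ f : ℝ → ℝ, Continuous f → QD f →
      Integrable f μ ∧ Tendsto (fun T => ∫ x, f x ∂(Mp T)) U (𝓝 (∫ x, f x ∂μ))) :
    ∀ᵐ x : ℝ, wf μ (l / 2) x = wf mG (l / 2) x := by
  obtain ⟨κ, hκ, htest⟩ := tests hoff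
  obtain ⟨C0, hC0, hB⟩ := Mp_bdd
  obtain ⟨C, c, hc, ho⟩ := ho
  have hsfG := mG_sf
  have b1 : Bdd (4 * C0) μ := bdd_limit hU (by linarith) hB hμ
  have b2 : Bdd (4 * C0) mG := fun a => (mG_bdd a).trans (ENNReal.ofReal_le_ofReal (by linarith))
  have e1 : Ev μ := ev_limit hU (by
    filter_upwards [eventually_ge_atTop 10] with T hT using Mp_ev hT) hμ
  have hr : 0 < l / 2 := by positivity
  refine win_sparse (by linarith) b1 b2 e1 mG_ev hκ (fun ψ hψ => (htest U hU μ hμ ψ hψ).symm)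
    hab.pos hab.lt hab.dis hab.div hs (C' := |C|) (abs_nonneg C) hc hr ?_
  intro n
  have hCC : ∀ y : ℝ, C * Real.exp y ≤ |C| * Real.exp y := fun y =>
    mul_le_mul_of_nonneg_right (le_abs_self C) (Real.exp_pos _).le
  have hicc : ∀ᵐ x : ℝ, wf μ (l / 2) (x + l / 2) ≤ μ.real (Ioo x (x + l)) := by
    filter_upwards [no_atom μ, ae_shift (no_atom μ) l] with x h1 h2
    unfold wf
    rw [show x + l / 2 - l / 2 = x by ring, show x + l / 2 + l / 2 = x + l by ring]
    have hsub : Icc x (x + l) ⊆ ({x} ∪ {x + l}) ∪ Ioo x (x + l) := by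
      intro y hy
      rcases hy.1.eq_or_lt with h3 | h3
      · left; left; exact h3.symm
      · rcases hy.2.eq_or_lt with h4 | h4
        · left; right; exact h4
        · right; exact ⟨h3, h4⟩
    have hfin : μ (Ioo x (x + l)) ≠ ⊤ :=
      ((measure_mono Ioo_subset_Icc_self).trans_lt (b1.lt_top _ _)).ne
    have hle : μ (Icc x (x + l)) ≤ μ (Ioo x (x + l)) := by
      refine (measure_mono hsub).trans ((measure_union_le _ _).trans ?_)
      have : μ ({x} ∪ {x + l}) ≤ 0 := by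
        refine (measure_union_le _ _).trans ?_
        rw [h1, h2, add_zero]
      calc μ ({x} ∪ {x + l}) + μ (Ioo x (x + l)) ≤ 0 + μ (Ioo x (x + l)) := by gcongr
        _ = _ := zero_add _
    exact ENNReal.toReal_mono hfin hle
  have hG : ∀ x : ℝ, 0 < x → wf mG (l / 2) (x + l / 2) = ∫ u in x..(x + l), FF u := by
    intro x hx
    unfold wf
    rw [show x + l / 2 - l / 2 = x by ring, show x + l / 2 + l / 2 = x + l by ring]
    exact mG_real hx (by linarith)
  filter_upwards [hicc] with x hx hxm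
  have hx0 : 0 < x := (hab.pos n).trans hxm.1
  rw [hG x hx0]
  rcases hs n with h | h
  · rw [h, one_mul]
    have h1 := lim_upper (C := C0) (U := U) (μ := μ) (M := Mp) (by linarith) hB hU hμ (α := x)
      (β := x + l) (K := (∫ u in x..(x + l), FF u) + |C| * Real.exp (-(c * (b n - a n))))
      fun ε hε => by
        apply hU
        filter_upwards [ho n x hxm ε hε] with T h1
        rw [h, one_mul] at h1
        have := hCC (-(c * (b n - a n)))
        linarith
    linarith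
  · rw [h]
    have h1 := lim_lower (C := C0) (U := U) (μ := μ) (M := Mp) (by linarith) hB hU hμ (α := x)
      (β := x + l) (K := (∫ u in x..(x + l), FF u) - |C| * Real.exp (-(c * (b n - a n))))
      fun ε hε => by
        apply hU
        filter_upwards [ho n x hxm ε hε] with T h1
        rw [h] at h1
        have := hCC (-(c * (b n - a n)))
        linarith
    have h2 : μ.real (Icc x (x + l)) = wf μ (l / 2) (x + l / 2) := by
      unfold wf
      rw [show x + l / 2 - l / 2 = x by ring, show x + l / 2 + l / 2 = x + l by ring]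
    rw [h2] at h1
    linarith

theorem montWS {l₁ l₂ : ℝ} (hl₁ : 0 < l₁) (hl₂ : 0 < l₂)
    (hir : Irrational (l₁ / l₂)) {a₁ b₁ s₁ a₂ b₂ s₂ : ℕ → ℝ} (hab₁ : Sparse a₁ b₁)
    (hab₂ : Sparse a₂ b₂) (hs₁ : ∀ n, s₁ n = 1 ∨ s₁ n = -1) (hs₂ : ∀ n, s₂ n = 1 ∨ s₂ n = -1)
    (hoff : OnLine) (h1 : OneWS a₁ b₁ s₁ l₁) (h2 : OneWS a₂ b₂ s₂ l₂) : MontW := by
  intro α β hα hαβ
  obtain ⟨C0, hC0, hB⟩ := Mp_bdd
  rw [tendsto_iff_ultrafilter]
  intro U hU
  obtain ⟨μ, hsf, hμ⟩ := exists_limit (by linarith : 0 ≤ C0) hB U hU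
  have b1 : Bdd (4 * C0) μ := bdd_limit hU (by linarith) hB hμ
  have hsfG := mG_sf
  have b2 : Bdd (4 * C0) mG := fun a => (mG_bdd a).trans (ENNReal.ofReal_le_ofReal (by linarith))
  have w1 := one_len_sp hoff hab₁ hs₁ hl₁ h1 U hU μ hμ
  have w2 := one_len_sp hoff hab₂ hs₂ hl₂ h2 U hU μ hμ
  have hir2 : Irrational (l₁ / 2 / (l₂ / 2)) := by
    rwa [div_div_div_cancel_right₀ two_ne_zero]
  exact fam_end hC0 hB hU hμ (fun b hb => two_len b1 b2 (by positivity) (by positivity)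
    hir2 w1 w2 hb) hα hαβ

/-- the conjecture gives the bounds for windows -/
theorem montW_oneWS (h : MontW) {a b s : ℕ → ℝ} (hab : Sparse a b)
    (hs : ∀ n, s n = 1 ∨ s n = -1) {l : ℝ} (hl : 0 < l) : OneWS a b s l := by
  refine ⟨0, 1, one_pos, fun n α hα ε hε => ?_⟩
  have h0 : 0 < α := (hab.pos n).trans hα.1
  have h1 := (h α (α + l) h0 (by linarith)).sub_const (∫ x in α..(α + l), FF x)
  rw [sub_self] at h1
  have h2 := h1.const_mul (s n)
  rw [mul_zero] at h2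
  filter_upwards [h2.eventually (gt_mem_nhds hε)] with T hT
  rw [zero_mul, zero_add]
  exact hT.le

/-- **windows of two lengths, sparse distances, arbitrary signs** -/
theorem montWS_iff {l₁ l₂ : ℝ} (hl₁ : 0 < l₁) (hl₂ : 0 < l₂)
    (hir : Irrational (l₁ / l₂)) {a₁ b₁ s₁ a₂ b₂ s₂ : ℕ → ℝ} (hab₁ : Sparse a₁ b₁)
    (hab₂ : Sparse a₂ b₂) (hs₁ : ∀ n, s₁ n = 1 ∨ s₁ n = -1) (hs₂ : ∀ n, s₂ n = 1 ∨ s₂ n = -1) :
    MontW ↔ OnLine ∧ OneWS a₁ b₁ s₁ l₁ ∧ OneWS a₂ b₂ s₂ l₂ :=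
  ⟨fun h => ⟨montW_online h, montW_oneWS h hab₁ hs₁ hl₁, montW_oneWS h hab₂ hs₂ hl₂⟩,
    fun h => montWS hl₁ hl₂ hir hab₁ hab₂ hs₁ hs₂ h.1 h.2.1 h.2.2⟩

/-! ### the cumulative count -/

theorem sp_sym (hoff : OnLine) {a b : ℕ → ℝ} (hab : Sparse a b) {s : ℕ → ℝ}
    (hs : ∀ n, s n = 1 ∨ s n = -1) (ho : SpOne a b s) : SymLim := by
  obtain ⟨κ, hκ, htest⟩ := tests hoff
  obtain ⟨C0, hC0, hB⟩ := Mp_bdd
  obtain ⟨C, c, hc, ho⟩ := ho
  intro U hU μ hsf hμ
  have hsfG := mG_sf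
  have b1 : Bdd (4 * C0) μ := bdd_limit hU (by linarith) hB hμ
  have b2 : Bdd (4 * C0) mG := fun a => (mG_bdd a).trans (ENNReal.ofReal_le_ofReal (by linarith))
  have hCC : ∀ y : ℝ, C * Real.exp y ≤ |C| * Real.exp y := fun y =>
    mul_le_mul_of_nonneg_right (le_abs_self C) (Real.exp_pos _).le
  refine cum_sparse (by linarith) b1 b2 hκ (fun ψ hψ => (htest U hU μ hμ ψ hψ).symm)
    hab.pos hab.lt hab.dis hab.div hs (C' := |C|) (abs_nonneg C) hc ?_
  intro n
  filter_upwards [sy_ae μ b1, sy_ae mG b2] with x hx1 hx2 hxm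
  have hx0 : 0 < x := (hab.pos n).trans hxm.1
  rcases hs n with h | h
  · rw [h, one_mul]
    have h1 := lim_upper (C := C0) (U := U) (μ := μ) (M := Mp) (by linarith) hB hU hμ (α := -x)
      (β := x) (K := (1 + 2 * ∫ u in (0:ℝ)..x, FF u) + |C| * Real.exp (-(c * (b n - a n))))
      fun ε hε => by
        apply hU
        filter_upwards [ho n x hxm ε hε] with T h1
        rw [h, one_mul] at h1
        have := hCC (-(c * (b n - a n)))
        linarith
    rw [mG_sym hx0.le] at hx2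
    have h2 : sy μ x = μ.real (Ioo (-x) x) := rfl
    linarith
  · rw [h]
    have h1 := lim_lower (C := C0) (U := U) (μ := μ) (M := Mp) (by linarith) hB hU hμ (α := -x)
      (β := x) (K := (1 + 2 * ∫ u in (0:ℝ)..x, FF u) - |C| * Real.exp (-(c * (b n - a n))))
      fun ε hε => by
        apply hU
        filter_upwards [ho n x hxm ε hε] with T h1
        rw [h] at h1
        have := hCC (-(c * (b n - a n)))
        linarith
    have h3 := sy_le_icc b2 x
    rw [mG_sym hx0.le] at h3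
    linarith

/-- from the symmetric limits to the windows -/
theorem sym_montW (h : SymLim) : MontW := by
  intro α β hα hαβ
  have hβ : 0 < β := hα.trans hαβ
  obtain ⟨C, hC, hB⟩ := Mp_bdd
  rw [Metric.tendsto_nhds]
  intro ε hε
  obtain ⟨δ, hδ⟩ : ∃ δ : ℝ, δ = min (α / 2) (ε / 4) := ⟨_, rfl⟩
  have hδ0 : 0 < δ := by rw [hδ]; exact lt_min (by positivity) (by positivity)
  have hδ1 : δ ≤ α / 2 := by rw [hδ]; exact min_le_left _ _
  have hδ2 : δ ≤ ε / 4 := by rw [hδ]; exact min_le_right _ _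
  have h1 := half_end h hβ
  have h2 := half_end h hα
  have h3 := half_end h (show 0 < α - δ by linarith)
  have i1 := intervalIntegral.integral_add_adjacent_intervals (FF_ii 0 α) (FF_ii α β)
  have i2 := intervalIntegral.integral_add_adjacent_intervals (FF_ii 0 (α - δ)) (FF_ii (α - δ) α)
  have i3 : ∫ u in (α - δ)..α, FF u ≤ δ := by
    calc ∫ u in (α - δ)..α, FF u ≤ ∫ u in (α - δ)..α, (1 : ℝ) :=
          intervalIntegral.integral_mono_on (by linarith) (FF_ii _ _) (by simp)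
            fun x _ => FF_le_one x
      _ = δ := by simp
  filter_upwards [Metric.tendsto_nhds.1 h1 (ε / 4) (by positivity),
    Metric.tendsto_nhds.1 h2 (ε / 4) (by positivity),
    Metric.tendsto_nhds.1 h3 (ε / 4) (by positivity)] with T t1 t2 t3
  rw [Real.dist_eq, abs_lt] at t1 t2 t3
  have hf := Mp_fin T
  have u1 : (Mp T).real (Ioc 0 α) + (Mp T).real (Ioc α β) = (Mp T).real (Ioc 0 β) := by
    rw [← measureReal_union (Ioc_disjoint_Ioc_of_le le_rfl) measurableSet_Ioc,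
      Ioc_union_Ioc_eq_Ioc hα.le hαβ.le]
  have u2 : (Mp T).real (Ioc 0 (α - δ)) + (Mp T).real (Ioc (α - δ) β) = (Mp T).real (Ioc 0 β) := by
    rw [← measureReal_union (Ioc_disjoint_Ioc_of_le le_rfl) measurableSet_Ioc,
      Ioc_union_Ioc_eq_Ioc (by linarith) (by linarith)]
  have u3 : (Mp T).real (Ioc α β) ≤ (Mp T).real (Icc α β) := measureReal_mono Ioc_subset_Icc_self
  have u4 : (Mp T).real (Icc α β) ≤ (Mp T).real (Ioc (α - δ) β) :=
    measureReal_mono fun x hx => ⟨by linarith [hx.1], hx.2⟩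
  rw [Real.dist_eq, abs_lt]
  constructor <;> linarith

theorem mont_montW (h : Mont) : MontW := sym_montW (mont_sym h)

theorem montW_sym_end (h : MontW) {x : ℝ} (hx : 0 < x) :
    Tendsto (fun T => (Mp T).real (Icc (-x) x)) atTop (𝓝 (1 + 2 * ∫ u in (0:ℝ)..x, FF u)) :=
  sym_end (mont_sym (montW_mont h)) hx

/-- **the cumulative count, sparse distances, arbitrary signs** -/
theorem montW_iff_sp {a b s : ℕ → ℝ} (hab : Sparse a b) (hs : ∀ n, s n = 1 ∨ s n = -1) :
    MontW ↔ OnLine ∧ SpOne a b s := by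
  refine ⟨fun h => ⟨montW_online h, 0, 1, one_pos, fun n x hx ε hε => ?_⟩,
    fun h => sym_montW (sp_sym h.1 hab hs h.2)⟩
  have h0 : 0 < x := (hab.pos n).trans hx.1
  have h1 := (montW_sym_end h h0).sub_const (1 + 2 * ∫ u in (0:ℝ)..x, FF u)
  rw [sub_self] at h1
  have h2 := h1.const_mul (s n)
  rw [mul_zero] at h2
  filter_upwards [h2.eventually (gt_mem_nhds hε)] with T hT
  rw [zero_mul, zero_add]
  exact hT.le

end Pool.Agent.X83.PC
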