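import Pool.Agent.X83.PC.Sp
import Pool.Agent.X83.PC.Diag6

/-! # Lower bounds on a sparse set of distances decide the conjecture, unconditionally -/

set_option autoImplicit false

namespace Pool.Agent.X83.PC

open MeasureTheory Set Filter Topology
open Pool.Agent.Y749.Rig

lemma sq_alg {u w : ℝ} (hu : 0 < u) (huw : u ≤ w) (h : w ^ 2 - u ^ 2 ≤ w) :
    (w ^ 2 - u ^ 2) ^ 2 / (w ^ 2) ^ 2 ≤ 2 * (1 / u - 1 / w) := by
  have hw : 0 < w := hu.trans_le huw
  have e1 : 2 * (1 / u - 1 / w) = 2 * (w - u) / (u * w) := by field_simp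
  have k2 : 0 ≤ w - u := by linarith
  have k3 : 0 ≤ w ^ 2 - u ^ 2 := by nlinarith
  rw [e1, div_le_div_iff₀ (by positivity) (by positivity)]
  have k1 : (w ^ 2 - u ^ 2) ^ 2 ≤ w * (w ^ 2 - u ^ 2) := by nlinarith
  calc (w ^ 2 - u ^ 2) ^ 2 * (u * w) ≤ (w * (w ^ 2 - u ^ 2)) * (u * w) := by gcongr
    _ = (w - u) * ((w + u) * u * w ^ 2) := by ring
    _ ≤ (w - u) * (2 * w ^ 2 * w ^ 2) := by
        apply mul_le_mul_of_nonneg_left _ k2
        apply mul_le_mul_of_nonneg_right _ (sq_nonneg w)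
        nlinarith
    _ = 2 * (w - u) * (w ^ 2) ^ 2 := by ring

/-- infinitely many of the intervals are long -/
lemma Sparse.long {a b : ℕ → ℝ} (h : Sparse a b) {L : ℝ} (hL : 0 < L) :
    ∃ n, L ≤ b n - a n ∧ Real.sqrt (b n) ≤ b n - a n := by
  by_contra hcon
  push Not at hcon
  apply h.div
  have h1 := short_sum h.pos h.lt h.dis hL
  have h2 : Summable fun n => 2 * (1 / Real.sqrt (a n) - 1 / Real.sqrt (a (n + 1))) := by
    apply Summable.mul_left
    refine summable_of_sum_range_le (c := 1 / Real.sqrt (a 0)) (fun n => ?_) fun N => ?_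
    · have h3 : Real.sqrt (a n) ≤ Real.sqrt (a (n + 1)) :=
        Real.sqrt_le_sqrt ((h.lt n).le.trans (h.dis n))
      have h4 : 0 < Real.sqrt (a n) := Real.sqrt_pos.2 (h.pos n)
      have := one_div_le_one_div_of_le h4 h3
      linarith
    · rw [Finset.sum_range_sub' (fun n => 1 / Real.sqrt (a n))]
      have : 0 ≤ 1 / Real.sqrt (a N) := by positivity
      linarith
  refine Summable.of_nonneg_of_le (fun n => by positivity) (fun n => ?_) (h1.add h2)
  have ha := h.pos n
  have hab := h.lt n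
  have hd := h.dis n
  have hb : 0 < b n := ha.trans hab
  have g1 : 0 ≤ (if b n - a n < L then ((b n - a n) / b n) ^ 2 else 0) := by
    split_ifs <;> positivity
  have sa : 0 < Real.sqrt (a n) := Real.sqrt_pos.2 ha
  have sb : 0 < Real.sqrt (b n) := Real.sqrt_pos.2 hb
  have qa : Real.sqrt (a n) ^ 2 = a n := Real.sq_sqrt ha.le
  have qb : Real.sqrt (b n) ^ 2 = b n := Real.sq_sqrt hb.le
  have sab : Real.sqrt (a n) ≤ Real.sqrt (b n) := Real.sqrt_le_sqrt hab.le
  have g2 : 1 / Real.sqrt (a n) - 1 / Real.sqrt (b n) ≤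
      1 / Real.sqrt (a n) - 1 / Real.sqrt (a (n + 1)) := by
    have := one_div_le_one_div_of_le sb (Real.sqrt_le_sqrt hd)
    linarith
  rcases lt_or_ge (b n - a n) L with g | g
  · rw [if_pos g]
    have g3 : 0 ≤ 1 / Real.sqrt (a n) - 1 / Real.sqrt (b n) := by
      have := one_div_le_one_div_of_le sa sab
      linarith
    linarith
  · have g4 := hcon n g
    rw [if_neg (not_lt.2 g), zero_add]
    refine le_trans ?_ (mul_le_mul_of_nonneg_left g2 (by norm_num))
    have g7 := sq_alg sa sab (by rw [qa, qb]; exact g4.le)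
    rw [qa, qb] at g7
    rw [div_pow]
    exact g7

lemma log_sqrt_lim {ε : ℝ} (hε : 0 < ε) : ∀ᶠ q : ℝ in atTop,
    Real.log (1 + q) + 1 ≤ ε * Real.sqrt q := by
  have h1 := Real.tendsto_pow_log_div_mul_add_atTop 1 0 1 one_ne_zero
  have h2 : Tendsto (fun q : ℝ => Real.sqrt (1 + q)) atTop atTop :=
    Real.tendsto_sqrt_atTop.comp (tendsto_atTop_add_const_left _ _ tendsto_id)
  have h3 := h1.comp h2
  have h4 : ∀ᶠ q : ℝ in atTop, Real.log (Real.sqrt (1 + q)) / Real.sqrt (1 + q) < ε / 8 := by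
    filter_upwards [h3.eventually (gt_mem_nhds (show 0 < ε / 8 by positivity))] with q hq
    simpa using hq
  filter_upwards [h4, h2.eventually_ge_atTop (4 / ε), eventually_ge_atTop 1] with q h5 h6 h7
  have h8 : 0 < Real.sqrt (1 + q) := Real.sqrt_pos.2 (by linarith)
  rw [div_lt_iff₀ h8, Real.log_sqrt (by linarith)] at h5
  rw [div_le_iff₀ hε] at h6
  have h9 : Real.sqrt (1 + q) ≤ 2 * Real.sqrt q := by
    rw [Real.sqrt_le_left (by positivity), mul_pow, Real.sq_sqrt (by linarith)]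
    linarith
  nlinarith

/-- lower bounds on the intervals -/
def SpLow (a b : ℕ → ℝ) : Prop := ∃ C c : ℝ, 0 < c ∧ ∀ n : ℕ, ∀ x ∈ Ioo (a n) (b n),
  ∀ ε : ℝ, 0 < ε → ∀ᶠ T : ℝ in atTop,
  ((∫ u in (0:ℝ)..x, FF u) - C * Real.exp (-(c * (b n - a n))) - ε) * nT T ≤ (Nstar T x : ℝ)

theorem splow_diag {a b : ℕ → ℝ} (hab : Sparse a b) (h : SpLow a b) {ε : ℝ} (hε : 0 < ε) :
    ∀ᶠ T : ℝ in atTop, (DS 0 T : ℝ) ≤ (1 + ε) * nT T := by
  obtain ⟨C, c, hc, hL⟩ := h
  refine diag_up2 ?_ hε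
  intro e he
  have h1 : Tendsto (fun a : ℝ => C * Real.exp (-(c * a))) atTop (𝓝 0) := by
    have h2 : Tendsto (fun a : ℝ => c * a) atTop atTop := tendsto_id.const_mul_atTop hc
    have h3 := (Real.tendsto_exp_neg_atTop_nhds_zero.comp h2).const_mul C
    rw [mul_zero] at h3
    exact h3
  obtain ⟨L, hL1, hL2⟩ := ((eventually_gt_atTop (0:ℝ)).and
    (((h1.eventually (ge_mem_nhds (show 0 < e / 2 by positivity))).and
      (log_sqrt_lim he)).exists_forall_of_atTop.choose_spec |> fun h => eventually_atTop.2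
        ⟨_, fun b hb => fun c hc => h c (hb.trans hc)⟩)).exists
  obtain ⟨n, hn1, hn2⟩ := hab.long hL1
  have ha := hab.pos n
  have hlt := hab.lt n
  have g1 := (hL2 (b n - a n) hn1).1
  have g2 := (hL2 (b n) (by linarith)).2
  refine ⟨a n, b n, ha, hlt, ?_, fun x hx1 hx2 => ?_⟩
  · refine g2.trans ?_
    exact mul_le_mul_of_nonneg_left hn2 he.le
  · filter_upwards [hL n x ⟨hx1, hx2⟩ (e / 2) (by positivity), eventually_ge_atTop 10] with T h4 h5
    refine le_trans (mul_le_mul_of_nonneg_right ?_ (nT_pos h5).le) h4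
    have h6 := FF_int_lower (b := x) (by linarith)
    linarith

theorem splow_online {a b : ℕ → ℝ} (hab : Sparse a b) (h : SpLow a b) : OnLine :=
  online_of_diag fun _ hε => splow_diag hab h hε

/-- **lower bounds on a sparse set of distances decide the conjecture** -/
theorem mont_iff_splow {a b : ℕ → ℝ} (hab : Sparse a b) : Mont ↔ SpLow a b := by
  constructor
  · intro h
    refine ⟨0, 1, one_pos, fun n x hx ε hε => ?_⟩
    have hx0 : 0 < x := (hab.pos n).trans hx.1
    filter_upwards [(h x hx0).eventually (lt_mem_nhds (show (∫ u in (0:ℝ)..x, FF u) - ε <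
      ∫ u in (0:ℝ)..x, FF u by linarith)), eventually_ge_atTop 10] with T h1 h2
    rw [lt_div_iff₀ (nT_pos h2)] at h1
    rw [zero_mul, sub_zero]
    exact h1.le
  · intro h
    have hoff := splow_online hab h
    obtain ⟨C, c, hc, hL⟩ := h
    refine montW_mont ((montW_iff_sp hab (s := fun _ => -1) fun _ => Or.inr rfl).2
      ⟨hoff, 2 * C, c, hc, fun n x hx ε hε => ?_⟩)
    have hx0 : 0 < x := (hab.pos n).trans hx.1
    filter_upwards [hL n x hx (ε / 4) (by positivity), Mp_zero (show 0 < ε / 4 by positivity),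
      Nstar_eq x, eventually_ge_atTop 10] with T h1 h2 h3 h4
    have hn := nT_pos h4
    rw [Mp_split h4 hx0.le]
    rw [h3, mul_comm (nT T)] at h1
    have h5 := le_of_mul_le_mul_right h1 hn
    linarith

end Pool.Agent.X83.PC
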