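import Pool.Agent.X83.PC.Main1

/-! # Windows: the form of the conjecture with two parameters -/

set_option autoImplicit false

namespace Pool.Agent.X83.PC

open MeasureTheory Set Filter Topology
open Pool.Agent.Y749.Rig

/-- the number of ordered pairs of ordinates in `[0, T]` with scaled difference in `[α, β]` -/
noncomputable def Nw (T α β : ℝ) : ℕ :=
  ∑ᶠ p ∈ {p : ℂ × ℂ | (p.1 ∈ NZ ∧ 0 ≤ p.1.im ∧ p.1.im ≤ T) ∧ (p.2 ∈ NZ ∧ 0 ≤ p.2.im ∧ p.2.im ≤ T) ∧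
    (p.1.im - p.2.im) * Real.log T / (2 * Real.pi) ∈ Icc α β}, zmult p.1 * zmult p.2

lemma Nw_eq {T : ℝ} (hT : 10 ≤ T) (α β : ℝ) :
    (Nw T α β : ℝ) = nT T * (Mp T).real (Icc α β) := by
  classical
  have hn := nT_pos hT
  rw [Mp_real hT measurableSet_Icc]
  have e : nT T * (RR ((Icc α β).indicator fun _ => 1) (ZZ T) (ZZ T) (Real.log T) / nT T) =
      RR ((Icc α β).indicator fun _ => 1) (ZZ T) (ZZ T) (Real.log T) := by field_simp
  rw [e]
  have hset : {p : ℂ × ℂ | (p.1 ∈ NZ ∧ 0 ≤ p.1.im ∧ p.1.im ≤ T) ∧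
      (p.2 ∈ NZ ∧ 0 ≤ p.2.im ∧ p.2.im ≤ T) ∧
      (p.1.im - p.2.im) * Real.log T / (2 * Real.pi) ∈ Icc α β} =
      ((ZZ T ×ˢ ZZ T).filter (fun p : ℂ × ℂ =>
        (p.1.im - p.2.im) * Real.log T / (2 * Real.pi) ∈ Icc α β) : Finset (ℂ × ℂ)) := by
    ext p
    rw [Finset.mem_coe, Finset.mem_filter, Finset.mem_product, mem_ZZ, mem_ZZ]
    constructor
    · rintro ⟨⟨h1, h2, h3⟩, ⟨h4, h5, h6⟩, h7⟩
      exact ⟨⟨⟨h1.1, h1.2.1, h1.2.2, h2, h3⟩, ⟨h4.1, h4.2.1, h4.2.2, h5, h6⟩⟩, h7⟩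
    · rintro ⟨⟨h1, h2⟩, h7⟩
      exact ⟨⟨⟨h1.1, h1.2.1, h1.2.2.1⟩, h1.2.2.2.1, h1.2.2.2.2⟩,
        ⟨⟨h2.1, h2.2.1, h2.2.2.1⟩, h2.2.2.2.1, h2.2.2.2.2⟩, h7⟩
  unfold Nw
  rw [hset, finsum_mem_coe_finset, Finset.sum_filter, Finset.sum_product]
  unfold RR
  push_cast
  refine Finset.sum_congr rfl fun s _ => Finset.sum_congr rfl fun s' _ => ?_
  by_cases hc : (s.im - s'.im) * Real.log T / (2 * Real.pi) ∈ Icc α β
  · rw [if_pos hc, indicator_of_mem hc, mul_one]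
    rfl
  · rw [if_neg hc, indicator_of_notMem hc, mul_zero]

/-- the conjecture for windows -/
def MontW : Prop := ∀ α β : ℝ, 0 < α → α < β →
  Tendsto (fun T => (Mp T).real (Icc α β)) atTop (𝓝 (∫ u in α..β, FF u))

/-- the windows decide the conjecture -/
theorem montW_mont (h : MontW) : Mont := by
  rw [mont_iff_lower]
  refine ⟨0, 1, 1, one_pos, fun a ha ε hε => ?_⟩
  obtain ⟨δ, hδ⟩ : ∃ δ : ℝ, δ = min (1 / 2) (ε / 4) := ⟨_, rfl⟩
  have hδ0 : 0 < δ := by rw [hδ]; exact lt_min (by norm_num) (by positivity)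
  have hδ1 : δ ≤ 1 / 2 := by rw [hδ]; exact min_le_left _ _
  have hδ2 : δ ≤ ε / 4 := by rw [hδ]; exact min_le_right _ _
  have h1 := h δ a hδ0 (by linarith)
  have h2 := FF_int_lip (a := 0) (b := δ) hδ0.le
  rw [intervalIntegral.integral_same] at h2
  have h3 := intervalIntegral.integral_add_adjacent_intervals (FF_ii 0 δ) (FF_ii δ a)
  obtain ⟨C, hC, hB⟩ := Mp_bdd
  filter_upwards [h1.eventually (lt_mem_nhds (show (∫ u in δ..a, FF u) - ε / 2 <
    ∫ u in δ..a, FF u by linarith)), eventually_ge_atTop 10, Nstar_eq a, hB] with T h4 h5 h6 h7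
  have hn := nT_pos h5
  rw [h6, mul_comm (nT T)]
  refine mul_le_mul_of_nonneg_right ?_ hn.le
  have h8 : (Mp T).real (Icc δ a) ≤ (Mp T).real (Ioc 0 a) := by
    have hf := Mp_fin T
    refine measureReal_mono ?_
    intro x hx
    exact ⟨lt_of_lt_of_le hδ0 hx.1, hx.2⟩
  rw [zero_mul, sub_zero]
  linarith

/-- windows of limits of the measures -/
lemma rigid_windows {M : ℝ → Measure ℝ} {C : ℝ} (hC : 2 ≤ C) (hM : ∀ᶠ T in atTop, Bdd C (M T))
    (hE : ∀ᶠ T in atTop, Ev (M T)) {κ : ℝ} (hκ : 0 < κ) (hκ1 : κ ≤ 1)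
    (ht : ∀ ψ, Adm κ ψ → Tendsto (fun T => ∫ x, fl ψ x ∂(M T)) atTop (𝓝 (cc ψ)))
    {l₁ l₂ : ℝ} (hl₁ : 0 < l₁) (hl₂ : 0 < l₂) (hir : Irrational (l₁ / l₂))
    (ho : ∀ l : ℝ, (l = l₁ ∨ l = l₂) → ∃ s C' c A : ℝ, (s = 1 ∨ s = -1) ∧ 0 < c ∧
      ∀ α : ℝ, A ≤ α → ∀ ε : ℝ, 0 < ε → ∀ᶠ T in atTop,
      s * ((M T).real (Icc α (α + l)) - ∫ x in α..(α + l), FF x) ≤
        C' * Real.exp (-(c * α)) + ε) :
    ∀ α β : ℝ, 0 < α → α < β →
      Tendsto (fun T => (M T).real (Icc α β)) atTop (𝓝 (∫ x in α..β, FF x)) := by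
  obtain ⟨s₁, C₁, c₁, A₁, hs₁, hc₁, ho₁⟩ := ho l₁ (Or.inl rfl)
  obtain ⟨s₂, C₂, c₂, A₂, hs₂, hc₂, ho₂⟩ := ho l₂ (Or.inr rfl)
  obtain ⟨c, hc⟩ : ∃ c : ℝ, c = min c₁ c₂ := ⟨_, rfl⟩
  have hc0 : 0 < c := by rw [hc]; exact lt_min hc₁ hc₂
  obtain ⟨A, hA⟩ : ∃ A : ℝ, A = max 0 (max A₁ A₂) := ⟨_, rfl⟩
  have hA0 : 0 ≤ A := by rw [hA]; exact le_max_left _ _
  obtain ⟨L, hL⟩ : ∃ L : ℝ, L = max l₁ l₂ := ⟨_, rfl⟩
  obtain ⟨C', hC'⟩ : ∃ C' : ℝ, C' = |C₁| + |C₂| + (L + 2) * C * Real.exp (c * A) := ⟨_, rfl⟩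
  have hL0 : 0 < L := by rw [hL]; exact lt_max_of_lt_left hl₁
  have hC'0 : 0 ≤ C' := by rw [hC']; positivity
  have key : ∀ (l s C1 c1 A1 : ℝ), 0 < l → l ≤ L → (s = 1 ∨ s = -1) → c ≤ c1 → A1 ≤ A →
      |C1| ≤ |C₁| + |C₂| →
      (∀ α : ℝ, A1 ≤ α → ∀ ε : ℝ, 0 < ε → ∀ᶠ T in atTop,
      s * ((M T).real (Icc α (α + l)) - ∫ x in α..(α + l), FF x) ≤
        C1 * Real.exp (-(c1 * α)) + ε) →
      ((∀ α : ℝ, 0 < α → ∀ ε : ℝ, 0 < ε → ∀ᶠ T in atTop,
      (M T).real (Icc α (α + l)) ≤ (∫ x in α..(α + l), FF x) + C' * Real.exp (-(c * α)) + ε) ∨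
      (∀ α : ℝ, 0 < α → ∀ ε : ℝ, 0 < ε → ∀ᶠ T in atTop,
      (∫ x in α..(α + l), FF x) - C' * Real.exp (-(c * α)) - ε ≤ (M T).real (Icc α (α + l)))) := by
    intro l s C1 c1 A1 hl hlL hs hcc hAA hCC hyp
    have hfar : ∀ α : ℝ, 0 < α → A ≤ α → ∀ ε : ℝ, 0 < ε → ∀ᶠ T in atTop,
        s * ((M T).real (Icc α (α + l)) - ∫ x in α..(α + l), FF x) ≤
        C' * Real.exp (-(c * α)) + ε := by
      intro α h0 hα ε hε
      filter_upwards [hyp α (hAA.trans hα) ε hε] with T hT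
      refine hT.trans ?_
      have e1 : C1 * Real.exp (-(c1 * α)) ≤ |C1| * Real.exp (-(c1 * α)) :=
        mul_le_mul_of_nonneg_right (le_abs_self _) (Real.exp_pos _).le
      have e2 : Real.exp (-(c1 * α)) ≤ Real.exp (-(c * α)) := by
        apply Real.exp_le_exp.2
        have := mul_le_mul_of_nonneg_right hcc h0.le
        linarith
      have e3 : |C1| * Real.exp (-(c1 * α)) ≤ C' * Real.exp (-(c * α)) := by
        refine mul_le_mul ?_ e2 (Real.exp_pos _).le hC'0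
        rw [hC']
        have : 0 ≤ (L + 2) * C * Real.exp (c * A) := by positivity
        linarith
      linarith
    have hbig : ∀ α : ℝ, 0 < α → α < A → (L + 2) * C ≤ C' * Real.exp (-(c * α)) := by
      intro α h0 hα
      have e1 : (L + 2) * C * Real.exp (c * A) ≤ C' := by
        rw [hC']
        have := abs_nonneg C₁
        have := abs_nonneg C₂
        linarith
      have e2 : 1 ≤ Real.exp (c * A) * Real.exp (-(c * α)) := by
        rw [← Real.exp_add]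
        apply Real.one_le_exp
        nlinarith
      calc (L + 2) * C ≤ (L + 2) * C * (Real.exp (c * A) * Real.exp (-(c * α))) :=
            le_mul_of_one_le_right (by positivity) e2
        _ = (L + 2) * C * Real.exp (c * A) * Real.exp (-(c * α)) := by ring
        _ ≤ C' * Real.exp (-(c * α)) := by gcongr
    have hFl : ∀ α : ℝ, ∫ x in α..(α + l), FF x ≤ l := by
      intro α
      calc ∫ x in α..(α + l), FF x ≤ ∫ x in α..(α + l), (1 : ℝ) :=
            intervalIntegral.integral_mono_on (by linarith) (FF_ii _ _) (by simp)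
              fun x _ => FF_le_one x
        _ = l := by simp
    have hF0 : ∀ α : ℝ, 0 ≤ ∫ x in α..(α + l), FF x := fun α =>
      intervalIntegral.integral_nonneg (by linarith) fun x _ => FF_nonneg x
    rcases hs with hs | hs
    · left
      intro α h0 ε hε
      rcases le_or_gt A α with g | g
      · filter_upwards [hfar α h0 g ε hε] with T hT
        rw [hs, one_mul] at hT
        linarith
      · filter_upwards [hM] with T hT
        have h1 := hT.real_le (by linarith) (α + l / 2) (b := l / 2) ⌈l⌉₊ (by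
          have := Nat.le_ceil l
          linarith)
        rw [show α + l / 2 - l / 2 = α by ring, show α + l / 2 + l / 2 = α + l by ring] at h1
        have h2 : ((⌈l⌉₊ : ℕ) : ℝ) ≤ l + 1 := (Nat.ceil_lt_add_one hl.le).le
        have h3 := hbig α h0 g
        have h4 := hF0 α
        have h5 : ((⌈l⌉₊ : ℕ) + 1 : ℝ) * C ≤ (L + 2) * C := by
          apply mul_le_mul_of_nonneg_right _ (by linarith)
          linarith
        linarith
    · right
      intro α h0 ε hε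
      rcases le_or_gt A α with g | g
      · filter_upwards [hfar α h0 g ε hε] with T hT
        rw [hs] at hT
        linarith
      · filter_upwards with T
        have h1 : 0 ≤ (M T).real (Icc α (α + l)) := measureReal_nonneg
        have h3 := hbig α h0 g
        have h4 := hFl α
        have h5 : L ≤ (L + 2) * C := by nlinarith
        linarith
  refine rigid2 hC hM hE hκ hκ1 ht hC'0 hc0 hl₁ hl₂ hir ?_
  intro l hl
  rcases hl with hl | hl
  · rw [hl]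
    exact key l₁ s₁ C₁ c₁ A₁ hl₁ (by rw [hL]; exact le_max_left _ _) hs₁
      (by rw [hc]; exact min_le_left _ _)
      (by rw [hA]; exact (le_max_left _ _).trans (le_max_right _ _))
      (by linarith [abs_nonneg C₂]) ho₁
  · rw [hl]
    exact key l₂ s₂ C₂ c₂ A₂ hl₂ (by rw [hL]; exact le_max_right _ _) hs₂
      (by rw [hc]; exact min_le_right _ _)
      (by rw [hA]; exact (le_max_right _ _).trans (le_max_right _ _))
      (by linarith [abs_nonneg C₁]) ho₂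

/-- the one-sided bound for windows of length `l` with the sign `s` -/
def OneW (l s : ℝ) : Prop := ∃ C c A : ℝ, 0 < c ∧ ∀ α : ℝ, A ≤ α → ∀ ε : ℝ, 0 < ε → ∀ᶠ T in atTop,
  s * ((Mp T).real (Icc α (α + l)) - ∫ x in α..(α + l), FF x) ≤ C * Real.exp (-(c * α)) + ε

theorem win_rig (hoff : OnLine) {l₁ l₂ s₁ s₂ : ℝ} (hl₁ : 0 < l₁) (hl₂ : 0 < l₂)
    (hir : Irrational (l₁ / l₂)) (hs₁ : s₁ = 1 ∨ s₁ = -1) (hs₂ : s₂ = 1 ∨ s₂ = -1)
    (h1 : OneW l₁ s₁) (h2 : OneW l₂ s₂) : MontW := by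
  obtain ⟨κ, hκ, hκ2, hblk⟩ := blk_main
  obtain ⟨C0, hC0, hB⟩ := Mp_bdd
  refine rigid_windows hC0 hB ?_ hκ (by linarith)
    (fun ψ hψ => test_lim hψ (hblk ψ hψ hoff)) hl₁ hl₂ hir ?_
  · filter_upwards [eventually_ge_atTop 10] with T hT using Mp_ev hT
  · intro l hl
    rcases hl with hl | hl
    · obtain ⟨C, c, A, hc, h⟩ := h1
      exact ⟨s₁, C, c, A, hs₁, hc, by rw [hl]; exact h⟩
    · obtain ⟨C, c, A, hc, h⟩ := h2
      exact ⟨s₂, C, c, A, hs₂, hc, by rw [hl]; exact h⟩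

theorem montW_one (h : MontW) {l s : ℝ} (hl : 0 < l) (hs : s = 1 ∨ s = -1) : OneW l s := by
  refine ⟨0, 1, 1, one_pos, fun α hα ε hε => ?_⟩
  have h1 := (h α (α + l) (by linarith) (by linarith)).sub_const (∫ x in α..(α + l), FF x)
  rw [sub_self] at h1
  have h2 := h1.const_mul s
  rw [mul_zero] at h2
  filter_upwards [h2.eventually (gt_mem_nhds hε)] with T hT
  rw [zero_mul, zero_add]
  exact hT.le

theorem montW_online (h : MontW) : OnLine := mont_online (montW_mont h)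

/-- one-sided bounds for windows of two lengths -/
theorem montW_iff {l₁ l₂ s₁ s₂ : ℝ} (hl₁ : 0 < l₁) (hl₂ : 0 < l₂)
    (hir : Irrational (l₁ / l₂)) (hs₁ : s₁ = 1 ∨ s₁ = -1) (hs₂ : s₂ = 1 ∨ s₂ = -1) :
    MontW ↔ OnLine ∧ OneW l₁ s₁ ∧ OneW l₂ s₂ :=
  ⟨fun h => ⟨montW_online h, montW_one h hl₁ hs₁, montW_one h hl₂ hs₂⟩,
    fun h => win_rig h.1 hl₁ hl₂ hir hs₁ hs₂ h.2.1 h.2.2⟩

end Pool.Agent.X83.PC
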