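import Pool.Agent.X83.PC.Cum4
import Pool.Agent.X83.PC.Win

/-! # Sparse one-sided rigidity for windows -/

set_option autoImplicit false

open MeasureTheory Set Filter Topology

namespace Pool.Agent.X83.PC

open Pool.Agent.Y749.Rig

variable {C : ℝ}

/-- the weighted difference of the windows has a spectral gap -/
theorem win_v {μ₁ μ₂ : Measure ℝ} [SFinite μ₁] [SFinite μ₂] (hC : 0 ≤ C) (h1 : Bdd C μ₁)
    (h2 : Bdd C μ₂) (e1 : Ev μ₁) (e2 : Ev μ₂) {κ : ℝ} (hκ : 0 < κ)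
    (ht : ∀ ψ, Adm κ ψ → ∫ x, fl ψ x ∂μ₁ = ∫ x, fl ψ x ∂μ₂) {b : ℝ} (hb : 0 < b) :
    ∃ v : ℝ → ℝ, (∀ x, v x = (wf μ₁ b x - wf μ₂ b x) * fl (tr (κ / 2)) x) ∧ Integrable v ∧
      (∀ ω : ℝ, |ω| < κ / 2 → ∫ x, v x * Real.cos (2 * Real.pi * ω * x) = 0) ∧
      (∀ ω : ℝ, ∫ x, v x * Real.sin (2 * Real.pi * ω * x) = 0) := by
  have hh : 0 < κ / 2 := by positivity
  have hk := adm_tr hh
  obtain ⟨B, hB⟩ := fl_bound hk
  have hB0 : 0 ≤ B := by
    have := (abs_nonneg _).trans (hB 0)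
    simpa using this
  have hkB : ∀ x, fl (tr (κ / 2)) x ≤ B := by
    intro x
    refine (le_abs_self _).trans ((hB x).trans ?_)
    apply div_le_self hB0
    nlinarith [sq_nonneg x]
  obtain ⟨R, hR⟩ : ∃ R : ℝ, R = ((⌈2 * b⌉₊ : ℕ) + 1) * C := ⟨_, rfl⟩
  have hR0 : 0 ≤ R := by rw [hR]; positivity
  have hu : ∀ x, |wf μ₁ b x - wf μ₂ b x| ≤ R := by
    intro x
    rw [abs_le]
    have a1 := wf_le hC h1 b x
    have a2 := wf_le hC h2 b x
    have a3 := wf_nonneg (μ := μ₁) b x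
    have a4 := wf_nonneg (μ := μ₂) b x
    rw [← hR] at a1 a2
    constructor <;> linarith
  have hum : Measurable fun x => wf μ₁ b x - wf μ₂ b x := (wf_meas b).sub (wf_meas b)
  obtain ⟨v, hv⟩ : ∃ v : ℝ → ℝ, ∀ x, v x = (wf μ₁ b x - wf μ₂ b x) * fl (tr (κ / 2)) x :=
    ⟨_, fun x => rfl⟩
  have hv' : v = fun x => (wf μ₁ b x - wf μ₂ b x) * fl (tr (κ / 2)) x := funext hv
  have hvi : Integrable v := by
    rw [hv']
    refine (fl_int hk).bdd_mul (c := R) hum.aestronglyMeasurable (ae_of_all _ fun x => ?_)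
    exact hu x
  have hve : ∀ x, v (-x) = v x := by
    intro x
    rw [hv, hv, wf_even hC h1 e1, wf_even hC h2 e2, fl_even]
  refine ⟨v, hv, hvi, ?_, ?_⟩
  · intro ω hω
    obtain ⟨ψ, hψ⟩ : ∃ ψ, ψ = modu ω (tr (κ / 2)) := ⟨_, rfl⟩
    have hA : Adm κ ψ := by
      rw [hψ]
      exact (adm_modu hk ω).mono (by linarith)
    have hW := adm_win hA hb.le
    have e3 : ∀ x, v x * Real.cos (2 * Real.pi * ω * x) =
        wf μ₁ b x * fl ψ x - wf μ₂ b x * fl ψ x := by
      intro x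
      rw [hv, hψ, fl_modu hk]; ring
    have hi : ∀ {μ : Measure ℝ} [SFinite μ], Bdd C μ → Integrable fun x => wf μ b x * fl ψ x := by
      intro μ _ hμ
      refine (fl_int hA).bdd_mul (c := R) (wf_meas b).aestronglyMeasurable
        (ae_of_all _ fun x => ?_)
      rw [Real.norm_eq_abs, abs_of_nonneg (wf_nonneg _ _), hR]
      exact wf_le hC hμ b x
    simp_rw [e3]
    rw [integral_sub (hi h1) (hi h2), wf_fubini hC h1 hb.le (fl_cont hA.int) (fl_qd hA),
      wf_fubini hC h2 hb.le (fl_cont hA.int) (fl_qd hA)]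
    simp_rw [← fl_win hA hb.le]
    rw [ht _ hW, sub_self]
  · intro ω
    apply int_zero_of_odd
    intro x
    rw [hve, mul_neg, Real.sin_neg]; ring

/-- **sparse one-sided rigidity for windows of one length** -/
theorem win_sparse {μ₁ μ₂ : Measure ℝ} [SFinite μ₁] [SFinite μ₂] (hC : 0 ≤ C) (h1 : Bdd C μ₁)
    (h2 : Bdd C μ₂) (e1 : Ev μ₁) (e2 : Ev μ₂) {κ : ℝ} (hκ : 0 < κ)
    (ht : ∀ ψ, Adm κ ψ → ∫ x, fl ψ x ∂μ₁ = ∫ x, fl ψ x ∂μ₂)
    {a b : ℕ → ℝ} (ha : ∀ n, 0 < a n) (hab : ∀ n, a n < b n) (hd : ∀ n, b n ≤ a (n + 1))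
    (hs : ¬ Summable fun n => ((b n - a n) / b n) ^ 2)
    {s : ℕ → ℝ} (hsg : ∀ n, s n = 1 ∨ s n = -1) {C' c : ℝ} (hC' : 0 ≤ C') (hc : 0 < c)
    {r : ℝ} (hr : 0 < r)
    (ho : ∀ n, ∀ᵐ x : ℝ, x ∈ Ioo (a n) (b n) →
      s n * (wf μ₁ r (x + r) - wf μ₂ r (x + r)) ≤ C' * Real.exp (-(c * (b n - a n)))) :
    ∀ᵐ x : ℝ, wf μ₁ r x = wf μ₂ r x := by
  obtain ⟨v, hv, hvi, hcos, hsin⟩ := win_v hC h1 h2 e1 e2 hκ ht hr
  have hh : 0 < κ / 2 := by positivity
  have hb0 : ∀ n, 0 < b n := fun n => (ha n).trans (hab n)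
  have hz : v =ᵐ[volume] 0 := by
    refine gap_one (a := fun n => a n + r) (b := fun n => b n + r) hvi hh hcos (fun ω _ => hsin ω)
      (fun n => ?_) (fun n => ?_) (fun n => ?_) (C' := C') hC' hc hsg (fun n => ?_) ?_
    · have := ha n
      show 0 < a n + r
      linarith
    · have := hab n
      show a n + r < b n + r
      linarith
    · have := hd n
      show b n + r ≤ a (n + 1) + r
      linarith
    · filter_upwards [ae_shift (ho n) (-r)] with x hx hxm
      have hx1 : x + -r ∈ Ioo (a n) (b n) := ⟨by linarith [hxm.1], by linarith [hxm.2]⟩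
      have h3 := hx hx1
      rw [show x + -r + r = x by ring] at h3
      have h4 := fl_tr_nonneg hh x
      have h5 := fl_tr_le_one hh x
      have e : b n + r - (a n + r) = b n - a n := by ring
      rw [hv]
      show s n * ((wf μ₁ r x - wf μ₂ r x) * fl (tr (κ / 2)) x) ≤
        C' * Real.exp (-(c * (b n + r - (a n + r))))
      rw [e]
      calc s n * ((wf μ₁ r x - wf μ₂ r x) * fl (tr (κ / 2)) x) =
          (s n * (wf μ₁ r x - wf μ₂ r x)) * fl (tr (κ / 2)) x := by ring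
        _ ≤ (C' * Real.exp (-(c * (b n - a n)))) * fl (tr (κ / 2)) x :=
            mul_le_mul_of_nonneg_right h3 h4
        _ ≤ (C' * Real.exp (-(c * (b n - a n)))) * 1 := by gcongr
        _ = _ := mul_one _
    · intro hcon
      apply hs
      obtain ⟨q, hq⟩ : ∃ q : ℝ, q = (1 + r / b 0) ^ 2 := ⟨_, rfl⟩
      have hbm : ∀ n, b 0 ≤ b n := by
        intro n
        rcases Nat.eq_zero_or_pos n with h | h
        · rw [h]
        · have := dis hab hd h
          linarith [hab n]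
      refine Summable.of_nonneg_of_le (fun n => by positivity) (fun n => ?_) (hcon.mul_left q)
      have h0 := hb0 0
      have hn := hb0 n
      have h3 : 0 < b n - a n := by linarith [hab n]
      have h4 : b n + r ≤ b n * (1 + r / b 0) := by
        have : r ≤ b n * (r / b 0) := by
          rw [mul_div_assoc', le_div_iff₀ h0]
          nlinarith [hbm n]
        linarith
      have h5 : (b n - a n) / b n ≤ (1 + r / b 0) * ((b n - a n) / (b n + r)) := by
        rw [mul_div_assoc', div_le_div_iff₀ hn (by linarith)]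
        nlinarith
      show ((b n - a n) / b n) ^ 2 ≤ q * ((b n + r - (a n + r)) / (b n + r)) ^ 2
      have e : b n + r - (a n + r) = b n - a n := by ring
      rw [e, hq, ← mul_pow]
      exact pow_le_pow_left₀ (by positivity) h5 2
  filter_upwards [hz, fl_tr_ne hh] with x hx hx2
  rw [hv] at hx
  have := (mul_eq_zero.1 hx).resolve_right hx2
  linarith

end Pool.Agent.X83.PC
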